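import Mathlib
import Pool.Agent.TH125.Gal.Pub2

/-!
# Algebraic values of flat classes: definitions

In the intended use `S` is a smooth connected complex variety, `k` is its function field, the
varieties of the class `𝒱` are the generic fibres of smooth projective families `X` over `S`, and
`W.H X` is the cohomology of the fibre of the family over a base point of `S`, with its cycle classes
of the relative cycles, and with coefficients in a field `W.K` which contains the 2-adic numbers. The
group `Γ` is the fundamental group of `S`. A class `c` in `W.H X` fixed by a subgroup of finite index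
of `Γ` is a global section of the local system over a finite covering of `S`. For a point `s` of the
covering the property `A s` says that the value of the section in `s` is algebraic, that is, a linear
combination (with coefficients in `W.K`) of classes of algebraic cycles on the fibre over `s`.
-/

open CategoryTheory AlgebraicGeometry

universe u

namespace Pool.Agent.N171.TG.Vh

section Alg

variable {K : Type} [Field K] {A : Type} [Ring A] [Algebra K A] {B : Type} [Ring B] [Algebra K B]
  {Γ : Type} [Group Γ]

/-- The elements with the property `p` form a subspace of the subspace `T`. -/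
structure IsSubspace (T : Submodule K A) (p : A → Prop) : Prop where
  mem : ∀ c, p c → c ∈ T
  zero : p 0
  add : ∀ c d, p c → p d → p (c + d)
  smul : ∀ (r : K) c, p c → p (r • c)

/-- The products of elements with the property `p` and elements with the property `q` have the
property `r`. -/
def HasProducts (p q r : A → Prop) : Prop := ∀ c d, p c → q d → r (c * d)

/-- The algebra homomorphism `f` maps elements with the property `p` to elements with the property
`q`. -/
def Preserves (f : A →ₐ[K] B) (p : A → Prop) (q : B → Prop) : Prop := ∀ c, p c → q (f c)

/-- The linear map `f` maps elements with the property `p` to elements with the property `q`. -/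
def PreservesLin (f : A →ₗ[K] B) (p : A → Prop) (q : B → Prop) : Prop := ∀ c, p c → q (f c)

/-- The element `c` is fixed by a subgroup of finite index. -/
def IsFlat (υ : Γ →* (A ≃ₐ[K] A)) (c : A) : Prop :=
  ∃ Δ : Subgroup Γ, Δ.FiniteIndex ∧ ∀ g ∈ Δ, υ g c = c

/-- All elements of `gr (2 * j)` which are fixed by a subgroup of finite index are linear combinations
of elements of `C j`, for all `j`. -/
def FixedInSpan (gr : ℕ → Submodule K A) (C : ℕ → Set A) (υ : Γ →* (A ≃ₐ[K] A)) : Prop :=
  ∀ j, ∀ c ∈ gr (2 * j), IsFlat υ c → c ∈ Submodule.span K (C j)

end Alg

open Pool.Agent.TH125.Gal Pool.Agent.H914 Pool.Agent.H914.VarClass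
  Pool.Agent.H914.VarClass.Obj Pool.Agent.H914.WeilCohomology Pool.Agent.H281R3.HT

variable {k : Type u} [Field k] {𝒱 : VarClass k} {ops : CycleOps 𝒱}

/-- A property `P` of cohomology classes: `P X j c` is meant for classes `c` of degree `2 j` on `X`. -/
abbrev Property (W : WeilCohomology.{u, 0} ops) : Type (u + 1) := ∀ X : 𝒱.Obj, ℕ → W.H X → Prop

variable {W : WeilCohomology.{u, 0} ops} {Γ : Type} [Group Γ]

/-- The classes with the property `P` form a system of classes: they are in `H^(2 j)`, they contain
the classes of the algebraic cycles, and they are stable under linear combinations, products,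
pull-backs and push-forwards. -/
structure IsClassSystem (P : Property W) : Prop where
  sub : ∀ X j, IsSubspace (W.gr X (2 * j)) (P X j)
  cl : ∀ X j, ∀ c ∈ algClasses W X j, P X j c
  mul : ∀ X i j, HasProducts (P X i) (P X j) (P X (i + j))
  map : ∀ X Y (f : X ⟶ Y) j, Preserves (W.map f) (P Y j) (P X j)
  push : ∀ X Y (f : X ⟶ Y) i j, i + Y.dim = j + X.dim → PreservesLin (W.push f) (P X i) (P Y j)

/-- The variational Hodge conjecture for `V`: let `c` be a class on `V` which is fixed by a subgroup
of finite index. If `c` is algebraic in the point `s`, then `c` is algebraic in all points `t`. -/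
def VariationalHodge {S : Type} (A : S → Property W) (V : GVar W Γ) : Prop :=
  ∀ j c, IsFlat V.act c → ∀ s t, A s V.X j c → A t V.X j c

/-- All classes of even degree on `V` which are fixed by a subgroup of finite index are linear
combinations of classes of (relative) algebraic cycles. -/
def FlatAlgebraic (V : GVar W Γ) : Prop := FixedInSpan (W.gr V.X) (algClasses W V.X) V.act

/-- `V` is a product of `n + 1` factors `A`, with an action on the cohomology which is compatible
with the projections. -/
inductive IsPower (A : GVar W Γ) : ℕ → GVar W Γ → Prop
  | one : IsPower A 0 A
  | succ (n : ℕ) (B C : GVar W Γ) : IsPower A n B → IsProdVar A B C → IsPower A (n + 1) C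

/-- `V` is the product `X i₁ ^ (n₁ + 1) × (X i₂ ^ (n₂ + 1) × (⋯ × Z))` for the list of the `(i, n)`,
with an action on the cohomology which is compatible with the projections. -/
inductive IsTower {ι : Type} (X : ι → GVar W Γ) (Z : GVar W Γ) : List (ι × ℕ) → GVar W Γ → Prop
  | base : IsTower X Z [] Z
  | step (i : ι) (n : ℕ) (L : List (ι × ℕ)) (B V C : GVar W Γ) : IsPower (X i) n B →
      IsTower X Z L V → IsProdVar B V C → IsTower X Z ((i, n) :: L) C

end Pool.Agent.N171.TG.Vh
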