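import Mathlib
import Pool.Agent.V11219.SstStd
import Pool.Agent.N171.Ht6
import Pool.Agent.TH132.A.Split
import Pool.Agent.N171.TG.VhPub

/-!
# Algebraic values of flat classes: systems of classes
-/

open CategoryTheory AlgebraicGeometry Finset Function

set_option linter.unusedSectionVars false
set_option linter.unusedVariables false

namespace Pool.Agent.N171.TG.Vh

universe u

open Pool.Agent.TH125.Gal Pool.Agent.TH118.SG Pool.Agent.V11219.IsoF Pool.Agent.V11219.Loc
  Pool.Agent.V11219.Quad Pool.Agent.N171.Ht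

open Pool.Agent.H914 Pool.Agent.H914.VarClass Pool.Agent.H914.VarClass.Obj
  Pool.Agent.H914.WeilCohomology Pool.Agent.H281R3.HT Pool.Agent.W552 Pool.Agent.H447

variable {k : Type u} [Field k] {𝒱 : VarClass k} {ops : CycleOps 𝒱}
  {W : WeilCohomology.{u, 0} ops} {Γ : Type} [Group Γ] {χ : Γ →* W.Kˣ} {G : Set (GVar W Γ)}

theorem IsClassSystem.gr {P : Property W} (h : IsClassSystem P) (X : 𝒱.Obj) (j : ℕ) (c : W.H X)
    (hc : P X j c) : c ∈ W.gr X (2 * j) := (h.sub X j).mem c hc

theorem IsClassSystem.zero {P : Property W} (h : IsClassSystem P) (X : 𝒱.Obj) (j : ℕ) :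
    P X j 0 := (h.sub X j).zero

theorem IsClassSystem.add {P : Property W} (h : IsClassSystem P) (X : 𝒱.Obj) (j : ℕ)
    (c d : W.H X) (hc : P X j c) (hd : P X j d) : P X j (c + d) := (h.sub X j).add c d hc hd

theorem IsClassSystem.smul {P : Property W} (h : IsClassSystem P) (X : 𝒱.Obj) (j : ℕ) (r : W.K)
    (c : W.H X) (hc : P X j c) : P X j (r • c) := (h.sub X j).smul r c hc

/-- Sums of classes of all degrees with the property. -/
def PS (P : Property W) (X : 𝒱.Obj) : Submodule W.K (W.H X) :=
  Submodule.span W.K {c | ∃ j, P X j c}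

section PS

variable {P : Property W} {X Y : 𝒱.Obj}

theorem ps_of {j : ℕ} {c : W.H X} (h : P X j c) : c ∈ PS P X :=
  Submodule.subset_span ⟨j, h⟩

theorem ps_as (hP : IsClassSystem P) {c : W.H X} (h : W552.AS W X c) : c ∈ PS P X := by
  refine W552.AS.ind (p := fun c => c ∈ PS P X) ?_ ?_ h
  · intro j x hx
    exact ps_of (hP.cl X j x hx)
  · intro x y hx hy
    exact Submodule.add_mem _ hx hy

theorem ps_mul (hP : IsClassSystem P) {c d : W.H X} (hc : c ∈ PS P X) (hd : d ∈ PS P X) :
    c * d ∈ PS P X := by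
  induction hc using Submodule.span_induction with
  | mem c hc =>
    obtain ⟨i, hc⟩ := hc
    induction hd using Submodule.span_induction with
    | mem d hd =>
      obtain ⟨j, hd⟩ := hd
      exact ps_of (hP.mul X i j c d hc hd)
    | zero => rw [mul_zero]; exact Submodule.zero_mem _
    | add x y _ _ hx hy => rw [mul_add]; exact Submodule.add_mem _ hx hy
    | smul r x _ hx => rw [mul_smul_comm]; exact Submodule.smul_mem _ _ hx
  | zero => rw [zero_mul]; exact Submodule.zero_mem _
  | add x y _ _ hx hy => rw [add_mul]; exact Submodule.add_mem _ hx hy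
  | smul r x _ hx => rw [smul_mul_assoc]; exact Submodule.smul_mem _ _ hx

theorem ps_map (hP : IsClassSystem P) (f : X ⟶ Y) {c : W.H Y} (hc : c ∈ PS P Y) :
    W.map f c ∈ PS P X := by
  induction hc using Submodule.span_induction with
  | mem c hc =>
    obtain ⟨i, hc⟩ := hc
    exact ps_of (hP.map X Y f i c hc)
  | zero => rw [map_zero]; exact Submodule.zero_mem _
  | add x y _ _ hx hy => rw [map_add]; exact Submodule.add_mem _ hx hy
  | smul r x _ hx => rw [map_smul]; exact Submodule.smul_mem _ _ hx

theorem ps_push (hP : IsClassSystem P) (f : X ⟶ Y) {c : W.H X} (hc : c ∈ PS P X) :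
    W.push f c ∈ PS P Y := by
  induction hc using Submodule.span_induction with
  | mem c hc =>
    obtain ⟨i, hc⟩ := hc
    by_cases hj : X.dim ≤ i + Y.dim
    · exact ps_of (hP.push X Y f i (i + Y.dim - X.dim) (by omega) c hc)
    · have h1 := W.push_mem f (hP.gr X i c hc)
      rw [grZ_of_neg (by push_cast; omega)] at h1
      rw [(Submodule.mem_bot _).1 h1]
      exact Submodule.zero_mem _
  | zero => rw [map_zero]; exact Submodule.zero_mem _
  | add x y _ _ hx hy => rw [map_add]; exact Submodule.add_mem _ hx hy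
  | smul r x _ hx => rw [map_smul]; exact Submodule.smul_mem _ _ hx

theorem ps_ext (hP : IsClassSystem P) {a : W.H X} (ha : W552.AS W X a) {b : W.H Y}
    (hb : b ∈ PS P Y) : H281R3.HT.ext W a b ∈ PS P (X.prod Y) :=
  ps_mul hP (ps_map hP _ (ps_as hP ha)) (ps_map hP _ hb)

theorem ps_coef (hP : IsClassSystem P) {b : W.H X} (hb : W552.AS W X b) {z : W.H (X.prod Y)}
    (hz : z ∈ PS P (X.prod Y)) : TH132.A.coef W b z ∈ PS P Y :=
  ps_push hP _ (ps_mul hP hz (ps_map hP _ (ps_as hP hb)))

theorem ps_proj (hP : IsClassSystem P) {c : W.H X} (hc : c ∈ PS P X) (j : ℕ) :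
    P X j (H914.proj (W.isInternal X) (2 * j) c) := by
  induction hc using Submodule.span_induction with
  | mem c hc =>
    obtain ⟨i, hc⟩ := hc
    by_cases hij : i = j
    · subst hij
      rw [proj_same _ (hP.gr X i c hc)]
      exact hc
    · rw [proj_ne _ (hP.gr X i c hc) (by omega)]
      exact hP.zero X j
  | zero => rw [map_zero]; exact hP.zero X j
  | add x y _ _ hx hy => rw [map_add]; exact hP.add X j _ _ hx hy
  | smul r x _ hx => rw [map_smul]; exact hP.smul X j r _ hx

theorem ps_odd (hP : IsClassSystem P) {c : W.H X} (hc : c ∈ PS P X) (j : ℕ) :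
    H914.proj (W.isInternal X) (2 * j + 1) c = 0 := by
  induction hc using Submodule.span_induction with
  | mem c hc =>
    obtain ⟨i, hc⟩ := hc
    exact proj_ne _ (hP.gr X i c hc) (by omega)
  | zero => rw [map_zero]
  | add x y _ _ hx hy => rw [map_add, hx, hy, add_zero]
  | smul r x _ hx => rw [map_smul, hx, smul_zero]

end PS

/-- the projection to the components of the grading commutes with the action -/
theorem act_proj {A : GVar W Γ} (hA : IsGalois W χ A.X A.act) (g : Γ) (l : ℕ) (c : W.H A.X) :
    A.act g (H914.proj (W.isInternal A.X) l c) = H914.proj (W.isInternal A.X) l (A.act g c) := by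
  refine gr_induction (W.isInternal A.X) (p := fun c =>
    A.act g (H914.proj (W.isInternal A.X) l c) =
      H914.proj (W.isInternal A.X) l (A.act g c)) ?_ ?_ c
  · intro i a ha
    by_cases hi : i = l
    · subst hi
      rw [proj_same _ ha, proj_same _ (hA.gr_mem g i a ha)]
    · rw [proj_ne _ ha hi, proj_ne _ (hA.gr_mem g i a ha) hi, map_zero]
  · intro a b ha hb
    simp only [map_add, ha, hb]

/-- The conjecture for the sums of classes of all degrees. -/
def VH' {S : Type} (A : S → Property W) (V : GVar W Γ) : Prop :=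
  ∀ c, IsFlat V.act c → ∀ s t, c ∈ PS (A s) V.X → c ∈ PS (A t) V.X

theorem vh_iff {S : Type} {A : S → Property W} (hA : ∀ s, IsClassSystem (A s)) {V : GVar W Γ}
    (hV : IsGalois W χ V.X V.act) : VariationalHodge A V ↔ VH' A V := by
  constructor
  · intro h c hc s t hs
    obtain ⟨Δ, hΔ, hc⟩ := hc
    have hsum : ∑ l ∈ range (2 * V.X.dim + 1), H914.proj (W.isInternal V.X) l c = c := by
      have := sum_proj (W.isInternal V.X) (N := 2 * V.X.dim + 1)
        (fun i hi => W.gr_eq_bot V.X i (by omega))
      have h2 := congrArg (fun F => F c) this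
      simpa [LinearMap.sum_apply] using h2
    rw [← hsum]
    refine Submodule.sum_mem _ fun l _ => ?_
    rcases Nat.even_or_odd' l with ⟨j, rfl | rfl⟩
    · refine ps_of (h j _ ⟨Δ, hΔ, fun g hg => ?_⟩ s t (ps_proj (hA s) hs j))
      rw [act_proj hV, hc g hg]
    · rw [ps_odd (hA s) hs j]
      exact Submodule.zero_mem _
  · intro h j c hc s t hs
    have h1 := ps_proj (hA t) (h c hc s t (ps_of hs)) j
    rwa [proj_same _ ((hA s).gr _ j c hs)] at h1

theorem vh_triv {S : Type} {A : S → Property W} (hA : ∀ s, IsClassSystem (A s)) {V : GVar W Γ}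
    (h : (1 : W.H V.X) = 0) : VH' A V := by
  intro c _ s t _
  rw [← mul_one c, h, mul_zero]
  exact Submodule.zero_mem _

end Pool.Agent.N171.TG.Vh
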