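import Mathlib
import Pool.Agent.N171.TG.Vh1

/-!
# Algebraic values of flat classes: products
-/

open CategoryTheory AlgebraicGeometry Finset Function

set_option linter.unusedSectionVars false
set_option linter.unusedVariables false

namespace Pool.Agent.N171.TG.Vh

universe u

open Pool.Agent.TH125.Gal Pool.Agent.TH118.SG Pool.Agent.V11219.IsoF Pool.Agent.V11219.Loc
  Pool.Agent.V11219.Quad Pool.Agent.N171.Ht

open Pool.Agent.H914 Pool.Agent.H914.VarClass Pool.Agent.H914.VarClass.Obj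
  Pool.Agent.H914.WeilCohomology Pool.Agent.H281R3.HT Pool.Agent.W552 Pool.Agent.H447

variable {k : Type u} [Field k] {𝒱 : VarClass k} {ops : CycleOps 𝒱}
  {W : WeilCohomology.{u, 0} ops} {Γ : Type} [Group Γ] {χ : Γ →* W.Kˣ} {G : Set (GVar W Γ)}

section flat

variable {A B : GVar W Γ}

theorem IsFlat.mul {c d : W.H A.X} (hc : IsFlat A.act c) (hd : IsFlat A.act d) :
    IsFlat A.act (c * d) := by
  obtain ⟨Δ, hΔ, hc⟩ := hc
  obtain ⟨Δ', hΔ', hd⟩ := hd
  refine ⟨Δ ⊓ Δ', inferInstance, fun g hg => ?_⟩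
  rw [map_mul, hc g hg.1, hd g hg.2]

theorem IsFlat.add {c d : W.H A.X} (hc : IsFlat A.act c) (hd : IsFlat A.act d) :
    IsFlat A.act (c + d) := by
  obtain ⟨Δ, hΔ, hc⟩ := hc
  obtain ⟨Δ', hΔ', hd⟩ := hd
  refine ⟨Δ ⊓ Δ', inferInstance, fun g hg => ?_⟩
  rw [map_add, hc g hg.1, hd g hg.2]

theorem flat_as (hχ : ∀ g, χ g = 1) (hA : IsGalois W χ A.X A.act) {c : W.H A.X}
    (h : W552.AS W A.X c) : IsFlat A.act c := by
  refine W552.AS.ind (p := fun c => IsFlat A.act c) ?_ ?_ h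
  · intro j x hx
    obtain ⟨Δ, hΔ, h1⟩ := hA.cl_fix j x hx
    refine ⟨Δ, hΔ, fun g hg => ?_⟩
    rw [h1 g hg, hχ g, Units.val_one, one_pow, one_smul]
  · intro x y hx hy
    exact hx.add hy

theorem IsFlat.map {f : A.X ⟶ B.X} (hf : Equivariant (A := A) (B := B) f) {c : W.H B.X}
    (hc : IsFlat B.act c) : IsFlat A.act (W.map f c) := by
  obtain ⟨Δ, hΔ, hc⟩ := hc
  refine ⟨Δ, hΔ, fun g hg => ?_⟩
  rw [hf g c, hc g hg]

theorem push_act (hχ : ∀ g, χ g = 1) (hA : IsGalois W χ A.X A.act)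
    (hB : IsGalois W χ B.X B.act) {f : A.X ⟶ B.X} (hf : Equivariant (A := A) (B := B) f) (g : Γ)
    (c : W.H A.X) : B.act g (W.push f c) = W.push f (A.act g c) := by
  apply W.tr_ext
  intro d
  obtain ⟨e, rfl⟩ := (B.act g).surjective d
  rw [← map_mul (B.act g), hB.tr_act, W.tr_push, W.tr_push, ← hf g e, ← map_mul (A.act g),
    hA.tr_act, hχ g, Units.val_one, one_pow, one_pow]

theorem IsFlat.push (hχ : ∀ g, χ g = 1) (hA : IsGalois W χ A.X A.act)
    (hB : IsGalois W χ B.X B.act) {f : A.X ⟶ B.X} (hf : Equivariant (A := A) (B := B) f)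
    {c : W.H A.X} (hc : IsFlat A.act c) : IsFlat B.act (W.push f c) := by
  obtain ⟨Δ, hΔ, hc⟩ := hc
  refine ⟨Δ, hΔ, fun g hg => ?_⟩
  rw [push_act hχ hA hB hf, hc g hg]

end flat

section prod

variable {A B C C' : GVar W Γ}

/-- The action on a product is unique. -/
theorem prod_unique (h : IsProdVar A B C) (h' : IsProdVar A B C') : C = C' := by
  obtain ⟨υ, h1, h2⟩ := h
  obtain ⟨υ', h1', h2'⟩ := h'
  have h3 : υ = υ' := by
    refine MonoidHom.ext fun g => AlgEquiv.ext fun c => ?_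
    refine W.kunneth_induction (p := fun c => υ g c = υ' g c) ?_ ?_ c
    · intro a b ha hb
      rw [map_add, map_add, ha, hb]
    · intro i j a _ b _
      have e1 := h1 g a
      have e2 := h2 g b
      have e3 := h1' g a
      have e4 := h2' g b
      change υ g (W.map (fst A.X B.X) a) = W.map (fst A.X B.X) (A.act g a) at e1
      change υ g (W.map (snd A.X B.X) b) = W.map (snd A.X B.X) (B.act g b) at e2
      change υ' g (W.map (fst A.X B.X) a) = W.map (fst A.X B.X) (A.act g a) at e3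
      change υ' g (W.map (snd A.X B.X) b) = W.map (snd A.X B.X) (B.act g b) at e4
      rw [map_mul, map_mul, e1, e2, e3, e4]
  rw [h3]

theorem prod_mem (hG : GaloisClass χ G) (hA : A ∈ G) (hB : B ∈ G) (h : IsProdVar A B C) :
    C ∈ G := by
  obtain ⟨C', hC', h'⟩ := hG.prod A hA B hB
  rw [prod_unique h h']
  exact hC'

theorem power_mem (hG : GaloisClass χ G) (hA : A ∈ G) {n : ℕ} (h : IsPower A n B) : B ∈ G := by
  induction h with
  | one => exact hA
  | succ n B C _ hp ih => exact prod_mem hG hA ih hp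

theorem tower_mem (hG : GaloisClass χ G) {ι : Type} {X : ι → GVar W Γ} {Z V : GVar W Γ}
    (hX : ∀ i, X i ∈ G) (hZ : Z ∈ G) {L : List (ι × ℕ)} (h : IsTower X Z L V) : V ∈ G := by
  induction h with
  | base => exact hZ
  | step i n L B V C hB _ hC ih => exact prod_mem hG (power_mem hG (hX i) hB) ih hC

/-- The powers are the iterated products. -/
theorem power_nest {n : ℕ} (h : IsPower A n B) (D : A.X.Cycles) :
    ∃ ν : Γ →* (W.H (nest ops n fun _ => (⟨A.X, D⟩ : Polarized 𝒱)).X ≃ₐ[W.K]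
        W.H (nest ops n fun _ => (⟨A.X, D⟩ : Polarized 𝒱)).X),
      B = ⟨(nest ops n fun _ => (⟨A.X, D⟩ : Polarized 𝒱)).X, ν⟩ ∧
      ∀ p : Fin (n + 1),
        Intertwines (W.map (prj ops n (fun _ => (⟨A.X, D⟩ : Polarized 𝒱)) p)) A.act ν := by
  induction h with
  | one =>
    refine ⟨A.act, rfl, fun p g a => ?_⟩
    obtain rfl : p = 0 := Fin.eq_zero p
    have h1 : ∀ a, W.map (prj ops 0 (fun _ => (⟨A.X, D⟩ : Polarized 𝒱)) 0) a = a :=
      fun a => W.map_id A.X a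
    exact (congrArg (A.act g) (h1 a)).trans (h1 (A.act g a)).symm
  | succ n B C _ hp ih =>
    obtain ⟨ν, rfl, hν'⟩ := ih
    obtain ⟨υ, h1, h2⟩ := hp
    refine ⟨υ, rfl, fun p => ?_⟩
    refine Fin.cases ?_ (fun i => ?_) p
    · exact h1
    · intro g a
      have h4 : ∀ a, W.map (prj ops (n + 1) (fun _ => (⟨A.X, D⟩ : Polarized 𝒱)) i.succ) a =
          W.map (snd A.X (nest ops n fun _ => ⟨A.X, D⟩).X)
            (W.map (prj ops n (fun _ => (⟨A.X, D⟩ : Polarized 𝒱)) i) a) :=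
        fun a => W.map_comp _ _ a
      have h5 := h2 g (W.map (prj ops n (fun _ => (⟨A.X, D⟩ : Polarized 𝒱)) i) a)
      change υ g (W.map (snd A.X (nest ops n fun _ => ⟨A.X, D⟩).X)
        (W.map (prj ops n (fun _ => (⟨A.X, D⟩ : Polarized 𝒱)) i) a)) =
        W.map (snd A.X (nest ops n fun _ => ⟨A.X, D⟩).X)
        (ν g (W.map (prj ops n (fun _ => (⟨A.X, D⟩ : Polarized 𝒱)) i) a)) at h5
      rw [hν' i g a] at h5
      exact (congrArg (υ g) (h4 a)).trans (h5.trans (h4 (A.act g a)).symm)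

end prod

section step

variable {ι : Type} [Fintype ι] [DecidableEq ι] {X : ι → GVar W Γ} {D : ∀ i, (X i).X.Cycles}
  {Z : GVar W Γ} {S : Type} {A : S → Property W}

/-- **The step.** -/
theorem vh_step (h : KSys χ G X D Z) (hχ : ∀ g, χ g = 1) (hA : ∀ s, IsClassSystem (A s)) {i : ι}
    {n : ℕ} {B V C : GVar W Γ} (hV : V ∈ G) (hK : KP h.gal V.X V.act i)
    (hB : IsPower (X i) n B) (hC : IsProdVar B V C) :
    (VH' A C ↔ VH' A V) ∧ (TateConj W χ C.X C.act ↔ TateConj W χ V.X V.act) ∧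
      ∀ j, j ≠ i → KP h.gal V.X V.act j → KP h.gal C.X C.act j := by
  have hBG : B ∈ G := power_mem h.galoisClass (h.mem i) hB
  have hCG : C ∈ G := prod_mem h.galoisClass hBG hV hC
  have hgB := isGalois (h.galoisClass.galois _ hBG)
  have hgC := isGalois (h.galoisClass.galois _ hCG)
  have hgV := isGalois (h.galoisClass.galois _ hV)
  obtain ⟨ν, rfl, hν⟩ := power_nest hB (D i)
  obtain ⟨υ, h1, h2⟩ := hC
  have hP : IsPowAct W ⟨(X i).X, D i⟩ n V.X (X i).act V.act υ := by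
    intro g
    refine ⟨fun p a => ?_, fun b => h2 g b⟩
    have h4 := h1 g (W.map (prj ops n (fun _ => (⟨(X i).X, D i⟩ : Polarized 𝒱)) p) a)
    change υ g (W.map (fst _ V.X) _) = W.map (fst _ V.X) (ν g _) at h4
    rw [hν p g a] at h4
    exact h4
  have hDX := homEqNum_of_pol (h.pol i)
  have hfull : FullP (P := ⟨(X i).X, D i⟩) χ (h.gal i) V.act :=
    fullP_of h.gal hK (D i) (h.middle i) (h.odd i)
  refine ⟨?_, ⟨fun hT => tate_conv (P := ⟨(X i).X, D i⟩) hDX (h.one_ne i) hP hT,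
    fun hT => tate_stepP (P := ⟨(X i).X, D i⟩) hDX (h.middle i) (h.gal i) hP (h.odd i) hfull hT⟩,
    fun j hj hKj => KP.step h.gal hj hKj hDX hP⟩
  by_cases hV1 : (1 : W.H V.X) = 0
  · refine iff_of_true (vh_triv hA ?_) (vh_triv hA hV1)
    change (1 : W.H ((nest ops n fun _ => (⟨(X i).X, D i⟩ : Polarized 𝒱)).X.prod V.X)) = 0
    rw [← map_one (W.map (snd _ V.X)), hV1, map_zero]
  have hN : SplitData (X i) (D i) V := h.split i (Y := V.X) (υ := V.act) hV hK
  obtain ⟨g, F⟩ := hN.fp_nest hV1 n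
  constructor
  · intro hh c hc s t hs
    obtain ⟨hD, hHL⟩ := hN.nest_hard n
    obtain ⟨τ, hτ, hτ1⟩ := TH132.A.exists_point hD hHL (hN.nest_one_ne n)
    have h5 := ps_coef (hA t) hτ (hh (W.map (snd _ V.X) c) (IsFlat.map
      (A := ⟨(nest ops n fun _ => (⟨(X i).X, D i⟩ : Polarized 𝒱)).X.prod V.X, υ⟩) (B := V) h2 hc)
      s t (ps_map (hA s) (snd _ V.X) hs))
    have h6 : TH132.A.coef W τ (W.map (snd (nest ops n fun _ =>
        (⟨(X i).X, D i⟩ : Polarized 𝒱)).X V.X) c) = c := by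
      rw [TH132.A.coef, ← (hτ.map (fst _ V.X)).comm, W.push_snd, hτ1, one_smul]
    rw [h6] at h5
    exact h5
  · intro hh c hc s t hs
    obtain ⟨sb⟩ := exists_SB hDX
    obtain ⟨b, hb⟩ := exists_monoBasis (ops := ops) (⟨(X i).X, D i⟩ : Polarized 𝒱) sb.e n
    obtain ⟨Δ, hΔ, hfix⟩ := id hc
    have h3 : c ∈ Tgt (P := ⟨(X i).X, D i⟩) sb n V.X :=
      mem_TgtP (P := ⟨(X i).X, D i⟩) hb hDX (h.middle i) (h.gal i) hP (h.odd i) hfull (j := 0) hΔ
        fun g hg => by rw [pow_zero, one_smul]; exact hfix g hg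
    have h4 := lspan_le (tgt_lspan hDX (h.middle i) h3)
    obtain ⟨N, a, b', hdual⟩ := TH132.A.exists_dualFam F.hodge.2
    have h5 := hdual.rep h4
    rw [h5]
    refine Submodule.sum_mem _ fun l _ => ps_ext (hA t) (hdual.ha l) (hh _ ?_ s t
      (ps_coef (hA s) (hdual.hb l) hs))
    refine IsFlat.push hχ hgC hgV (A := ⟨(nest ops n fun _ =>
      (⟨(X i).X, D i⟩ : Polarized 𝒱)).X.prod V.X, υ⟩) (B := V) h2 ?_
    refine IsFlat.mul (A := ⟨(nest ops n fun _ =>
      (⟨(X i).X, D i⟩ : Polarized 𝒱)).X.prod V.X, υ⟩) hc ?_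
    exact IsFlat.map (A := ⟨(nest ops n fun _ =>
      (⟨(X i).X, D i⟩ : Polarized 𝒱)).X.prod V.X, υ⟩) (B := ⟨(nest ops n fun _ =>
      (⟨(X i).X, D i⟩ : Polarized 𝒱)).X, ν⟩) h1 (flat_as hχ hgB (hdual.hb l))

/-- **The towers.** -/
theorem vh_tower (h : KSys χ G X D Z) (hχ : ∀ g, χ g = 1) (hA : ∀ s, IsClassSystem (A s))
    {L : List (ι × ℕ)} {V : GVar W Γ} (hL : (L.map Prod.fst).Nodup) (hV : IsTower X Z L V) :
    (VH' A V ↔ VH' A Z) ∧ (TateConj W χ V.X V.act ↔ TateConj W χ Z.X Z.act) ∧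
      ∀ i, i ∉ L.map Prod.fst → KP h.gal V.X V.act i := by
  induction hV with
  | base => exact ⟨Iff.rfl, Iff.rfl, fun i _ => h.base h.gal i⟩
  | step i n L B V C hB hV hC ih =>
    rw [List.map_cons, List.nodup_cons] at hL
    obtain ⟨ih1, ih3, ih2⟩ := ih hL.2
    obtain ⟨h1, h3, h2⟩ := vh_step h hχ hA (tower_mem h.galoisClass h.mem h.mem_base hV)
      (ih2 i hL.1) hB hC
    refine ⟨h1.trans ih1, h3.trans ih3, fun j hj => ?_⟩
    rw [List.map_cons, List.mem_cons, not_or] at hj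
    exact h2 j hj.1 (ih2 j hj.2)

theorem flatAlgebraic_iff (hχ : ∀ g, χ g = 1) {V : GVar W Γ} :
    FlatAlgebraic V ↔ TateConj W χ V.X V.act := by
  refine forall_congr' fun j => forall_congr' fun c => forall_congr' fun _ => ?_
  have h1 : IsFlat V.act c ↔ (∃ Δ : Subgroup Γ, Δ.FiniteIndex ∧
      ∀ g ∈ Δ, V.act g c = (χ g : W.K) ^ j • c) := by
    refine exists_congr fun Δ => and_congr_right fun _ => forall_congr' fun g =>
      forall_congr' fun _ => ?_
    rw [hχ g, Units.val_one, one_pow, one_smul]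
  rw [h1]

theorem vh_main (h : KSys χ G X D Z) (hχ : ∀ g, χ g = 1) (hA : ∀ s, IsClassSystem (A s))
    {L : List (ι × ℕ)} {V : GVar W Γ} (hL : (L.map Prod.fst).Nodup) (hV : IsTower X Z L V) :
    (VariationalHodge A V ↔ VariationalHodge A Z) ∧ (FlatAlgebraic V ↔ FlatAlgebraic Z) := by
  rw [flatAlgebraic_iff hχ, flatAlgebraic_iff hχ, vh_iff hA (isGalois (h.galoisClass.galois _
      (tower_mem h.galoisClass h.mem h.mem_base hV))),
    vh_iff hA (isGalois (h.galoisClass.galois _ h.mem_base))]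
  exact ⟨(vh_tower h hχ hA hL hV).1, (vh_tower h hχ hA hL hV).2.1⟩

end step

end Pool.Agent.N171.TG.Vh
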