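import Mathlib

/-!
# Project TG: semisimplicity of the restriction to subgroups of finite index

The first part is adapted from `Pool.Agent.N178.Ss1` (helper178).
-/

set_option autoImplicit false
set_option linter.unusedSectionVars false

namespace Pool.Agent.N171.TG

section Clifford

variable {K : Type*} [Field K] {A : Type*} [AddCommGroup A] [Module K A] [FiniteDimensional K A]
  {Γ : Type*} [Group Γ] {ρ : Γ →* Module.End K A}

/-- The subspace `M` is stable under `Δ`. -/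
def Inv (ρ : Γ →* Module.End K A) (Δ : Subgroup Γ) (M : Submodule K A) : Prop :=
  ∀ g ∈ Δ, ∀ a ∈ M, ρ g a ∈ M

/-- Every subspace stable under `Δ` has a complement which is stable under `Δ`. -/
def SSu (ρ : Γ →* Module.End K A) (Δ : Subgroup Γ) : Prop :=
  ∀ M, Inv ρ Δ M → ∃ M', Inv ρ Δ M' ∧ IsCompl M M'

lemma Inv.inf {Δ : Subgroup Γ} {M M' : Submodule K A} (h : Inv ρ Δ M) (h' : Inv ρ Δ M') :
    Inv ρ Δ (M ⊓ M') := fun g hg a ha => ⟨h g hg a ha.1, h' g hg a ha.2⟩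

lemma Inv.sup {Δ : Subgroup Γ} {M M' : Submodule K A} (h : Inv ρ Δ M) (h' : Inv ρ Δ M') :
    Inv ρ Δ (M ⊔ M') := by
  intro g hg a ha
  obtain ⟨b, hb, c, hc, rfl⟩ := Submodule.mem_sup.1 ha
  rw [map_add]
  exact Submodule.add_mem _ (Submodule.mem_sup_left (h g hg b hb))
    (Submodule.mem_sup_right (h' g hg c hc))

lemma Inv.mono {Δ Δ' : Subgroup Γ} {M : Submodule K A} (h : Inv ρ Δ M) (hΔ : Δ' ≤ Δ) :
    Inv ρ Δ' M := fun g hg a ha => h g (hΔ hg) a ha

/-- Simple subspaces. -/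
structure Simp (ρ : Γ →* Module.End K A) (Δ : Subgroup Γ) (S : Submodule K A) : Prop where
  inv : Inv ρ Δ S
  ne : S ≠ ⊥
  min : ∀ S' ≤ S, Inv ρ Δ S' → S' = ⊥ ∨ S' = S

lemma exists_simp {Δ : Subgroup Γ} {C : Submodule K A} (hi : Inv ρ Δ C)
    (hne : C ≠ ⊥) : ∃ S ≤ C, Simp ρ Δ S := by
  obtain ⟨S, ⟨h1, h2, h3⟩, hmin⟩ := (wellFounded_lt (α := Submodule K A)).has_min
    {S | S ≤ C ∧ Inv ρ Δ S ∧ S ≠ ⊥} ⟨C, le_rfl, hi, hne⟩
  refine ⟨S, h1, h2, h3, fun S' hS' hi' => ?_⟩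
  by_contra hcon
  rw [not_or] at hcon
  exact hmin S' ⟨hS'.trans h1, hi', hcon.1⟩ (lt_of_le_of_ne hS' hcon.2)

lemma rho_mul (g h : Γ) (a : A) : ρ (g * h) a = ρ g (ρ h a) := by
  rw [map_mul]
  rfl

lemma rho_inv (g : Γ) (a : A) : ρ g (ρ g⁻¹ a) = a := by
  rw [← rho_mul, mul_inv_cancel, map_one]
  rfl

lemma rho_inv' (g : Γ) (a : A) : ρ g⁻¹ (ρ g a) = a := by
  rw [← rho_mul, inv_mul_cancel, map_one]
  rfl

/-- **Clifford's theorem.** -/
theorem SSu.normal {Δ : Subgroup Γ} (hΔ : Δ.Normal) (h : SSu ρ ⊤) : SSu ρ Δ := by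
  -- the sum of the simple subspaces
  set soc : Submodule K A := sSup {S | Simp ρ Δ S} with hsoc
  have hmap : ∀ (g : Γ) (S : Submodule K A), Simp ρ Δ S →
      Simp ρ Δ (S.map (ρ g)) := by
    intro g S hS
    refine ⟨?_, ?_, ?_⟩
    · rintro h hh _ ⟨x, hx, rfl⟩
      refine ⟨ρ (g⁻¹ * h * g) x, hS.inv _ ?_ x hx, ?_⟩
      · have := hΔ.conj_mem h hh g⁻¹
        rwa [inv_inv] at this
      · rw [← rho_mul, ← rho_mul]
        congr 2
        group
    · intro h0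
      apply hS.ne
      rw [eq_bot_iff]
      intro x hx
      have h1 : ρ g x ∈ S.map (ρ g) := ⟨x, hx, rfl⟩
      rw [h0, Submodule.mem_bot] at h1
      rw [Submodule.mem_bot, ← rho_inv' (ρ := ρ) g x, h1, map_zero]
    · intro S' hS' hi'
      have h1 : Inv ρ Δ (S'.map (ρ g⁻¹)) := by
        rintro h hh _ ⟨x, hx, rfl⟩
        refine ⟨ρ (g * h * g⁻¹) x, hi' _ (hΔ.conj_mem h hh g) x hx, ?_⟩
        rw [← rho_mul, ← rho_mul]
        congr 2
        group
      have h2 : S'.map (ρ g⁻¹) ≤ S := by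
        rintro _ ⟨x, hx, rfl⟩
        obtain ⟨y, hy, rfl⟩ := hS' hx
        rw [rho_inv']
        exact hy
      rcases hS.min _ h2 h1 with h3 | h3
      · left
        rw [eq_bot_iff]
        intro x hx
        have h4 : ρ g⁻¹ x ∈ S'.map (ρ g⁻¹) := ⟨x, hx, rfl⟩
        rw [h3, Submodule.mem_bot] at h4
        rw [Submodule.mem_bot, ← rho_inv (ρ := ρ) g x, h4, map_zero]
      · right
        apply le_antisymm hS'
        rintro _ ⟨x, hx, rfl⟩
        rw [← h3] at hx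
        obtain ⟨y, hy, rfl⟩ := hx
        rw [rho_inv]
        exact hy
  have hsoci : Inv ρ ⊤ soc := by
    intro g _ a ha
    rw [hsoc, sSup_eq_iSup'] at ha ⊢
    refine Submodule.iSup_induction _ (motive := fun a => ρ g a ∈ ⨆ S : {S | Simp ρ Δ S},
      (S : Submodule K A)) ha ?_ ?_ ?_
    · intro S x hx
      exact Submodule.mem_iSup_of_mem ⟨_, hmap g S.1 S.2⟩ ⟨x, hx, rfl⟩
    · rw [map_zero]
      exact Submodule.zero_mem _
    · intro x y hx hy
      rw [map_add]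
      exact Submodule.add_mem _ hx hy
  obtain ⟨C, hCi, hC⟩ := h soc hsoci
  have hC0 : C = ⊥ := by
    by_contra hne
    obtain ⟨S, hSC, hS⟩ := exists_simp (hCi.mono le_top) hne
    have h1 : S ≤ soc := le_sSup hS
    apply hS.ne
    rw [eq_bot_iff, ← hC.inf_eq_bot]
    exact le_inf h1 hSC
  have hsocT' : soc = ⊤ := by
    have := hC.sup_eq_top
    rwa [hC0, sup_bot_eq] at this
  intro M hMi
  obtain ⟨C, ⟨h2, h3⟩, hmax⟩ := (wellFounded_gt (α := Submodule K A)).has_min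
    {C | Inv ρ Δ C ∧ M ⊓ C = ⊥} ⟨⊥, fun g _ a ha => by
      rw [Submodule.mem_bot] at ha ⊢
      rw [ha, map_zero], inf_bot_eq _⟩
  refine ⟨C, h2, IsCompl.of_eq h3 ?_⟩
  by_contra hne
  have hlt : ¬ soc ≤ M ⊔ C := fun hle => hne (top_le_iff.1 (hsocT' ▸ hle))
  obtain ⟨S, hS, hSn⟩ : ∃ S, Simp ρ Δ S ∧ ¬ S ≤ M ⊔ C := by
    by_contra hcon
    push Not at hcon
    exact hlt (sSup_le hcon)
  have h4 : S ⊓ (M ⊔ C) = ⊥ := by
    rcases hS.min _ inf_le_left (hS.inv.inf (hMi.sup h2)) with h5 | h5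
    · exact h5
    · exact absurd (inf_eq_left.1 h5) hSn
  refine hmax (C ⊔ S) ⟨h2.sup hS.inv, ?_⟩ (lt_of_le_of_ne le_sup_left fun he => ?_)
  · rw [eq_bot_iff]
    rintro m ⟨hm, hm'⟩
    obtain ⟨c, hc, s, hs, hcs⟩ := Submodule.mem_sup.1 hm'
    have h5 : s ∈ S ⊓ (M ⊔ C) := by
      refine ⟨hs, ?_⟩
      have h6 : s = m - c := by rw [← hcs, add_sub_cancel_left]
      rw [h6]
      exact Submodule.sub_mem _ (Submodule.mem_sup_left hm) (Submodule.mem_sup_right hc)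
    rw [h4, Submodule.mem_bot] at h5
    rw [h5, add_zero] at hcs
    rw [← h3]
    exact ⟨hm, hcs ▸ hc⟩
  · apply hSn
    have h5 : S ≤ C := by
      rw [he]
      exact le_sup_right
    exact h5.trans le_sup_right

/-- **Maschke's theorem, relative to a normal subgroup of finite index.** -/
theorem SSu.above [CharZero K] {Δ U : Subgroup Γ} (hfi : Δ.FiniteIndex)
    (hU : Δ ≤ U) (h : SSu ρ Δ) : SSu ρ U := by
  classical
  intro M hM
  obtain ⟨M', hM', hc⟩ := h M (hM.mono hU)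
  -- the projection to `M`
  obtain ⟨p, hp1, hp2, hp3⟩ : ∃ p : Module.End K A, (∀ x, p x ∈ M) ∧ (∀ x ∈ M, p x = x) ∧
      ∀ x ∈ M', p x = 0 := by
    refine ⟨M.subtype ∘ₗ (M.projectionOnto M' hc), fun x => ?_, fun x hx => ?_, fun x hx => ?_⟩
    · exact (M.projectionOnto M' hc x).2
    · have := Submodule.projectionOnto_apply_left hc ⟨x, hx⟩
      rw [LinearMap.comp_apply, this]
      rfl
    · rw [LinearMap.comp_apply, (Submodule.projectionOnto_apply_eq_zero_iff hc).2 hx, map_zero]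
  have hdec : ∀ x, p (x - p x) = 0 ∧ x - p x ∈ M' := by
    intro x
    obtain ⟨a, ha, b, hb, hab⟩ := Submodule.mem_sup.1 (hc.sup_eq_top ▸ Submodule.mem_top : x ∈ M ⊔ M')
    have h1 : p x = a := by rw [← hab, map_add, hp2 a ha, hp3 b hb, add_zero]
    have h2 : x - p x = b := by rw [h1, ← hab, add_sub_cancel_left]
    rw [h2]
    exact ⟨hp3 b hb, hb⟩
  have hcomm : ∀ g ∈ Δ, ∀ x, p (ρ g x) = ρ g (p x) := by
    intro g hg x
    have h1 : ρ g x = ρ g (p x) + ρ g (x - p x) := by rw [← map_add, add_sub_cancel]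
    rw [h1, map_add, hp2 _ (hM g (hU hg) _ (hp1 x)), hp3 _ (hM' g hg _ (hdec x).2), add_zero]
  -- the average
  let Δ' : Subgroup U := Δ.subgroupOf U
  haveI : Δ'.FiniteIndex := inferInstanceAs (Δ.subgroupOf U).FiniteIndex
  haveI : Fintype (U ⧸ Δ') := Fintype.ofFinite _
  let f : U → Module.End K A := fun u => ρ u * p * ρ (u : Γ)⁻¹
  have hf : ∀ u v : U, QuotientGroup.leftRel Δ' u v → f u = f v := by
    intro u v huv
    rw [QuotientGroup.leftRel_apply] at huv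
    have h1 : (u : Γ)⁻¹ * v ∈ Δ := huv
    ext x
    show ρ u (p (ρ (u : Γ)⁻¹ x)) = ρ v (p (ρ (v : Γ)⁻¹ x))
    have h2 : (v : Γ) = u * ((u : Γ)⁻¹ * v) := by group
    have h3 : ρ (u : Γ)⁻¹ x = ρ ((u : Γ)⁻¹ * v) (ρ (v : Γ)⁻¹ x) := by
      rw [← rho_mul]
      congr 2
      group
    rw [h3, hcomm _ h1, ← rho_mul, ← h2]
  let F : U ⧸ Δ' → Module.End K A := Quotient.lift f hf
  have hF : ∀ u : U, F (QuotientGroup.mk u) = f u := fun u => rfl
  have hq : ∀ (u : U) (c : U ⧸ Δ') (x : A), ρ u (F c x) = F (u • c) (ρ u x) := by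
    intro u c x
    induction c using QuotientGroup.induction_on with
    | H v =>
      rw [show (u • (QuotientGroup.mk v : U ⧸ Δ')) = QuotientGroup.mk (u * v) from rfl, hF, hF]
      show ρ u (ρ v (p (ρ (v : Γ)⁻¹ x))) = ρ (u * v : U) (p (ρ ((u * v : U) : Γ)⁻¹ (ρ u x)))
      rw [← rho_mul, ← rho_mul]
      congr 3
      · have : (((u * v : U) : Γ))⁻¹ * (u : Γ) = (v : Γ)⁻¹ := by
          rw [Subgroup.coe_mul]
          group
        rw [this]
  let s : Module.End K A := ∑ c, F c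
  have hs1 : ∀ x, s x = ∑ c, F c x := fun x => by
    show (∑ c, F c) x = _
    rw [LinearMap.sum_apply]
  have hs2 : ∀ (u : U) (x : A), ρ u (s x) = s (ρ u x) := by
    intro u x
    rw [hs1, hs1, map_sum]
    rw [← Equiv.sum_comp (MulAction.toPerm u) (fun c => F c (ρ u x))]
    refine Finset.sum_congr rfl fun c _ => ?_
    rw [hq]
    rfl
  have hFM : ∀ (c : U ⧸ Δ') (x : A), F c x ∈ M := by
    intro c x
    induction c using QuotientGroup.induction_on with
    | H v => exact hM v v.2 _ (hp1 _)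
  have hFid : ∀ (c : U ⧸ Δ') (x : A), x ∈ M → F c x = x := by
    intro c x hx
    induction c using QuotientGroup.induction_on with
    | H v =>
      show ρ v (p (ρ (v : Γ)⁻¹ x)) = x
      rw [hp2 _ (hM _ (U.inv_mem v.2) x hx), rho_inv]
  have hcard : (Fintype.card (U ⧸ Δ') : K) ≠ 0 := by
    exact_mod_cast Fintype.card_ne_zero
  refine ⟨LinearMap.ker s, fun g hg x hx => ?_, IsCompl.of_eq ?_ ?_⟩
  · rw [LinearMap.mem_ker] at hx ⊢
    rw [← hs2 ⟨g, hg⟩ x, hx, map_zero]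
  · rw [eq_bot_iff]
    rintro x ⟨hx, hx'⟩
    have h1 : s x = (Fintype.card (U ⧸ Δ') : K) • x := by
      rw [hs1, Finset.sum_congr rfl fun c _ => hFid c x hx, Finset.sum_const, Finset.card_univ,
        Nat.cast_smul_eq_nsmul]
    have h2 : s x = 0 := hx'
    rw [h1] at h2
    exact (smul_eq_zero.1 h2).resolve_left hcard
  · rw [eq_top_iff]
    intro x _
    have h1 : s x ∈ M := by
      rw [hs1]
      exact M.sum_mem fun c _ => hFM c x
    have h2 : s (s x) = (Fintype.card (U ⧸ Δ') : K) • s x := by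
      rw [hs1 (s x), Finset.sum_congr rfl fun c _ => hFid c (s x) h1, Finset.sum_const,
        Finset.card_univ, Nat.cast_smul_eq_nsmul]
    refine Submodule.mem_sup.2 ⟨(Fintype.card (U ⧸ Δ') : K)⁻¹ • s x, M.smul_mem _ h1,
      x - (Fintype.card (U ⧸ Δ') : K)⁻¹ • s x, ?_, add_sub_cancel _ _⟩
    rw [LinearMap.mem_ker, map_sub, map_smul, h2, smul_smul, inv_mul_cancel₀ hcard, one_smul,
      sub_self]

/-- **the restriction of a semisimple representation to a subgroup of finite index** -/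
theorem SSu.finite_index [CharZero K] (h : SSu ρ ⊤) (U : Subgroup Γ) (hU : U.FiniteIndex) :
    SSu ρ U := by
  haveI := hU
  exact (h.normal (inferInstance : U.normalCore.Normal)).above inferInstance
    U.normalCore_le

/-- complements in stable subspaces -/
theorem SSu.sub {U : Subgroup Γ} (h : SSu ρ U) {V W : Submodule K A} (hV : Inv ρ U V)
    (hW : Inv ρ U W) (hWV : W ≤ V) : ∃ W' ≤ V, Inv ρ U W' ∧ W ⊓ W' = ⊥ ∧ W ⊔ W' = V := by
  obtain ⟨C, hC, hc⟩ := h W hW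
  refine ⟨V ⊓ C, inf_le_left, hV.inf hC, ?_, ?_⟩
  · rw [← inf_assoc, inf_eq_left.2 hWV, hc.inf_eq_bot]
  · rw [inf_comm V C, ← sup_inf_assoc_of_le C hWV, hc.sup_eq_top, top_inf_eq]

end Clifford

end Pool.Agent.N171.TG
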