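import Mathlib
import Pool.Agent.N171.Al3

/-!
# Tangent vectors of 2-adic representations
-/

set_option linter.unusedSectionVars false

namespace Pool.Agent.N171.TG

open PadicInt Module Pool.Agent.N171

noncomputable section

section tan

variable {A : Type*} [Ring A] [Algebra ℤ_[2] A] {Γ : Type*} [Group Γ]

/-- `X` is a tangent vector of the image. -/
def TanA (R : Γ →* A) (X : A) : Prop := ∀ m : ℕ, ∃ n₀ : ℕ, ∀ n, n₀ ≤ n → ∃ (σ : Γ) (Z : A),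
  R σ = 1 + (2 : ℤ_[2]) ^ n • (X + (2 : ℤ_[2]) ^ m • Z)

variable {R : Γ →* A}

theorem TanA_zero : TanA R 0 := fun m => ⟨0, fun n _ => ⟨1, 0, by simp⟩⟩

theorem TanA_add {X X' : A} (h : TanA R X) (h' : TanA R X') : TanA R (X + X') := by
  intro m
  obtain ⟨n₁, h1⟩ := h m
  obtain ⟨n₂, h2⟩ := h' m
  refine ⟨max (max n₁ n₂) m, fun n hn => ?_⟩
  obtain ⟨σ, Z, hσ⟩ := h1 n (by omega)
  obtain ⟨σ', Z', hσ'⟩ := h2 n (by omega)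
  obtain ⟨k, rfl⟩ : ∃ k, n = m + k := ⟨n - m, by omega⟩
  refine ⟨σ * σ', Z + Z' + (2 : ℤ_[2]) ^ k • ((X + (2 : ℤ_[2]) ^ m • Z) *
    (X' + (2 : ℤ_[2]) ^ m • Z')), ?_⟩
  rw [map_mul, hσ, hσ']
  generalize hU : X + (2 : ℤ_[2]) ^ m • Z = U
  generalize hU' : X' + (2 : ℤ_[2]) ^ m • Z' = U'
  have e1 : X + X' + (2 : ℤ_[2]) ^ m • (Z + Z' + (2 : ℤ_[2]) ^ k • (U * U')) =
      U + U' + (2 : ℤ_[2]) ^ (m + k) • (U * U') := by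
    rw [← hU, ← hU', pow_add]
    module
  rw [e1]
  simp only [mul_add, add_mul, one_mul, mul_one, smul_add, mul_smul_comm, smul_mul_assoc]
  abel

theorem pow_lin (U : A) (n N : ℕ) : ∃ V : A, (1 + (2 : ℤ_[2]) ^ n • U) ^ N =
    1 + (2 : ℤ_[2]) ^ n • ((N : ℤ_[2]) • U) + (2 : ℤ_[2]) ^ (n + n) • V := by
  induction N with
  | zero => exact ⟨0, by simp⟩
  | succ N ih =>
    obtain ⟨V, hV⟩ := ih
    refine ⟨(N : ℤ_[2]) • (U * U) + V + (2 : ℤ_[2]) ^ n • (V * U), ?_⟩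
    rw [pow_succ, hV, pow_add (2 : ℤ_[2]) n n]
    simp only [mul_add, add_mul, one_mul, mul_one, smul_add, mul_smul_comm, smul_mul_assoc,
      Nat.cast_succ]
    module

theorem TanA_nat (N : ℕ) {X : A} (h : TanA R X) : TanA R ((N : ℤ_[2]) • X) := by
  intro m
  obtain ⟨n₁, h1⟩ := h m
  refine ⟨max n₁ m, fun n hn => ?_⟩
  obtain ⟨σ, Z, hσ⟩ := h1 n (by omega)
  obtain ⟨k, rfl⟩ : ∃ k, n = m + k := ⟨n - m, by omega⟩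
  obtain ⟨V, hV⟩ := pow_lin (X + (2 : ℤ_[2]) ^ m • Z) (m + k) N
  refine ⟨σ ^ N, (N : ℤ_[2]) • Z + (2 : ℤ_[2]) ^ k • V, ?_⟩
  rw [map_pow, hσ, hV]
  simp only [pow_add]
  module

/-- Closedness. -/
theorem TanA_closed {X : A} (h : ∀ b : ℕ, ∃ W : A, TanA R (X + (2 : ℤ_[2]) ^ b • W)) :
    TanA R X := by
  intro m
  obtain ⟨W, hW⟩ := h m
  obtain ⟨n₁, h1⟩ := hW m
  refine ⟨n₁, fun n hn => ?_⟩
  obtain ⟨σ, Z, hσ⟩ := h1 n hn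
  exact ⟨σ, W + Z, by rw [hσ]; module⟩

theorem exists_nat_near (c : ℤ_[2]) (b : ℕ) : ∃ (N : ℕ) (z : ℤ_[2]), (N : ℤ_[2]) =
    c + (2 : ℤ_[2]) ^ b * z := by
  refine ⟨c.appr b, ?_⟩
  have h1 := PadicInt.appr_spec b c
  rw [Ideal.mem_span_singleton] at h1
  obtain ⟨z, hz⟩ := h1
  refine ⟨-z, ?_⟩
  push_cast at hz
  linear_combination -hz

theorem TanA_smul (c : ℤ_[2]) {X : A} (h : TanA R X) : TanA R (c • X) := by
  refine TanA_closed fun b => ?_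
  obtain ⟨N, z, hz⟩ := exists_nat_near c b
  refine ⟨z • X, ?_⟩
  have h1 := TanA_nat N h
  rw [hz] at h1
  convert! h1 using 1
  module

theorem TanA_cancel {X : A} (h : TanA R ((2 : ℤ_[2]) • X)) : TanA R X := by
  intro m
  obtain ⟨n₁, h1⟩ := h (m + 1)
  refine ⟨n₁ + 1, fun n hn => ?_⟩
  obtain ⟨k, rfl⟩ : ∃ k, n = k + 1 := ⟨n - 1, by omega⟩
  obtain ⟨σ, Z, hσ⟩ := h1 k (by omega)
  refine ⟨σ, Z, ?_⟩
  rw [hσ]
  simp only [pow_succ]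
  module

theorem TanA_conj (g : Γ) {X : A} (h : TanA R X) : TanA R (R g * X * R g⁻¹) := by
  intro m
  obtain ⟨n₁, h1⟩ := h m
  refine ⟨n₁, fun n hn => ?_⟩
  obtain ⟨σ, Z, hσ⟩ := h1 n hn
  refine ⟨g * σ * g⁻¹, R g * Z * R g⁻¹, ?_⟩
  have e1 : R g * R g⁻¹ = 1 := by rw [← map_mul, mul_inv_cancel, map_one]
  rw [map_mul, map_mul, hσ]
  simp only [mul_add, add_mul, mul_one, smul_add, mul_smul_comm, smul_mul_assoc, e1]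

theorem TanA_bracket {X X' : A} (h : TanA R X) (h' : TanA R X') :
    TanA R (X * X' - X' * X) := by
  intro m
  obtain ⟨n₁, h1⟩ := h m
  obtain ⟨n₂, h2⟩ := h' m
  refine ⟨2 * (max (max n₁ n₂) m), fun n hn => ?_⟩
  obtain ⟨a, b, rfl, ha, hb, hab⟩ : ∃ a b, n = a + b ∧ max (max n₁ n₂) m ≤ a ∧
      max (max n₁ n₂) m ≤ b ∧ a ≤ b := ⟨n / 2, n - n / 2, by omega, by omega, by omega, by omega⟩
  obtain ⟨σ, Z, hσ⟩ := h1 a (by omega)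
  obtain ⟨σ', Z', hσ'⟩ := h2 b (by omega)
  set U := X + (2 : ℤ_[2]) ^ m • Z with hU
  set U' := X' + (2 : ℤ_[2]) ^ m • Z' with hU'
  obtain ⟨l, rfl⟩ : ∃ l, b = a + l := ⟨b - a, by omega⟩
  obtain ⟨k, rfl⟩ : ∃ k, a = m + k := ⟨a - m, by omega⟩
  -- the inverse
  obtain ⟨V, hV⟩ : ∃ V, R (σ' * σ)⁻¹ = 1 + (2 : ℤ_[2]) ^ (m + k) • V := by
    have h3 : R (σ' * σ)⁻¹ * R (σ' * σ) = 1 := by rw [← map_mul, inv_mul_cancel, map_one]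
    have h4 : R (σ' * σ) = 1 + (2 : ℤ_[2]) ^ (m + k) • ((2 : ℤ_[2]) ^ l • U' + U +
        (2 : ℤ_[2]) ^ (m + k + l) • (U' * U)) := by
      rw [map_mul, hσ, hσ']
      simp only [mul_add, add_mul, one_mul, mul_one, smul_add, mul_smul_comm, smul_mul_assoc,
        pow_add]
      module
    refine ⟨-(R (σ' * σ)⁻¹ * ((2 : ℤ_[2]) ^ l • U' + U + (2 : ℤ_[2]) ^ (m + k + l) • (U' * U))), ?_⟩
    rw [h4, mul_add, mul_one, mul_smul_comm] at h3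
    rw [smul_neg, ← h3]
    abel
  have h5 : R (σ * σ') = R (σ' * σ) + (2 : ℤ_[2]) ^ (m + k + (m + k + l)) • (U * U' - U' * U) := by
    rw [map_mul, map_mul, hσ, hσ']
    simp only [mul_add, add_mul, one_mul, mul_one, smul_mul_smul_comm]
    rw [← pow_add, ← pow_add, add_comm (m + k + l) (m + k), smul_sub]
    abel
  refine ⟨σ * σ' * (σ' * σ)⁻¹, X * Z' + Z * X' + (2 : ℤ_[2]) ^ m • (Z * Z') -
    (X' * Z + Z' * X + (2 : ℤ_[2]) ^ m • (Z' * Z)) +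
    (2 : ℤ_[2]) ^ k • ((U * U' - U' * U) * V), ?_⟩
  have h6 : R (σ' * σ) * R (σ' * σ)⁻¹ = 1 := by rw [← map_mul, mul_inv_cancel, map_one]
  rw [map_mul, h5, add_mul, h6, hV]
  congr 1
  rw [smul_mul_assoc]
  congr 1
  rw [mul_add, mul_one, mul_smul_comm, hU, hU']
  simp only [mul_add, add_mul, mul_sub, sub_mul, smul_mul_assoc, mul_smul_comm, smul_add, smul_sub,
    smul_smul, pow_add]
  module

end tan

/-! ### logarithms -/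

section log

variable {A : Type*} [Ring A] [Algebra ℤ_[2] A]

/-- The sequence with `g ^ 2 ^ n = 1 + 2 ^ (n + 2) Y n`. -/
def Yr (Y₀ : A) : ℕ → A
  | 0 => Y₀
  | n + 1 => Yr Y₀ n + (2 : ℤ_[2]) ^ (n + 1) • (Yr Y₀ n * Yr Y₀ n)

theorem Yr_pow (Y₀ : A) (n : ℕ) :
    (1 + (4 : ℤ_[2]) • Y₀) ^ 2 ^ n = 1 + (2 : ℤ_[2]) ^ (n + 2) • Yr Y₀ n := by
  induction n with
  | zero =>
    rw [pow_zero, pow_one, zero_add]
    norm_num [Yr]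
  | succ n ih =>
    rw [pow_succ, pow_mul, ih, pow_two, Yr]
    simp only [mul_add, add_mul, one_mul, mul_one, smul_add, mul_smul_comm, smul_mul_assoc,
      smul_smul]
    have e1 : (2 : ℤ_[2]) ^ (n + 1 + 2) * 2 ^ (n + 1) = 2 ^ (n + 2) * 2 ^ (n + 2) := by ring
    have e2 : (2 : ℤ_[2]) ^ (n + 1 + 2) = 2 ^ (n + 2) + 2 ^ (n + 2) := by ring
    rw [e1, e2, add_smul]
    abel

theorem Yr_div (j : ℕ) (N₁ : A) (n : ℕ) :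
    ∃ Z, Yr ((2 : ℤ_[2]) ^ j • N₁) n = (2 : ℤ_[2]) ^ j • (N₁ + (2 : ℤ_[2]) • Z) := by
  induction n with
  | zero => exact ⟨0, by rw [smul_zero, add_zero]; rfl⟩
  | succ n ih =>
    obtain ⟨Z, hZ⟩ := ih
    refine ⟨Z + ((2 : ℤ_[2]) ^ n * (2 : ℤ_[2]) ^ j) •
      ((N₁ + (2 : ℤ_[2]) • Z) * (N₁ + (2 : ℤ_[2]) • Z)), ?_⟩
    rw [Yr, hZ, pow_succ (2 : ℤ_[2]) n, smul_mul_smul_comm]
    generalize (N₁ + (2 : ℤ_[2]) • Z) * (N₁ + (2 : ℤ_[2]) • Z) = A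
    module

theorem exists_logr [Module.Finite ℤ_[2] A] [Module.Free ℤ_[2] A] (j : ℕ) (N₁ : A) :
    ∃ Y Z : A, Y = (2 : ℤ_[2]) ^ j • (N₁ + (2 : ℤ_[2]) • Z) ∧
      ∀ n, ∃ Z, Y - Yr ((2 : ℤ_[2]) ^ j • N₁) n = (2 : ℤ_[2]) ^ n • Z := by
  obtain ⟨L, hL⟩ := exists_limit A (fun n => Yr ((2 : ℤ_[2]) ^ j • N₁) n) (fun n =>
    ⟨(2 : ℤ_[2]) • (Yr ((2 : ℤ_[2]) ^ j • N₁) n * Yr ((2 : ℤ_[2]) ^ j • N₁) n), by
      rw [Yr, add_sub_cancel_left, smul_smul, ← pow_succ]⟩)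
  obtain ⟨Z, hZ⟩ := hL (j + 1)
  obtain ⟨Z', hZ'⟩ := Yr_div j N₁ (j + 1)
  refine ⟨L, Z + Z', ?_, hL⟩
  rw [sub_eq_iff_eq_add] at hZ
  rw [hZ, hZ', pow_succ]
  module

theorem Yr_prod {A' : Type*} [Ring A'] [Algebra ℤ_[2] A'] (Y₀ : A) (Y₀' : A') (n : ℕ) :
    Yr ((Y₀, Y₀') : A × A') n = (Yr Y₀ n, Yr Y₀' n) := by
  induction n with
  | zero => rfl
  | succ n ih =>
    rw [Yr, ih]
    rfl

theorem TanA_log {Γ : Type*} [Group Γ] {R : Γ →* A} {s : Γ} {X₀ X : A}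
    (h0 : R s * R s = 1 + (4 : ℤ_[2]) • X₀)
    (hX : ∀ n, ∃ Z, X - Yr X₀ n = (2 : ℤ_[2]) ^ n • Z) : TanA R X := by
  intro m
  refine ⟨m + 2, fun n hn => ?_⟩
  obtain ⟨k, rfl⟩ : ∃ k, n = m + k + 2 := ⟨n - m - 2, by omega⟩
  obtain ⟨Z, hZ⟩ := hX (m + k)
  refine ⟨(s * s) ^ 2 ^ (m + k), -((2 : ℤ_[2]) ^ k • Z), ?_⟩
  rw [map_pow, map_mul, h0, Yr_pow]
  have h1 : Yr X₀ (m + k) = X - (2 : ℤ_[2]) ^ (m + k) • Z := by
    rw [← hZ]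
    abel
  rw [h1, pow_add (2 : ℤ_[2]) m k]
  module

theorem Yr_eq {T : Type*} [AddCommGroup T] [Module ℤ_[2] T] (Y₀ : Module.End ℤ_[2] T) (n : ℕ) :
    Yr Y₀ n = Ys Y₀ n := by
  induction n with
  | zero => rfl
  | succ n ih => rw [Yr, Ys, ih]

end log

end

end Pool.Agent.N171.TG
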