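import Mathlib
import Pool.Agent.N171.TG.Tn1

/-!
# Groups which induce all the even permutations of a frame: levels
-/

set_option linter.unusedSectionVars false

namespace Pool.Agent.N171.TG

open PadicInt Module Pool.Agent.N171 Pool.Agent.N171.Al Equiv

noncomputable section

variable {T : Type*} [AddCommGroup T] [Module ℤ_[2] T] [Module.Finite ℤ_[2] T]
  [Module.Free ℤ_[2] T] (B : T →ₗ[ℤ_[2]] T →ₗ[ℤ_[2]] ℤ_[2]) {τ : Type*} [Fintype τ]
  [DecidableEq τ] (D : τ → T) {Γ : Type*} [Group Γ] (ρ : Representation ℤ_[2] Γ T)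
  (χ : Γ →* ℤ_[2]ˣ) {A : Type*} [Ring A] [Algebra ℤ_[2] A] (t : Γ →* A)

variable {B D ρ χ} (hF : Big B D ρ χ)

variable (B D ρ χ)

/-- The reduced differences of the elements which are congruent to one. -/
def GsA (j : ℕ) : Submodule (ZMod 2) (τ → τ → ZMod 2) where
  carrier := {S | ∃ (s : Γ) (N : Module.End ℤ_[2] T) (M : A),
    χ s = 1 ∧ ρ s = 1 + (2 : ℤ_[2]) ^ (j + 1) • N ∧ t s = 1 + (2 : ℤ_[2]) ^ (j + 2) • M ∧
      S = fun i => rr B D (N (D i))}
  zero_mem' := by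
    refine ⟨1, 0, 0, map_one _, by rw [map_one, smul_zero, add_zero],
      by rw [map_one, smul_zero, add_zero], ?_⟩
    funext i
    rw [LinearMap.zero_apply, rr_zero]
    rfl
  add_mem' := by
    rintro _ _ ⟨s, N, M, h1, h2, h3, rfl⟩ ⟨s', N', M', h1', h2', h3', rfl⟩
    refine ⟨s * s', N + N' + (2 : ℤ_[2]) ^ (j + 1) • (N * N'),
      M + M' + (2 : ℤ_[2]) ^ (j + 2) • (M * M'), by rw [map_mul, h1, h1', mul_one], ?_, ?_, ?_⟩
    · rw [map_mul, h2, h2']
      simp only [mul_add, add_mul, one_mul, mul_one, smul_add, mul_smul_comm, smul_mul_assoc]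
      abel
    · rw [map_mul, h3, h3']
      simp only [mul_add, add_mul, one_mul, mul_one, smul_add, mul_smul_comm, smul_mul_assoc]
      abel
    · funext i
      rw [LinearMap.add_apply, LinearMap.add_apply, LinearMap.smul_apply, rr_add, rr_add, rr_smul,
        map_pow, toZMod_two, zero_pow (Nat.succ_ne_zero _), zero_smul, add_zero]
      rfl
  smul_mem' := by
    rintro c _ ⟨s, N, M, h1, h2, h3, rfl⟩
    rcases zmod_two_cases c with rfl | rfl
    · refine ⟨1, 0, 0, map_one _, by rw [map_one, smul_zero, add_zero],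
        by rw [map_one, smul_zero, add_zero], ?_⟩
      funext i
      rw [LinearMap.zero_apply, rr_zero, zero_smul]
      rfl
    · exact ⟨s, N, M, h1, h2, h3, by rw [one_smul]⟩

variable {B D ρ χ}

include hF in
theorem GsA_stab (j : ℕ) : Stab (GsA B D ρ χ t j) := by
  refine ⟨?_, ?_, ?_⟩
  · rintro _ ⟨s, N, M, h1, h2, h3, rfl⟩ i k
    have h4 := hF.inv s (D i) (D k)
    rw [h1, h2, Units.val_one, one_mul] at h4
    simp only [LinearMap.add_apply, Module.End.one_apply, LinearMap.smul_apply, map_add, map_smul,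
      smul_eq_mul] at h4
    have h5 : (2 : ℤ_[2]) ^ (j + 1) * (B (N (D i)) (D k) + B (D i) (N (D k)) +
        2 * (2 ^ j * B (N (D i)) (N (D k)))) = 0 := by
      linear_combination h4
    have h6 := (mul_eq_zero.1 h5).resolve_left (pow_ne_zero _ (by norm_num))
    have h7 := congrArg (toZMod : ℤ_[2] →+* ZMod 2) h6
    rw [map_add, map_add, map_mul, toZMod_two, zero_mul, add_zero, map_zero] at h7
    change rr B D (N (D i)) k = rr B D (N (D k)) i
    rw [rr_apply, rr_apply, B_symm2 hF.frame (N (D k))]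
    linear_combination h7 - zmod_two_add_self (toZMod (B (D i) (N (D k))))
  · rintro _ ⟨s, N, M, h1, h2, h3, rfl⟩ i
    exact sum_rr hF.frame _
  · rintro _ ⟨s, N, M, h1, h2, h3, rfl⟩ π hπ
    obtain ⟨h, hh⟩ := hF.big π⁻¹ (by rw [map_inv, hπ, inv_one])
    have e1 : ρ h * ρ h⁻¹ = 1 := by rw [← map_mul, mul_inv_cancel, map_one]
    have e2 : t h * t h⁻¹ = 1 := by rw [← map_mul, mul_inv_cancel, map_one]
    refine ⟨h * s * h⁻¹, ρ h * N * ρ h⁻¹, t h * M * t h⁻¹, ?_, ?_, ?_, ?_⟩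
    · rw [map_mul, map_mul, h1, mul_one, map_inv, mul_inv_cancel]
    · rw [map_mul, map_mul, h2]
      simp only [mul_add, add_mul, mul_one, mul_smul_comm, smul_mul_assoc, e1]
    · rw [map_mul, map_mul, h3]
      simp only [mul_add, add_mul, mul_one, mul_smul_comm, smul_mul_assoc, e2]
    · funext i k
      have h4 := conj_rr hF hh N (π i) (π k)
      change rr B D (N (D (π i))) (π k) = _
      rw [← h4]
      simp

include hF in
/-- The differences are not all constant. -/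
theorem exists_levelA {σ : Γ} {m : ℕ} (hσ : ∃ N, ρ σ = 1 + (2 : ℤ_[2]) • N)
    (hσt : ∃ M, t σ = 1 + (2 : ℤ_[2]) ^ m • M)
    (hσm : ¬ ∃ (a : ℤ_[2]) (Z : Module.End ℤ_[2] T), ρ σ = a • 1 + (2 : ℤ_[2]) ^ m • Z) :
    ∃ j, ∃ S ∈ GsA B D ρ χ t j, ∃ i j k l, i ≠ j ∧ k ≠ l ∧ S i j ≠ S k l := by
  classical
  have hex : ∃ k, ¬ ∃ (a : ℤ_[2]) (Z : Module.End ℤ_[2] T), ρ σ = a • 1 + (2 : ℤ_[2]) ^ k • Z :=
    ⟨m, hσm⟩
  obtain ⟨N₀, hN₀⟩ := hσ
  obtain ⟨j, hj⟩ : ∃ j, Nat.find hex = j + 2 := by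
    refine ⟨Nat.find hex - 2, ?_⟩
    have h1 : Nat.find hex ≠ 0 := by
      intro h
      have h2 := Nat.find_spec hex
      rw [h] at h2
      exact h2 ⟨0, ρ σ, by rw [pow_zero, one_smul, zero_smul, zero_add]⟩
    have h3 : Nat.find hex ≠ 1 := by
      intro h
      have h2 := Nat.find_spec hex
      rw [h] at h2
      exact h2 ⟨1, N₀, by rw [pow_one, one_smul, hN₀]⟩
    omega
  have hjm : j + 2 ≤ m := hj ▸ Nat.find_min' hex hσm
  have hnot := Nat.find_spec hex
  rw [hj] at hnot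
  obtain ⟨a, N, hN⟩ := not_not.1 (Nat.find_min hex (m := j + 1) (by omega))
  obtain ⟨M, hM⟩ : ∃ M, t σ = 1 + (2 : ℤ_[2]) ^ (j + 2) • M := by
    obtain ⟨M, hM⟩ := hσt
    refine ⟨(2 : ℤ_[2]) ^ (m - (j + 2)) • M, ?_⟩
    rw [smul_smul, ← pow_add, Nat.add_sub_cancel' hjm, hM]
  refine ⟨j, ?_⟩
  by_contra hc
  push Not at hc
  have hinv : ∀ i, rr B D (ρ σ⁻¹ (D i)) = rr B D (D i) := by
    intro i
    have h1 : ρ σ (ρ σ⁻¹ (D i)) = D i := by
      rw [← Module.End.mul_apply, ← map_mul, mul_inv_cancel, map_one]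
      rfl
    conv_rhs => rw [← h1, hN₀, LinearMap.add_apply, LinearMap.smul_apply, rr_add, rr_two, add_zero]
    rfl
  have key : ∀ h : Γ, (fun i => rr B D ((ρ h * N * ρ h⁻¹ - N) (D i))) ∈ GsA B D ρ χ t j := by
    intro h
    have e1 : ρ h * ρ h⁻¹ = 1 := by rw [← map_mul, mul_inv_cancel, map_one]
    have e2 : t h * t h⁻¹ = 1 := by rw [← map_mul, mul_inv_cancel, map_one]
    have e3 : (a • 1 + (2 : ℤ_[2]) ^ (j + 1) • N) * ρ σ⁻¹ = 1 := by
      rw [← hN, ← map_mul, mul_inv_cancel, map_one]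
    have e4 : (1 + (2 : ℤ_[2]) ^ (j + 2) • M) * t σ⁻¹ = 1 := by
      rw [← hM, ← map_mul, mul_inv_cancel, map_one]
    refine ⟨h * σ * h⁻¹ * σ⁻¹, (ρ h * N * ρ h⁻¹ - N) * ρ σ⁻¹, (t h * M * t h⁻¹ - M) * t σ⁻¹,
      ?_, ?_, ?_, ?_⟩
    · rw [map_mul, map_mul, map_mul, map_inv, map_inv]
      rw [mul_comm (χ h), mul_assoc (χ σ), mul_inv_cancel, mul_one, mul_inv_cancel]
    · have e5 : ρ (h * σ * h⁻¹ * σ⁻¹) = (a • 1 + (2 : ℤ_[2]) ^ (j + 1) • (ρ h * N * ρ h⁻¹)) *
          ρ σ⁻¹ := by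
        rw [map_mul, map_mul, map_mul]
        congr 1
        rw [hN]
        simp only [mul_add, add_mul, mul_one, mul_smul_comm, smul_mul_assoc, e1]
      rw [e5]
      conv_rhs => rw [← e3]
      simp only [add_mul, sub_mul, smul_sub, smul_mul_assoc]
      abel
    · have e5 : t (h * σ * h⁻¹ * σ⁻¹) = (1 + (2 : ℤ_[2]) ^ (j + 2) • (t h * M * t h⁻¹)) *
          t σ⁻¹ := by
        rw [map_mul, map_mul, map_mul]
        congr 1
        rw [hM]
        simp only [mul_add, add_mul, mul_one, mul_smul_comm, smul_mul_assoc, e2]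
      rw [e5]
      conv_rhs => rw [← e4]
      simp only [add_mul, sub_mul, smul_sub, smul_mul_assoc]
      abel
    · funext i
      rw [Module.End.mul_apply]
      exact (rr_map hF.frame _ (hinv i)).symm
  obtain ⟨c, hc'⟩ := const_of hF.five (S := fun i => rr B D (N (D i))) (fun π hπ => by
    obtain ⟨h, hh⟩ := hF.big π hπ
    have h1 := hc _ (key h)
    obtain ⟨i₀, hi₀⟩ := exists_notMem (∅ : Finset τ) (by
      rw [Finset.card_empty]
      have := hF.five
      omega)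
    obtain ⟨k₀, -, -, hk₀, -⟩ := exists_two hF.five i₀ i₀ i₀
    refine ⟨rr B D ((ρ h * N * ρ h⁻¹ - N) (D i₀)) k₀, fun i k hik => ?_⟩
    have h2 := h1 (π i) (π k) i₀ k₀ (π.injective.ne hik) hk₀.symm
    rw [← h2, LinearMap.sub_apply, rr_sub, Pi.add_apply, conj_rr hF hh])
  apply hnot
  obtain ⟨c', rfl⟩ : ∃ c' : ℤ_[2], toZMod c' = c := ZMod.ringHom_surjective _ c
  have h1 : ∀ i, rr B D (N (D i)) = rr B D ((c' • (1 : Module.End ℤ_[2] T)) (D i)) := by
    intro i
    have h3 : ∀ k, i ≠ k → rr B D (N (D i)) k = rr B D ((c' • (1 : Module.End ℤ_[2] T)) (D i)) k := by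
      intro k hik
      rw [hc' i k hik, LinearMap.smul_apply, Module.End.one_apply, rr_smul, Pi.smul_apply,
        rr_D hF.frame, dl_ne hik.symm, add_zero, smul_eq_mul, mul_one]
    funext k
    by_cases hik : i = k
    · subst hik
      have h4 := sum_rr hF.frame (N (D i))
      have h5 := sum_rr hF.frame ((c' • (1 : Module.End ℤ_[2] T)) (D i))
      rw [← Finset.add_sum_erase _ _ (Finset.mem_univ i)] at h4 h5
      have h6 : ∑ k ∈ Finset.univ.erase i, rr B D (N (D i)) k =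
          ∑ k ∈ Finset.univ.erase i, rr B D ((c' • (1 : Module.End ℤ_[2] T)) (D i)) k :=
        Finset.sum_congr rfl fun k hk => h3 k (Finset.ne_of_mem_erase hk).symm
      rw [h6] at h4
      exact add_right_cancel (h4.trans h5.symm)
    · exact h3 k hik
  obtain ⟨Z, hZ⟩ := Sm_inj hF.frame h1
  refine ⟨a + 2 ^ (j + 1) * c', Z, ?_⟩
  rw [hN, hZ, pow_succ (2 : ℤ_[2]) (j + 1)]
  module

end

end Pool.Agent.N171.TG
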