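import Mathlib
import Pool.Agent.N171.TG.Tn2
import Pool.Agent.N171.Al5

/-!
# The Lie algebra of a group with a large image modulo two: tangent vectors
-/

set_option linter.unusedSectionVars false

namespace Pool.Agent.N171.TG

open PadicInt Module Pool.Agent.N171 Pool.Agent.N171.Al Equiv

noncomputable section

variable {T : Type*} [AddCommGroup T] [Module ℤ_[2] T] [Module.Finite ℤ_[2] T]
  [Module.Free ℤ_[2] T] {Γ : Type*} [Group Γ]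
  (ρ : Representation ℤ_[2] Γ T) (χ : Γ →* ℤ_[2]ˣ) {A : Type*} [Ring A] [Algebra ℤ_[2] A]
  (t : Γ →* A) (B : T →ₗ[ℤ_[2]] T →ₗ[ℤ_[2]] ℤ_[2])

/-- The pairs of tangent vectors. -/
def Tan (X : Module.End ℤ_[2] T) (Y : A) : Prop :=
  TanA (MonoidHom.prod ρ t : Γ →* Module.End ℤ_[2] T × A) (X, Y)

variable {ρ t}

theorem Tan_zero : Tan ρ t 0 0 := by
  have h := TanA_zero (R := (MonoidHom.prod ρ t : Γ →* Module.End ℤ_[2] T × A))
  rwa [← Prod.mk_zero_zero] at h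

theorem Tan_add {X X' : Module.End ℤ_[2] T} {Y Y' : A} (h : Tan ρ t X Y) (h' : Tan ρ t X' Y') :
    Tan ρ t (X + X') (Y + Y') := by
  unfold Tan at h h' ⊢
  have h1 := TanA_add h h'
  rwa [Prod.mk_add_mk] at h1

theorem Tan_smul (c : ℤ_[2]) {X : Module.End ℤ_[2] T} {Y : A} (h : Tan ρ t X Y) :
    Tan ρ t (c • X) (c • Y) := by
  unfold Tan at h ⊢
  have h1 := TanA_smul c h
  rwa [Prod.smul_mk] at h1

theorem Tan_bracket {X X' : Module.End ℤ_[2] T} {Y Y' : A} (h : Tan ρ t X Y)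
    (h' : Tan ρ t X' Y') : Tan ρ t (X * X' - X' * X) (Y * Y' - Y' * Y) := by
  unfold Tan at h h' ⊢
  have h1 := TanA_bracket h h'
  rwa [Prod.mk_mul_mk, Prod.mk_mul_mk, Prod.mk_sub_mk] at h1

theorem Tan_cancel {X : Module.End ℤ_[2] T} {Y : A}
    (h : Tan ρ t ((2 : ℤ_[2]) • X) ((2 : ℤ_[2]) • Y)) : Tan ρ t X Y := by
  unfold Tan at h ⊢
  rw [← Prod.smul_mk] at h
  exact TanA_cancel h

/-- The logarithm of an element. -/
theorem log_Tan [Module.Finite ℤ_[2] A] [Module.Free ℤ_[2] A] {s : Γ} (j : ℕ)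
    (ht : ∃ Z, t s = 1 + (2 : ℤ_[2]) ^ (j + 2) • Z)
    {X₀ X : Module.End ℤ_[2] T} (h0 : ρ s * ρ s = 1 + (4 : ℤ_[2]) • X₀)
    (hX : ∀ n, ∃ Z, X - Ys X₀ n = (2 : ℤ_[2]) ^ n • Z) :
    ∃ Y, Tan ρ t X ((2 : ℤ_[2]) ^ (j + 1) • Y) := by
  obtain ⟨Z, hZ⟩ := ht
  have h1 : t s * t s = 1 + (4 : ℤ_[2]) • ((2 : ℤ_[2]) ^ (j + 1) •
      (Z + (2 : ℤ_[2]) ^ (j + 1) • (Z * Z))) := by
    rw [hZ]
    simp only [mul_add, add_mul, one_mul, mul_one, smul_mul_smul_comm]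
    have e1 : (4 : ℤ_[2]) * 2 ^ (j + 1) = 2 ^ (j + 2) + 2 ^ (j + 2) := by ring
    have e2 : (2 : ℤ_[2]) ^ (j + 2) * 2 ^ (j + 2) = (4 * 2 ^ (j + 1)) * 2 ^ (j + 1) := by ring
    rw [smul_smul, e2, e1]
    module
  obtain ⟨Y, Z', hY', hY⟩ := exists_logr (A := A) (j + 1) (Z + (2 : ℤ_[2]) ^ (j + 1) • (Z * Z))
  refine ⟨Z + (2 : ℤ_[2]) ^ (j + 1) • (Z * Z) + (2 : ℤ_[2]) • Z', ?_⟩
  rw [← hY']
  refine TanA_log (s := s) (X₀ := (X₀, (2 : ℤ_[2]) ^ (j + 1) •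
    (Z + (2 : ℤ_[2]) ^ (j + 1) • (Z * Z)))) ?_ fun n => ?_
  · exact Prod.ext h0 h1
  · obtain ⟨W, hW⟩ := hX n
    obtain ⟨W', hW'⟩ := hY n
    refine ⟨(W, W'), ?_⟩
    rw [Yr_prod, Yr_eq]
    exact Prod.ext hW hW'

variable (ρ t)
variable (halt : ∀ x, B x x = 0) (hnd : ∀ v, (∀ w, ¬ IsUnit (B v w)) → ∃ u, (2 : ℤ_[2]) • u = v)
  {Q : Type*} [DecidableEq Q] [Fintype Q] (π : Q → Module.End ℤ_[2] T)
  (hπ1 : ∀ x, ∑ q, π q x = x) (hππ : ∀ q x, π q (π q x) = π q x)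
  (hππ' : ∀ q r x, q ≠ r → π q (π r x) = 0)
  (hBπ : ∀ q x y, B (π q x) y = B x (π q y))

/-- The elements of the symplectic Lie algebra that act on the values through a matrix divisible by
`2 ^ b`. -/
def PLt (b : ℕ) : Submodule ℤ_[2] (Module.End ℤ_[2] T) where
  carrier := {X | X ∈ spQ B π ∧ ∃ Y, Tan ρ t X ((2 : ℤ_[2]) ^ b • Y)}
  zero_mem' := ⟨Submodule.zero_mem _, 0, by rw [smul_zero]; exact Tan_zero⟩
  add_mem' := by
    rintro X X' ⟨h, Y, hY⟩ ⟨h', Y', hY'⟩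
    exact ⟨Submodule.add_mem _ h h', Y + Y', by rw [smul_add]; exact Tan_add hY hY'⟩
  smul_mem' := by
    rintro c X ⟨h, Y, hY⟩
    exact ⟨Submodule.smul_mem _ c h, c • Y, by rw [smul_comm]; exact Tan_smul c hY⟩

theorem PLt_bracket {b : ℕ} {X X' : Module.End ℤ_[2] T} (h : X ∈ PLt ρ t B π b)
    (h' : X' ∈ PLt ρ t B π b) : X * X' - X' * X ∈ PLt ρ t B π b := by
  obtain ⟨h, Y, hY⟩ := h
  obtain ⟨h', Y', hY'⟩ := h'
  refine ⟨spQ_bracket B π h h', (2 : ℤ_[2]) ^ b • (Y * Y' - Y' * Y), ?_⟩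
  have h1 := Tan_bracket hY hY'
  simp only [smul_mul_assoc, mul_smul_comm] at h1
  rw [smul_sub, smul_sub]
  exact h1

variable {ρ t}

include halt hnd hπ1 hππ hππ' hBπ in
/-- The bootstrapping step. -/
theorem PLt_succ {b : ℕ} (hb : 1 ≤ b) (h : spQ B π ≤ PLt ρ t B π b) :
    spQ B π ≤ PLt ρ t B π (b + 1) := by
  have hle : PLt ρ t B π (b + 1) ≤ spQ B π := fun X hX => hX.1
  have h2 : ∀ X, (2 : ℤ_[2]) • X ∈ nn (PLt ρ t B π (b + 1)) := fun X =>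
    ⟨0, Submodule.zero_mem _, X, by rw [zero_add]⟩
  have hE : ∀ q u, Eo B (π q u) (π q u) ∈ nn (PLt ρ t B π (b + 1)) := by
    intro q u
    by_cases hu : ∃ w, IsUnit (B (π q u) w)
    · obtain ⟨w, c, hc⟩ := hu
      set x := π q u with hx
      set m := π q (((c⁻¹ : ℤ_[2]ˣ) : ℤ_[2]) • w) with hm
      have hxm : B x m = 1 := by
        rw [hm, ← hBπ, hx, hππ, map_smul, ← hx, ← hc, smul_eq_mul, Units.inv_mul]
      have hEx : Eo B x x ∈ spQ B π := Eo_spQ B halt π hππ hππ' hBπ q u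
      obtain ⟨-, Y, hY⟩ := h hEx
      obtain ⟨-, Y', hY'⟩ := h (Eo_spQ B halt π hππ hππ' hBπ q (((c⁻¹ : ℤ_[2]ˣ) : ℤ_[2]) • w))
      rw [← hm] at hY'
      have h3 := Tan_bracket hY hY'
      rw [bracket_Eo B halt, hxm, one_smul] at h3
      have h4 := Tan_bracket hY h3
      rw [bracket_so B halt, hxm, one_smul, halt, zero_smul, add_zero, so_self] at h4
      obtain ⟨k, rfl⟩ : ∃ k, b = k + 1 := ⟨b - 1, by omega⟩
      have h5 : (2 : ℤ_[2]) ^ (k + 1) • Y * ((2 : ℤ_[2]) ^ (k + 1) • Y * (2 : ℤ_[2]) ^ (k + 1) • Y' -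
          (2 : ℤ_[2]) ^ (k + 1) • Y' * (2 : ℤ_[2]) ^ (k + 1) • Y) -
          ((2 : ℤ_[2]) ^ (k + 1) • Y * (2 : ℤ_[2]) ^ (k + 1) • Y' -
          (2 : ℤ_[2]) ^ (k + 1) • Y' * (2 : ℤ_[2]) ^ (k + 1) • Y) * (2 : ℤ_[2]) ^ (k + 1) • Y =
          (2 : ℤ_[2]) • ((2 : ℤ_[2]) ^ (k + 1 + 1) • ((2 : ℤ_[2]) ^ (2 * k) •
            (Y * (Y * Y' - Y' * Y) - (Y * Y' - Y' * Y) * Y))) := by
        simp only [smul_mul_assoc, mul_smul_comm, mul_sub, sub_mul, smul_sub, smul_smul]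
        have e1 : (2 : ℤ_[2]) ^ (k + 1) * (2 ^ (k + 1) * 2 ^ (k + 1)) =
            2 * (2 ^ (k + 1 + 1) * 2 ^ (2 * k)) := by ring
        simp only [e1, mul_assoc]
      rw [h5] at h4
      exact ⟨Eo B x x, ⟨hEx, _, Tan_cancel h4⟩, 0, by rw [smul_zero, add_zero]⟩
    · obtain ⟨y, hy⟩ := hnd (π q u) (fun w hw => hu ⟨w, hw⟩)
      rw [← hy, Eo_smul, mul_smul]
      exact h2 _
  refine nakayama_sp B π hle ?_
  let n := Fintype.card (Module.Free.ChooseBasisIndex ℤ_[2] T)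
  let b₀ : Module.Basis (Fin n) ℤ_[2] T :=
    (Module.Free.chooseBasis ℤ_[2] T).reindex (Fintype.equivFin _)
  refine spQ_le B hnd π halt hπ1 hππ hBπ b₀ _ hE fun q u w => ?_
  have h3 : so B (π q u) (π q w) = Eo B (π q (u + w)) (π q (u + w)) -
      Eo B (π q u) (π q u) - Eo B (π q w) (π q w) := by
    rw [map_add, Eo_add]
    abel
  rw [h3]
  exact Submodule.sub_mem _ (Submodule.sub_mem _ (hE _ _) (hE _ _)) (hE _ _)


end

end Pool.Agent.N171.TG
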