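import Mathlib
import Pool.Agent.N171.TG.Tn3

/-!
# Logarithms and the Lie algebra of a group with a large image modulo two
-/

set_option linter.unusedSectionVars false

namespace Pool.Agent.N171.TG

open PadicInt Module Pool.Agent.N171 Pool.Agent.N171.Al Equiv

noncomputable section

variable {T : Type*} [AddCommGroup T] [Module ℤ_[2] T] [Module.Finite ℤ_[2] T]
  [Module.Free ℤ_[2] T] {B : T →ₗ[ℤ_[2]] T →ₗ[ℤ_[2]] ℤ_[2]} {τ : Type*} [Fintype τ]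
  [DecidableEq τ] {D : τ → T} {Γ : Type*} [Group Γ] {ρ : Representation ℤ_[2] Γ T}
  {χ : Γ →* ℤ_[2]ˣ} {A : Type*} [Ring A] [Algebra ℤ_[2] A] [Module.Finite ℤ_[2] A]
  [Module.Free ℤ_[2] A] (t : Γ →* A)

theorem Tan_cancel_pow {X : Module.End ℤ_[2] T} {Y : A} (j : ℕ)
    (h : Tan ρ t ((2 : ℤ_[2]) ^ j • X) ((2 : ℤ_[2]) ^ j • Y)) : Tan ρ t X Y := by
  induction j with
  | zero => simpa only [pow_zero, one_smul] using h
  | succ j ih =>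
    rw [pow_succ', mul_smul, mul_smul] at h
    exact ih (Tan_cancel h)

variable (hF : Big B D ρ χ)

/-- The algebra modulo two. -/
abbrev nkt (B : T →ₗ[ℤ_[2]] T →ₗ[ℤ_[2]] ℤ_[2]) (ρ : Representation ℤ_[2] Γ T) :
    Submodule ℤ_[2] (Module.End ℤ_[2] T) := nn (PLt ρ t B (p1 T) 1)

theorem nkt_two (X : Module.End ℤ_[2] T) : (2 : ℤ_[2]) • X ∈ nkt t B ρ :=
  ⟨0, Submodule.zero_mem _, X, by rw [zero_add]⟩

theorem nkt_congr {X Y Z : Module.End ℤ_[2] T} (h : X ∈ nkt t B ρ) (hZ : Y = X + (2 : ℤ_[2]) • Z) :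
    Y ∈ nkt t B ρ := by
  rw [hZ]
  exact Submodule.add_mem _ h (nkt_two t Z)

theorem nkt_bracket {X Y : Module.End ℤ_[2] T} (h : X ∈ nkt t B ρ) (h' : Y ∈ nkt t B ρ) :
    X * Y - Y * X ∈ nkt t B ρ := by
  obtain ⟨X, hX, Z, rfl⟩ := h
  obtain ⟨X', hX', Z', rfl⟩ := h'
  refine ⟨X * X' - X' * X, PLt_bracket ρ t B (p1 T) hX hX', X * Z' + Z * X' +
    (2 : ℤ_[2]) • (Z * Z') - (X' * Z + Z' * X + (2 : ℤ_[2]) • (Z' * Z)), ?_⟩
  simp only [mul_add, add_mul, smul_mul_assoc, mul_smul_comm]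
  module

include hF in
theorem log_nn (j : ℕ) {s : Γ} {N : Module.End ℤ_[2] T} {M : A}
    (h1 : χ s = 1) (h2 : ρ s = 1 + (2 : ℤ_[2]) ^ (j + 1) • N)
    (h3 : t s = 1 + (2 : ℤ_[2]) ^ (j + 2) • M) : N + (2 : ℤ_[2]) ^ j • (N * N) ∈ nkt t B ρ := by
  have h0 : ρ s * ρ s = 1 + (4 : ℤ_[2]) • ((2 : ℤ_[2]) ^ j • (N + (2 : ℤ_[2]) ^ j • (N * N))) := by
    rw [h2]
    simp only [mul_add, add_mul, one_mul, mul_one, smul_mul_smul_comm]
    have e1 : (2 : ℤ_[2]) ^ (j + 1) * 2 ^ (j + 1) = 4 * (2 ^ j * 2 ^ j) := by ring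
    rw [e1, pow_succ (2 : ℤ_[2]) j]
    generalize N * N = A
    module
  obtain ⟨X, Z, hX', hX⟩ := exists_logd j (N + (2 : ℤ_[2]) ^ j • (N * N))
  obtain ⟨Y, hY⟩ := log_Tan j ⟨M, h3⟩ h0 hX
  have h4 : X ∈ spQ B (p1 T) := gZ_le ρ χ B hF.frame.nd hF.inv (p1 T) (fun _ _ _ => rfl)
    (fun _ _ _ => rfl) (log_mem ρ χ (c := 1) (by rw [h1, Units.val_one, one_mul])
      (by rw [one_smul]; exact h0) hX)
  rw [hX'] at h4 hY
  refine ⟨N + (2 : ℤ_[2]) ^ j • (N * N) + (2 : ℤ_[2]) • Z, ⟨sp_cancel j h4, Y, ?_⟩, -Z, by module⟩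
  rw [pow_one]
  rw [pow_succ, mul_smul] at hY
  exact Tan_cancel_pow t j hY

include hF in
/-- The elements of the graph module give elements of the algebra. -/
theorem GsA_nk {j : ℕ} {S : τ → τ → ZMod 2} (hS : S ∈ GsA B D ρ χ t j) :
    ∃ N : Module.End ℤ_[2] T, (∀ i, rr B D (N (D i)) = S i) ∧
      N + (2 : ℤ_[2]) ^ j • (N * N) ∈ nkt t B ρ := by
  obtain ⟨s, N, M, h1, h2, h3, rfl⟩ := hS
  exact ⟨N, fun i => rfl, log_nn t hF j h1 h2 h3⟩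

end

end Pool.Agent.N171.TG
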