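import Mathlib
import Pool.Agent.N171.TG.Tn4

/-!
# The Lie algebra of a group with a large image modulo two
-/

set_option linter.unusedSectionVars false

namespace Pool.Agent.N171.TG

open PadicInt Module Pool.Agent.N171 Pool.Agent.N171.Al Equiv

noncomputable section

variable {T : Type*} [AddCommGroup T] [Module ℤ_[2] T] [Module.Finite ℤ_[2] T]
  [Module.Free ℤ_[2] T] {B : T →ₗ[ℤ_[2]] T →ₗ[ℤ_[2]] ℤ_[2]} {τ : Type*} [Fintype τ]
  [DecidableEq τ] {D : τ → T} (hF : Frame B D) {Γ : Type*} [Group Γ] {ρ : Representation ℤ_[2] Γ T}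
  {χ : Γ →* ℤ_[2]ˣ} {A : Type*} [Ring A] [Algebra ℤ_[2] A] [Module.Finite ℤ_[2] A]
  [Module.Free ℤ_[2] A] (t : Γ →* A)

include hF

omit hF in
theorem nkt_of_rr (hF : Frame B D) {X Y : Module.End ℤ_[2] T} (h : X ∈ nkt t B ρ)
    (hXY : ∀ i, rr B D (Y (D i)) = rr B D (X (D i))) : Y ∈ nkt t B ρ := by
  obtain ⟨Z, hZ⟩ := Sm_inj hF hXY
  exact nkt_congr t h hZ

/-- `so` depends only on the classes modulo two. -/
theorem so_congr {u u' w : T} (hu : rr B D u = rr B D u') (h : so B u w ∈ nkt t B ρ) :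
    so B u' w ∈ nkt t B ρ := by
  obtain ⟨z, hz⟩ := rr_inj hF hu.symm
  rw [hz, so_add_left, so_smul_left]
  exact Submodule.add_mem _ h (nkt_two t _)

theorem so_sub_left (u u' w : T) : so B (u - u') w = so B u w - so B u' w := by
  rw [eq_sub_iff_add_eq, ← so_add_left, sub_add_cancel]

variable (hH : ∀ a b c d, a ≠ b → c ≠ d → a ≠ c → a ≠ d → b ≠ c → b ≠ d →
  so B (D a + D b) (D c + D d) ∈ nkt t B ρ) (hn : Odd (Fintype.card τ))
  (h5 : 5 ≤ Fintype.card τ)

include hH hn in
theorem so_one {p j k : τ} (hpj : p ≠ j) (hpk : p ≠ k) (hjk : j ≠ k) :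
    so B (D p) (D j + D k) ∈ nkt t B ρ := by
  classical
  have h1 : so B (∑ i ∈ (Finset.univ.erase j).erase k, (D i + D p)) (D j + D k) ∈ nkt t B ρ := by
    have h2 : ∀ s : Finset τ, j ∉ s → k ∉ s →
        so B (∑ i ∈ s, (D i + D p)) (D j + D k) ∈ nkt t B ρ := by
      intro s
      induction s using Finset.induction_on with
      | empty =>
        intro _ _
        have h3 := so_smul_left B 0 0 (D j + D k)
        rw [zero_smul, zero_smul] at h3
        rw [Finset.sum_empty, h3]
        exact Submodule.zero_mem _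
      | insert a s ha ih =>
        intro hj hk
        rw [Finset.mem_insert, not_or] at hj hk
        rw [Finset.sum_insert ha, so_add_left]
        refine Submodule.add_mem _ ?_ (ih hj.2 hk.2)
        by_cases hap : a = p
        · subst hap
          rw [← two_smul ℤ_[2] (D a), so_smul_left]
          exact nkt_two t _
        · exact hH a p j k hap hjk (Ne.symm hj.1) (Ne.symm hk.1) hpj hpk
    exact h2 _ (by simp) (by simp)
  have h2 : rr B D (∑ i ∈ (Finset.univ.erase j).erase k, (D i + D p)) =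
      rr B D (D p + (D j + D k)) := by
    obtain ⟨y, hy⟩ := hF.sum
    have h3 : ∑ i, (D i + D p) = (2 : ℤ_[2]) • y + (Fintype.card τ : ℤ_[2]) • D p := by
      rw [Finset.sum_add_distrib, hy, Finset.sum_const, Finset.card_univ, Nat.cast_smul_eq_nsmul]
    rw [← Finset.add_sum_erase _ _ (Finset.mem_univ j),
      ← Finset.add_sum_erase _ _ (Finset.mem_erase.2 ⟨hjk.symm, Finset.mem_univ k⟩)] at h3
    have h4 : (toZMod (Fintype.card τ : ℤ_[2]) : ZMod 2) = 1 := by
      rw [map_natCast]
      exact (ZMod.natCast_eq_one_iff_odd).2 hn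
    have h5 := congrArg (rr B D) h3
    rw [rr_add, rr_add B D (D k + D p), rr_add B D ((2 : ℤ_[2]) • y), rr_two, rr_smul, h4, one_smul,
      zero_add] at h5
    have e1 := rr_self B D (D j)
    have e2 := rr_self B D (D k)
    have e3 := rr_self B D (D p)
    rw [rr_add B D (D p), rr_add B D (D j), ← h5, rr_add B D (D j), rr_add B D (D k)]
    set X := rr B D (∑ i ∈ (Finset.univ.erase j).erase k, (D i + D p)) with hX
    linear_combination - e1 - e2 - e3
  have h3 := so_congr hF t h2 h1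
  rw [so_add_left, so_self] at h3
  have h4 := Submodule.sub_mem _ h3 (nkt_two t (Eo B (D j + D k) (D j + D k)))
  rwa [add_sub_cancel_right] at h4

include hH hn h5 in
/-- All the products of the frame are congruent. -/
theorem so_two {i₀ k₀ : τ} (h₀ : i₀ ≠ k₀) {i k : τ} (hik : i ≠ k) :
    so B (D i) (D k) - so B (D i₀) (D k₀) ∈ nkt t B ρ := by
  refine pair_conn (fun a b => so B (D a) (D b) - so B (D i₀) (D k₀) ∈ nkt t B ρ)
    (fun a b h => ?_) (fun a b c hab hac hbc h => ?_) h₀ ?_ hik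
  · rwa [so_comm]
  · have h1 := so_one hF t hH hn hab hac hbc
    rw [so_add_right] at h1
    have h2 := Submodule.add_mem _ h1 h
    have h3 : so B (D a) (D c) - so B (D i₀) (D k₀) = so B (D a) (D b) + so B (D a) (D c) +
        (so B (D a) (D b) - so B (D i₀) (D k₀)) - (2 : ℤ_[2]) • so B (D a) (D b) := by
      module
    rw [h3]
    exact Submodule.sub_mem _ h2 (nkt_two t _)
  · rw [sub_self]
    exact Submodule.zero_mem _

include hH hn h5 in
/-- All the operators `so` are multiples of one operator modulo two. -/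
theorem so_three {i₀ k₀ : τ} (h₀ : i₀ ≠ k₀) (x y : T) :
    so B x y - B x y • so B (D i₀) (D k₀) ∈ nkt t B ρ := by
  have hx := hF.span x
  induction hx using Submodule.span_induction with
  | mem x hx =>
    rcases hx with ⟨i, rfl⟩ | ⟨x, rfl⟩
    · have hy := hF.span y
      induction hy using Submodule.span_induction with
      | mem y hy =>
        rcases hy with ⟨k, rfl⟩ | ⟨y, rfl⟩
        · by_cases hik : i = k
          · subst hik
            rw [hF.alt, zero_smul, sub_zero, so_self]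
            exact nkt_two t _
          · have h1 : (toZMod (B (D i) (D k) - 1) : ZMod 2) = 0 := by
              rw [map_sub, (isUnit_iff_toZMod _).1 (hF.one i k hik), map_one, sub_self]
            obtain ⟨z, hz⟩ := (toZMod_eq_zero _).1 h1
            rw [sub_eq_iff_eq_add] at hz
            rw [hz]
            have h2 := Submodule.sub_mem _ (so_two hF t hH hn h5 h₀ hik)
              (nkt_two t (z • so B (D i₀) (D k₀)))
            convert! h2 using 1
            module
        · rw [so_smul_right, map_smul, smul_eq_mul, mul_smul, ← smul_sub]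
          exact nkt_two t _
      | zero =>
        have h3 := so_smul_right B 0 (D i) 0
        rw [zero_smul, zero_smul] at h3
        rw [h3, map_zero, zero_smul, sub_zero]
        exact Submodule.zero_mem _
      | add a b _ _ ha hb =>
        have h4 := Submodule.add_mem _ ha hb
        rw [so_add_right, map_add]
        convert! h4 using 1
        module
      | smul c a _ ha =>
        have h4 := Submodule.smul_mem _ c ha
        rw [so_smul_right, map_smul, smul_eq_mul]
        convert! h4 using 1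
        module
    · rw [so_smul_left, map_smul, LinearMap.smul_apply, smul_eq_mul, mul_smul, ← smul_sub]
      exact nkt_two t _
  | zero =>
    have h3 := so_smul_left B 0 0 y
    rw [zero_smul, zero_smul] at h3
    rw [h3, map_zero, LinearMap.zero_apply, zero_smul, sub_zero]
    exact Submodule.zero_mem _
  | add a b _ _ ha hb =>
    have h4 := Submodule.add_mem _ ha hb
    rw [so_add_left, map_add, LinearMap.add_apply]
    convert! h4 using 1
    module
  | smul c a _ ha =>
    have h4 := Submodule.smul_mem _ c ha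
    rw [so_smul_left, map_smul, LinearMap.smul_apply, smul_eq_mul]
    convert! h4 using 1
    module

omit hF in
theorem sp_Z (hF : Frame B D) {u w : T} {X Z : Module.End ℤ_[2] T} (hX : X ∈ spQ B (p1 T))
    (h : so B u w = X + (2 : ℤ_[2]) • Z) : Z ∈ spQ B (p1 T) := by
  refine sp_cancel 1 ?_
  have h1 : (2 : ℤ_[2]) ^ 1 • Z = so B u w - X := by
    rw [h, pow_one]
    abel
  rw [h1]
  refine Submodule.sub_mem _ ⟨fun x y => ?_, fun _ _ => rfl⟩ hX
  rw [so_apply, so_apply]
  simp only [map_add, map_smul, LinearMap.add_apply, LinearMap.smul_apply, smul_eq_mul]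
  rw [B_anti B hF.alt x w, B_anti B hF.alt x u]
  ring

omit hF in
theorem so_comm_Z (hF : Frame B D) {u w : T} {Z : Module.End ℤ_[2] T} (hZ : Z ∈ spQ B (p1 T)) :
    so B u w * Z - Z * so B u w = -(so B (Z u) w + so B u (Z w)) := by
  ext x
  simp only [LinearMap.sub_apply, Module.End.mul_apply, so_apply, LinearMap.neg_apply,
    LinearMap.add_apply, map_add, map_smul]
  have h1 := hZ.1 u x
  have h2 := hZ.1 w x
  rw [eq_neg_of_add_eq_zero_right h1, eq_neg_of_add_eq_zero_right h2]
  module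

include hH hn h5 in
theorem comm_Z {i₀ k₀ : τ} (h₀ : i₀ ≠ k₀) {u w : T} {Z : Module.End ℤ_[2] T}
    (hZ : Z ∈ spQ B (p1 T)) : so B u w * Z - Z * so B u w ∈ nkt t B ρ := by
  rw [so_comm_Z hF hZ]
  refine Submodule.neg_mem _ ?_
  have h1 := Submodule.add_mem _ (so_three hF t hH hn h5 h₀ (Z u) w)
    (so_three hF t hH hn h5 h₀ u (Z w))
  have h2 := hZ.1 u w
  convert! h1 using 1
  rw [eq_neg_of_add_eq_zero_right h2]
  module

include hH hn h5 in
/-- The operators of rank one. -/
theorem Eo_of {i₀ k₀ : τ} (h₀ : i₀ ≠ k₀) {u w w' : T} (huw : B u w = 0) (huw' : B u w' = 0)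
    (hww : IsUnit (B w w')) : Eo B u u ∈ nkt t B ρ := by
  have h1 := so_three hF t hH hn h5 h₀ u w
  have h2 := so_three hF t hH hn h5 h₀ u w'
  rw [huw, zero_smul, sub_zero] at h1
  rw [huw', zero_smul, sub_zero] at h2
  obtain ⟨X, hX, Z, hXZ⟩ := h1
  obtain ⟨X', hX', Z', hXZ'⟩ := h2
  have hZ := sp_Z hF hX.1 hXZ
  have hZ' := sp_Z hF hX'.1 hXZ'
  have c1 := comm_Z hF t hH hn h5 h₀ (u := u) (w := w) hZ'
  have c2 := comm_Z hF t hH hn h5 h₀ (u := u) (w := w') hZ
  have hwu : B w u = 0 := by rw [B_anti B hF.alt, huw, neg_zero]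
  have hwu' : B w' u = 0 := by rw [B_anti B hF.alt, huw', neg_zero]
  have e1 : so B u w * so B u w' - so B u w' * so B u w = (2 : ℤ_[2]) • (B w w' • Eo B u u) := by
    ext x
    simp only [LinearMap.sub_apply, Module.End.mul_apply, so_apply, LinearMap.smul_apply, map_add,
      map_smul, huw, huw', hwu, hwu', hF.alt, Eo_apply]
    rw [B_anti B hF.alt w' w]
    module
  have e2 : X * X' - X' * X = (2 : ℤ_[2]) • (B w w' • Eo B u u -
      ((so B u w * Z' - Z' * so B u w) - (so B u w' * Z - Z * so B u w')) +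
      (2 : ℤ_[2]) • (Z * Z' - Z' * Z)) := by
    rw [smul_add, smul_sub, ← e1]
    have hX1 : X = so B u w - (2 : ℤ_[2]) • Z := by rw [hXZ]; abel
    have hX2 : X' = so B u w' - (2 : ℤ_[2]) • Z' := by rw [hXZ']; abel
    rw [hX1, hX2]
    simp only [mul_sub, sub_mul, smul_mul_assoc, mul_smul_comm]
    module
  obtain ⟨hXs, Y, hY⟩ := hX
  obtain ⟨hXs', Y', hY'⟩ := hX'
  have h3 := Tan_bracket hY hY'
  have h4 : (2 : ℤ_[2]) ^ 1 • Y * (2 : ℤ_[2]) ^ 1 • Y' - (2 : ℤ_[2]) ^ 1 • Y' * (2 : ℤ_[2]) ^ 1 • Y =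
      (2 : ℤ_[2]) • ((2 : ℤ_[2]) ^ 1 • (Y * Y' - Y' * Y)) := by
    simp only [smul_mul_assoc, mul_smul_comm, smul_sub, pow_one]
  have h5 := spQ_bracket B (p1 T) hXs hXs'
  rw [e2] at h3 h5
  rw [h4] at h3
  have h6 := Tan_cancel h3
  have h7 := sp_cancel 1 (by rw [pow_one]; exact h5)
  have h8 : B w w' • Eo B u u - ((so B u w * Z' - Z' * so B u w) -
      (so B u w' * Z - Z * so B u w')) + (2 : ℤ_[2]) • (Z * Z' - Z' * Z) ∈ nkt t B ρ :=
    ⟨_, ⟨h7, _, h6⟩, 0, by rw [smul_zero, add_zero]⟩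
  have h9 := Submodule.add_mem _ (Submodule.sub_mem _ h8 (nkt_two t (Z * Z' - Z' * Z)))
    (Submodule.sub_mem _ c1 c2)
  rw [add_sub_cancel_right, sub_add_cancel] at h9
  exact mem_of_unit_smul (nkt t B ρ) hww h9

include hH hn h5 in
/-- All the transvections of the pairs. -/
theorem Eo_pair {a b : τ} (hab : a ≠ b) : Eo B (D a + D b) (D a + D b) ∈ nkt t B ρ := by
  obtain ⟨c, e, hce, hca, hcb, -, hea, heb, -⟩ := exists_two h5 a b b
  obtain ⟨f, hf⟩ := exists_notMem ({a, b, c, e} : Finset τ)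
    (lt_of_le_of_lt Finset.card_le_four (by omega))
  simp only [Finset.mem_insert, Finset.mem_singleton, not_or] at hf
  obtain ⟨hfa, hfb, hfc, hfe⟩ := hf
  set u := D a + D b with hu
  have hua : IsUnit (B u (D a)) := by
    rw [hu, map_add, LinearMap.add_apply, hF.alt, zero_add]
    exact hF.one b a hab.symm
  obtain ⟨ε, hε⟩ := hua
  have key : ∀ x : T, (toZMod (B u x) : ZMod 2) = 0 → ∃ w, B u w = 0 ∧ rr B D w = rr B D x := by
    intro x hx
    refine ⟨x - (((ε⁻¹ : ℤ_[2]ˣ) : ℤ_[2]) * B u x) • D a, ?_, ?_⟩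
    · rw [map_sub, map_smul, ← hε, smul_eq_mul]
      have h1 : ((ε⁻¹ : ℤ_[2]ˣ) : ℤ_[2]) * (ε : ℤ_[2]) = 1 := Units.inv_mul ε
      linear_combination (-(B u x)) * h1
    · rw [rr_sub, rr_smul, map_mul, hx, mul_zero, zero_smul, add_zero]
  obtain ⟨w, hw1, hw2⟩ := key (D c + D e) (by
    rw [hu, pair_B hF, dl_ne hca, dl_ne hcb, dl_ne hea, dl_ne heb]
    rfl)
  obtain ⟨w', hw1', hw2'⟩ := key (D e + D f) (by
    rw [hu, pair_B hF, dl_ne hea, dl_ne heb, dl_ne hfa, dl_ne hfb]
    rfl)
  refine Eo_of hF t hH hn h5 hab hw1 hw1' ?_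
  rw [isUnit_iff_toZMod, B_rr hF hw2, B_symm2 hF, B_rr hF hw2', B_symm2 hF, pair_B hF,
    dl_ne hce.symm, dl_self, dl_ne hfc, dl_ne hfe]
  rfl

end

end Pool.Agent.N171.TG
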