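import Mathlib
import Pool.Agent.N171.TG.Tn5

/-!
# The Lie algebra of a group with a large image modulo two
-/

set_option linter.unusedSectionVars false

namespace Pool.Agent.N171.TG

open PadicInt Module Pool.Agent.N171 Pool.Agent.N171.Al Equiv

noncomputable section

variable {T : Type*} [AddCommGroup T] [Module ℤ_[2] T] [Module.Finite ℤ_[2] T]
  [Module.Free ℤ_[2] T] {B : T →ₗ[ℤ_[2]] T →ₗ[ℤ_[2]] ℤ_[2]} {τ : Type*} [Fintype τ]
  [DecidableEq τ] {D : τ → T} {Γ : Type*} [Group Γ] {ρ : Representation ℤ_[2] Γ T}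
  {χ : Γ →* ℤ_[2]ˣ} {A : Type*} [Ring A] [Algebra ℤ_[2] A] [Module.Finite ℤ_[2] A]
  [Module.Free ℤ_[2] A] (t : Γ →* A) (hF : Big B D ρ χ)
  {σ : Γ} {m : ℕ}
  (hσ : ∃ N, ρ σ = 1 + (2 : ℤ_[2]) • N) (hσt : ∃ M, t σ = 1 + (2 : ℤ_[2]) ^ m • M)
  (hσm : ¬ ∃ (a : ℤ_[2]) (Z : Module.End ℤ_[2] T), ρ σ = a • 1 + (2 : ℤ_[2]) ^ m • Z)

include hF hσ hσt hσm in
/-- All the transvections of the pairs belong to the algebra modulo two. -/
theorem Eo_all {a b : τ} (hab : a ≠ b) : Eo B (D a + D b) (D a + D b) ∈ nkt t B ρ := by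
  have hfr := hF.frame
  have hn := hF.odd
  have h5 := hF.five
  obtain ⟨j, hj⟩ := exists_levelA t hF hσ hσt hσm
  rcases alt_main (GsA_stab t hF j) hn h5 hj with hc | hc
  · cases j with
    | zero =>
      obtain ⟨N, hN, hk⟩ := GsA_nk t hF (hc a b hab)
      rw [pow_zero, one_smul] at hk
      exact nkt_of_rr t hfr hk fun i => (cut_sq hfr hn hab hN i).symm
    | succ j =>
      have key : ∀ a b, a ≠ b → ∃ N : Module.End ℤ_[2] T,
          (∀ i, rr B D (N (D i)) = W a b (fl a b) i) ∧ N ∈ nkt t B ρ := by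
        intro a b hab
        obtain ⟨N, hN, hk⟩ := GsA_nk t hF (hc a b hab)
        refine ⟨N, hN, ?_⟩
        have h1 := Submodule.sub_mem _ hk (nkt_two t ((2 : ℤ_[2]) ^ j • (N * N)))
        rwa [smul_smul, ← pow_succ', add_sub_cancel_right] at h1
      refine Eo_pair hfr t (fun a b c d hab hcd hac had hbc hbd => ?_) hn h5 hab
      obtain ⟨N, hN, hk⟩ := key a b hab
      obtain ⟨N', hN', hk'⟩ := key c d hcd
      exact nkt_of_rr t hfr (nkt_bracket t hk hk') fun i =>
        (cut_comm hfr hn hab hcd hac had hbc hbd hN hN' i).symm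
  · refine Eo_pair hfr t (fun a b c d hab hcd hac had hbc hbd => ?_) hn h5 hab
    obtain ⟨N, hN, hk⟩ := GsA_nk t hF (hc a b c d hab hcd hac had hbc hbd)
    have h1 : ∀ i, rr B D (N (D i)) = rr B D (so B (D a + D b) (D c + D d) (D i)) := by
      intro i
      rw [hN, rr_so hfr, rr_pair hfr, rr_pair hfr]
      funext k
      rw [W_apply]
      have h2 : ∑ l, (dl c + dl d : τ → ZMod 2) l = 0 := by
        simp only [Pi.add_apply, Finset.sum_add_distrib, sum_dl]
        rfl
      rw [h2, mul_zero, ite_self, add_zero]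
      rfl
    have h2 : (toZMod (B (D a + D b) (D c + D d)) : ZMod 2) = 0 := by
      rw [pair_B hfr, dl_ne hac.symm, dl_ne hbc.symm, dl_ne had.symm, dl_ne hbd.symm]
      rfl
    refine nkt_of_rr t hfr hk fun i => ?_
    obtain ⟨Z, hZ⟩ := Sm_inj hfr h1
    have h3 : rr B D (N (N (D i))) = 0 := by
      rw [rr_map hfr N (h1 i)]
      conv_lhs => rw [hZ]
      rw [LinearMap.add_apply, LinearMap.smul_apply, rr_add, rr_two, add_zero, so_sq hfr h2]
    rw [LinearMap.add_apply, LinearMap.smul_apply, Module.End.mul_apply, rr_add, rr_smul, h3,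
      smul_zero, add_zero, h1]

include hF hσ hσt hσm in
/-- The symplectic Lie algebra acts on the values through even matrices. -/
theorem PLt_one : spQ B (p1 T) ≤ PLt ρ t B (p1 T) 1 := by
  classical
  have hfr := hF.frame
  have hle : PLt ρ t B (p1 T) 1 ≤ spQ B (p1 T) := fun X hX => hX.1
  obtain ⟨i₀, -⟩ := exists_notMem (∅ : Finset τ) (by
    rw [Finset.card_empty]
    have := hF.five
    omega)
  let v : {k : τ // k ≠ i₀} → T := fun k => D k + D i₀
  let q : {k : τ // k ≠ i₀} → Unit := fun _ => ()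
  have hv : ∀ k, Eo B (v k) (v k) ∈ nkt t B ρ := fun k => Eo_all t hF hσ hσt hσm k.2
  have hconn : ∀ k l, q k = q l → Relation.ReflTransGen (Adj B v q) k l := by
    intro k l _
    by_cases hkl : k = l
    · rw [hkl]
    · refine Relation.ReflTransGen.single ⟨rfl, ?_⟩
      rw [isUnit_iff_toZMod]
      change toZMod (B (D k + D i₀) (D l + D i₀)) = 1
      have hkl' : (l : τ) ≠ k := fun h => hkl (Subtype.ext h.symm)
      rw [pair_B hfr, dl_ne hkl', dl_ne l.2, dl_ne k.2.symm, dl_self]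
      rfl
  have h0 : D i₀ ∈ Wq v q () := by
    obtain ⟨y, hy⟩ := hfr.sum
    obtain ⟨r, hr⟩ := hF.odd
    have h1 : ∀ s : Finset τ, ∑ i ∈ s, (D i + D i₀) ∈ Wq v q () := by
      intro s
      refine Submodule.sum_mem _ fun i _ => ?_
      by_cases hi : i = i₀
      · subst hi
        exact Submodule.subset_span (Or.inr ⟨D i, two_smul _ _⟩)
      · exact Submodule.subset_span (Or.inl ⟨⟨i, hi⟩, rfl, rfl⟩)
    have h2 := h1 Finset.univ
    rw [Finset.sum_add_distrib, hy, Finset.sum_const, Finset.card_univ, hr] at h2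
    have h3 : (2 : ℤ_[2]) • (y + (r : ℤ_[2]) • D i₀) ∈ Wq v q () :=
      Submodule.subset_span (Or.inr ⟨_, rfl⟩)
    have h4 := Submodule.sub_mem _ h2 h3
    have h5 : (2 : ℤ_[2]) • y + (2 * r + 1) • D i₀ - (2 : ℤ_[2]) • (y + (r : ℤ_[2]) • D i₀) =
        D i₀ := by
      rw [← Nat.cast_smul_eq_nsmul ℤ_[2]]
      push_cast
      module
    rwa [h5] at h4
  have hspan : ∀ x, x ∈ Wq v q () := by
    intro x
    have hx := hfr.span x
    induction hx using Submodule.span_induction with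
    | mem x hx =>
      rcases hx with ⟨i, rfl⟩ | ⟨y, rfl⟩
      · by_cases hi : i = i₀
        · rw [hi]
          exact h0
        · have h1 : D i + D i₀ ∈ Wq v q () := Submodule.subset_span (Or.inl ⟨⟨i, hi⟩, rfl, rfl⟩)
          have h2 := Submodule.sub_mem _ h1 h0
          rwa [add_sub_cancel_right] at h2
      · exact Submodule.subset_span (Or.inr ⟨y, rfl⟩)
    | zero => exact Submodule.zero_mem _
    | add a b _ _ ha hb => exact Submodule.add_mem _ ha hb
    | smul c a _ ha => exact Submodule.smul_mem _ c ha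
  refine nakayama_sp B (p1 T) hle ?_
  let n := Fintype.card (Module.Free.ChooseBasisIndex ℤ_[2] T)
  let b₀ : Module.Basis (Fin n) ℤ_[2] T :=
    (Module.Free.chooseBasis ℤ_[2] T).reindex (Fintype.equivFin _)
  exact spQ_le B hfr.nd (p1 T) hfr.alt (fun x => by simp) (fun _ _ => rfl) (fun _ _ _ => rfl) b₀
    (nn (PLt ρ t B (p1 T) 1))
    (fun c u => Eo_mem B hfr.alt v q _ (nkt_two t) (fun X hX Y hY => nkt_bracket t hX hY) hv
      hconn (hspan u))
    (fun c u w => so_mem B hfr.alt v q _ (nkt_two t) (fun X hX Y hY => nkt_bracket t hX hY) hv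
      hconn (hspan u) (hspan w))

include hF hσ hσt hσm in
/-- The Lie algebra contains the symplectic Lie algebra. -/
theorem Tan_all {X : Module.End ℤ_[2] T} (hX : X ∈ spQ B (p1 T)) : Tan ρ t X 0 := by
  have key : ∀ b, spQ B (p1 T) ≤ PLt ρ t B (p1 T) (b + 1) := by
    intro b
    induction b with
    | zero => exact PLt_one t hF hσ hσt hσm
    | succ b ih =>
      exact PLt_succ B hF.frame.alt hF.frame.nd (p1 T) (fun x => by simp)
        (fun _ _ => rfl) (fun _ _ _ h => absurd rfl h) (fun _ _ _ => rfl) (Nat.succ_pos b) ih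
  refine TanA_closed fun b => ?_
  obtain ⟨-, Y, hY⟩ := key b hX
  refine ⟨(0, (2 : ℤ_[2]) • Y), ?_⟩
  unfold Tan at hY
  rw [Prod.smul_mk, Prod.mk_add_mk, smul_zero, add_zero, zero_add, smul_smul, ← pow_succ]
  exact hY

end

end Pool.Agent.N171.TG
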