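import Mathlib
import Pool.Agent.N171.TG.Tn6
import Pool.Agent.N171.Bg4

/-!
# Sums of lattices with large images modulo two: joint tangent vectors
-/

set_option linter.unusedSectionVars false

namespace Pool.Agent.N171.TG

open PadicInt Module Pool.Agent.N171 Pool.Agent.N171.Al Pool.Agent.N171.Bg Equiv

noncomputable section

variable {ι : Type*} [Fintype ι] [DecidableEq ι] {T : ι → Type*} [∀ i, AddCommGroup (T i)]
  [∀ i, Module ℤ_[2] (T i)] {Γ : Type*} [Group Γ] [∀ i, Module.Finite ℤ_[2] (T i)]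
  [∀ i, Module.Free ℤ_[2] (T i)]
  (ρ : ∀ i, Representation ℤ_[2] Γ (T i))
  {B : ∀ i, T i →ₗ[ℤ_[2]] T i →ₗ[ℤ_[2]] ℤ_[2]} {τ : ι → Type*} [∀ i, Fintype (τ i)]
  [∀ i, DecidableEq (τ i)] {D : ∀ i, τ i → T i} (χ : ι → Γ →* ℤ_[2]ˣ)

/-- The joint action. -/
def joint : Γ →* (∀ i, Module.End ℤ_[2] (T i)) := MonoidHom.pi ρ

/-- The action on the other summands. -/
def others (i : ι) : Γ →* (∀ j, Module.End ℤ_[2] (T j)) where
  toFun s := fun j => if j = i then 1 else ρ j s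
  map_one' := by
    funext j
    by_cases h : j = i
    · rw [if_pos h]
      rfl
    · rw [if_neg h, map_one]
      rfl
  map_mul' s s' := by
    funext j
    rw [Pi.mul_apply]
    by_cases h : j = i
    · rw [if_pos h, if_pos h, if_pos h, one_mul]
    · rw [if_neg h, if_neg h, if_neg h, map_mul]

theorem others_self (i : ι) (s : Γ) : others ρ i s i = 1 := if_pos rfl

theorem others_ne {i j : ι} (h : j ≠ i) (s : Γ) : others ρ i s j = ρ j s := if_neg h

/-- A tangent vector of a summand gives a joint tangent vector. -/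
theorem tan_single {i : ι} {X : Module.End ℤ_[2] (T i)} (h : Tan (ρ i) (others ρ i) X 0) :
    TanA (joint ρ) (Pi.single i X) := by
  intro m
  obtain ⟨n₀, h0⟩ := h m
  refine ⟨n₀, fun n hn => ?_⟩
  obtain ⟨σ, ⟨Z, Z'⟩, hσ⟩ := h0 n hn
  have h1 := congrArg Prod.fst hσ
  have h2 := congrArg Prod.snd hσ
  refine ⟨σ, fun j => if h : j = i then h ▸ Z else Z' j, ?_⟩
  funext j
  by_cases hj : j = i
  · subst hj
    rw [Pi.add_apply, Pi.smul_apply, Pi.add_apply, Pi.smul_apply, Pi.single_eq_same, dif_pos rfl]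
    exact h1
  · have h3 := congrFun h2 j
    rw [Pi.add_apply, Pi.smul_apply, Pi.add_apply, Pi.smul_apply, Pi.single_eq_of_ne hj,
      dif_neg hj]
    have h4 : others ρ i σ j = ρ j σ := others_ne ρ hj σ
    change ρ j σ = _
    rw [← h4]
    exact h3

theorem tan_sum {S : Finset ι} {X : ∀ i, Module.End ℤ_[2] (T i)}
    (h : ∀ i ∈ S, TanA (joint ρ) (Pi.single i (X i))) :
    TanA (joint ρ) (∑ i ∈ S, Pi.single i (X i)) := by
  induction S using Finset.induction_on with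
  | empty =>
    rw [Finset.sum_empty]
    exact TanA_zero
  | insert a S ha ih =>
    rw [Finset.sum_insert ha]
    exact TanA_add (h a (Finset.mem_insert_self a S))
      (ih fun i hi => h i (Finset.mem_insert_of_mem hi))

/-- Some element is trivial modulo two on the summand, trivial modulo `2 ^ m` on the other ones
and on the values, but not a scalar modulo `2 ^ m` on the summand. -/
def SepX (i : ι) : Prop := ∃ (m : ℕ) (σ : Γ), (∃ N, ρ i σ = 1 + (2 : ℤ_[2]) • N) ∧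
  (∀ j, j ≠ i → ∃ N, ρ j σ = 1 + (2 : ℤ_[2]) ^ m • N) ∧
  ¬ ∃ (a : ℤ_[2]) (Z : Module.End ℤ_[2] (T i)), ρ i σ = a • 1 + (2 : ℤ_[2]) ^ m • Z

/-- The action on the frames. -/
structure PermsX (P : ∀ i, Γ →* Perm (τ i)) : Prop where
  frame : ∀ i, Frame (B i) (D i)
  inv : ∀ i s x y, B i (ρ i s x) (ρ i s y) = (χ i s : ℤ_[2]) * B i x y
  act : ∀ i s k, rr (B i) (D i) (ρ i s (D i k)) = rr (B i) (D i) (D i (P i s k))
  onto : ∀ i, OnAlt (P i) ⊤
  card : ∀ i, 6 ≤ Fintype.card (τ i)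
  odd : ∀ i, Odd (Fintype.card (τ i))

variable {ρ χ} {P : ∀ i, Γ →* Perm (τ i)} (h : PermsX ρ (B := B) (D := D) χ P)

include h in
theorem PermsX.big (i : ι) : Big (B i) (D i) (ρ i) (χ i) :=
  ⟨h.frame i, h.inv i, fun π hπ => by
    obtain ⟨s, -, hs⟩ := h.onto i π hπ
    exact ⟨s, fun k => by rw [h.act, hs]⟩, by have := h.card i; omega, h.odd i⟩

include h in
theorem PermsX.ker_le (i : ι) {s : Γ} (hs : P i s = 1) : s ∈ lev (ρ i) 1 := by
  obtain ⟨Z, hZ⟩ := Sm_inj (h.frame i) (N := ρ i s) (N' := 1) (fun k => by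
    rw [h.act, hs]
    rfl)
  exact ⟨Z, by rw [pow_one, ← hZ]⟩

include h in
/-- **The separation.** -/
theorem PermsX.sep (hsep : ∀ i j, j ≠ i → ∃ s, P j s = 1 ∧ P i s ≠ 1) (i : ι) : SepX ρ i := by
  classical
  have h5 : 5 ≤ Fintype.card (τ i) := by have := h.card i; omega
  have hon := h.onto i
  -- the elements which are trivial modulo two on the other lattices
  obtain ⟨M, hM, hMon, hMle⟩ := onAlt_iInf (P i) h5 hon (Finset.univ.erase i)
    (N := fun j => (P j).ker) (fun j => inferInstance) fun j hj => by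
      obtain ⟨s, hs, hs'⟩ := hsep i j (Finset.ne_of_mem_erase hj)
      exact onAlt_of (P i) h5 hon inferInstance ⟨s, hs, hs'⟩
  let χ' : Γ →* ℤ_[2] := (Units.coeHom ℤ_[2]).comp (χ i)
  have hn : (⨅ j, ⨅ _ : j ≠ i, lev (ρ j) 2).Normal :=
    Subgroup.normal_iInf_normal fun j => Subgroup.normal_iInf_normal fun _ => lev_normal _ _
  have hn2 : ((⨅ j, ⨅ _ : j ≠ i, lev (ρ j) 2) ⊓ lev χ' 2).Normal := inferInstance
  have h2 := onAlt_sq (P i) h5 hon hn2 hMon fun s hs => by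
    refine Subgroup.mem_inf.2 ⟨?_, ?_⟩
    · rw [Subgroup.mem_iInf]
      intro j
      rw [Subgroup.mem_iInf]
      intro hj
      refine lev_sq (ρ j) (h.ker_le j ?_)
      exact hMle j (Finset.mem_erase.2 ⟨hj, Finset.mem_univ j⟩) hs
    · refine lev_sq χ' ?_
      have h3 : (toZMod ((χ i s : ℤ_[2]) - 1) : ZMod 2) = 0 := by
        rw [map_sub, (isUnit_iff_toZMod _).1 (χ i s).isUnit, map_one, sub_self]
      obtain ⟨z, hz⟩ := (toZMod_eq_zero _).1 h3
      refine ⟨z, ?_⟩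
      change (χ i s : ℤ_[2]) = _
      rw [pow_one, smul_eq_mul, ← hz]
      ring
  obtain ⟨π, i₀, p, r, hπ, hππ, hi₀, hp, hr, hpr⟩ := exists_dt (h.card i)
  obtain ⟨g, hg0, hg⟩ := h2 π hπ
  obtain ⟨hg1, hg3⟩ := Subgroup.mem_inf.1 hg0
  rw [Subgroup.mem_iInf] at hg1
  have hact : ∀ k, rr (B i) (D i) (ρ i g (D i k)) = rr (B i) (D i) (D i (π k)) := fun k => by
    rw [h.act, hg]
  refine ⟨2, g * g, ?_, fun j hj => ?_, ?_⟩
  · rw [map_mul]
    exact sq_trivial (h.frame i) hact hππ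
  · have h3 := hg1 j
    rw [Subgroup.mem_iInf] at h3
    exact (lev (ρ j) 2).mul_mem (h3 hj) (h3 hj)
  · rw [map_mul]
    obtain ⟨z, hz⟩ := hg3
    refine sq_not_scalar (h.frame i) (χ := χ i g) ⟨z, ?_⟩ (h.inv i g) hact hi₀ hp hr hpr
    have h3 : (χ i g : ℤ_[2]) = 1 + (2 : ℤ_[2]) ^ 2 • z := hz
    rw [h3, smul_eq_mul]
    norm_num

include h in
/-- **All vectors of the symplectic Lie algebras are joint tangent vectors.** -/
theorem PermsX.tan (hsep : ∀ i j, j ≠ i → ∃ s, P j s = 1 ∧ P i s ≠ 1)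
    {X : ∀ i, Module.End ℤ_[2] (T i)} (hX : ∀ i, X i ∈ spQ (B i) (p1 (T i))) :
    TanA (joint ρ) X := by
  have h1 : X = ∑ i, Pi.single i (X i) := (Finset.univ_sum_single X).symm
  rw [h1]
  refine tan_sum ρ fun i _ => tan_single ρ ?_
  obtain ⟨m, σ, h2, h3, h4⟩ := h.sep hsep i
  refine Tan_all (others ρ i) (h.big i) h2 ?_ h4 (hX i)
  choose N hN using h3
  refine ⟨fun j => if hj : j = i then 0 else N j hj, ?_⟩
  funext j
  by_cases hj : j = i
  · subst hj
    rw [others_self, Pi.add_apply, Pi.smul_apply, dif_pos rfl, smul_zero, add_zero]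
    rfl
  · rw [others_ne ρ hj, Pi.add_apply, Pi.smul_apply, dif_neg hj, hN j hj]
    rfl

/-! ### the subgroup of the elements which permute the frames -/

section sub

variable (ρ B D) in
/-- The elements which permute the frames modulo two. -/
def permSub (hF : ∀ i, Frame (B i) (D i)) : Subgroup Γ where
  carrier := {s | ∀ i, ∃ π : Perm (τ i), ∀ k,
    rr (B i) (D i) (ρ i s (D i k)) = rr (B i) (D i) (D i (π k))}
  one_mem' := fun i => ⟨1, fun k => by rw [map_one]; rfl⟩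
  mul_mem' := by
    intro s s' hs hs' i
    obtain ⟨π, hπ⟩ := hs i
    obtain ⟨π', hπ'⟩ := hs' i
    refine ⟨π * π', fun k => ?_⟩
    rw [map_mul, Module.End.mul_apply, rr_map (hF i) _ (hπ' k), hπ]
    rfl
  inv_mem' := by
    intro s hs i
    obtain ⟨π, hπ⟩ := hs i
    refine ⟨π⁻¹, fun k => ?_⟩
    have h1 := rr_map (hF i) (ρ i s⁻¹) (hπ (π⁻¹ k))
    have h2 : ρ i s⁻¹ (ρ i s (D i (π⁻¹ k))) = D i (π⁻¹ k) := by
      rw [← Module.End.mul_apply, ← map_mul, inv_mul_cancel, map_one]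
      rfl
    rw [h2] at h1
    rw [h1]
    simp

theorem rr_D_inj {T : Type*} [AddCommGroup T] [Module ℤ_[2] T] [Module.Finite ℤ_[2] T]
    [Module.Free ℤ_[2] T] {B : T →ₗ[ℤ_[2]] T →ₗ[ℤ_[2]] ℤ_[2]} {τ : Type*} [Fintype τ]
    [DecidableEq τ] {D : τ → T} (hF : Frame B D) {i j : τ} (h : rr B D (D i) = rr B D (D j)) :
    i = j := by
  by_contra hij
  have h1 := congrFun h i
  rw [rr_D hF, rr_D hF, dl_self, dl_ne hij] at h1
  exact absurd h1 (by decide)

variable {hF : ∀ i, Frame (B i) (D i)}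

/-- The permutation of a frame. -/
def permHom (i : ι) : permSub ρ B D hF →* Perm (τ i) where
  toFun s := Classical.choose (s.2 i)
  map_one' := by
    ext k
    apply rr_D_inj (hF i)
    rw [← Classical.choose_spec ((1 : permSub ρ B D hF).2 i) k]
    change rr (B i) (D i) (ρ i 1 (D i k)) = _
    rw [map_one]
    rfl
  map_mul' s s' := by
    ext k
    apply rr_D_inj (hF i)
    rw [← Classical.choose_spec ((s * s').2 i) k]
    change rr (B i) (D i) (ρ i (s.1 * s'.1) (D i k)) = _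
    rw [map_mul, Module.End.mul_apply, rr_map (hF i) _ (Classical.choose_spec (s'.2 i) k),
      Classical.choose_spec (s.2 i)]
    rfl

theorem permHom_spec (i : ι) (s : permSub ρ B D hF) (k : τ i) :
    rr (B i) (D i) (ρ i s.1 (D i k)) = rr (B i) (D i) (D i (permHom i s k)) :=
  Classical.choose_spec (s.2 i) k

theorem permHom_eq (i : ι) (s : permSub ρ B D hF) {π : Perm (τ i)}
    (h : ∀ k, rr (B i) (D i) (ρ i s.1 (D i k)) = rr (B i) (D i) (D i (π k))) :
    permHom i s = π := by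
  ext k
  apply rr_D_inj (hF i)
  rw [← permHom_spec, h]

end sub

/-- **Large images modulo two give joint tangent vectors.** -/
theorem tan_of_large (hF : ∀ i, Frame (B i) (D i))
    (hinv : ∀ i s x y, B i (ρ i s x) (ρ i s y) = (χ i s : ℤ_[2]) * B i x y)
    (hcard : ∀ i, 6 ≤ Fintype.card (τ i)) (hodd : ∀ i, Odd (Fintype.card (τ i)))
    (hbig : ∀ i (π : Perm (τ i)), Perm.sign π = 1 → ∃ s,
      (∀ k, rr (B i) (D i) (ρ i s (D i k)) = rr (B i) (D i) (D i (π k))) ∧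
      ∀ j, j ≠ i → ∃ N, ρ j s = 1 + (2 : ℤ_[2]) • N)
    {X : ∀ i, Module.End ℤ_[2] (T i)} (hX : ∀ i, X i ∈ spQ (B i) (p1 (T i))) :
    TanA (joint ρ) X := by
  let Γ₁ := permSub ρ B D hF
  have hone : ∀ (i j : ι) (_ : j ≠ i) (s : Γ) (_ : ∃ N, ρ j s = 1 + (2 : ℤ_[2]) • N) (k : τ j),
      rr (B j) (D j) (ρ j s (D j k)) = rr (B j) (D j) (D j ((1 : Perm (τ j)) k)) := by
    rintro i j - s ⟨N, hN⟩ k
    rw [hN, LinearMap.add_apply, LinearMap.smul_apply, rr_add, rr_two, add_zero]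
    rfl
  have hex : ∀ i (π : Perm (τ i)), Perm.sign π = 1 → ∃ s : Γ₁, permHom i s = π ∧
      ∀ j, j ≠ i → permHom j s = 1 := by
    intro i π hπ
    obtain ⟨s, hs, hs'⟩ := hbig i π hπ
    have hmem : s ∈ Γ₁ := by
      intro j
      by_cases hj : j = i
      · subst hj
        exact ⟨π, hs⟩
      · exact ⟨1, hone i j hj s (hs' j hj)⟩
    exact ⟨⟨s, hmem⟩, permHom_eq i ⟨s, hmem⟩ hs,
      fun j hj => permHom_eq j ⟨s, hmem⟩ (hone i j hj s (hs' j hj))⟩
  have hP : PermsX (fun i => (ρ i).comp Γ₁.subtype) (B := B) (D := D)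
      (fun i => (χ i).comp Γ₁.subtype) (fun i => permHom i) := by
    refine ⟨hF, fun i s x y => hinv i s.1 x y, fun i s k => permHom_spec i s k, fun i π hπ => ?_,
      hcard, hodd⟩
    obtain ⟨s, hs, -⟩ := hex i π hπ
    exact ⟨s, Subgroup.mem_top s, hs⟩
  have h1 := hP.tan (fun i j hji => by
    obtain ⟨g, -, hg, -, -, hne⟩ := exists_cyc_ne (τ := τ i) (by have := hcard i; omega)
    obtain ⟨s, hs, hs'⟩ := hex i g hg
    refine ⟨s, hs' j hji, ?_⟩
    rw [hs]
    rintro rfl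
    exact hne (one_mul 1)) hX
  intro m
  obtain ⟨n₀, h2⟩ := h1 m
  refine ⟨n₀, fun n hn => ?_⟩
  obtain ⟨σ, Z, hσ⟩ := h2 n hn
  exact ⟨σ.1, Z, hσ⟩

end

end Pool.Agent.N171.TG
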