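import Mathlib
import Pool.Agent.N171.TG.Tn7

/-!
# Frames in the lattice of integral vectors
-/

set_option linter.unusedSectionVars false

namespace Pool.Agent.N171.TG

open PadicInt Module Matrix Pool.Agent.N171 Pool.Agent.N171.Al Equiv

noncomputable section

variable {N : ℕ} {J : Matrix (Fin N) (Fin N) ℤ_[2]}

theorem form_apply (J : Matrix (Fin N) (Fin N) ℤ_[2]) (x y : Fin N → ℤ_[2]) :
    Matrix.toBilin' J x y = x ⬝ᵥ J *ᵥ y := Matrix.toBilin'_apply' J x y

theorem form_alt (hJ : Jᵀ = -J) (x : Fin N → ℤ_[2]) : x ⬝ᵥ J *ᵥ x = 0 := by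
  have h1 : x ⬝ᵥ J *ᵥ x = -(x ⬝ᵥ J *ᵥ x) := by
    conv_lhs => rw [dotProduct_mulVec, ← mulVec_transpose, hJ, neg_mulVec, neg_dotProduct,
      dotProduct_comm]
  have h2 : (2 : ℤ_[2]) * (x ⬝ᵥ J *ᵥ x) = 0 := by linear_combination h1
  exact (mul_eq_zero.1 h2).resolve_left two_ne_zero

/-- The matrix with zeros on the diagonal and ones elsewhere is invertible modulo two. -/
theorem offdiag_sq (hN : Even N) :
    (Matrix.of fun a b : Fin N => (if a = b then 0 else 1 : ZMod 2)) *
      (Matrix.of fun a b : Fin N => (if a = b then 0 else 1 : ZMod 2)) = 1 := by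
  ext a b
  rw [Matrix.mul_apply]
  simp only [Matrix.of_apply]
  have hN2 : ((N : ℕ) : ZMod 2) = 0 := (ZMod.natCast_eq_zero_iff_even).2 hN
  have h1 : ∀ c : Fin N, (if a = c then (0 : ZMod 2) else 1) * (if c = b then 0 else 1) =
      1 + (if a = c then 1 else 0) + (if c = b then 1 else 0) + if a = c ∧ c = b then 1 else 0 := by
    intro c
    by_cases h1 : a = c
    · by_cases h2 : c = b
      · rw [if_pos h1, if_pos h2, if_pos h1, if_pos h2, if_pos ⟨h1, h2⟩]
        decide
      · rw [if_pos h1, if_neg h2, if_pos h1, if_neg h2, if_neg (fun h => h2 h.2)]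
        decide
    · by_cases h2 : c = b
      · rw [if_neg h1, if_pos h2, if_neg h1, if_pos h2, if_neg (fun h => h1 h.1)]
        decide
      · rw [if_neg h1, if_neg h2, if_neg h1, if_neg h2, if_neg (fun h => h1 h.1)]
        decide
  rw [Finset.sum_congr rfl fun c _ => h1 c]
  simp only [Finset.sum_add_distrib]
  rw [Finset.sum_const, Finset.card_univ, Fintype.card_fin, nsmul_eq_mul, hN2, zero_mul, zero_add,
    Finset.sum_ite_eq, if_pos (Finset.mem_univ a), Finset.sum_ite_eq', if_pos (Finset.mem_univ b),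
    Matrix.one_apply]
  by_cases hab : a = b
  · subst hab
    have h2 : ∀ c : Fin N, (if a = c ∧ c = a then (1 : ZMod 2) else 0) = if a = c then 1 else 0 := by
      intro c
      by_cases h : a = c
      · simp [h]
      · simp [h]
    rw [Finset.sum_congr rfl fun c _ => h2 c, Finset.sum_ite_eq, if_pos (Finset.mem_univ a),
      if_pos rfl]
    decide
  · rw [if_neg hab, Finset.sum_eq_zero]
    · decide
    · intro c _
      rw [if_neg]
      rintro ⟨rfl, rfl⟩
      exact hab rfl

/-- **Vectors with odd products are a frame.** -/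
theorem frame_of (hN : Even N) (hJ : Jᵀ = -J) {D : Fin (N + 1) → Fin N → ℤ_[2]}
    (hD : ∀ a b, a ≠ b → IsUnit (D a ⬝ᵥ J *ᵥ D b)) : Frame (Matrix.toBilin' J) D := by
  classical
  let V : Matrix (Fin N) (Fin N) ℤ_[2] := Matrix.of fun a => D a.castSucc
  have hG : ∀ a b, (V * J * Vᵀ) a b = D a.castSucc ⬝ᵥ J *ᵥ D b.castSucc := by
    intro a b
    rw [Matrix.mul_assoc, Matrix.mul_apply']
    rfl
  have hGmod : (V * J * Vᵀ).map (toZMod : ℤ_[2] →+* ZMod 2) =
      Matrix.of fun a b : Fin N => (if a = b then 0 else 1 : ZMod 2) := by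
    ext a b
    rw [Matrix.map_apply, hG, Matrix.of_apply]
    by_cases hab : a = b
    · subst hab
      rw [form_alt hJ, map_zero, if_pos rfl]
    · rw [if_neg hab]
      exact (isUnit_iff_toZMod _).1 (hD _ _ fun h => hab (Fin.castSucc_injective N h))
  have hdet : IsUnit (V * J * Vᵀ).det := by
    rw [isUnit_iff_toZMod]
    have h1 : (toZMod : ℤ_[2] →+* ZMod 2) (V * J * Vᵀ).det =
        ((V * J * Vᵀ).map (toZMod : ℤ_[2] →+* ZMod 2)).det := by
      rw [RingHom.map_det]
      rfl
    rw [h1, hGmod]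
    have h2 := congrArg Matrix.det (offdiag_sq (N := N) hN)
    rw [Matrix.det_mul, Matrix.det_one] at h2
    rcases zmod_two_cases (Matrix.of fun a b : Fin N => (if a = b then 0 else 1 : ZMod 2)).det
      with h3 | h3
    · rw [h3, mul_zero] at h2
      exact absurd h2 (by decide)
    · exact h3
  rw [Matrix.det_mul, Matrix.det_mul] at hdet
  have hV : IsUnit V.det := isUnit_of_mul_isUnit_left (isUnit_of_mul_isUnit_left hdet)
  have hJu : IsUnit J.det := isUnit_of_mul_isUnit_right (isUnit_of_mul_isUnit_left hdet)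
  have hspan : ∀ x : Fin N → ℤ_[2], ∃ c : Fin N → ℤ_[2], x = ∑ a, c a • D a.castSucc := by
    intro x
    refine ⟨x ᵥ* V⁻¹, ?_⟩
    have h1 : (x ᵥ* V⁻¹) ᵥ* V = x := by
      rw [vecMul_vecMul, Matrix.nonsing_inv_mul _ hV, vecMul_one]
    rw [Matrix.vecMul_eq_sum] at h1
    exact h1.symm
  have hnd : ∀ v : Fin N → ℤ_[2], (∀ w, ¬ IsUnit (Matrix.toBilin' J v w)) →
      ∃ u, (2 : ℤ_[2]) • u = v := by
    intro v hv
    have h1 : ∀ a, ∃ y, (v ᵥ* J) a = 2 * y := by
      intro a
      rw [← toZMod_eq_zero]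
      rcases zmod_two_cases (toZMod ((v ᵥ* J) a) : ZMod 2) with h | h
      · exact h
      · refine absurd ((isUnit_iff_toZMod _).2 h) ?_
        have h2 := hv (Pi.single a 1)
        rw [form_apply, dotProduct_mulVec] at h2
        rwa [dotProduct_single_one] at h2
    choose y hy using h1
    refine ⟨y ᵥ* J⁻¹, ?_⟩
    have h2 : v ᵥ* J = (2 : ℤ_[2]) • y := funext fun a => by
      rw [hy, Pi.smul_apply, smul_eq_mul]
    rw [← smul_vecMul, ← h2, vecMul_vecMul, Matrix.mul_nonsing_inv _ hJu, vecMul_one]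
  refine ⟨fun x => by rw [form_apply, form_alt hJ], hnd, fun i j hij => by
    rw [form_apply]; exact hD i j hij, ?_, fun x => ?_⟩
  · obtain ⟨u, hu⟩ := hnd (∑ i, D i) (fun w => by
      rw [isUnit_iff_toZMod]
      have h1 : (toZMod (Matrix.toBilin' J (∑ i, D i) w) : ZMod 2) = 0 := by
        obtain ⟨c, rfl⟩ := hspan w
        simp only [map_sum, map_smul, LinearMap.sum_apply, smul_eq_mul, map_mul]
        refine Finset.sum_eq_zero fun b _ => ?_
        have h2 : ∑ a, (toZMod (Matrix.toBilin' J (D a) (D b.castSucc)) : ZMod 2) = 0 := by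
          rw [← Finset.add_sum_erase _ _ (Finset.mem_univ b.castSucc), form_apply, form_alt hJ,
            map_zero, zero_add]
          have h3 : ∀ a ∈ Finset.univ.erase b.castSucc,
              (toZMod (Matrix.toBilin' J (D a) (D b.castSucc)) : ZMod 2) = 1 := by
            intro a ha
            rw [form_apply]
            exact (isUnit_iff_toZMod _).1 (hD _ _ (Finset.ne_of_mem_erase ha))
          rw [Finset.sum_congr rfl h3, Finset.sum_const, Finset.card_erase_of_mem
            (Finset.mem_univ _), Finset.card_univ, Fintype.card_fin, nsmul_eq_mul, mul_one,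
            Nat.add_sub_cancel]
          exact (ZMod.natCast_eq_zero_iff_even).2 hN
        rw [h2, mul_zero]
      rw [h1]
      decide)
    exact ⟨u, hu.symm⟩
  · obtain ⟨c, rfl⟩ := hspan x
    exact Submodule.sum_mem _ fun a _ => Submodule.smul_mem _ _
      (Submodule.subset_span (Or.inl ⟨_, rfl⟩))

end

end Pool.Agent.N171.TG
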