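import Pool.Agent.R932.PO.JLie
import Pool.Agent.N171.TG.Tn8

/-!
# From the image modulo two to the Lie algebra of the 2-adic image
-/

set_option linter.unusedSectionVars false

namespace Pool.Agent.N171.TG

open PadicInt Module Matrix Filter Topology Pool.Agent.N171 Pool.Agent.N171.Al Equiv
open Pool.Agent.Y142.ZO Pool.Agent.Y142.ZS Pool.Agent.R932.PO

noncomputable section

/-! ### integral matrices -/

section mat

variable {N : ℕ}

/-- The matrix of 2-adic integers. -/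
def matZ (A : Matrix (Fin N) (Fin N) ℚ_[2]) (h : ∀ a b, ‖A a b‖ ≤ 1) :
    Matrix (Fin N) (Fin N) ℤ_[2] := Matrix.of fun a b => ⟨A a b, h a b⟩

abbrev cZ : ℤ_[2] →+* ℚ_[2] := PadicInt.Coe.ringHom

theorem matZ_map {A : Matrix (Fin N) (Fin N) ℚ_[2]} (h : ∀ a b, ‖A a b‖ ≤ 1) :
    (matZ A h).map cZ = A := by
  ext a b
  rfl

theorem map_cZ_inj {m n : Type} {A B : Matrix m n ℤ_[2]} (h : A.map cZ = B.map cZ) : A = B := by
  ext a b
  have h1 : cZ (A a b) = cZ (B a b) := congrFun (congrFun h a) b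
  exact Subtype.ext h1

variable {Γ : Type} [Group Γ] (ρ : Γ →* Matrix (Fin N) (Fin N) ℚ_[2])
  (h : ∀ g a b, ‖ρ g a b‖ ≤ 1)

/-- The action on the lattice. -/
def repM : Γ →* Matrix (Fin N) (Fin N) ℤ_[2] where
  toFun g := matZ (ρ g) (h g)
  map_one' := by
    apply map_cZ_inj
    rw [matZ_map, map_one, Matrix.map_one _ (map_zero cZ) (map_one cZ)]
  map_mul' g g' := by
    apply map_cZ_inj
    rw [matZ_map, map_mul, Matrix.map_mul, matZ_map, matZ_map]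

theorem repM_map (g : Γ) : (repM ρ h g).map cZ = ρ g := matZ_map (h g)

/-- The action on the lattice. -/
def repZ : Representation ℤ_[2] Γ (Fin N → ℤ_[2]) :=
  ((Matrix.toLinAlgEquiv' : Matrix (Fin N) (Fin N) ℤ_[2] ≃ₐ[ℤ_[2]] _) :
    Matrix (Fin N) (Fin N) ℤ_[2] →* Module.End ℤ_[2] (Fin N → ℤ_[2])).comp (repM ρ h)

theorem repZ_apply (g : Γ) (x : Fin N → ℤ_[2]) : repZ ρ h g x = repM ρ h g *ᵥ x :=
  Matrix.toLinAlgEquiv'_apply _ _

end mat

theorem norm_lt_iff (z : ℤ_[2]) : ‖(z : ℚ_[2])‖ < 1 ↔ (toZMod z : ZMod 2) = 0 := by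
  rw [toZMod_eq_zero]
  have h1 : ‖(z : ℚ_[2])‖ = ‖z‖ := rfl
  rw [h1, PadicInt.norm_lt_one_iff_dvd]
  constructor
  · rintro ⟨y, hy⟩
    exact ⟨y, by rw [hy]; norm_num⟩
  · rintro ⟨y, hy⟩
    exact ⟨y, by rw [hy]; norm_num⟩

theorem norm_eq_iff (z : ℤ_[2]) : ‖(z : ℚ_[2])‖ = 1 ↔ IsUnit z :=
  (PadicInt.isUnit_iff (z := z)).symm

/-- Joint tangent vectors over the 2-adic integers give joint tangent vectors over the 2-adic
numbers. -/
theorem jtan_of_tanA {ι : Type} [Fintype ι] {N : ι → ℕ} {Γ : Type} [Group Γ]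
    (ρ : ∀ i, Γ →* Matrix (Fin (N i)) (Fin (N i)) ℚ_[2]) (h : ∀ i g a b, ‖ρ i g a b‖ ≤ 1)
    (X : ∀ i, Matrix (Fin (N i)) (Fin (N i)) ℤ_[2])
    (hX : TanA (joint fun i => repZ (ρ i) (h i)) fun i => Matrix.toLinAlgEquiv' (X i)) :
    JTan 2 ρ fun i => (X i).map cZ := by
  classical
  have key : ∀ m : ℕ, ∃ n₀ : ℕ, ∀ n, n₀ ≤ n → ∃ (σ : Γ),
      ∀ i, ∃ Z : Matrix (Fin (N i)) (Fin (N i)) ℤ_[2],
        repM (ρ i) (h i) σ = 1 + (2 : ℤ_[2]) ^ n • (X i + (2 : ℤ_[2]) ^ m • Z) := by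
    intro m
    obtain ⟨n₀, h0⟩ := hX m
    refine ⟨n₀, fun n hn => ?_⟩
    obtain ⟨σ, Z, hσ⟩ := h0 n hn
    refine ⟨σ, fun i => ⟨(Matrix.toLinAlgEquiv' : Matrix (Fin (N i)) (Fin (N i)) ℤ_[2] ≃ₐ[ℤ_[2]]
      _).symm (Z i), ?_⟩⟩
    apply (Matrix.toLinAlgEquiv' : Matrix (Fin (N i)) (Fin (N i)) ℤ_[2] ≃ₐ[ℤ_[2]] _).injective
    rw [map_add, map_one, map_smul, map_add, map_smul, AlgEquiv.apply_symm_apply]
    exact congrFun hσ i
  choose n₀ h0 using key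
  let P : ℕ → ℕ → Prop := fun n m => n₀ m ≤ n
  have hσ : ∀ n : ℕ, ∃ σ : Γ, (∃ m ≤ n, n₀ m ≤ n) →
      ∀ i, ∃ Z : Matrix (Fin (N i)) (Fin (N i)) ℤ_[2], repM (ρ i) (h i) σ =
        1 + (2 : ℤ_[2]) ^ n • (X i + (2 : ℤ_[2]) ^ (Nat.findGreatest (P n) n) • Z) := by
    intro n
    by_cases hn : ∃ m ≤ n, n₀ m ≤ n
    · obtain ⟨m, hm, hmn⟩ := hn
      have h1 : P n (Nat.findGreatest (P n) n) := Nat.findGreatest_spec (P := P n) hm hmn
      obtain ⟨σ, hσ⟩ := h0 _ n h1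
      exact ⟨σ, fun _ => hσ⟩
    · exact ⟨1, fun h' => absurd h' hn⟩
  choose σ hσ using hσ
  refine ⟨σ, fun i => ?_⟩
  refine tendsto_pi_nhds.2 fun a => tendsto_pi_nhds.2 fun b => ?_
  rw [Metric.tendsto_atTop]
  intro ε hε
  obtain ⟨m, hm⟩ := exists_pow_lt_of_lt_one hε (by norm_num : (2 : ℝ)⁻¹ < 1)
  refine ⟨max m (n₀ m), fun n hn => ?_⟩
  have hmn : m ≤ n := (le_max_left _ _).trans hn
  have hmn' : n₀ m ≤ n := (le_max_right _ _).trans hn
  obtain ⟨Z, hZ⟩ := hσ n ⟨m, hmn, hmn'⟩ i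
  have hle : m ≤ Nat.findGreatest (P n) n := Nat.le_findGreatest hmn hmn'
  set M := Nat.findGreatest (P n) n with hM
  have h2 : (2 : ℚ_[2]) ≠ 0 := two_ne_zero
  have h1 : ρ i (σ n) = 1 + (2 : ℚ_[2]) ^ n • ((X i).map cZ + (2 : ℚ_[2]) ^ M • Z.map cZ) := by
    rw [← repM_map (ρ i) (h i), hZ]
    ext a b
    simp only [Matrix.map_apply, Matrix.add_apply, Matrix.smul_apply, smul_eq_mul, map_add,
      map_mul, map_pow, Matrix.one_apply]
    congr 1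
    split_ifs <;> simp
  have h3 : ((((2 : ℕ) : ℚ_[2]) ^ n)⁻¹ • (ρ i (σ n) - 1)) a b = ((X i).map cZ) a b +
      (2 : ℚ_[2]) ^ M * (Z a b : ℚ_[2]) := by
    rw [h1, add_sub_cancel_left, smul_smul]
    norm_num
  rw [h3, dist_eq_norm, add_sub_cancel_left, norm_mul, norm_pow]
  have h4 : ‖(2 : ℚ_[2])‖ = (2 : ℝ)⁻¹ := by
    have := @Padic.norm_p 2 _
    exact_mod_cast this
  rw [h4]
  calc (2 : ℝ)⁻¹ ^ M * ‖(Z a b : ℚ_[2])‖ ≤ (2 : ℝ)⁻¹ ^ M * 1 :=
        mul_le_mul_of_nonneg_left (Z a b).2 (by positivity)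
    _ ≤ (2 : ℝ)⁻¹ ^ m := by
      rw [mul_one]
      exact pow_le_pow_of_le_one (by norm_num) (by norm_num) hle
    _ < ε := hm

/-- `J` alternating: the products with a tangent matrix. -/
theorem mem_spQ {N : ℕ} {J X : Matrix (Fin N) (Fin N) ℤ_[2]} (hX : Xᵀ * J + J * X = 0) :
    (Matrix.toLinAlgEquiv' X : Module.End ℤ_[2] (Fin N → ℤ_[2])) ∈
      spQ (Matrix.toBilin' J) (p1 (Fin N → ℤ_[2])) := by
  refine ⟨fun x y => ?_, fun _ _ => rfl⟩
  rw [Matrix.toLinAlgEquiv'_apply, Matrix.toLinAlgEquiv'_apply, form_apply, form_apply]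
  have h1 : (X *ᵥ x) ⬝ᵥ J *ᵥ y = x ⬝ᵥ (Xᵀ * J) *ᵥ y := by
    rw [← mulVec_mulVec, dotProduct_mulVec x, vecMul_transpose]
  rw [h1, mulVec_mulVec, ← dotProduct_add, ← add_mulVec, hX, zero_mulVec, dotProduct_zero]

/-- some power of two times a matrix is integral -/
theorem exists_scale {ι : Type} [Fintype ι] {N : ι → ℕ}
    (X : ∀ i, Matrix (Fin (N i)) (Fin (N i)) ℚ_[2]) :
    ∃ k : ℕ, ∀ i a b, ‖((2 : ℚ_[2]) ^ k • X i) a b‖ ≤ 1 := by
  have h0 : ∀ z : ℚ_[2], ∃ k : ℕ, ∀ l, k ≤ l → ‖(2 : ℚ_[2]) ^ l * z‖ ≤ 1 := by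
    intro z
    obtain ⟨k, hk⟩ := exists_pow_lt_of_lt_one (show (0 : ℝ) < (‖z‖ + 1)⁻¹ by positivity)
      (by norm_num : (2 : ℝ)⁻¹ < 1)
    refine ⟨k, fun l hl => ?_⟩
    have h4 : ‖(2 : ℚ_[2])‖ = (2 : ℝ)⁻¹ := by
      have := @Padic.norm_p 2 _
      exact_mod_cast this
    rw [norm_mul, norm_pow, h4]
    have h5 : (2 : ℝ)⁻¹ ^ l ≤ (‖z‖ + 1)⁻¹ :=
      (pow_le_pow_of_le_one (by norm_num) (by norm_num) hl).trans hk.le
    calc (2 : ℝ)⁻¹ ^ l * ‖z‖ ≤ (‖z‖ + 1)⁻¹ * (‖z‖ + 1) :=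
          mul_le_mul h5 (by linarith) (norm_nonneg _) (by positivity)
      _ = 1 := inv_mul_cancel₀ (by positivity)
  choose k hk using fun i a b => h0 (X i a b)
  refine ⟨∑ i, ∑ a, ∑ b, k i a b, fun i a b => ?_⟩
  rw [Matrix.smul_apply, smul_eq_mul]
  refine hk i a b _ ?_
  calc k i a b ≤ ∑ b, k i a b := Finset.single_le_sum (fun _ _ => Nat.zero_le _) (Finset.mem_univ b)
    _ ≤ ∑ a, ∑ b, k i a b := Finset.single_le_sum (f := fun a => ∑ b, k i a b)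
      (fun _ _ => Nat.zero_le _) (Finset.mem_univ a)
    _ ≤ _ := Finset.single_le_sum (f := fun i => ∑ a, ∑ b, k i a b)
      (fun _ _ => Nat.zero_le _) (Finset.mem_univ i)

/-- The multiplier as a character with values in the 2-adic units. -/
def chiZ {Γ : Type} [Group Γ] (c : Γ →* ℚ_[2]) (hc : ∀ g, ‖c g‖ ≤ 1) : Γ →* ℤ_[2]ˣ :=
  MonoidHom.toHomUnits
    { toFun := fun g => (⟨c g, hc g⟩ : ℤ_[2])
      map_one' := Subtype.ext (map_one c)
      map_mul' := fun g g' => Subtype.ext (map_mul c g g') }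

theorem chiZ_coe {Γ : Type} [Group Γ] (c : Γ →* ℚ_[2]) (hc : ∀ g, ‖c g‖ ≤ 1) (g : Γ) :
    (((chiZ c hc g : ℤ_[2]ˣ) : ℤ_[2]) : ℚ_[2]) = c g := rfl

/-- **From the image modulo two to the Lie algebra of the 2-adic image.** -/
theorem jtan_of_large {ι : Type} [Fintype ι] [DecidableEq ι] {N : ι → ℕ} {Γ : Type} [Group Γ]
    (ρ : ∀ i, Γ →* Matrix (Fin (N i)) (Fin (N i)) ℚ_[2])
    (J : ∀ i, Matrix (Fin (N i)) (Fin (N i)) ℚ_[2]) (c : ι → Γ →* ℚ_[2])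
    (hev : ∀ i, Even (N i)) (h6 : ∀ i, 6 ≤ N i) (hJ : ∀ i, (J i)ᵀ = -J i)
    (hint : ∀ i g a b, ‖ρ i g a b‖ ≤ 1) (hJint : ∀ i a b, ‖J i a b‖ ≤ 1)
    (hsim : ∀ i g, (ρ i g)ᵀ * J i * ρ i g = c i g • J i)
    (e : ∀ i, Fin (N i + 1) → Fin (N i) → ℚ_[2]) (heint : ∀ i a b, ‖e i a b‖ ≤ 1)
    (he : ∀ i a b, a ≠ b → ‖e i a ⬝ᵥ J i *ᵥ e i b‖ = 1)
    (hbig : ∀ i (π : Perm (Fin (N i + 1))), Perm.sign π = 1 → ∃ g,
      (∀ a b, ‖(ρ i g *ᵥ e i a - e i (π a)) b‖ < 1) ∧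
      ∀ j, j ≠ i → ∀ a b, ‖(ρ j g - 1) a b‖ < 1)
    (X : ∀ i, Matrix (Fin (N i)) (Fin (N i)) ℚ_[2]) (hX : ∀ i, SpLie (J i) (X i)) :
    JTan 2 ρ X := by
  classical
  -- the integral data
  let Jz : ∀ i, Matrix (Fin (N i)) (Fin (N i)) ℤ_[2] := fun i => matZ (J i) (hJint i)
  let D : ∀ i, Fin (N i + 1) → Fin (N i) → ℤ_[2] := fun i a b => ⟨e i a b, heint i a b⟩
  have hDe : ∀ i a, (fun b => cZ (D i a b)) = e i a := fun i a => rfl
  have hdot : ∀ {n : ℕ} (x y : Fin n → ℤ_[2]) (A : Matrix (Fin n) (Fin n) ℤ_[2]),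
      cZ (x ⬝ᵥ A *ᵥ y) = (fun b => cZ (x b)) ⬝ᵥ (A.map cZ) *ᵥ (fun b => cZ (y b)) := by
    intro n x y A
    simp only [dotProduct, mulVec, map_sum, map_mul, Matrix.map_apply]
  have hJz : ∀ i, (Jz i)ᵀ = -Jz i := by
    intro i
    apply map_cZ_inj
    have h1 : ((Jz i)ᵀ).map cZ = (J i)ᵀ := rfl
    have h2 : (-Jz i).map cZ = -J i := by
      ext a b
      rw [Matrix.map_apply, Matrix.neg_apply, map_neg]
      rfl
    rw [h1, h2, hJ]
  have hF : ∀ i, Frame (Matrix.toBilin' (Jz i)) (D i) := by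
    intro i
    refine frame_of (hev i) (hJz i) fun a b hab => ?_
    rw [← norm_eq_iff]
    have h1 : ((D i a ⬝ᵥ Jz i *ᵥ D i b : ℤ_[2]) : ℚ_[2]) = e i a ⬝ᵥ J i *ᵥ e i b :=
      hdot (D i a) (D i b) (Jz i)
    rw [h1]
    exact he i a b hab
  -- the multipliers are integral
  have hc : ∀ i g, ‖c i g‖ ≤ 1 := by
    intro i g
    have h0 : (0 : Fin (N i + 1)) ≠ Fin.last (N i) := by
      intro h
      have := congrArg Fin.val h
      rw [Fin.val_last, Fin.val_zero] at this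
      have := h6 i
      omega
    have h1 : c i g * (e i 0 ⬝ᵥ J i *ᵥ e i (Fin.last (N i))) =
        (ρ i g *ᵥ e i 0) ⬝ᵥ J i *ᵥ (ρ i g *ᵥ e i (Fin.last (N i))) := by
      have e1 : (ρ i g *ᵥ e i 0) ⬝ᵥ J i *ᵥ (ρ i g *ᵥ e i (Fin.last (N i))) =
          e i 0 ⬝ᵥ ((ρ i g)ᵀ * J i * ρ i g) *ᵥ e i (Fin.last (N i)) := by
        rw [← mulVec_mulVec, ← mulVec_mulVec, dotProduct_mulVec (e i 0), vecMul_transpose]
      rw [e1, hsim, smul_mulVec, dotProduct_smul, smul_eq_mul]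
    have h2 : (ρ i g *ᵥ e i 0) ⬝ᵥ J i *ᵥ (ρ i g *ᵥ e i (Fin.last (N i))) =
        cZ ((repM (ρ i) (hint i) g *ᵥ D i 0) ⬝ᵥ Jz i *ᵥ
          (repM (ρ i) (hint i) g *ᵥ D i (Fin.last (N i)))) := by
      rw [hdot]
      have h3 : ∀ a, (fun b => cZ ((repM (ρ i) (hint i) g *ᵥ D i a) b)) = ρ i g *ᵥ e i a := by
        intro a
        funext b
        simp only [mulVec, dotProduct, map_sum, map_mul]
        rfl
      rw [h3, h3]
      rfl
    have h4 := congrArg norm h1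
    rw [norm_mul, he i _ _ h0, mul_one, h2] at h4
    rw [h4]
    exact PadicInt.norm_le_one _
  -- the group
  obtain ⟨𝔤, h𝔤, -, -⟩ := jlie 2 ι N Γ ρ
  obtain ⟨k, hk⟩ := exists_scale X
  have h2k : ((2 : ℚ_[2]) ^ k) ≠ 0 := pow_ne_zero k two_ne_zero
  have hmain : JTan 2 ρ fun i => (2 : ℚ_[2]) ^ k • X i := by
    let Xz : ∀ i, Matrix (Fin (N i)) (Fin (N i)) ℤ_[2] := fun i =>
      matZ ((2 : ℚ_[2]) ^ k • X i) (hk i)
    have hXz : ∀ i, (Xz i)ᵀ * Jz i + Jz i * Xz i = 0 := by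
      intro i
      apply map_cZ_inj
      have h1 : ((Xz i)ᵀ).map cZ = ((2 : ℚ_[2]) ^ k • X i)ᵀ := rfl
      have h2 : (Xz i).map cZ = (2 : ℚ_[2]) ^ k • X i := rfl
      have h3 : (Jz i).map cZ = J i := rfl
      have h4 : ((Xz i)ᵀ * Jz i + Jz i * Xz i).map cZ = ((Xz i)ᵀ).map cZ * (Jz i).map cZ +
          (Jz i).map cZ * (Xz i).map cZ := by
        rw [← Matrix.map_mul, ← Matrix.map_mul]
        ext a b
        rw [Matrix.map_apply, Matrix.add_apply, map_add]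
        rfl
      rw [h4, h1, h2, h3, transpose_smul, smul_mul_assoc, mul_smul_comm, ← smul_add]
      have h5 : (X i)ᵀ * J i + J i * X i = 0 := hX i
      rw [h5, smul_zero]
      ext a b
      rw [Matrix.map_apply, Matrix.zero_apply, Matrix.zero_apply, map_zero]
    have h1 := jtan_of_tanA ρ hint Xz (tan_of_large (χ := fun i => chiZ (c i) (hc i))
      (B := fun i => Matrix.toBilin' (Jz i)) (D := D) hF (fun i s x y => ?_) (fun i => ?_)
      (fun i => ?_) (fun i π hπ => ?_) (X := fun i => Matrix.toLinAlgEquiv' (Xz i))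
      fun i => mem_spQ (hXz i))
    · exact h1
    · rw [repZ_apply, repZ_apply, form_apply, form_apply]
      have e1 : (repM (ρ i) (hint i) s *ᵥ x) ⬝ᵥ Jz i *ᵥ (repM (ρ i) (hint i) s *ᵥ y) =
          x ⬝ᵥ ((repM (ρ i) (hint i) s)ᵀ * Jz i * repM (ρ i) (hint i) s) *ᵥ y := by
        rw [← mulVec_mulVec, ← mulVec_mulVec, dotProduct_mulVec x, vecMul_transpose]
      have e2 : (repM (ρ i) (hint i) s)ᵀ * Jz i * repM (ρ i) (hint i) s =
          ((chiZ (c i) (hc i) s : ℤ_[2]ˣ) : ℤ_[2]) • Jz i := by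
        apply map_cZ_inj
        rw [Matrix.map_mul, Matrix.map_mul, repM_map]
        have h3 : ((repM (ρ i) (hint i) s)ᵀ).map cZ = (ρ i s)ᵀ := rfl
        have h4 : (Jz i).map cZ = J i := rfl
        rw [h3, h4, hsim]
        ext a b
        rw [Matrix.map_apply, Matrix.smul_apply, Matrix.smul_apply, smul_eq_mul, smul_eq_mul,
          map_mul]
        rfl
      rw [e1, e2, smul_mulVec, dotProduct_smul, smul_eq_mul]
    · rw [Fintype.card_fin]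
      have := h6 i
      omega
    · rw [Fintype.card_fin]
      exact (hev i).add_one
    · obtain ⟨g, hg, hg'⟩ := hbig i π hπ
      refine ⟨g, fun a => ?_, fun j hj => ?_⟩
      · have h3 : ∀ b, (toZMod ((repM (ρ i) (hint i) g *ᵥ D i a - D i (π a)) b) : ZMod 2) = 0 := by
          intro b
          rw [← norm_lt_iff]
          have h4 : (((repM (ρ i) (hint i) g *ᵥ D i a - D i (π a)) b : ℤ_[2]) : ℚ_[2]) =
              (ρ i g *ᵥ e i a - e i (π a)) b := by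
            rw [Pi.sub_apply, Pi.sub_apply]
            have h5 : cZ ((repM (ρ i) (hint i) g *ᵥ D i a) b - D i (π a) b) =
                (ρ i g *ᵥ e i a) b - e i (π a) b := by
              rw [map_sub]
              simp only [mulVec, dotProduct, map_sum, map_mul]
              rfl
            exact h5
          rw [h4]
          exact hg a b
        have h6 : ∃ z, repM (ρ i) (hint i) g *ᵥ D i a - D i (π a) = (2 : ℤ_[2]) • z := by
          choose z hz using fun b => (toZMod_eq_zero _).1 (h3 b)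
          exact ⟨z, funext fun b => by rw [hz, Pi.smul_apply, smul_eq_mul]⟩
        obtain ⟨z, hz⟩ := h6
        rw [repZ_apply, ← sub_add_cancel (repM (ρ i) (hint i) g *ᵥ D i a) (D i (π a)), hz, rr_add,
          rr_two, zero_add]
      · have h3 : ∀ a b, (toZMod ((repM (ρ j) (hint j) g - 1) a b) : ZMod 2) = 0 := by
          intro a b
          rw [← norm_lt_iff]
          have h4 : (((repM (ρ j) (hint j) g - 1) a b : ℤ_[2]) : ℚ_[2]) = (ρ j g - 1) a b := by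
            have h5 : cZ ((repM (ρ j) (hint j) g - 1) a b) = (ρ j g - 1) a b := by
              rw [Matrix.sub_apply, Matrix.sub_apply, map_sub, Matrix.one_apply, Matrix.one_apply]
              congr 1
              split_ifs <;> simp
            exact h5
          rw [h4]
          exact hg' j hj a b
        choose z hz using fun a b => (toZMod_eq_zero _).1 (h3 a b)
        have h4 : repM (ρ j) (hint j) g = 1 + (2 : ℤ_[2]) • Matrix.of z := by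
          ext a b
          rw [Matrix.add_apply, Matrix.smul_apply, Matrix.of_apply, smul_eq_mul, ← hz,
            Matrix.sub_apply]
          ring
        refine ⟨Matrix.toLinAlgEquiv' (Matrix.of z), ?_⟩
        change Matrix.toLinAlgEquiv' (repM (ρ j) (hint j) g) = _
        rw [h4, map_add, map_one, map_smul]
  have h3 := 𝔤.smul_mem ((2 : ℚ_[2]) ^ k)⁻¹ ((h𝔤 _).2 hmain)
  have h4 : ((2 : ℚ_[2]) ^ k)⁻¹ • (fun i => (2 : ℚ_[2]) ^ k • X i) = X := by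
    funext i
    rw [Pi.smul_apply, smul_smul, inv_mul_cancel₀ h2k, one_smul]
  rw [h4] at h3
  exact (h𝔤 X).1 h3

end

end Pool.Agent.N171.TG
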