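import Pool.Agent.N171.TG.Sv2
import Pool.Agent.N171.TG.Tn9
import Pool.Agent.N536.OP.Words

/-!
# Project TG: the final theorem
-/

set_option autoImplicit false
set_option linter.unusedSectionVars false
set_option linter.style.haveILetI false

open Matrix Polynomial Filter Topology NumberField IsDedekindDomain Module
open Pool.Agent.Y142.ZO Pool.Agent.Y142.ZI Pool.Agent.Y142.ZS
open Pool.Agent.R932.OP Pool.Agent.R932.EV Pool.Agent.R932.PO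

namespace Pool.Agent.N171.TG

section
variable {K : Type} [Field K] [NumberField K] {ι : Type} [Fintype ι] [DecidableEq ι] {N w : ι → ℕ}
  {S : Set (HeightOneSpectrum (𝓞 K))} {P : ι → HeightOneSpectrum (𝓞 K) → ℚ[X]}

/-- **the final theorem, with the Lie algebra at one prime number (two included)** -/
theorem final2 (hS : S.Finite) (J : ∀ i, Matrix (Fin (N i)) (Fin (N i)) ℚ)
    (halt : ∀ i, (J i)ᵀ = -J i) (hpos : ∀ i, 0 < N i) (hdet : ∀ i, (J i).det ≠ 0)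
    (κ : ∀ (ℓ : ℕ) [Fact ℓ.Prime], GK K →* ℚ_[ℓ]) (hκc : ∀ (ℓ : ℕ) [Fact ℓ.Prime], Continuous (κ ℓ))
    (hκ : ∀ (ℓ : ℕ) [Fact ℓ.Prime], ∀ v ∉ S, (ℓ : 𝓞 K) ∉ v.asIdeal → ∀ σ : GK K, IsFrobenius v σ →
      κ ℓ σ⁻¹ = (Ideal.absNorm v.asIdeal : ℚ_[ℓ]))
    (ρ : ∀ (i : ι) (ℓ : ℕ) [Fact ℓ.Prime], GK K →* Matrix (Fin (N i)) (Fin (N i)) ℚ_[ℓ])
    (hρc : ∀ (i : ι) (ℓ : ℕ) [Fact ℓ.Prime], Continuous (ρ i ℓ))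
    (hmult : ∀ (i : ι) (ℓ : ℕ) [Fact ℓ.Prime] (g : GK K),
      Sim (JL J ℓ i) (ρ i ℓ g) (κ ℓ g ^ w i))
    (hfrob : ∀ (i : ι) (ℓ : ℕ) [Fact ℓ.Prime], ∀ v ∉ S, (ℓ : 𝓞 K) ∉ v.asIdeal → ∀ σ : GK K,
      IsFrobenius v σ → (ρ i ℓ σ⁻¹).charpoly = (P i v).map (algebraMap ℚ ℚ_[ℓ]))
    (ℓ₀ : ℕ) [hℓ₀ : Fact ℓ₀.Prime]
    (hfull : ∀ X, (∀ i, SpLie (JL J ℓ₀ i) (X i)) → JTan ℓ₀ (fun i => ρ i ℓ₀) X) :
    (∀ (k : ℕ) (a : Fin k → ι) (j : ℕ), ∑ t, w (a t) = 2 * j → ∀ T,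
        IsTate (fun i => ρ i ℓ₀) (κ ℓ₀) a j T ↔ Killed (JL J ℓ₀) a T) ∧
    Y142.ZI.DensityZero {ℓ | ∃ _ : Fact ℓ.Prime,
      ¬ ∀ (k : ℕ) (a : Fin k → ι) (j : ℕ), ∑ t, w (a t) = 2 * j → ∀ T,
        IsTate (fun i => ρ i ℓ) (κ ℓ) a j T ↔ Killed (JL J ℓ) a T} ∧
    (∀ (ℓ : ℕ) [Fact ℓ.Prime], (∀ i, SS (ρ i ℓ)) →
      (∀ a : Fin 2 → ι, a 0 = a 1 → ∀ j, ∑ t, w (a t) = 2 * j → ∀ T,
        IsTate (fun i => ρ i ℓ) (κ ℓ) a j T → Killed (JL J ℓ) a T) →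
      ∀ (k : ℕ) (a : Fin k → ι) (j : ℕ), ∑ t, w (a t) = 2 * j → ∀ T,
        IsTate (fun i => ρ i ℓ) (κ ℓ) a j T ↔ Killed (JL J ℓ) a T) ∧
    (finrank ℚ K = 1 → ∀ i (m : ℕ), 0 < w i + 2 * m →
      (∀ v ∉ S, ∃ R : ℤ[X],
        R.map (algebraMap ℤ ℚ) = (P i v).scaleRoots ((Ideal.absNorm v.asIdeal : ℚ) ^ m)) →
      (∀ v ∉ S, ∀ z : ℂ, aeval z (P i v) = 0 →
        ‖z‖ ^ 2 = (Ideal.absNorm v.asIdeal : ℝ) ^ w i) →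
      ∀ (ℓ : ℕ) [Fact ℓ.Prime], SS (ρ i ℓ)) := by
  have hfit : ∀ i, Fits .sym (J i) := fun i => ⟨halt i, hpos i⟩
  have hdetL : ∀ (ℓ : ℕ) [Fact ℓ.Prime] (i : ι), (JL J ℓ i).det ≠ 0 := fun ℓ _ i =>
    det_map_ne (algebraMap ℚ ℚ_[ℓ]) (hdet i)
  have hfitL : ∀ (ℓ : ℕ) [Fact ℓ.Prime] (i : ι), Fits .sym (JL J ℓ i) := fun ℓ _ i =>
    (hfit i).map (algebraMap ℚ ℚ_[ℓ])
  have hform : ∀ (ℓ : ℕ) [Fact ℓ.Prime] (i : ι), IsForm (JL J ℓ i) := fun ℓ _ i =>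
    (hfitL ℓ i).isForm (hdetL ℓ i)
  have hns : ∀ (ℓ : ℕ) [Fact ℓ.Prime] (i : ι), (JL J ℓ i)ᵀ ≠ JL J ℓ i := by
    intro ℓ _ i h
    have h1 := (hfitL ℓ i).1
    rw [h] at h1
    have h2 : (2 : ℚ_[ℓ]) • JL J ℓ i = 0 := by
      rw [two_smul]
      nth_rewrite 1 [h1]
      exact neg_add_cancel _
    have h3 : JL J ℓ i = 0 := (smul_eq_zero.1 h2).resolve_left two_ne_zero
    haveI : Nonempty (Fin (N i)) := ⟨⟨0, hpos i⟩⟩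
    exact hdetL ℓ i (by rw [h3, det_zero])
  have hsys : ∀ (i : ι) (ℓ : ℕ) [Fact ℓ.Prime], Sys (MonoidHom.id (GK K)) .sym (N i) ℓ (ρ i ℓ)
      (JL J ℓ i) S (P i) (fun v => (Ideal.absNorm v.asIdeal : ℚ) ^ w i) := by
    intro i ℓ _
    refine ⟨hρc i ℓ, hfitL ℓ i, hdetL ℓ i, fun γ => ⟨κ ℓ γ ^ w i, hmult i ℓ γ, fun h => ?_⟩, ?_⟩
    · exact absurd h (hns ℓ i)
    · intro v hv hvℓ σ hσ
      refine ⟨hfrob i ℓ v hv hvℓ σ hσ, ?_⟩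
      have h1 : Sim (JL J ℓ i) (ρ i ℓ σ⁻¹) (κ ℓ σ⁻¹ ^ w i) := hmult i ℓ σ⁻¹
      rw [hκ ℓ v hv hvℓ σ hσ] at h1
      show (ρ i ℓ σ⁻¹)ᵀ * JL J ℓ i * ρ i ℓ σ⁻¹ = (((Ideal.absNorm v.asIdeal : ℚ) ^ w i : ℚ) : ℚ_[ℓ]) •
        JL J ℓ i
      rw [Rat.cast_pow, Rat.cast_natCast]
      exact h1
  have hsev := several2 (s := MonoidHom.id (GK K)) continuous_id hS ρ (fun i ℓ _ => JL J ℓ i)
    hsys ℓ₀ hfull
  have hconc : ∀ (ℓ : ℕ) [Fact ℓ.Prime],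
      (∀ X, (∀ i, SpLie (JL J ℓ i) (X i)) → JTan ℓ (fun i => ρ i ℓ) X) →
      ∀ (k : ℕ) (a : Fin k → ι) (j : ℕ), ∑ t, w (a t) = 2 * j → ∀ T,
        IsTate (fun i => ρ i ℓ) (κ ℓ) a j T ↔ Killed (JL J ℓ) a T := by
    intro ℓ _ hf k a j hj T
    constructor
    · intro hT
      exact killed_of_tate (fun i => hρc i ℓ) (hform ℓ) hf hT
    · intro hT
      exact ht jlift ℓ ι N (GK K) (fun i => ρ i ℓ) (fun i => hρc i ℓ) (JL J ℓ) (hform ℓ)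
        hpos (κ ℓ) (hκc ℓ) w (fun i g => hmult i ℓ g) k a j hj T hT
  refine ⟨hconc ℓ₀ hfull, ?_, ?_, ?_⟩
  · refine Y142.ZI.DensityZero.mono hsev.1 ?_
    rintro ℓ ⟨hp, hno⟩
    exact ⟨hp, fun h => hno (hconc ℓ h)⟩
  · intro ℓ _ hss hT2
    refine hconc ℓ (hsev.2 ℓ hss fun i => ?_)
    refine sc_of (ρ := fun i => ρ i ℓ) (J := JL J ℓ) (κ := κ ℓ) (w := w) i (hform ℓ i) (hpos i)
      (hmult i ℓ) fun T hT => ?_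
    refine hT2 (fun _ => i) rfl (w i) ?_ T hT
    rw [Finset.sum_const, Finset.card_univ, Fintype.card_fin, smul_eq_mul]
  · intro hK i m hm hint hpure ℓ _
    exact Pool.Agent.N536.OP.ss_every hK (MonoidHom.id (GK K)) continuous_id (w := w i) hS
      (fun ℓ _ => JL J ℓ i) (fun ℓ _ => hform ℓ i) κ hκc hκ (ρ i) (hρc i) (hmult i) (hfrob i) m hm
      hint hpure ℓ₀ (fun X hX => one_of_joint hfull i X hX) ℓ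

end

end Pool.Agent.N171.TG
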