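import Pool.Agent.N171.TG.Wn1

/-!
# From the image modulo two to the Lie algebra of the 2-adic image, with values
-/

set_option linter.unusedSectionVars false

namespace Pool.Agent.N171.TG

open PadicInt Module Matrix Filter Topology Pool.Agent.N171 Pool.Agent.N171.Al Equiv
open Pool.Agent.Y142.ZO Pool.Agent.Y142.ZS Pool.Agent.R932.PO

noncomputable section

/-- limits of 2-adic matrices -/
theorem lim_of {n : ℕ} {A : ℕ → Matrix (Fin n) (Fin n) ℤ_[2]} {X : Matrix (Fin n) (Fin n) ℤ_[2]}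
    {f : ℕ → ℕ} (hf : ∀ m, ∃ k₀, ∀ k, k₀ ≤ k → m ≤ f k ∧
      ∃ Z : Matrix (Fin n) (Fin n) ℤ_[2],
        A k = 1 + (2 : ℤ_[2]) ^ k • (X + (2 : ℤ_[2]) ^ (f k) • Z)) :
    Tendsto (fun k : ℕ => (((2 : ℕ) : ℚ_[2]) ^ k)⁻¹ • ((A k).map cZ - 1)) atTop
      (𝓝 (X.map cZ)) := by
  refine tendsto_pi_nhds.2 fun a => tendsto_pi_nhds.2 fun b => ?_
  rw [Metric.tendsto_atTop]
  intro ε hε
  obtain ⟨m, hm⟩ := exists_pow_lt_of_lt_one hε (by norm_num : (2 : ℝ)⁻¹ < 1)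
  obtain ⟨k₀, hk₀⟩ := hf m
  refine ⟨k₀, fun n hn => ?_⟩
  obtain ⟨hle, Z, hZ⟩ := hk₀ n hn
  set M := f n with hM
  have h2 : (2 : ℚ_[2]) ≠ 0 := two_ne_zero
  have h1 : (A n).map cZ = 1 + (2 : ℚ_[2]) ^ n • (X.map cZ + (2 : ℚ_[2]) ^ M • Z.map cZ) := by
    rw [hZ]
    ext a b
    simp only [Matrix.map_apply, Matrix.add_apply, Matrix.smul_apply, smul_eq_mul, map_add,
      map_mul, map_pow, Matrix.one_apply]
    congr 1
    split_ifs <;> simp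
  have h3 : ((((2 : ℕ) : ℚ_[2]) ^ n)⁻¹ • ((A n).map cZ - 1)) a b = (X.map cZ) a b +
      (2 : ℚ_[2]) ^ M * (Z a b : ℚ_[2]) := by
    rw [h1, add_sub_cancel_left, smul_smul]
    norm_num
    try rfl
  rw [h3, dist_eq_norm, add_sub_cancel_left, norm_mul, norm_pow]
  have h4 : ‖(2 : ℚ_[2])‖ = (2 : ℝ)⁻¹ := by
    have := @Padic.norm_p 2 _
    exact_mod_cast this
  rw [h4]
  calc (2 : ℝ)⁻¹ ^ M * ‖(Z a b : ℚ_[2])‖ ≤ (2 : ℝ)⁻¹ ^ M * 1 :=
        mul_le_mul_of_nonneg_left (Z a b).2 (by positivity)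
    _ ≤ (2 : ℝ)⁻¹ ^ m := by
      rw [mul_one]
      exact pow_le_pow_of_le_one (by norm_num) (by norm_num) hle
    _ < ε := hm

/-- joint tangent vectors, with zero on the values -/
def WTan {ι : Type} {N : ι → ℕ} {d : ℕ} {Γ : Type} [Group Γ]
    (ρ : ∀ i, Γ →* Matrix (Fin (N i)) (Fin (N i)) ℚ_[2]) (t : Γ →* Matrix (Fin d) (Fin d) ℚ_[2])
    (X : ∀ i, Matrix (Fin (N i)) (Fin (N i)) ℚ_[2]) : Prop :=
  ∃ σ : ℕ → Γ,
    (∀ i, Tendsto (fun n : ℕ => (((2 : ℕ) : ℚ_[2]) ^ n)⁻¹ • (ρ i (σ n) - 1)) atTop (𝓝 (X i))) ∧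
    Tendsto (fun n : ℕ => (((2 : ℕ) : ℚ_[2]) ^ n)⁻¹ • (t (σ n) - 1)) atTop (𝓝 0)

/-- Joint tangent vectors over the 2-adic integers give joint tangent vectors over the 2-adic
numbers. -/
theorem wtan_of_tanA {ι : Type} [Fintype ι] {N : ι → ℕ} {d : ℕ} {Γ : Type} [Group Γ]
    (ρ : ∀ i, Γ →* Matrix (Fin (N i)) (Fin (N i)) ℚ_[2]) (h : ∀ i g a b, ‖ρ i g a b‖ ≤ 1)
    (t : Γ →* Matrix (Fin d) (Fin d) ℚ_[2]) (ht : ∀ g a b, ‖t g a b‖ ≤ 1)
    (X : ∀ i, Matrix (Fin (N i)) (Fin (N i)) ℤ_[2])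
    (hX : TanA (jointW (fun i => repZ (ρ i) (h i)) (repM t ht))
      (fun i => Matrix.toLinAlgEquiv' (X i), 0)) :
    WTan ρ t fun i => (X i).map cZ := by
  classical
  have key : ∀ m : ℕ, ∃ n₀ : ℕ, ∀ n, n₀ ≤ n → ∃ (σ : Γ),
      (∀ i, ∃ Z : Matrix (Fin (N i)) (Fin (N i)) ℤ_[2],
        repM (ρ i) (h i) σ = 1 + (2 : ℤ_[2]) ^ n • (X i + (2 : ℤ_[2]) ^ m • Z)) ∧
      ∃ Z : Matrix (Fin d) (Fin d) ℤ_[2],
        repM t ht σ = 1 + (2 : ℤ_[2]) ^ n • (0 + (2 : ℤ_[2]) ^ m • Z) := by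
    intro m
    obtain ⟨n₀, h0⟩ := hX m
    refine ⟨n₀, fun n hn => ?_⟩
    obtain ⟨σ, ⟨Z, Z'⟩, hσ⟩ := h0 n hn
    refine ⟨σ, fun i => ⟨(Matrix.toLinAlgEquiv' : Matrix (Fin (N i)) (Fin (N i)) ℤ_[2] ≃ₐ[ℤ_[2]]
      _).symm (Z i), ?_⟩, Z', congrArg Prod.snd hσ⟩
    apply (Matrix.toLinAlgEquiv' : Matrix (Fin (N i)) (Fin (N i)) ℤ_[2] ≃ₐ[ℤ_[2]] _).injective
    rw [map_add, map_one, map_smul, map_add, map_smul, AlgEquiv.apply_symm_apply]
    exact congrFun (congrArg Prod.fst hσ) i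
  choose n₀ h0 using key
  let P : ℕ → ℕ → Prop := fun n m => n₀ m ≤ n
  have hσ : ∀ n : ℕ, ∃ σ : Γ, (∃ m ≤ n, n₀ m ≤ n) →
      (∀ i, ∃ Z : Matrix (Fin (N i)) (Fin (N i)) ℤ_[2], repM (ρ i) (h i) σ =
        1 + (2 : ℤ_[2]) ^ n • (X i + (2 : ℤ_[2]) ^ (Nat.findGreatest (P n) n) • Z)) ∧
      ∃ Z : Matrix (Fin d) (Fin d) ℤ_[2], repM t ht σ =
        1 + (2 : ℤ_[2]) ^ n • (0 + (2 : ℤ_[2]) ^ (Nat.findGreatest (P n) n) • Z) := by
    intro n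
    by_cases hn : ∃ m ≤ n, n₀ m ≤ n
    · obtain ⟨m, hm, hmn⟩ := hn
      have h1 : P n (Nat.findGreatest (P n) n) := Nat.findGreatest_spec (P := P n) hm hmn
      obtain ⟨σ, hσ⟩ := h0 _ n h1
      exact ⟨σ, fun _ => hσ⟩
    · exact ⟨1, fun h' => absurd h' hn⟩
  choose σ hσ using hσ
  have hev : ∀ m, ∃ k₀, ∀ k, k₀ ≤ k → m ≤ Nat.findGreatest (P k) k ∧ ∃ m ≤ k, n₀ m ≤ k := by
    intro m
    refine ⟨max m (n₀ m), fun k hk => ?_⟩
    have hmn : m ≤ k := (le_max_left _ _).trans hk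
    have hmn' : n₀ m ≤ k := (le_max_right _ _).trans hk
    exact ⟨Nat.le_findGreatest hmn hmn', m, hmn, hmn'⟩
  refine ⟨σ, fun i => ?_, ?_⟩
  · have h1 := lim_of (A := fun k => repM (ρ i) (h i) (σ k)) (X := X i)
      (f := fun k => Nat.findGreatest (P k) k) (fun m => by
        obtain ⟨k₀, hk⟩ := hev m
        exact ⟨k₀, fun k hk' => ⟨(hk k hk').1, (hσ k (hk k hk').2).1 i⟩⟩)
    refine h1.congr fun k => ?_
    rw [repM_map]
  · have h1 := lim_of (A := fun k => repM t ht (σ k)) (X := 0)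
      (f := fun k => Nat.findGreatest (P k) k) (fun m => by
        obtain ⟨k₀, hk⟩ := hev m
        exact ⟨k₀, fun k hk' => ⟨(hk k hk').1, (hσ k (hk k hk').2).2⟩⟩)
    have h2 : (0 : Matrix (Fin d) (Fin d) ℤ_[2]).map cZ = 0 := by
      ext a b
      rw [Matrix.map_apply, Matrix.zero_apply, Matrix.zero_apply, map_zero]
    rw [h2] at h1
    refine h1.congr fun k => ?_
    rw [repM_map]

theorem WTan.scale {ι : Type} {N : ι → ℕ} {d : ℕ} {Γ : Type} [Group Γ]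
    {ρ : ∀ i, Γ →* Matrix (Fin (N i)) (Fin (N i)) ℚ_[2]} {t : Γ →* Matrix (Fin d) (Fin d) ℚ_[2]}
    {X : ∀ i, Matrix (Fin (N i)) (Fin (N i)) ℚ_[2]} (k : ℕ)
    (h : WTan ρ t fun i => (2 : ℚ_[2]) ^ k • X i) : WTan ρ t X := by
  obtain ⟨σ, h1, h2⟩ := h
  have hk : ((2 : ℚ_[2]) ^ k) ≠ 0 := pow_ne_zero k two_ne_zero
  have hc : ∀ n, (((2 : ℕ) : ℚ_[2]) ^ (n + k))⁻¹ = ((2 : ℚ_[2]) ^ k)⁻¹ * (((2 : ℕ) : ℚ_[2]) ^ n)⁻¹ := by
    intro n
    rw [pow_add, _root_.mul_inv, mul_comm]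
    norm_num
  refine ⟨fun n => σ (n - k), fun i => ?_, ?_⟩
  · refine (tendsto_add_atTop_iff_nat k).1 ?_
    have h3 := (h1 i).const_smul ((2 : ℚ_[2]) ^ k)⁻¹
    rw [smul_smul, inv_mul_cancel₀ hk, one_smul] at h3
    refine h3.congr fun n => ?_
    dsimp only
    rw [Nat.add_sub_cancel, hc, smul_smul]
  · refine (tendsto_add_atTop_iff_nat k).1 ?_
    have h3 := h2.const_smul ((2 : ℚ_[2]) ^ k)⁻¹
    rw [smul_zero] at h3
    refine h3.congr fun n => ?_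
    dsimp only
    rw [Nat.add_sub_cancel, hc, smul_smul]

/-- **From the image modulo two to the Lie algebra of the 2-adic image.** -/
theorem wtan_of_large {ι : Type} [Fintype ι] [DecidableEq ι] {N : ι → ℕ} {d : ℕ} {Γ : Type} [Group Γ]
    (ρ : ∀ i, Γ →* Matrix (Fin (N i)) (Fin (N i)) ℚ_[2])
    (J : ∀ i, Matrix (Fin (N i)) (Fin (N i)) ℚ_[2]) (c : ι → Γ →* ℚ_[2])
    (hev : ∀ i, Even (N i)) (h6 : ∀ i, 6 ≤ N i) (hJ : ∀ i, (J i)ᵀ = -J i)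
    (hint : ∀ i g a b, ‖ρ i g a b‖ ≤ 1) (hJint : ∀ i a b, ‖J i a b‖ ≤ 1)
    (hsim : ∀ i g, (ρ i g)ᵀ * J i * ρ i g = c i g • J i)
    (e : ∀ i, Fin (N i + 1) → Fin (N i) → ℚ_[2]) (heint : ∀ i a b, ‖e i a b‖ ≤ 1)
    (he : ∀ i a b, a ≠ b → ‖e i a ⬝ᵥ J i *ᵥ e i b‖ = 1)
    (hbig : ∀ i (π : Perm (Fin (N i + 1))), Perm.sign π = 1 → ∃ g,
      (∀ a b, ‖(ρ i g *ᵥ e i a - e i (π a)) b‖ < 1) ∧
      ∀ j, j ≠ i → ∀ a b, ‖(ρ j g - 1) a b‖ < 1)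
    (t : Γ →* Matrix (Fin d) (Fin d) ℚ_[2]) (htint : ∀ g a b, ‖t g a b‖ ≤ 1)
    (ht : ∀ i, 2 ^ (d ^ 2 + 1) < (N i + 1).factorial ∨
      ∃ (g : Γ) (π : ∀ j, Perm (Fin (N j + 1))), (∀ a b, ‖(t g - 1) a b‖ < 1) ∧ π i ≠ 1 ∧
        ∀ j a b, ‖(ρ j g *ᵥ e j a - e j (π j a)) b‖ < 1)
    (X : ∀ i, Matrix (Fin (N i)) (Fin (N i)) ℚ_[2]) (hX : ∀ i, SpLie (J i) (X i)) :
    WTan ρ t X := by
  classical
  -- the integral data
  let Jz : ∀ i, Matrix (Fin (N i)) (Fin (N i)) ℤ_[2] := fun i => matZ (J i) (hJint i)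
  let D : ∀ i, Fin (N i + 1) → Fin (N i) → ℤ_[2] := fun i a b => ⟨e i a b, heint i a b⟩
  have hDe : ∀ i a, (fun b => cZ (D i a b)) = e i a := fun i a => rfl
  have hdot : ∀ {n : ℕ} (x y : Fin n → ℤ_[2]) (A : Matrix (Fin n) (Fin n) ℤ_[2]),
      cZ (x ⬝ᵥ A *ᵥ y) = (fun b => cZ (x b)) ⬝ᵥ (A.map cZ) *ᵥ (fun b => cZ (y b)) := by
    intro n x y A
    simp only [dotProduct, mulVec, map_sum, map_mul, Matrix.map_apply]
  have hJz : ∀ i, (Jz i)ᵀ = -Jz i := by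
    intro i
    apply map_cZ_inj
    have h1 : ((Jz i)ᵀ).map cZ = (J i)ᵀ := rfl
    have h2 : (-Jz i).map cZ = -J i := by
      ext a b
      rw [Matrix.map_apply, Matrix.neg_apply, map_neg]
      rfl
    rw [h1, h2, hJ]
  have hF : ∀ i, Frame (Matrix.toBilin' (Jz i)) (D i) := by
    intro i
    refine frame_of (hev i) (hJz i) fun a b hab => ?_
    rw [← norm_eq_iff]
    have h1 : ((D i a ⬝ᵥ Jz i *ᵥ D i b : ℤ_[2]) : ℚ_[2]) = e i a ⬝ᵥ J i *ᵥ e i b :=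
      hdot (D i a) (D i b) (Jz i)
    rw [h1]
    exact he i a b hab
  -- the multipliers are integral
  have hc : ∀ i g, ‖c i g‖ ≤ 1 := by
    intro i g
    have h0 : (0 : Fin (N i + 1)) ≠ Fin.last (N i) := by
      intro h
      have := congrArg Fin.val h
      rw [Fin.val_last, Fin.val_zero] at this
      have := h6 i
      omega
    have h1 : c i g * (e i 0 ⬝ᵥ J i *ᵥ e i (Fin.last (N i))) =
        (ρ i g *ᵥ e i 0) ⬝ᵥ J i *ᵥ (ρ i g *ᵥ e i (Fin.last (N i))) := by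
      have e1 : (ρ i g *ᵥ e i 0) ⬝ᵥ J i *ᵥ (ρ i g *ᵥ e i (Fin.last (N i))) =
          e i 0 ⬝ᵥ ((ρ i g)ᵀ * J i * ρ i g) *ᵥ e i (Fin.last (N i)) := by
        rw [← mulVec_mulVec, ← mulVec_mulVec, dotProduct_mulVec (e i 0), vecMul_transpose]
      rw [e1, hsim, smul_mulVec, dotProduct_smul, smul_eq_mul]
    have h2 : (ρ i g *ᵥ e i 0) ⬝ᵥ J i *ᵥ (ρ i g *ᵥ e i (Fin.last (N i))) =
        cZ ((repM (ρ i) (hint i) g *ᵥ D i 0) ⬝ᵥ Jz i *ᵥ
          (repM (ρ i) (hint i) g *ᵥ D i (Fin.last (N i)))) := by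
      rw [hdot]
      have h3 : ∀ a, (fun b => cZ ((repM (ρ i) (hint i) g *ᵥ D i a) b)) = ρ i g *ᵥ e i a := by
        intro a
        funext b
        simp only [mulVec, dotProduct, map_sum, map_mul]
        rfl
      rw [h3, h3]
      rfl
    have h4 := congrArg norm h1
    rw [norm_mul, he i _ _ h0, mul_one, h2] at h4
    rw [h4]
    exact PadicInt.norm_le_one _
  -- from norms to divisibility
  have hvec : ∀ i (g : Γ) (a a' : Fin (N i + 1)), (∀ b, ‖(ρ i g *ᵥ e i a - e i a') b‖ < 1) →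
      rr (Matrix.toBilin' (Jz i)) (D i) (repZ (ρ i) (hint i) g (D i a)) =
        rr (Matrix.toBilin' (Jz i)) (D i) (D i a') := by
    intro i g a a' hg
    have h3 : ∀ b, (toZMod ((repM (ρ i) (hint i) g *ᵥ D i a - D i a') b) : ZMod 2) = 0 := by
      intro b
      rw [← norm_lt_iff]
      have h4 : (((repM (ρ i) (hint i) g *ᵥ D i a - D i a') b : ℤ_[2]) : ℚ_[2]) =
          (ρ i g *ᵥ e i a - e i a') b := by
        rw [Pi.sub_apply, Pi.sub_apply]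
        have h5 : cZ ((repM (ρ i) (hint i) g *ᵥ D i a) b - D i a' b) =
            (ρ i g *ᵥ e i a) b - e i a' b := by
          rw [map_sub]
          simp only [mulVec, dotProduct, map_sum, map_mul]
          rfl
        exact h5
      rw [h4]
      exact hg b
    have h6 : ∃ z, repM (ρ i) (hint i) g *ᵥ D i a - D i a' = (2 : ℤ_[2]) • z := by
      choose z hz using fun b => (toZMod_eq_zero _).1 (h3 b)
      exact ⟨z, funext fun b => by rw [hz, Pi.smul_apply, smul_eq_mul]⟩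
    obtain ⟨z, hz⟩ := h6
    rw [repZ_apply, ← sub_add_cancel (repM (ρ i) (hint i) g *ᵥ D i a) (D i a'), hz, rr_add,
      rr_two, zero_add]
  have hmat : ∀ {n : ℕ} (r : Γ →* Matrix (Fin n) (Fin n) ℚ_[2]) (hr : ∀ g a b, ‖r g a b‖ ≤ 1)
      (g : Γ), (∀ a b, ‖(r g - 1) a b‖ < 1) → ∃ Z, repM r hr g = 1 + (2 : ℤ_[2]) • Z := by
    intro n r hr g hg
    have h3 : ∀ a b, (toZMod ((repM r hr g - 1) a b) : ZMod 2) = 0 := by
      intro a b
      rw [← norm_lt_iff]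
      have h4 : (((repM r hr g - 1) a b : ℤ_[2]) : ℚ_[2]) = (r g - 1) a b := by
        have h5 : cZ ((repM r hr g - 1) a b) = (r g - 1) a b := by
          rw [Matrix.sub_apply, Matrix.sub_apply, map_sub, Matrix.one_apply, Matrix.one_apply]
          congr 1
          split_ifs <;> simp
        exact h5
      rw [h4]
      exact hg a b
    choose z hz using fun a b => (toZMod_eq_zero _).1 (h3 a b)
    refine ⟨Matrix.of z, ?_⟩
    ext a b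
    rw [Matrix.add_apply, Matrix.smul_apply, Matrix.of_apply, smul_eq_mul, ← hz,
      Matrix.sub_apply]
    ring
  -- the group
  obtain ⟨k, hk⟩ := exists_scale X
  refine WTan.scale k ?_
  let Xz : ∀ i, Matrix (Fin (N i)) (Fin (N i)) ℤ_[2] := fun i =>
    matZ ((2 : ℚ_[2]) ^ k • X i) (hk i)
  have hXz : ∀ i, (Xz i)ᵀ * Jz i + Jz i * Xz i = 0 := by
    intro i
    apply map_cZ_inj
    have h1 : ((Xz i)ᵀ).map cZ = ((2 : ℚ_[2]) ^ k • X i)ᵀ := rfl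
    have h2 : (Xz i).map cZ = (2 : ℚ_[2]) ^ k • X i := rfl
    have h3 : (Jz i).map cZ = J i := rfl
    have h4 : ((Xz i)ᵀ * Jz i + Jz i * Xz i).map cZ = ((Xz i)ᵀ).map cZ * (Jz i).map cZ +
        (Jz i).map cZ * (Xz i).map cZ := by
      rw [← Matrix.map_mul, ← Matrix.map_mul]
      ext a b
      rw [Matrix.map_apply, Matrix.add_apply, map_add]
      rfl
    rw [h4, h1, h2, h3, transpose_smul, smul_mul_assoc, mul_smul_comm, ← smul_add]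
    have h5 : (X i)ᵀ * J i + J i * X i = 0 := hX i
    rw [h5, smul_zero]
    ext a b
    rw [Matrix.map_apply, Matrix.zero_apply, Matrix.zero_apply, map_zero]
  refine wtan_of_tanA ρ hint t htint Xz (tan_of_largeW (χ := fun i => chiZ (c i) (hc i))
    (B := fun i => Matrix.toBilin' (Jz i)) (D := D) (repM t htint) hF (fun i s x y => ?_)
    (fun i => ?_) (fun i => ?_) (fun i π hπ => ?_) (fun i => ?_)
    (X := fun i => Matrix.toLinAlgEquiv' (Xz i)) fun i => mem_spQ (hXz i))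
  · rw [repZ_apply, repZ_apply, form_apply, form_apply]
    have e1 : (repM (ρ i) (hint i) s *ᵥ x) ⬝ᵥ Jz i *ᵥ (repM (ρ i) (hint i) s *ᵥ y) =
        x ⬝ᵥ ((repM (ρ i) (hint i) s)ᵀ * Jz i * repM (ρ i) (hint i) s) *ᵥ y := by
      rw [← mulVec_mulVec, ← mulVec_mulVec, dotProduct_mulVec x, vecMul_transpose]
    have e2 : (repM (ρ i) (hint i) s)ᵀ * Jz i * repM (ρ i) (hint i) s =
        ((chiZ (c i) (hc i) s : ℤ_[2]ˣ) : ℤ_[2]) • Jz i := by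
      apply map_cZ_inj
      rw [Matrix.map_mul, Matrix.map_mul, repM_map]
      have h3 : ((repM (ρ i) (hint i) s)ᵀ).map cZ = (ρ i s)ᵀ := rfl
      have h4 : (Jz i).map cZ = J i := rfl
      rw [h3, h4, hsim]
      ext a b
      rw [Matrix.map_apply, Matrix.smul_apply, Matrix.smul_apply, smul_eq_mul, smul_eq_mul,
        map_mul]
      rfl
    rw [e1, e2, smul_mulVec, dotProduct_smul, smul_eq_mul]
  · rw [Fintype.card_fin]
    have := h6 i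
    omega
  · rw [Fintype.card_fin]
    exact (hev i).add_one
  · obtain ⟨g, hg, hg'⟩ := hbig i π hπ
    refine ⟨g, fun a => hvec i g a (π a) (hg a), fun j hj => ?_⟩
    obtain ⟨Z, hZ⟩ := hmat (ρ j) (hint j) g (hg' j hj)
    refine ⟨Matrix.toLinAlgEquiv' Z, ?_⟩
    change Matrix.toLinAlgEquiv' (repM (ρ j) (hint j) g) = _
    rw [hZ, map_add, map_one, map_smul]
  · rw [Fintype.card_fin]
    rcases ht i with h1 | ⟨g, π, hg1, hg2, hg3⟩
    · exact Or.inl h1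
    · exact Or.inr ⟨g, π, hmat t htint g hg1, hg2, fun j a => hvec j g a (π j a) (hg3 j a)⟩

end

end Pool.Agent.N171.TG
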