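import Mathlib
import Pool.Agent.N171.TG.Tn9

/-!
# Large images modulo two: joint tangent vectors with values in an arbitrary representation
-/

set_option linter.unusedSectionVars false

namespace Pool.Agent.N171.TG

open PadicInt Module Pool.Agent.N171 Pool.Agent.N171.Al Pool.Agent.N171.Bg Equiv

noncomputable section

variable {ι : Type*} [Fintype ι] [DecidableEq ι] {T : ι → Type*} [∀ i, AddCommGroup (T i)]
  [∀ i, Module ℤ_[2] (T i)] {Γ : Type*} [Group Γ] [∀ i, Module.Finite ℤ_[2] (T i)]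
  [∀ i, Module.Free ℤ_[2] (T i)]
  (ρ : ∀ i, Representation ℤ_[2] Γ (T i)) {A : Type*} [Ring A] [Algebra ℤ_[2] A]
  [Module.Finite ℤ_[2] A] [Module.Free ℤ_[2] A] (t : Γ →* A)
  {B : ∀ i, T i →ₗ[ℤ_[2]] T i →ₗ[ℤ_[2]] ℤ_[2]} {τ : ι → Type*} [∀ i, Fintype (τ i)]
  [∀ i, DecidableEq (τ i)] {D : ∀ i, τ i → T i} (χ : ι → Γ →* ℤ_[2]ˣ)

/-- If the elements which act trivially modulo two fix the roots then the factorial is small. -/
theorem count_leW {τ : Type*} [Fintype τ] [DecidableEq τ] {Γ : Type*} [Group Γ]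
    {P : Γ →* Equiv.Perm τ} (hP : OnAlt P ⊤) {d : ℕ}
    (t : Γ →* Matrix (Fin d) (Fin d) ℤ_[2])
    (h : ∀ s, (∃ M, t s = 1 + (2 : ℤ_[2]) • M) → P s = 1) :
    (Fintype.card τ).factorial ≤ 2 ^ (d ^ 2 + 1) := by
  classical
  choose S hS hSP using fun π : alternatingGroup τ => hP π.1 (Equiv.Perm.mem_alternatingGroup.1 π.2)
  let red : alternatingGroup τ → Matrix (Fin d) (Fin d) (ZMod 2) := fun π =>
    (t (S π)).map (toZMod : ℤ_[2] →+* ZMod 2)
  have hinj : Function.Injective red := by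
    intro π π' hππ
    have h1 : ∃ M, t (S π) - t (S π') = (2 : ℤ_[2]) • M := by
      have h2 : ∀ i j, ∃ z, t (S π) i j - t (S π') i j = 2 * z := by
        intro i j
        refine (toZMod_eq_zero _).1 ?_
        rw [map_sub, sub_eq_zero]
        exact congrFun (congrFun hππ i) j
      choose z hz using h2
      refine ⟨Matrix.of z, ?_⟩
      ext i j
      exact hz i j
    obtain ⟨M, hM⟩ := h1
    have h3 : P ((S π')⁻¹ * S π) = 1 := by
      refine h _ ⟨t (S π')⁻¹ * M, ?_⟩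
      have h4 : t (S π')⁻¹ * t (S π') = 1 := by rw [← map_mul, inv_mul_cancel, map_one]
      rw [map_mul, sub_eq_iff_eq_add.1 hM, mul_add, h4, mul_smul_comm, add_comm]
    rw [map_mul, map_inv, inv_mul_eq_one] at h3
    apply Subtype.ext
    rw [← hSP π, ← hSP π', h3]
  have h1 := Fintype.card_le_of_injective red hinj
  rw [← Fintype.card_congr (Matrix.of (m := Fin d) (n := Fin d) (α := ZMod 2)), Fintype.card_fun,
    Fintype.card_fun, Fintype.card_fin, ZMod.card, ← pow_mul] at h1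
  rcases subsingleton_or_nontrivial τ with hs | hn
  · have h2 : Fintype.card τ ≤ 1 := Fintype.card_le_one_iff_subsingleton.2 hs
    have h3 : (Fintype.card τ).factorial = 1 := by
      interval_cases (Fintype.card τ) <;> rfl
    rw [h3]
    exact Nat.one_le_two_pow
  · have h2 := two_mul_card_alternatingGroup (α := τ)
    rw [Fintype.card_perm] at h2
    rw [← h2, pow_succ, mul_comm, pow_two]
    exact Nat.mul_le_mul_right 2 h1

/-- The joint action, with the values. -/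
def jointW : Γ →* (∀ i, Module.End ℤ_[2] (T i)) × A := (joint ρ).prod t

/-- A tangent vector of a summand gives a joint tangent vector. -/
theorem tan_singleW {i : ι} {X : Module.End ℤ_[2] (T i)}
    (h : Tan (ρ i) ((others ρ i).prod t) X 0) :
    TanA (jointW ρ t) (Pi.single i X, 0) := by
  intro m
  obtain ⟨n₀, h0⟩ := h m
  refine ⟨n₀, fun n hn => ?_⟩
  obtain ⟨σ, ⟨Z, Z', Y⟩, hσ⟩ := h0 n hn
  have h1 := congrArg Prod.fst hσ
  have h2 := congrArg Prod.fst (congrArg Prod.snd hσ)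
  have h3 := congrArg Prod.snd (congrArg Prod.snd hσ)
  refine ⟨σ, (fun j => if h : j = i then h ▸ Z else Z' j, Y), ?_⟩
  refine Prod.ext ?_ ?_
  · funext j
    by_cases hj : j = i
    · subst hj
      change ρ j σ = 1 + (2 : ℤ_[2]) ^ n • ((Pi.single j X : ∀ i, Module.End ℤ_[2] (T i)) j +
        (2 : ℤ_[2]) ^ m • (if h : j = j then h ▸ Z else Z' j))
      rw [Pi.single_eq_same, dif_pos rfl]
      exact h1
    · change ρ j σ = 1 + (2 : ℤ_[2]) ^ n • ((Pi.single i X : ∀ i, Module.End ℤ_[2] (T i)) j +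
        (2 : ℤ_[2]) ^ m • (if h : j = i then h ▸ Z else Z' j))
      rw [Pi.single_eq_of_ne hj, dif_neg hj]
      have h4 := congrFun h2 j
      have h5 : others ρ i σ j = ρ j σ := others_ne ρ hj σ
      rw [← h5]
      exact h4
  · exact h3

theorem tan_sumW {S : Finset ι} {X : ∀ i, Module.End ℤ_[2] (T i)}
    (h : ∀ i ∈ S, TanA (jointW ρ t) (Pi.single i (X i), 0)) :
    TanA (jointW ρ t) (∑ i ∈ S, Pi.single i (X i), 0) := by
  induction S using Finset.induction_on with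
  | empty =>
    rw [Finset.sum_empty]
    exact TanA_zero
  | insert a S ha ih =>
    rw [Finset.sum_insert ha]
    have h1 := TanA_add (h a (Finset.mem_insert_self a S))
      (ih fun i hi => h i (Finset.mem_insert_of_mem hi))
    rwa [Prod.mk_add_mk, add_zero] at h1

/-- Some element is trivial modulo two on the summand, trivial modulo `2 ^ m` on the other ones
and on the values, but not a scalar modulo `2 ^ m` on the summand. -/
def SepW (i : ι) : Prop := ∃ (m : ℕ) (σ : Γ), (∃ N, ρ i σ = 1 + (2 : ℤ_[2]) • N) ∧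
  (∀ j, j ≠ i → ∃ N, ρ j σ = 1 + (2 : ℤ_[2]) ^ m • N) ∧
  (∃ N, t σ = 1 + (2 : ℤ_[2]) ^ m • N) ∧
  ¬ ∃ (a : ℤ_[2]) (Z : Module.End ℤ_[2] (T i)), ρ i σ = a • 1 + (2 : ℤ_[2]) ^ m • Z

variable {ρ χ} {P : ∀ i, Γ →* Perm (τ i)} (h : PermsX ρ (B := B) (D := D) χ P)

include h in
/-- **The separation.** -/
theorem PermsX.sepW (hsep : ∀ i j, j ≠ i → ∃ s, P j s = 1 ∧ P i s ≠ 1)
    (ht : ∀ i, ∃ s, (∃ M, t s = 1 + (2 : ℤ_[2]) • M) ∧ P i s ≠ 1) (i : ι) : SepW ρ t i := by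
  classical
  have h5 : 5 ≤ Fintype.card (τ i) := by have := h.card i; omega
  have hon := h.onto i
  -- the elements which are trivial modulo two on the other lattices
  obtain ⟨M, hM, hMon, hMle⟩ := onAlt_iInf (P i) h5 hon (Finset.univ.erase i)
    (N := fun j => (P j).ker) (fun j => inferInstance) fun j hj => by
      obtain ⟨s, hs, hs'⟩ := hsep i j (Finset.ne_of_mem_erase hj)
      exact onAlt_of (P i) h5 hon inferInstance ⟨s, hs, hs'⟩
  have ht1 : OnAlt (P i) (lev t 1) := by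
    obtain ⟨s, ⟨M, hs⟩, hs'⟩ := ht i
    exact onAlt_of (P i) h5 hon inferInstance ⟨s, ⟨M, by rw [pow_one]; exact hs⟩, hs'⟩
  have hinf := onAlt_inf (P i) h5 hon hM (lev_normal t 1) hMon ht1
  let χ' : Γ →* ℤ_[2] := (Units.coeHom ℤ_[2]).comp (χ i)
  have hn : (⨅ j, ⨅ _ : j ≠ i, lev (ρ j) 2).Normal :=
    Subgroup.normal_iInf_normal fun j => Subgroup.normal_iInf_normal fun _ => lev_normal _ _
  have hn2 : ((⨅ j, ⨅ _ : j ≠ i, lev (ρ j) 2) ⊓ lev t 2 ⊓ lev χ' 2).Normal := inferInstance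
  have h2 := onAlt_sq (P i) h5 hon hn2 hinf fun s hs => by
    refine Subgroup.mem_inf.2 ⟨Subgroup.mem_inf.2 ⟨?_, lev_sq t (Subgroup.mem_inf.1 hs).2⟩, ?_⟩
    · rw [Subgroup.mem_iInf]
      intro j
      rw [Subgroup.mem_iInf]
      intro hj
      refine lev_sq (ρ j) (h.ker_le j ?_)
      exact hMle j (Finset.mem_erase.2 ⟨hj, Finset.mem_univ j⟩) (Subgroup.mem_inf.1 hs).1
    · refine lev_sq χ' ?_
      have h3 : (toZMod ((χ i s : ℤ_[2]) - 1) : ZMod 2) = 0 := by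
        rw [map_sub, (isUnit_iff_toZMod _).1 (χ i s).isUnit, map_one, sub_self]
      obtain ⟨z, hz⟩ := (toZMod_eq_zero _).1 h3
      refine ⟨z, ?_⟩
      change (χ i s : ℤ_[2]) = _
      rw [pow_one, smul_eq_mul, ← hz]
      ring
  obtain ⟨π, i₀, p, r, hπ, hππ, hi₀, hp, hr, hpr⟩ := exists_dt (h.card i)
  obtain ⟨g, hg0, hg⟩ := h2 π hπ
  obtain ⟨hg12, hg3⟩ := Subgroup.mem_inf.1 hg0
  obtain ⟨hg1, hg2⟩ := Subgroup.mem_inf.1 hg12
  rw [Subgroup.mem_iInf] at hg1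
  have hact : ∀ k, rr (B i) (D i) (ρ i g (D i k)) = rr (B i) (D i) (D i (π k)) := fun k => by
    rw [h.act, hg]
  refine ⟨2, g * g, ?_, fun j hj => ?_, ?_, ?_⟩
  · rw [map_mul]
    exact sq_trivial (h.frame i) hact hππ
  · have h3 := hg1 j
    rw [Subgroup.mem_iInf] at h3
    exact (lev (ρ j) 2).mul_mem (h3 hj) (h3 hj)
  · exact (lev t 2).mul_mem hg2 hg2
  · rw [map_mul]
    obtain ⟨z, hz⟩ := hg3
    refine sq_not_scalar (h.frame i) (χ := χ i g) ⟨z, ?_⟩ (h.inv i g) hact hi₀ hp hr hpr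
    have h3 : (χ i g : ℤ_[2]) = 1 + (2 : ℤ_[2]) ^ 2 • z := hz
    rw [h3, smul_eq_mul]
    norm_num

include h in
/-- **All vectors of the symplectic Lie algebras are joint tangent vectors, with zero on the
values.** -/
theorem PermsX.tanW (hsep : ∀ i j, j ≠ i → ∃ s, P j s = 1 ∧ P i s ≠ 1)
    (ht : ∀ i, ∃ s, (∃ M, t s = 1 + (2 : ℤ_[2]) • M) ∧ P i s ≠ 1)
    {X : ∀ i, Module.End ℤ_[2] (T i)} (hX : ∀ i, X i ∈ spQ (B i) (p1 (T i))) :
    TanA (jointW ρ t) (X, 0) := by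
  have h1 : X = ∑ i, Pi.single i (X i) := (Finset.univ_sum_single X).symm
  rw [h1]
  refine tan_sumW ρ t fun i _ => tan_singleW ρ t ?_
  obtain ⟨m, σ, h2, h3, ⟨M, hM⟩, h4⟩ := h.sepW t hsep ht i
  refine Tan_all ((others ρ i).prod t) (h.big i) h2 ?_ h4 (hX i)
  choose N hN using h3
  refine ⟨(fun j => if hj : j = i then 0 else N j hj, M), ?_⟩
  refine Prod.ext ?_ hM
  funext j
  by_cases hj : j = i
  · subst hj
    change others ρ j σ j = 1 + (2 : ℤ_[2]) ^ m • (if hj : j = j then 0 else N j hj)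
    rw [others_self, dif_pos rfl, smul_zero, add_zero]
  · change others ρ i σ j = 1 + (2 : ℤ_[2]) ^ m • (if hj : j = i then 0 else N j hj)
    rw [others_ne ρ hj, dif_neg hj, hN j hj]

variable (D) in
/-- some element of the group acts trivially modulo two on the values, permutes all the frames modulo
two, and the `i`-th frame not trivially -/
def Moves (i : ι) : Prop := ∃ (s : Γ) (π : ∀ j, Perm (τ j)), (∃ M, t s = 1 + (2 : ℤ_[2]) • M) ∧
  π i ≠ 1 ∧ ∀ j k, rr (B j) (D j) (ρ j s (D j k)) = rr (B j) (D j) (D j (π j k))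

/-- **Large images modulo two give joint tangent vectors, with zero on the values.** -/
theorem tan_of_largeW {d : ℕ} (t : Γ →* Matrix (Fin d) (Fin d) ℤ_[2]) (hF : ∀ i, Frame (B i) (D i))
    (hinv : ∀ i s x y, B i (ρ i s x) (ρ i s y) = (χ i s : ℤ_[2]) * B i x y)
    (hcard : ∀ i, 6 ≤ Fintype.card (τ i)) (hodd : ∀ i, Odd (Fintype.card (τ i)))
    (hbig : ∀ i (π : Perm (τ i)), Perm.sign π = 1 → ∃ s,
      (∀ k, rr (B i) (D i) (ρ i s (D i k)) = rr (B i) (D i) (D i (π k))) ∧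
      ∀ j, j ≠ i → ∃ N, ρ j s = 1 + (2 : ℤ_[2]) • N)
    (ht : ∀ i, 2 ^ (d ^ 2 + 1) < (Fintype.card (τ i)).factorial ∨
      Moves (ρ := ρ) (B := B) t D i)
    {X : ∀ i, Module.End ℤ_[2] (T i)} (hX : ∀ i, X i ∈ spQ (B i) (p1 (T i))) :
    TanA (jointW ρ t) (X, 0) := by
  let Γ₁ := permSub ρ B D hF
  have hone : ∀ (i j : ι) (_ : j ≠ i) (s : Γ) (_ : ∃ N, ρ j s = 1 + (2 : ℤ_[2]) • N) (k : τ j),
      rr (B j) (D j) (ρ j s (D j k)) = rr (B j) (D j) (D j ((1 : Perm (τ j)) k)) := by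
    rintro i j - s ⟨N, hN⟩ k
    rw [hN, LinearMap.add_apply, LinearMap.smul_apply, rr_add, rr_two, add_zero]
    rfl
  have hex : ∀ i (π : Perm (τ i)), Perm.sign π = 1 → ∃ s : Γ₁, permHom i s = π ∧
      ∀ j, j ≠ i → permHom j s = 1 := by
    intro i π hπ
    obtain ⟨s, hs, hs'⟩ := hbig i π hπ
    have hmem : s ∈ Γ₁ := by
      intro j
      by_cases hj : j = i
      · subst hj
        exact ⟨π, hs⟩
      · exact ⟨1, hone i j hj s (hs' j hj)⟩
    exact ⟨⟨s, hmem⟩, permHom_eq i ⟨s, hmem⟩ hs,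
      fun j hj => permHom_eq j ⟨s, hmem⟩ (hone i j hj s (hs' j hj))⟩
  have hP : PermsX (fun i => (ρ i).comp Γ₁.subtype) (B := B) (D := D)
      (fun i => (χ i).comp Γ₁.subtype) (fun i => permHom i) := by
    refine ⟨hF, fun i s x y => hinv i s.1 x y, fun i s k => permHom_spec i s k, fun i π hπ => ?_,
      hcard, hodd⟩
    obtain ⟨s, hs, -⟩ := hex i π hπ
    exact ⟨s, Subgroup.mem_top s, hs⟩
  have ht' : ∀ i, ∃ s : Γ₁, (∃ M, (t.comp Γ₁.subtype) s = 1 + (2 : ℤ_[2]) • M) ∧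
      permHom i s ≠ 1 := by
    intro i
    rcases ht i with h1 | ⟨s, π, hs1, hs2, hs3⟩
    · by_contra h2
      push Not at h2
      exact absurd (count_leW (hP.onto i) (t.comp Γ₁.subtype) h2) (not_le.2 h1)
    · have hmem : s ∈ Γ₁ := fun j => ⟨π j, hs3 j⟩
      refine ⟨⟨s, hmem⟩, hs1, ?_⟩
      rw [permHom_eq i ⟨s, hmem⟩ (hs3 i)]
      exact hs2
  have h1 := hP.tanW (t.comp Γ₁.subtype) (fun i j hji => by
    obtain ⟨g, -, hg, -, -, hne⟩ := exists_cyc_ne (τ := τ i) (by have := hcard i; omega)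
    obtain ⟨s, hs, hs'⟩ := hex i g hg
    refine ⟨s, hs' j hji, ?_⟩
    rw [hs]
    rintro rfl
    exact hne (one_mul 1)) ht' hX
  intro m
  obtain ⟨n₀, h2⟩ := h1 m
  refine ⟨n₀, fun n hn => ?_⟩
  obtain ⟨σ, Z, hσ⟩ := h2 n hn
  exact ⟨σ.1, Z, hσ⟩

end

end Pool.Agent.N171.TG
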