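import Mathlib
import Pool.Agent.N171.TG.Wn1
import Pool.Agent.N171.Bk1

/-!
# Large images modulo two: forms with values in an arbitrary representation are killed
-/

set_option linter.unusedSectionVars false

namespace Pool.Agent.N171.TG

open PadicInt Module Pool.Agent.N171 Pool.Agent.N171.Al Pool.Agent.N171.Bg Pool.Agent.N171.Bk
  Pool.Agent.N171.Ht Equiv

noncomputable section

section one

variable {ι : Type*} [Fintype ι] [DecidableEq ι] {T : ι → Type*} [∀ i, AddCommGroup (T i)]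
  [∀ i, Module ℤ_[2] (T i)] {Γ : Type*} [Group Γ] [∀ i, Module.Finite ℤ_[2] (T i)]
  [∀ i, Module.Free ℤ_[2] (T i)]
  (ρ : ∀ i, Representation ℤ_[2] Γ (T i))
  {B : ∀ i, T i →ₗ[ℤ_[2]] T i →ₗ[ℤ_[2]] ℤ_[2]} {τ : ι → Type*} [∀ i, Fintype (τ i)]
  [∀ i, DecidableEq (τ i)] {D : ∀ i, τ i → T i} (χ : Γ →* ℤ_[2]ˣ)

/-- **Separation for large images modulo two.** -/
theorem sep_of_large {d : ℕ} (t : Γ →* Matrix (Fin d) (Fin d) ℤ_[2])
    (hF : ∀ i, Frame (B i) (D i))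
    (hinv : ∀ i s x y, B i (ρ i s x) (ρ i s y) = (χ s : ℤ_[2]) * B i x y)
    (hcard : ∀ i, 6 ≤ Fintype.card (τ i)) (hodd : ∀ i, Odd (Fintype.card (τ i)))
    (hbig : ∀ i (π : Perm (τ i)), Perm.sign π = 1 → ∃ s,
      (∀ k, rr (B i) (D i) (ρ i s (D i k)) = rr (B i) (D i) (D i (π k))) ∧
      ∀ j, j ≠ i → ∃ N, ρ j s = 1 + (2 : ℤ_[2]) • N)
    (ht : ∀ i, 2 ^ (d ^ 2 + 1) < (Fintype.card (τ i)).factorial ∨
      Moves (ρ := ρ) (B := B) t D i) (i : ι) : Sep ρ t χ i := by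
  let Γ₁ := permSub ρ B D hF
  have hone : ∀ (i j : ι) (_ : j ≠ i) (s : Γ) (_ : ∃ N, ρ j s = 1 + (2 : ℤ_[2]) • N) (k : τ j),
      rr (B j) (D j) (ρ j s (D j k)) = rr (B j) (D j) (D j ((1 : Perm (τ j)) k)) := by
    rintro i j - s ⟨N, hN⟩ k
    rw [hN, LinearMap.add_apply, LinearMap.smul_apply, rr_add, rr_two, add_zero]
    rfl
  have hex : ∀ i (π : Perm (τ i)), Perm.sign π = 1 → ∃ s : Γ₁, permHom i s = π ∧
      ∀ j, j ≠ i → permHom j s = 1 := by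
    intro i π hπ
    obtain ⟨s, hs, hs'⟩ := hbig i π hπ
    have hmem : s ∈ Γ₁ := by
      intro j
      by_cases hj : j = i
      · subst hj
        exact ⟨π, hs⟩
      · exact ⟨1, hone i j hj s (hs' j hj)⟩
    exact ⟨⟨s, hmem⟩, permHom_eq i ⟨s, hmem⟩ hs,
      fun j hj => permHom_eq j ⟨s, hmem⟩ (hone i j hj s (hs' j hj))⟩
  have hP : Perms (fun i => (ρ i).comp Γ₁.subtype) (B := B) (D := D)
      (χ.comp Γ₁.subtype) (fun i => permHom i) := by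
    refine ⟨hF, fun i s x y => hinv i s.1 x y, fun i s k => permHom_spec i s k, fun i π hπ => ?_,
      hcard, hodd⟩
    obtain ⟨s, hs, -⟩ := hex i π hπ
    exact ⟨s, Subgroup.mem_top s, hs⟩
  have ht' : ∀ i, ∃ s : Γ₁, (∃ M, (t.comp Γ₁.subtype) s = 1 + (2 : ℤ_[2]) • M) ∧
      permHom i s ≠ 1 := by
    intro i
    rcases ht i with h1 | ⟨s, π, hs1, hs2, hs3⟩
    · by_contra h2
      push Not at h2
      exact absurd (count_leW (hP.onto i) (t.comp Γ₁.subtype) h2) (not_le.2 h1)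
    · have hmem : s ∈ Γ₁ := fun j => ⟨π j, hs3 j⟩
      refine ⟨⟨s, hmem⟩, hs1, ?_⟩
      rw [permHom_eq i ⟨s, hmem⟩ (hs3 i)]
      exact hs2
  obtain ⟨m, σ, h1, h2, h3, h4, h5⟩ := hP.sep (t.comp Γ₁.subtype) (fun i j hji => by
    obtain ⟨g, -, hg, -, -, hne⟩ := exists_cyc_ne (τ := τ i) (by have := hcard i; omega)
    obtain ⟨s, hs, hs'⟩ := hex i g hg
    refine ⟨s, hs' j hji, ?_⟩
    rw [hs]
    rintro rfl
    exact hne (one_mul 1)) ht' i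
  exact ⟨m, σ.1, h1, h2, h3, h4, h5⟩

end one

section two

variable {ι : Type} [Fintype ι] [DecidableEq ι] {T : ι → Type} [∀ i, AddCommGroup (T i)]
  [∀ i, Module ℤ_[2] (T i)] {Γ : Type} [Group Γ] [∀ i, Module.Finite ℤ_[2] (T i)]
  [∀ i, Module.Free ℤ_[2] (T i)]
  (ρ : ∀ i, Representation ℤ_[2] Γ (T i))
  {B : ∀ i, T i →ₗ[ℤ_[2]] T i →ₗ[ℤ_[2]] ℤ_[2]} {τ : ι → Type} [∀ i, Fintype (τ i)]
  [∀ i, DecidableEq (τ i)] {D : ∀ i, τ i → T i} (χ : Γ →* ℤ_[2]ˣ)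

/-- **Large images modulo two kill all forms.** -/
theorem killsAll_of_large {d : ℕ} (t : Γ →* Matrix (Fin d) (Fin d) ℤ_[2])
    (hF : ∀ i, Frame (B i) (D i))
    (hinv : ∀ i s x y, B i (ρ i s x) (ρ i s y) = (χ s : ℤ_[2]) * B i x y)
    (hcard : ∀ i, 6 ≤ Fintype.card (τ i)) (hodd : ∀ i, Odd (Fintype.card (τ i)))
    (hbig : ∀ i (π : Perm (τ i)), Perm.sign π = 1 → ∃ s,
      (∀ k, rr (B i) (D i) (ρ i s (D i k)) = rr (B i) (D i) (D i (π k))) ∧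
      ∀ j, j ≠ i → ∃ N, ρ j s = 1 + (2 : ℤ_[2]) • N)
    (ht : ∀ i, 2 ^ (d ^ 2 + 1) < (Fintype.card (τ i)).factorial ∨
      Moves (ρ := ρ) (B := B) t D i) : KillsAll (piRep ρ) χ (piB B) (piP T) t :=
  killsAll_pi (fun i => ⟨hF i, hinv i, fun π hπ => (hbig i π hπ).imp fun _ h => h.1,
    by have := hcard i; omega, hodd i⟩) (sep_of_large ρ χ t hF hinv hcard hodd hbig ht)

end two

end

end Pool.Agent.N171.TG
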