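import Mathlib
import Pool.Agent.TH125.Gal.Pub2

/-!
# Varieties whose transcendental cohomology has a large image modulo two: definitions
-/

open CategoryTheory AlgebraicGeometry

universe u

namespace Pool.Agent.N171.TG.Kp

open Pool.Agent.TH125.Gal Pool.Agent.H914 Pool.Agent.H914.VarClass
  Pool.Agent.H914.VarClass.Obj Pool.Agent.H914.WeilCohomology Pool.Agent.H281R3.HT

noncomputable section

variable {Γ : Type} [Group Γ] {C : Type} [Field C] [Algebra ℚ_[2] C]

variable (C) in
/-- The inclusion of the 2-adic integers in a field which contains the 2-adic numbers. -/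
def incl : ℤ_[2] →+* C := (algebraMap ℚ_[2] C).comp (algebraMap ℤ_[2] ℚ_[2])

variable (C) in
/-- The action on the Tate twists: the inverse of the cyclotomic character `κ`, with values in a field
`C` which contains the 2-adic numbers. -/
def twist (κ : Γ →* ℤ_[2]ˣ) : Γ →* Cˣ := (Units.map (incl C : ℤ_[2] →* C)).comp κ⁻¹

variable (C) in
/-- The map `A` has the matrix `R` over the 2-adic integers on the vectors `b`. -/
def HasMatrix {M : Type} [AddCommGroup M] [Module C M] {n : ℕ} (A : M → M) (b : Fin n → M)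
    (R : Matrix (Fin n) (Fin n) ℤ_[2]) : Prop :=
  ∀ a, A (b a) = ∑ c, incl C (R c a) • b c

/-- A nonzero multiple of the form `t (x * y)` has the matrix `J` on the vectors `b`. -/
def HasGram {M : Type} [Ring M] [Algebra C M] {n : ℕ} (t : M →ₗ[C] C) (b : Fin n → M)
    (J : Matrix (Fin n) (Fin n) ℤ_[2]) : Prop :=
  ∃ r : C, r ≠ 0 ∧ ∀ a c, r * t (b a * b c) = incl C (J a c)

/-- The vectors `b a` generate a lattice over the 2-adic integers in the subspace `T` of `M`, stable
under `Γ`; the action of `Γ` is given by the matrices `ρ g`, and a nonzero multiple of the form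
`t (x * y)` by the matrix `J`. -/
structure IsLattice {M : Type} [Ring M] [Algebra C M] (υ : Γ →* (M ≃ₐ[C] M)) (t : M →ₗ[C] C)
    (T : Submodule C M) {n : ℕ} (b : Fin n → M) (J : Matrix (Fin n) (Fin n) ℤ_[2])
    (ρ : Γ →* Matrix (Fin n) (Fin n) ℤ_[2]) : Prop where
  span : Submodule.span C (Set.range b) = T
  act : ∀ g, HasMatrix C (υ g) b (ρ g)
  form : HasGram t b J

/-- The reduction of a 2-adic matrix modulo two. -/
def red {m n : ℕ} (M : Matrix (Fin m) (Fin n) ℤ_[2]) : Matrix (Fin m) (Fin n) (ZMod 2) :=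
  M.map PadicInt.toZMod

/-- The columns of `e` have mutual products one modulo two for the form `J`. -/
def OddProducts {n : ℕ} (J : Matrix (Fin n) (Fin n) ℤ_[2])
    (e : Matrix (Fin n) (Fin (n + 1)) (ZMod 2)) : Prop :=
  ∀ a c, a ≠ c → (e.transpose * red J * e) a c = 1

/-- The matrix `g`, a matrix modulo two, permutes the columns of `e` by `π`. -/
def Permutes {n : ℕ} (e : Matrix (Fin n) (Fin (n + 1)) (ZMod 2)) (g : Matrix (Fin n) (Fin n) (ZMod 2))
    (π : Equiv.Perm (Fin (n + 1))) : Prop :=
  g * e = e.submatrix id π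

variable {ι : Type} {N : ι → ℕ}

/-- The image modulo two is large: the ranks `N i` are at least six, the columns of `e i` are
`N i + 1` vectors modulo two with mutual products one for the form `J i`, and each even permutation of
the columns of `e i` is the action of an element of `Γ` which acts trivially modulo two on the other
lattices. -/
structure LargeModTwo (J : ∀ i, Matrix (Fin (N i)) (Fin (N i)) ℤ_[2])
    (ρ : ∀ i, Γ →* Matrix (Fin (N i)) (Fin (N i)) ℤ_[2])
    (e : ∀ i, Matrix (Fin (N i)) (Fin (N i + 1)) (ZMod 2)) : Prop where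
  rank : ∀ i, 6 ≤ N i
  products : ∀ i, OddProducts (J i) (e i)
  permutations : ∀ i (π : Equiv.Perm (Fin (N i + 1))), Equiv.Perm.sign π = 1 → ∃ g : Γ,
    Permutes (e i) (red (ρ i g)) π ∧ ∀ j, j ≠ i → red (ρ j g) = 1

/-- The element `g` permutes the columns of all matrices `e j`, those of `e i` not trivially. -/
def Moves (ρ : ∀ i, Γ →* Matrix (Fin (N i)) (Fin (N i)) ℤ_[2])
    (e : ∀ i, Matrix (Fin (N i)) (Fin (N i + 1)) (ZMod 2)) (i : ι) (g : Γ) : Prop :=
  ∃ π : ∀ j, Equiv.Perm (Fin (N j + 1)), π i ≠ 1 ∧ ∀ j, Permutes (e j) (red (ρ j g)) (π j)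

/-- The space `A` has a lattice of rank `d` over the 2-adic integers which is stable under `Γ`
and which does not absorb the permutations modulo two: for each `i` some element of `Γ` acts trivially on
the lattice modulo two and permutes the columns of all matrices `e j`, those of `e i` not trivially; or
the factorial of `N i + 1` is greater than `2 ^ (d ^ 2 + 1)`. -/
def FreeBase {A : Type} [Ring A] [Algebra C A] (υ : Γ →* (A ≃ₐ[C] A))
    (ρ : ∀ i, Γ →* Matrix (Fin (N i)) (Fin (N i)) ℤ_[2])
    (e : ∀ i, Matrix (Fin (N i)) (Fin (N i + 1)) (ZMod 2)) : Prop :=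
  ∃ (d : ℕ) (f : Module.Basis (Fin d) C A) (τ : Γ →* Matrix (Fin d) (Fin d) ℤ_[2]),
    (∀ g, HasMatrix C (υ g) f (τ g)) ∧
    ∀ i, 2 ^ (d ^ 2 + 1) < (N i + 1).factorial ∨ ∃ g : Γ, red (τ g) = 1 ∧ Moves ρ e i g

variable {k : Type u} [Field k] {𝒱 : VarClass k} {ops : CycleOps 𝒱}
  {W : WeilCohomology.{u, 0} ops} [Algebra ℚ_[2] W.K]

/-- `G` is a class of varieties with an action of the group `Γ` on the cohomology with the formal
properties of a Galois action (with the cyclotomic character `κ`), closed under products. The variety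
`Z` and the odd-dimensional varieties `X i` are members of `G`; the divisors `D i` on `X i` satisfy hard
Lefschetz and the standard conjectures of Lefschetz and of Hodge type, and the transcendental
cohomology of `X i` is in the middle degree; it has a stable lattice with the basis `b i`, the
action `ρ i` and the form `J i`. -/
structure LatticeSystem (κ : Γ →* ℤ_[2]ˣ) (G : Set (GVar W Γ)) (X : ι → GVar W Γ)
    (D : ∀ i, (X i).X.Cycles) (Z : GVar W Γ) (b : ∀ i, Fin (N i) → W.H (X i).X)
    (J : ∀ i, Matrix (Fin (N i)) (Fin (N i)) ℤ_[2])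
    (ρ : ∀ i, Γ →* Matrix (Fin (N i)) (Fin (N i)) ℤ_[2]) : Prop where
  galois : GaloisClass (twist W.K κ) G
  mem : ∀ i, X i ∈ G
  mem_base : Z ∈ G
  odd : ∀ i, Odd (X i).X.dim
  pol : ∀ i, IsPolarization W (X i).X (D i)
  middle : ∀ i, transcendental W (X i).X ≤ W.gr (X i).X (X i).X.dim
  lattice : ∀ i, IsLattice (X i).act (W.tr (X i).X) (transcendental W (X i).X) (b i) (J i) (ρ i)

end

end Pool.Agent.N171.TG.Kp
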