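import Mathlib
import Pool.Agent.N171.TG.Kl1
import Pool.Agent.N171.TG.KlPub
import Pool.Agent.N171.TG.Tn9
import Pool.Agent.N171.Ht7

/-!
# Varieties whose transcendental cohomology has a large image modulo two
-/

open CategoryTheory AlgebraicGeometry Finset Function Matrix

set_option linter.unusedSectionVars false
set_option linter.unusedVariables false

namespace Pool.Agent.N171.TG.Kl

universe u

open Pool.Agent.TH125.Gal Pool.Agent.TH118.SG Pool.Agent.N171.Ht Pool.Agent.N171.TG.Kp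
  Pool.Agent.N171.Al Pool.Agent.N171.Bg Pool.Agent.N171.TG

open Pool.Agent.H914 Pool.Agent.H914.VarClass Pool.Agent.H914.VarClass.Obj
  Pool.Agent.H914.WeilCohomology Pool.Agent.H281R3.HT

open PadicInt Pool.Agent.N171

noncomputable section

/-! ### reductions -/

section redu

variable {m n p : ℕ}

theorem red_mul (A : Matrix (Fin m) (Fin n) ℤ_[2]) (B : Matrix (Fin n) (Fin p) ℤ_[2]) :
    red (A * B) = red A * red B := Matrix.map_mul

theorem red_apply (A : Matrix (Fin m) (Fin n) ℤ_[2]) (a : Fin m) (b : Fin n) :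
    red A a b = toZMod (A a b) := rfl

theorem exists_of_red {A B : Matrix (Fin m) (Fin n) ℤ_[2]} (h : red A = red B) :
    ∃ Z, A = B + (2 : ℤ_[2]) • Z := by
  have h3 : ∀ a b, (toZMod (A a b - B a b) : ZMod 2) = 0 := by
    intro a b
    rw [map_sub, sub_eq_zero]
    exact congrFun (congrFun h a) b
  choose z hz using fun a b => (toZMod_eq_zero _).1 (h3 a b)
  refine ⟨Matrix.of z, ?_⟩
  ext a b
  rw [Matrix.add_apply, Matrix.smul_apply, Matrix.of_apply, smul_eq_mul, ← hz]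
  ring

/-- The rank is even. -/
theorem even_of_frame {e : Matrix (Fin n) (Fin (n + 1)) (ZMod 2)} {J : Matrix (Fin n) (Fin n) (ZMod 2)}
    (hJ : ∀ a, (eᵀ * J * e) a a = 0) (h : ∀ a c, a ≠ c → (eᵀ * J * e) a c = 1) : Even n := by
  by_contra hn
  rw [Nat.not_even_iff_odd] at hn
  have h1 : eᵀ * J * e = Matrix.of fun a b : Fin (n + 1) => (if a = b then 0 else 1 : ZMod 2) := by
    ext a b
    rw [Matrix.of_apply]
    split_ifs with hab
    · rw [← hab, hJ]
    · exact h a b hab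
  have h2 := offdiag_sq (N := n + 1) hn.add_one
  rw [← h1] at h2
  have h3 : eᵀ * (J * e * (eᵀ * J * e)) = 1 := by
    rw [← h2]
    simp only [Matrix.mul_assoc]
  have h4 := Matrix.rank_mul_le_left eᵀ (J * e * (eᵀ * J * e))
  rw [h3, Matrix.rank_one, Fintype.card_fin] at h4
  have h5 := Matrix.rank_le_card_width eᵀ
  rw [Fintype.card_fin] at h5
  omega

end redu

/-! ### the representations -/

section rep

variable {Γ : Type} [Group Γ] {n : ℕ}

/-- The representation twisted by the power of the character. -/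
def repT (κ : Γ →* ℤ_[2]ˣ) (c : ℕ) (ρ : Γ →* Matrix (Fin n) (Fin n) ℤ_[2]) :
    Representation ℤ_[2] Γ (Fin n → ℤ_[2]) where
  toFun g := (((κ g) ^ c : ℤ_[2]ˣ) : ℤ_[2]) • Matrix.toLinAlgEquiv' (ρ g)
  map_one' := by
    rw [map_one, one_pow, Units.val_one, one_smul, map_one, map_one]
  map_mul' g h := by
    rw [map_mul, map_mul, map_mul, mul_pow, Units.val_mul, smul_mul_smul_comm]

variable (κ : Γ →* ℤ_[2]ˣ) (c : ℕ) (ρ : Γ →* Matrix (Fin n) (Fin n) ℤ_[2])

theorem repT_apply (g : Γ) (x : Fin n → ℤ_[2]) :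
    repT κ c ρ g x = (((κ g) ^ c : ℤ_[2]ˣ) : ℤ_[2]) • (ρ g *ᵥ x) := rfl

theorem unit_mod (u : ℤ_[2]ˣ) : (toZMod (u : ℤ_[2]) : ZMod 2) = 1 :=
  (isUnit_iff_toZMod _).1 u.isUnit

theorem red_smul_unit (u : ℤ_[2]ˣ) {p q : ℕ} (A : Matrix (Fin p) (Fin q) ℤ_[2]) :
    red ((u : ℤ_[2]) • A) = red A := by
  ext a b
  rw [red_apply, Matrix.smul_apply, smul_eq_mul, map_mul, unit_mod, one_mul]
  rfl

/-- The forms. -/
theorem repT_form {J : Matrix (Fin n) (Fin n) ℤ_[2]} {w : ℕ} (hw : 2 * c = w + 1)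
    (h : ∀ g, (ρ g)ᵀ * J * ρ g = ((((κ g)⁻¹) ^ w : ℤ_[2]ˣ) : ℤ_[2]) • J) (g : Γ)
    (x y : Fin n → ℤ_[2]) :
    Matrix.toBilin' J (repT κ c ρ g x) (repT κ c ρ g y) = (κ g : ℤ_[2]) * Matrix.toBilin' J x y := by
  rw [repT_apply, repT_apply, form_apply, form_apply, smul_dotProduct, mulVec_smul,
    dotProduct_smul]
  have e1 : (ρ g *ᵥ x) ⬝ᵥ J *ᵥ (ρ g *ᵥ y) = x ⬝ᵥ ((ρ g)ᵀ * J * ρ g) *ᵥ y := by
    rw [← mulVec_mulVec, ← mulVec_mulVec, dotProduct_mulVec x, vecMul_transpose]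
  rw [e1, h, smul_mulVec, dotProduct_smul]
  simp only [smul_eq_mul]
  rw [← mul_assoc, ← mul_assoc, ← Units.val_mul, ← Units.val_mul]
  congr 2
  rw [← pow_add, ← two_mul, hw, pow_succ, inv_pow, mul_comm, ← mul_assoc, inv_mul_cancel, one_mul]

/-- The vectors with the given reductions. -/
theorem exists_vectors {p q : ℕ} (e : Matrix (Fin p) (Fin q) (ZMod 2)) :
    ∃ D : Fin q → Fin p → ℤ_[2], ∀ a b, (toZMod (D a b) : ZMod 2) = e b a := by
  choose D hD using fun (a : Fin q) (b : Fin p) =>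
    ZMod.ringHom_surjective (toZMod : ℤ_[2] →+* ZMod 2) (e b a)
  exact ⟨D, hD⟩

theorem rr_of_red {J : Matrix (Fin n) (Fin n) ℤ_[2]} {e : Matrix (Fin n) (Fin (n + 1)) (ZMod 2)}
    {D : Fin (n + 1) → Fin n → ℤ_[2]} (hD : ∀ a b, (toZMod (D a b) : ZMod 2) = e b a) {g : Γ}
    {π : Equiv.Perm (Fin (n + 1))} (h : red (ρ g) * e = e.submatrix id π) (a : Fin (n + 1)) :
    rr (Matrix.toBilin' J) D (repT κ c ρ g (D a)) = rr (Matrix.toBilin' J) D (D (π a)) := by
  have h3 : ∀ b, (toZMod (repT κ c ρ g (D a) b - D (π a) b) : ZMod 2) = 0 := by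
    intro b
    rw [map_sub, sub_eq_zero, repT_apply, Pi.smul_apply, smul_eq_mul, map_mul, unit_mod, one_mul,
      hD]
    have h1 := congrFun (congrFun h b) a
    rw [Matrix.mul_apply] at h1
    rw [mulVec, dotProduct, map_sum]
    refine Eq.trans (Finset.sum_congr rfl fun j _ => ?_) h1
    rw [map_mul, hD]
    rfl
  choose z hz using fun b => (toZMod_eq_zero _).1 (h3 b)
  have h4 : repT κ c ρ g (D a) = D (π a) + (2 : ℤ_[2]) • z := by
    funext b
    rw [Pi.add_apply, Pi.smul_apply, smul_eq_mul, ← hz]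
    ring
  rw [h4, rr_add, rr_two, add_zero]

theorem rep_of_red {g : Γ} (h : red (ρ g) = 1) :
    ∃ N, repT κ c ρ g = 1 + (2 : ℤ_[2]) • N := by
  have h1 : red ((((κ g) ^ c : ℤ_[2]ˣ) : ℤ_[2]) • ρ g) = red (1 : Matrix (Fin n) (Fin n) ℤ_[2]) := by
    rw [red_smul_unit, h]
    exact (Matrix.map_one _ (map_zero _) (map_one _)).symm
  obtain ⟨Z, hZ⟩ := exists_of_red h1
  refine ⟨Matrix.toLinAlgEquiv' Z, ?_⟩
  change (((κ g) ^ c : ℤ_[2]ˣ) : ℤ_[2]) • Matrix.toLinAlgEquiv' (ρ g) = _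
  rw [← map_smul, hZ, map_add, map_one, map_smul]

theorem frame_of_red {J : Matrix (Fin n) (Fin n) ℤ_[2]} (hJ : Jᵀ = -J)
    {e : Matrix (Fin n) (Fin (n + 1)) (ZMod 2)}
    (h : ∀ a c, a ≠ c → (eᵀ * red J * e) a c = 1)
    {D : Fin (n + 1) → Fin n → ℤ_[2]} (hD : ∀ a b, (toZMod (D a b) : ZMod 2) = e b a) :
    Even n ∧ Frame (Matrix.toBilin' J) D := by
  have h1 : ∀ a c, (toZMod (D a ⬝ᵥ J *ᵥ D c) : ZMod 2) = (eᵀ * red J * e) a c := by
    intro a c
    rw [Matrix.mul_assoc, Matrix.mul_apply, dotProduct, map_sum]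
    refine Finset.sum_congr rfl fun b _ => ?_
    rw [map_mul, hD, Matrix.mul_apply, mulVec, dotProduct, map_sum]
    refine congrArg _ (Finset.sum_congr rfl fun j _ => ?_)
    rw [map_mul, hD]
    rfl
  have h2 : Even n := even_of_frame (fun a => by rw [← h1, form_alt hJ, map_zero]) h
  exact ⟨h2, frame_of h2 hJ fun a b hab => by rw [isUnit_iff_toZMod, h1, h a b hab]⟩

end rep

end

end Pool.Agent.N171.TG.Kl
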