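import Mathlib
import Pool.Agent.N171.TG.Kl2

/-!
# Varieties whose transcendental cohomology has a large image modulo two
-/

open CategoryTheory AlgebraicGeometry Finset Function Matrix

set_option linter.unusedSectionVars false
set_option linter.unusedVariables false

namespace Pool.Agent.N171.TG.Kl

universe u

open Pool.Agent.TH125.Gal Pool.Agent.TH118.SG Pool.Agent.N171.Ht Pool.Agent.N171.TG.Kp
  Pool.Agent.N171.Al Pool.Agent.N171.Bg Pool.Agent.N171.TG

open Pool.Agent.H914 Pool.Agent.H914.VarClass Pool.Agent.H914.VarClass.Obj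
  Pool.Agent.H914.WeilCohomology Pool.Agent.H281R3.HT

open PadicInt Pool.Agent.N171

noncomputable section

variable {k : Type u} [Field k] {𝒱 : VarClass k} {ops : CycleOps 𝒱}
  {W : WeilCohomology.{u, 0} ops} [Algebra ℚ_[2] W.K] {Γ : Type} [Group Γ]

theorem incl_inj {C : Type} [Field C] [Algebra ℚ_[2] C] : Function.Injective (Kp.incl C) :=
  (algebraMap ℚ_[2] C).injective.comp (FaithfulSMul.algebraMap_injective ℤ_[2] ℚ_[2])

section one

variable {A : GVar W Γ} {κ : Γ →* ℤ_[2]ˣ} {n : ℕ} {b : Fin n → W.H A.X}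
  {J : Matrix (Fin n) (Fin n) ℤ_[2]} {ρ : Γ →* Matrix (Fin n) (Fin n) ℤ_[2]}

theorem b_mem (hsp : Submodule.span W.K (Set.range b) = transcendental W A.X) (a : Fin n) :
    b a ∈ transcendental W A.X := by
  rw [← hsp]
  exact Submodule.subset_span ⟨a, rfl⟩

theorem J_alt (hodd : Odd A.X.dim) (hmid : transcendental W A.X ≤ W.gr A.X A.X.dim)
    (hsp : Submodule.span W.K (Set.range b) = transcendental W A.X) {r : W.K}
    (hf : ∀ a c, r * W.tr A.X (b a * b c) = Kp.incl W.K (J a c)) : Jᵀ = -J := by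
  ext a c
  apply incl_inj (C := W.K)
  rw [transpose_apply, neg_apply, map_neg, ← hf, ← hf]
  have h1 := trans_symm hmid (b_mem hsp c) (b_mem hsp a)
  rw [hodd.neg_one_pow] at h1
  have h2 : W.tr A.X (b c * b a) = -1 * W.tr A.X (b a * b c) := h1
  rw [h2]
  ring

theorem J_sim (hG : IsGalois W (Kp.twist W.K κ) A.X A.act) {r : W.K}
    (hf : ∀ a c, r * W.tr A.X (b a * b c) = Kp.incl W.K (J a c))
    (hact : ∀ g a, A.act g (b a) = ∑ c, Kp.incl W.K (ρ g c a) • b c) (g : Γ) :
    (ρ g)ᵀ * J * ρ g = ((((κ g)⁻¹) ^ A.X.dim : ℤ_[2]ˣ) : ℤ_[2]) • J := by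
  ext a c
  apply incl_inj (C := W.K)
  have h1 : r * W.tr A.X (A.act g (b a) * A.act g (b c)) =
      Kp.incl W.K (((ρ g)ᵀ * J * ρ g) a c) := by
    rw [hact, hact, Finset.sum_mul_sum, map_sum, Finset.mul_sum, Matrix.mul_assoc,
      Matrix.mul_apply, map_sum]
    refine Finset.sum_congr rfl fun i _ => ?_
    rw [map_sum, Finset.mul_sum, Matrix.mul_apply, Finset.mul_sum, map_sum]
    refine Finset.sum_congr rfl fun j _ => ?_
    rw [smul_mul_smul_comm, map_smul, smul_eq_mul, transpose_apply,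
      map_mul (Kp.incl W.K) (ρ g i a), map_mul (Kp.incl W.K) (J i j), ← hf]
    ring
  rw [← h1, ← map_mul (A.act g), hG.tr_act, Matrix.smul_apply, smul_eq_mul,
    map_mul (Kp.incl W.K), ← hf]
  have h2 : ((Kp.twist W.K κ g : W.Kˣ) : W.K) ^ A.X.dim =
      Kp.incl W.K ((((κ g)⁻¹) ^ A.X.dim : ℤ_[2]ˣ) : ℤ_[2]) := by
    rw [Units.val_pow_eq_pow_val, map_pow]
    rfl
  rw [h2]
  ring

end one

section sys

variable {ι : Type} [Fintype ι] [DecidableEq ι] {X : ι → GVar W Γ} {D : ∀ i, (X i).X.Cycles}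
  {Z : GVar W Γ} {κ : Γ →* ℤ_[2]ˣ} {G : Set (GVar W Γ)} {N : ι → ℕ}
  {b : ∀ i, Fin (N i) → W.H (X i).X} {J : ∀ i, Matrix (Fin (N i)) (Fin (N i)) ℤ_[2]}
  {ρ : ∀ i, Γ →* Matrix (Fin (N i)) (Fin (N i)) ℤ_[2]}
  {e : ∀ i, Matrix (Fin (N i)) (Fin (N i + 1)) (ZMod 2)}

/-- The map from the lattice to the transcendental cohomology. -/
def epsL {i : ι} {A : GVar W Γ} (b : Fin (N i) → W.H A.X)
    (h : Submodule.span W.K (Set.range b) = transcendental W A.X) :
    (∀ i, Fin (N i) → ℤ_[2]) →+ transcendental W A.X where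
  toFun x := ⟨∑ a, Kp.incl W.K (x i a) • b a,
    Submodule.sum_mem _ fun a _ => Submodule.smul_mem _ _ (b_mem h a)⟩
  map_zero' := by
    apply Subtype.ext
    change ∑ a, Kp.incl W.K 0 • b a = 0
    simp
  map_add' x y := by
    apply Subtype.ext
    change ∑ a, Kp.incl W.K (x i a + y i a) • b a =
      ∑ a, Kp.incl W.K (x i a) • b a + ∑ a, Kp.incl W.K (y i a) • b a
    rw [← Finset.sum_add_distrib]
    exact Finset.sum_congr rfl fun a _ => by rw [map_add, add_smul]

theorem epsL_apply {i : ι} {A : GVar W Γ} (b : Fin (N i) → W.H A.X)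
    (h : Submodule.span W.K (Set.range b) = transcendental W A.X)
    (x : ∀ i, Fin (N i) → ℤ_[2]) :
    (epsL b h x : W.H A.X) = ∑ a, Kp.incl W.K (x i a) • b a := rfl

/-- The data on the lattices. -/
theorem latData_L (hG : ∀ i, IsGalois W (Kp.twist W.K κ) (X i).X (X i).act)
    (hsp : ∀ i, Submodule.span W.K (Set.range (b i)) = transcendental W (X i).X)
    (hact : ∀ i g a, (X i).act g (b i a) = ∑ c, Kp.incl W.K (ρ i g c a) • b i c) (c : ι → ℕ) :
    LatData (Kp.twist W.K κ) X hG (piRep fun i => repT κ (c i) (ρ i)) κ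
      (piP fun i => Fin (N i) → ℤ_[2]) (fun i => epsL (i := i) (b i) (hsp i)) c where
  smul i r x := by
    apply Subtype.ext
    rw [epsL_apply]
    change _ = aK W.K r • ∑ a, Kp.incl W.K (x i a) • b i a
    rw [Finset.smul_sum]
    refine Finset.sum_congr rfl fun a _ => ?_
    rw [Pi.smul_apply, Pi.smul_apply, smul_eq_mul, map_mul, mul_smul]
    rfl
  proj i x := by
    apply Subtype.ext
    rw [epsL_apply, epsL_apply, piP_apply, Pi.single_eq_same]
  proj_ne i j x hij := by
    apply Subtype.ext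
    rw [epsL_apply, piP_apply, Pi.single_eq_of_ne hij]
    change ∑ a, Kp.incl W.K 0 • b i a = 0
    simp
  span i := by
    rw [eq_top_iff]
    rintro ⟨y, hy⟩ -
    have h4 : transcendental W (X i).X ≤
        (Submodule.span W.K (Set.range (epsL (i := i) (b i) (hsp i)))).map
          (transcendental W (X i).X).subtype := by
      refine (hsp i).symm.le.trans (Submodule.span_le.2 ?_)
      rintro _ ⟨a, rfl⟩
      refine ⟨epsL (i := i) (b i) (hsp i) (Pi.single i (Pi.single a 1)),
        Submodule.subset_span ⟨_, rfl⟩, ?_⟩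
      rw [Submodule.subtype_apply, epsL_apply, Pi.single_eq_same, Finset.sum_eq_single a]
      · rw [Pi.single_eq_same, map_one, one_smul]
      · intro c _ hc
        rw [Pi.single_eq_of_ne hc, map_zero, zero_smul]
      · intro h
        exact absurd (Finset.mem_univ a) h
    obtain ⟨z, hz, hzy⟩ := h4 hy
    have h5 : z = ⟨y, hy⟩ := Subtype.ext hzy
    rwa [← h5]
  act i g x := by
    apply Subtype.ext
    rw [rhoT_apply, epsL_apply, Submodule.coe_smul, epsL_apply, map_sum, Finset.smul_sum]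
    have h1 : ∀ a, (X i).act g (Kp.incl W.K (x i a) • b i a) =
        ∑ d, Kp.incl W.K (x i a * ρ i g d a) • b i d := by
      intro a
      rw [map_smul, hact, Finset.smul_sum]
      refine Finset.sum_congr rfl fun d _ => ?_
      rw [smul_smul, map_mul]
    rw [Finset.sum_congr rfl fun a _ => h1 a, Finset.sum_comm]
    refine Finset.sum_congr rfl fun d _ => ?_
    rw [← Finset.sum_smul, smul_smul]
    congr 1
    have h2 : ((Kp.twist W.K κ g : W.Kˣ) : W.K) ^ c i =
      Kp.incl W.K ((((κ g)⁻¹) ^ c i : ℤ_[2]ˣ) : ℤ_[2]) := by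
      rw [Units.val_pow_eq_pow_val, map_pow]
      rfl
    rw [h2, ← map_sum, ← map_mul]
    congr 1
    change _ = ((((κ g)⁻¹) ^ c i : ℤ_[2]ˣ) : ℤ_[2]) *
      ((((κ g) ^ c i : ℤ_[2]ˣ) : ℤ_[2]) * (ρ i g *ᵥ x i) d)
    rw [← mul_assoc, ← Units.val_mul, inv_pow, inv_mul_cancel, Units.val_one, one_mul, mulVec,
      dotProduct]
    exact Finset.sum_congr rfl fun a _ => mul_comm _ _
  chi g := rfl

/-- **The system.** -/
theorem kSys_of_large (h : LatticeSystem κ G X D Z b J ρ) (h2 : LargeModTwo J ρ e)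
    (hZ : FreeBase Z.act ρ e) : KSys (Kp.twist W.K κ) G X D Z where
  galoisClass := h.galois
  mem := h.mem
  mem_base := h.mem_base
  odd := h.odd
  pol := h.pol
  middle := h.middle
  one_ne i := by
    intro h3
    have h0 : (0 : W.H (X i).X) = 1 := h3.symm
    have hb : ∀ a, b i a = 0 := fun a => by rw [← one_mul (b i a), h3, zero_mul]
    obtain ⟨r, -, hr⟩ := (h.lattice i).form
    have hJ : J i = 0 := by
      ext a c
      apply incl_inj (C := W.K)
      rw [← hr, hb, zero_mul, map_zero, mul_zero, Matrix.zero_apply, map_zero]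
    have h4 := (h2.products i) 0 (Fin.last (N i)) (by
      intro h
      have := congrArg Fin.val h
      rw [Fin.val_last, Fin.val_zero] at this
      have := h2.rank i
      omega)
    rw [hJ] at h4
    have h5 : red (0 : Matrix (Fin (N i)) (Fin (N i)) ℤ_[2]) = 0 := by
      ext a c
      rw [red_apply, Matrix.zero_apply, map_zero, Matrix.zero_apply]
    rw [h5, Matrix.mul_zero, Matrix.zero_mul, Matrix.zero_apply] at h4
    exact absurd h4 (by decide)
  base hG i := by
    classical
    choose r hr0 hr using fun i => (h.lattice i).form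
    have hJ : ∀ i, (J i)ᵀ = -J i := fun i => J_alt (h.odd i) (h.middle i) (h.lattice i).span (hr i)
    choose c hc using fun i => (h.odd i).add_one
    have hc2 : ∀ i, 2 * c i = (X i).X.dim + 1 := fun i => by rw [hc i, two_mul]
    choose Dv hDv using fun i => exists_vectors (e i)
    have hF := fun i => frame_of_red (hJ i) (h2.products i) (hDv i)
    have hinv : ∀ i s x y, Matrix.toBilin' (J i) (repT κ (c i) (ρ i) s x)
        (repT κ (c i) (ρ i) s y) = (κ s : ℤ_[2]) * Matrix.toBilin' (J i) x y := fun i s x y =>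
      repT_form κ (c i) (ρ i) (hc2 i) (J_sim (hG i) (hr i) (h.lattice i).act) s x y
    have hcard : ∀ i, 6 ≤ Fintype.card (Fin (N i + 1)) := fun i => by
      rw [Fintype.card_fin]
      have := h2.rank i
      omega
    have hoddc : ∀ i, Odd (Fintype.card (Fin (N i + 1))) := fun i => by
      rw [Fintype.card_fin]
      exact (hF i).1.add_one
    have hbig : ∀ i (π : Equiv.Perm (Fin (N i + 1))), Equiv.Perm.sign π = 1 → ∃ s,
        (∀ k, rr (Matrix.toBilin' (J i)) (Dv i) (repT κ (c i) (ρ i) s (Dv i k)) =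
          rr (Matrix.toBilin' (J i)) (Dv i) (Dv i (π k))) ∧
        ∀ j, j ≠ i → ∃ N, repT κ (c j) (ρ j) s = 1 + (2 : ℤ_[2]) • N := by
      intro i π hπ
      obtain ⟨g, hg, hg'⟩ := h2.permutations i π hπ
      exact ⟨g, fun a => rr_of_red κ (c i) (ρ i) (hDv i) hg a,
        fun j hj => rep_of_red κ (c j) (ρ j) (hg' j hj)⟩
    obtain ⟨d, f, τ, hτ, hl⟩ := hZ
    refine kp_base (latData_L hG (fun i => (h.lattice i).span) (fun i => (h.lattice i).act) c) (piB_self _ fun i => (hF i).2.alt)
      (piB_nd _ fun i => (hF i).2.nd) piP_sum piP_self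
      piP_ne (piB_piP _) f τ hτ
      (killsAll_of_large _ κ τ (fun i => (hF i).2) hinv hcard hoddc hbig fun i => ?_)
      (killsAll_of_large _ κ 1 (fun i => (hF i).2) hinv hcard hoddc hbig fun i => ?_) i
      (h.middle i) (h.odd i)
    · rcases hl i with h1 | ⟨g, hg1, π, hg2, hg3⟩
      · exact Or.inl (by rw [Fintype.card_fin]; exact h1)
      · refine Or.inr ⟨g, π, ?_, hg2, fun j a => rr_of_red κ (c j) (ρ j) (hDv j) (hg3 j) a⟩
        exact exists_of_red (hg1.trans (Matrix.map_one _ (map_zero _) (map_one _)).symm)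
    · refine Or.inl ?_
      rw [Fintype.card_fin]
      have h1 : (7).factorial ≤ (N i + 1).factorial :=
        Nat.factorial_le (by have := h2.rank i; omega)
      refine lt_of_lt_of_le ?_ h1
      decide

end sys

end

end Pool.Agent.N171.TG.Kl
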