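import Pool.Agent.Y518.SS.Krs
import Pool.Agent.Y255.SS.LF
import Pool.Agent.Y142.ZS.Stm

set_option autoImplicit false

/-! Krasner for roots in the unit disc, all prime numbers (adapted from R932.OP.TypCUa by helper746). -/

open Polynomial Filter Topology
open Pool.Agent.Y142.ZI Pool.Agent.Y142.ZD
open Pool.Agent.Y331.ZD (um_add um_sub near_split norm_map exists_mu exists_bd root_aut)
open Pool.Agent.Y518.SS (nice)

namespace Pool.Agent.N171.TG

variable {ℓ : ℕ} [hℓ : Fact ℓ.Prime]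

/-- Krasner for polynomials with roots in the unit disc (adapted from Y518.SS.Krs by helper518) -/
theorem krs2 (R₀ : ℚ_[ℓ][X]) (hR₀ : R₀.Monic) (hsep : R₀.Separable)
    (hunit : ∀ r : AlgebraicClosure ℚ_[ℓ], aeval r R₀ = 0 → ‖r‖ ≤ 1) :
    ∃ ε : ℝ, 0 < ε ∧ ∀ (k : ℕ) (Q : ℚ_[ℓ][X]), 1 < k → Q.Monic → Q.natDegree = R₀.natDegree →
      (∀ j, ‖(resc ℓ k Q - R₀).coeff j‖ < ε) →
      Q.Separable ∧
      (∀ (j : ℕ) (x y : AlgebraicClosure ℚ_[ℓ]), 0 < j → aeval x Q = 0 → aeval y Q = 0 →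
        x ^ j = y ^ j → x = y) ∧
      ∃ φ : AlgebraicClosure ℚ_[ℓ] → AlgebraicClosure ℚ_[ℓ],
        (∀ r, aeval r R₀ = 0 → aeval (φ r) Q = 0) ∧
        (∀ r s, aeval r R₀ = 0 → aeval s R₀ = 0 → φ r = φ s → r = s) ∧
        (∀ x, aeval x Q = 0 → ∃ r, aeval r R₀ = 0 ∧ φ r = x) ∧
        ∀ (τ : AlgebraicClosure ℚ_[ℓ] ≃ₐ[ℚ_[ℓ]] AlgebraicClosure ℚ_[ℓ]) (r : AlgebraicClosure ℚ_[ℓ]),
          aeval r R₀ = 0 → φ (τ r) = τ (φ r) := by
  classical
  set L := AlgebraicClosure ℚ_[ℓ] with hL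
  set i : ℚ_[ℓ] →+* L := algebraMap ℚ_[ℓ] L with hi
  have hnorm : ∀ x : ℚ_[ℓ], ‖i x‖ = ‖x‖ := norm_map
  -- the roots of `R₀`
  set J : Type := {r : L // r ∈ (R₀.map i).roots.toFinset} with hJ
  set b : J → L := Subtype.val with hb
  have hbinj : Function.Injective b := Subtype.val_injective
  have hsepP : (R₀.map i).Separable := hsep.map
  have hndR : (R₀.map i).roots.Nodup := nodup_roots hsepP
  have hcardJ : Fintype.card J = R₀.natDegree := by
    rw [Fintype.card_coe, Multiset.toFinset_card_of_nodup hndR,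
      ← (IsAlgClosed.splits (R₀.map i)).natDegree_eq_card_roots, natDegree_map]
  have hroot0 : ∀ s : L, aeval s R₀ = 0 ↔ ∃ j : J, b j = s := by
    intro s
    constructor
    · intro h
      refine ⟨⟨s, ?_⟩, rfl⟩
      rw [Multiset.mem_toFinset, mem_roots (hR₀.map i).ne_zero, IsRoot, eval_map, ← aeval_def]
      exact h
    · rintro ⟨⟨s', hs'⟩, rfl⟩
      rw [Multiset.mem_toFinset, mem_roots (hR₀.map i).ne_zero, IsRoot, eval_map, ← aeval_def] at hs'
      exact hs'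
  have hprod0 : R₀.map i = ∏ j : J, (X - C (b j)) := by
    conv_lhs => rw [(IsAlgClosed.splits (R₀.map i)).eq_prod_roots_of_monic (hR₀.map i)]
    rw [Finset.prod_coe_sort (R₀.map i).roots.toFinset (fun r => (X - C r : L[X])),
      Finset.prod, Multiset.toFinset_val, Multiset.dedup_eq_self.mpr hndR]
  -- the constants
  obtain ⟨M, hMe⟩ : ∃ M : ℝ, M = 1 := ⟨1, rfl⟩
  have hM1 : 1 ≤ M := hMe.ge
  have hM : ∀ j : J, ‖b j‖ ≤ M := fun j => by
    rw [hMe]
    exact hunit _ ((hroot0 _).2 ⟨j, rfl⟩)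
  have hℓ3 : (2 : ℝ) ≤ ℓ := by exact_mod_cast (Fact.out : ℓ.Prime).two_le
  obtain ⟨μ, hμ0, hμ1, hμ⟩ := exists_mu
    (fun q : J × J => ‖b q.1 - b q.2‖)
    (fun q => b q.1 - b q.2 ≠ 0)
    (fun q hq => norm_pos_iff.mpr hq)
  have hsep2 : ∀ j1 j2 : J, ‖b j1 - b j2‖ < μ → j1 = j2 := by
    intro j1 j2 h
    by_contra hne
    have h1 := hμ (j1, j2) (by
      dsimp only
      intro h0
      exact hne (hbinj (sub_eq_zero.1 h0)))
    exact absurd h1 (not_le.mpr h)
  have hℓ1 : (1 : ℝ) < ℓ := by exact_mod_cast (Fact.out : ℓ.Prime).one_lt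
  have hℓ0 : (0 : ℝ) < ℓ := by linarith
  have hinv1 : (ℓ : ℝ)⁻¹ < 1 := inv_lt_one_of_one_lt₀ hℓ1
  have hinv0 : 0 < (ℓ : ℝ)⁻¹ := inv_pos.2 hℓ0
  have hM0 : 0 < M := by linarith
  have hεpos : 0 < μ ^ Fintype.card J / (2 * M ^ Fintype.card J) := by positivity
  have hε1 : μ ^ Fintype.card J / (2 * M ^ Fintype.card J) * M ^ Fintype.card J <
      μ ^ Fintype.card J := by
    have h1 : μ ^ Fintype.card J / (2 * M ^ Fintype.card J) * M ^ Fintype.card J =
        μ ^ Fintype.card J / 2 := by field_simp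
    rw [h1]
    have : 0 < μ ^ Fintype.card J := by positivity
    linarith
  refine ⟨μ ^ Fintype.card J / (2 * M ^ Fintype.card J), hεpos, ?_⟩
  intro k Q hk hQ hQdeg hcl
  obtain ⟨r, hrinj, hrb, hprod⟩ := near_split (b := b) (P := (resc ℓ k Q).map i) hμ0 hM1 hM
    (fun u v huv => by
      by_contra hlt
      push Not at hlt
      exact huv (hsep2 u v hlt))
    hεpos.le hε1 ((resc_monic k hQ).map i)
    (by rw [natDegree_map, resc_natDegree, hQdeg, hcardJ])
    (fun j => by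
      rw [← hprod0, ← Polynomial.map_sub, coeff_map, hnorm]
      exact (hcl j).le)
  have hLk : ((ℓ : ℚ_[ℓ]) ^ k) ≠ 0 := ell_pow_ne k
  set la : L := i ((ℓ : ℚ_[ℓ]) ^ k) with hla
  have hla0 : la ≠ 0 := (_root_.map_ne_zero _).2 hLk
  have hlan : ‖la‖ ≤ 1 / 3 / M := by
    rw [hla, hnorm, norm_pow, Padic.norm_p, hMe, div_one]
    have h1 : (ℓ : ℝ)⁻¹ ^ k ≤ (ℓ : ℝ)⁻¹ ^ 2 := pow_le_pow_of_le_one hinv0.le hinv1.le hk
    refine h1.trans ?_
    have h2 : (ℓ : ℝ)⁻¹ ≤ 2⁻¹ := inv_anti₀ (by norm_num) hℓ3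
    calc (ℓ : ℝ)⁻¹ ^ 2 ≤ (2 : ℝ)⁻¹ ^ 2 := pow_le_pow_left₀ hinv0.le h2 2
      _ ≤ 1 / 3 := by norm_num
  have hr1 : ∀ j, ‖r j‖ ≤ M := by
    intro j
    have h1 : r j = (r j - b j) + b j := by ring
    rw [h1]
    exact (IsUltrametricDist.norm_add_le_max _ _).trans
      (max_le ((hrb j).le.trans (hμ1.trans hM1)) (hM j))
  have hlin : ∀ u, ‖la * r u‖ ≤ 1 / 3 := by
    intro u
    rw [norm_mul]
    calc ‖la‖ * ‖r u‖ ≤ (1 / 3 / M) * M := by
          refine mul_le_mul hlan (hr1 u) (norm_nonneg _) (by positivity)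
      _ = 1 / 3 := by field_simp
  -- the roots of `Q`
  set q : J → L := fun j => 1 + la * r j with hq
  have hqinj : Function.Injective q := by
    intro u v huv
    simp only [hq, add_right_inj] at huv
    exact hrinj (mul_left_cancel₀ hla0 huv)
  have hrootR : ∀ s : L, aeval s (resc ℓ k Q) = 0 ↔ ∃ j, s = r j := by
    intro s
    rw [aeval_def, ← eval_map, ← hi, hprod, eval_prod, Finset.prod_eq_zero_iff]
    simp [sub_eq_zero]
  have hQroot : ∀ x : L, aeval x Q = 0 → ∃ j, q j = x := by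
    intro x hx
    have h1 := (aeval_resc k Q x).mpr hx
    obtain ⟨j, hj⟩ := (hrootR _).mp h1
    refine ⟨j, ?_⟩
    simp only [hq]
    rw [← hj, hla, mul_div_cancel₀ _ hla0]
    ring
  have hQroot' : ∀ j, aeval (q j) Q = 0 := by
    intro j
    have h1 : aeval (r j) (resc ℓ k Q) = 0 := (hrootR _).mpr ⟨j, rfl⟩
    rw [aeval_resc'] at h1
    exact h1
  have hsepR : (resc ℓ k Q).Separable := by
    refine (separable_map i).mp ?_
    rw [hprod]
    exact (separable_prod_X_sub_C_iff (f := r)).mpr hrinj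
  -- equivariance
  have hequiv : ∀ (τ : L ≃ₐ[ℚ_[ℓ]] L) (j j' : J), b j' = τ (b j) → q j' = τ (q j) := by
    intro τ j j' hjj
    have h1 : aeval (τ (r j)) (resc ℓ k Q) = 0 := root_aut τ ((hrootR _).mpr ⟨j, rfl⟩)
    obtain ⟨j'', hj''⟩ := (hrootR _).mp h1
    have h2 : ‖r j'' - b j'‖ < μ := by
      rw [← hj'', hjj, ← map_sub, Pool.Agent.Y331.ZD.norm_inv']
      exact hrb j
    have h3 : j'' = j' := by
      apply hsep2
      have : b j'' - b j' = (r j'' - b j') - (r j'' - b j'') := by ring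
      rw [this]
      exact um_sub h2 (hrb j'')
    simp only [hq]
    rw [map_add, map_one, map_mul, hj'', h3]
    congr 2
    exact (τ.commutes _).symm
  refine ⟨separable_of_resc k hsepR, ?_, ?_⟩
  · -- distinct powers
    intro j x y hj hx hy hxy
    obtain ⟨u, rfl⟩ := hQroot x hx
    obtain ⟨v, rfl⟩ := hQroot y hy
    refine nice _ _ j hj ?_ ?_ hxy
    · have : q u - 1 = la * r u := by simp only [hq]; ring
      rw [this]
      exact hlin u
    · have : q v - 1 = la * r v := by simp only [hq]; ring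
      rw [this]
      exact hlin v
  · -- the bijection
    set φ : L → L := fun s => if h : aeval s R₀ = 0 then q (Classical.choose ((hroot0 s).mp h))
      else 0 with hφ
    have hφb : ∀ j, φ (b j) = q j := by
      intro j
      have h : aeval (b j) R₀ = 0 := (hroot0 _).mpr ⟨j, rfl⟩
      have h1 := Classical.choose_spec ((hroot0 (b j)).mp h)
      simp only [hφ]
      rw [dif_pos h, hbinj h1]
    refine ⟨φ, ?_, ?_, ?_, ?_⟩
    · intro s hs
      obtain ⟨j, rfl⟩ := (hroot0 s).mp hs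
      rw [hφb]
      exact hQroot' j
    · intro s s' hs hs' h
      obtain ⟨j, rfl⟩ := (hroot0 s).mp hs
      obtain ⟨j', rfl⟩ := (hroot0 s').mp hs'
      rw [hφb, hφb] at h
      rw [hqinj h]
    · intro x hx
      obtain ⟨j, rfl⟩ := hQroot x hx
      exact ⟨b j, (hroot0 _).mpr ⟨j, rfl⟩, hφb j⟩
    · intro τ s hs
      obtain ⟨j, rfl⟩ := (hroot0 s).mp hs
      obtain ⟨j', hj'⟩ := (hroot0 _).mp (root_aut τ hs)
      rw [← hj', hφb, hφb]
      exact hequiv τ j j' hj'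


end Pool.Agent.N171.TG
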