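import Pool.Agent.N171.TG.Wn4
import Pool.Agent.R932.PO.JLie
import Pool.Agent.R932.PO.Ht
import Pool.Agent.R932.PO.Semi

/-!
# Joint tangent vectors of two families of representations
-/

set_option autoImplicit false
set_option linter.unusedSectionVars false
set_option linter.style.haveILetI false

open Matrix Filter Topology Module
open Pool.Agent.Y142.ZO Pool.Agent.Y142.ZI Pool.Agent.Y142.ZS
open Pool.Agent.R932 Pool.Agent.R932.PO

namespace Pool.Agent.N171.TG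

section
variable {ℓ : ℕ} [hℓ : Fact ℓ.Prime] {G : Type} [Group G]

/-- the block representation -/
noncomputable def blkR {ι : Type} [Fintype ι] [DecidableEq ι] {N : ι → ℕ} {n : ℕ}
    (E : (Σ i, Fin (N i)) ≃ Fin n) (ρ : ∀ i, G →* Matrix (Fin (N i)) (Fin (N i)) ℚ_[ℓ]) :
    G →* Matrix (Fin n) (Fin n) ℚ_[ℓ] where
  toFun g := (blockDiagonal' fun i => ρ i g).submatrix E.symm E.symm
  map_one' := by
    have h1 : (fun i => ρ i 1) = (1 : ∀ i, Matrix (Fin (N i)) (Fin (N i)) ℚ_[ℓ]) := by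
      funext i
      exact map_one _
    rw [h1, blockDiagonal'_one, submatrix_one_equiv]
  map_mul' g h := by
    rw [submatrix_mul_equiv, ← blockDiagonal'_mul]
    congr 1
    congr 1
    funext i
    exact map_mul _ _ _

theorem blkR_entry {ι : Type} [Fintype ι] [DecidableEq ι] {N : ι → ℕ} {n : ℕ}
    (E : (Σ i, Fin (N i)) ≃ Fin n) (ρ : ∀ i, G →* Matrix (Fin (N i)) (Fin (N i)) ℚ_[ℓ]) (g : G)
    (i : ι) (a b : Fin (N i)) : blkR E ρ g (E ⟨i, a⟩) (E ⟨i, b⟩) = ρ i g a b := by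
  change (blockDiagonal' fun i => ρ i g) (E.symm (E ⟨i, a⟩)) (E.symm (E ⟨i, b⟩)) = _
  rw [Equiv.symm_apply_apply, Equiv.symm_apply_apply, blockDiagonal'_apply_eq]

theorem blkR_cont {ι : Type} [Fintype ι] [DecidableEq ι] {N : ι → ℕ} {n : ℕ} [TopologicalSpace G]
    (E : (Σ i, Fin (N i)) ≃ Fin n) {ρ : ∀ i, G →* Matrix (Fin (N i)) (Fin (N i)) ℚ_[ℓ]}
    (hρ : ∀ i, Continuous (ρ i)) : Continuous (blkR E ρ) := by
  have h1 : Continuous fun g => (blockDiagonal' fun i => ρ i g) :=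
    (continuous_pi hρ).matrix_blockDiagonal'
  exact h1.matrix_submatrix _ _

theorem blkR_lim {ι : Type} [Fintype ι] [DecidableEq ι] {N : ι → ℕ} {n : ℕ}
    (E : (Σ i, Fin (N i)) ≃ Fin n) {ρ : ∀ i, G →* Matrix (Fin (N i)) (Fin (N i)) ℚ_[ℓ]}
    {σ : ℕ → G} {Y : Matrix (Fin n) (Fin n) ℚ_[ℓ]}
    (h : Tendsto (fun m : ℕ => ((ℓ : ℚ_[ℓ]) ^ m)⁻¹ • (blkR E ρ (σ m) - 1)) atTop (𝓝 Y)) (i : ι) :
    Tendsto (fun m : ℕ => ((ℓ : ℚ_[ℓ]) ^ m)⁻¹ • (ρ i (σ m) - 1)) atTop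
      (𝓝 (Matrix.of fun a b => Y (E ⟨i, a⟩) (E ⟨i, b⟩))) := by
  refine tendsto_pi_nhds.2 fun a => tendsto_pi_nhds.2 fun b => ?_
  have h1 := (tendsto_pi_nhds.1 (tendsto_pi_nhds.1 h (E ⟨i, a⟩))) (E ⟨i, b⟩)
  refine h1.congr fun m => ?_
  rw [Matrix.smul_apply, Matrix.sub_apply, blkR_entry, Matrix.smul_apply, Matrix.sub_apply]
  congr 2
  rw [Matrix.one_apply, Matrix.one_apply]
  by_cases hab : a = b
  · rw [hab, if_pos rfl, if_pos rfl]
  · rw [if_neg hab, if_neg]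
    intro h2
    apply hab
    have h3 := E.injective h2
    simpa using h3

theorem blkR_tan {ι : Type} [Fintype ι] [DecidableEq ι] {N : ι → ℕ} {n : ℕ}
    (E : (Σ i, Fin (N i)) ≃ Fin n) {ρ : ∀ i, G →* Matrix (Fin (N i)) (Fin (N i)) ℚ_[ℓ]}
    {X : ∀ i, Matrix (Fin (N i)) (Fin (N i)) ℚ_[ℓ]} (hX : JTan ℓ ρ X) :
    IsTangent ℓ (blkR E ρ) ((blockDiagonal' X).submatrix E.symm E.symm) := by
  obtain ⟨σ, hσ⟩ := hX
  refine ⟨σ, ?_⟩
  have h1 : Tendsto (fun m : ℕ => (blockDiagonal' fun i => ((ℓ : ℚ_[ℓ]) ^ m)⁻¹ • (ρ i (σ m) - 1)))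
      atTop (𝓝 (blockDiagonal' X)) := by
    have hc : Continuous fun A : ∀ i, Matrix (Fin (N i)) (Fin (N i)) ℚ_[ℓ] => blockDiagonal' A :=
      continuous_id.matrix_blockDiagonal'
    exact (hc.tendsto X).comp (tendsto_pi_nhds.2 hσ)
  have hc2 : Continuous fun A : Matrix (Σ i, Fin (N i)) (Σ i, Fin (N i)) ℚ_[ℓ] =>
      A.submatrix E.symm E.symm := continuous_id.matrix_submatrix _ _
  refine ((hc2.tendsto _).comp h1).congr fun m => ?_
  ext a b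
  simp only [Function.comp_apply, submatrix_apply]
  rw [Matrix.smul_apply, Matrix.sub_apply]
  change _ = _ • ((blockDiagonal' fun i => ρ i (σ m)) (E.symm a) (E.symm b) - _)
  have h2 : (1 : Matrix (Fin n) (Fin n) ℚ_[ℓ]) a b =
      (blockDiagonal' (1 : ∀ i, Matrix (Fin (N i)) (Fin (N i)) ℚ_[ℓ])) (E.symm a) (E.symm b) := by
    rw [blockDiagonal'_one, Matrix.one_apply, Matrix.one_apply]
    simp
  rw [h2, ← Matrix.sub_apply, ← blockDiagonal'_sub, ← Matrix.smul_apply, ← blockDiagonal'_smul]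
  rfl

/-- **Tangent vectors of a family of representations are components of joint tangent vectors of two
families.** -/
theorem lift_fam {ι κ : Type} [Fintype ι] [Fintype κ] {N : ι → ℕ} {M : κ → ℕ} [TopologicalSpace G]
    [IsTopologicalGroup G] [CompactSpace G] {ρ : ∀ i, G →* Matrix (Fin (N i)) (Fin (N i)) ℚ_[ℓ]}
    {r : ∀ i, G →* Matrix (Fin (M i)) (Fin (M i)) ℚ_[ℓ]} (hρ : ∀ i, Continuous (ρ i))
    (hr : ∀ i, Continuous (r i)) {X : ∀ i, Matrix (Fin (N i)) (Fin (N i)) ℚ_[ℓ]}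
    (hX : JTan ℓ ρ X) :
    ∃ (Y : ∀ i, Matrix (Fin (M i)) (Fin (M i)) ℚ_[ℓ]) (σ : ℕ → G),
      (∀ i, Tendsto (fun n : ℕ => ((ℓ : ℚ_[ℓ]) ^ n)⁻¹ • (ρ i (σ n) - 1)) atTop (𝓝 (X i))) ∧
      ∀ i, Tendsto (fun n : ℕ => ((ℓ : ℚ_[ℓ]) ^ n)⁻¹ • (r i (σ n) - 1)) atTop (𝓝 (Y i)) := by
  classical
  let n := Fintype.card (Σ i, Fin (N i))
  let E : (Σ i, Fin (N i)) ≃ Fin n := Fintype.equivFin _
  let m := Fintype.card (Σ i, Fin (M i))
  let E' : (Σ i, Fin (M i)) ≃ Fin m := Fintype.equivFin _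
  let sz : Bool → ℕ := fun o => match o with
    | true => n
    | false => m
  let fam : ∀ o : Bool, G →* Matrix (Fin (sz o)) (Fin (sz o)) ℚ_[ℓ] := fun o => match o with
    | true => blkR E ρ
    | false => blkR E' r
  have hfam : ∀ o, Continuous (fam o) := fun o => match o with
    | true => blkR_cont E hρ
    | false => blkR_cont E' hr
  obtain ⟨Y, ⟨σ, hσ⟩, hY⟩ := JL.jlift_core fam hfam true _ (blkR_tan E hX)
  have h1 : Tendsto (fun n : ℕ => ((ℓ : ℚ_[ℓ]) ^ n)⁻¹ • (blkR E ρ (σ n) - 1)) atTop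
      (𝓝 ((blockDiagonal' X).submatrix E.symm E.symm)) := by
    rw [← hY]
    exact hσ true
  have h2 : Tendsto (fun n : ℕ => ((ℓ : ℚ_[ℓ]) ^ n)⁻¹ • (blkR E' r (σ n) - 1)) atTop
      (𝓝 (Y false)) := hσ false
  refine ⟨_, σ, fun i => ?_, fun i => blkR_lim E' h2 i⟩
  have h3 := blkR_lim E h1 i
  have h4 : (Matrix.of fun a b => ((blockDiagonal' X).submatrix E.symm E.symm) (E ⟨i, a⟩)
      (E ⟨i, b⟩)) = X i := by
    ext a b
    rw [Matrix.of_apply, submatrix_apply, Equiv.symm_apply_apply, Equiv.symm_apply_apply,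
      blockDiagonal'_apply_eq]
  rwa [h4] at h3

end

end Pool.Agent.N171.TG
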