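import Pool.Agent.N171.TG.Mt1

/-!
# The Lie algebra of the image as a fibre product
-/

set_option autoImplicit false
set_option linter.unusedSectionVars false
set_option linter.style.haveILetI false

open Matrix Filter Topology Module
open Pool.Agent.Y142.ZO Pool.Agent.Y142.ZI Pool.Agent.Y142.ZS
open Pool.Agent.R932 Pool.Agent.R932.PO Pool.Agent.R932.PO.HT

namespace Pool.Agent.N171.TG

section
variable {ℓ : ℕ} [hℓ : Fact ℓ.Prime] {G : Type} [Group G] {ι : Type} [Fintype ι] [DecidableEq ι]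
  {N w : ι → ℕ} {d : ℕ}

/-- joint tangent vectors of the representations `ρ i`, the representation `τ` and the character
`κ` -/
def Tan3 (ρ : ∀ i, G →* Matrix (Fin (N i)) (Fin (N i)) ℚ_[ℓ])
    (τ : G →* Matrix (Fin d) (Fin d) ℚ_[ℓ]) (κ : G →* ℚ_[ℓ])
    (X : ∀ i, Matrix (Fin (N i)) (Fin (N i)) ℚ_[ℓ]) (Y : Matrix (Fin d) (Fin d) ℚ_[ℓ])
    (c : ℚ_[ℓ]) : Prop :=
  ∃ σ : ℕ → G,
    (∀ i, Tendsto (fun n : ℕ => ((ℓ : ℚ_[ℓ]) ^ n)⁻¹ • (ρ i (σ n) - 1)) atTop (𝓝 (X i))) ∧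
    Tendsto (fun n : ℕ => ((ℓ : ℚ_[ℓ]) ^ n)⁻¹ • (τ (σ n) - 1)) atTop (𝓝 Y) ∧
    Tendsto (fun n : ℕ => ((ℓ : ℚ_[ℓ]) ^ n)⁻¹ * (κ (σ n) - 1)) atTop (𝓝 c)

/-- the character as a representation -/
noncomputable def chR (κ : G →* ℚ_[ℓ]) : G →* Matrix (Fin 1) (Fin 1) ℚ_[ℓ] :=
  (Matrix.scalar (Fin 1) : ℚ_[ℓ] →+* Matrix (Fin 1) (Fin 1) ℚ_[ℓ]).toMonoidHom.comp κ

theorem chR_apply (κ : G →* ℚ_[ℓ]) (s : G) : chR κ s 0 0 = κ s := by
  change (Matrix.scalar (Fin 1) (κ s)) 0 0 = κ s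
  rw [scalar_apply, diagonal_apply_eq]

theorem chR_cont [TopologicalSpace G] {κ : G →* ℚ_[ℓ]} (hκ : Continuous κ) :
    Continuous (chR κ) := by
  refine continuous_matrix fun p q => ?_
  have h0 : (fun s => chR κ s p q) = fun s => κ s := by
    funext s
    rw [Subsingleton.elim p 0, Subsingleton.elim q 0, chR_apply]
  rw [h0]
  exact hκ

theorem chR_lim {κ : G →* ℚ_[ℓ]} {σ : ℕ → G} {Y : Matrix (Fin 1) (Fin 1) ℚ_[ℓ]} :
    Tendsto (fun n : ℕ => ((ℓ : ℚ_[ℓ]) ^ n)⁻¹ • (chR κ (σ n) - 1)) atTop (𝓝 Y) ↔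
      Tendsto (fun n : ℕ => ((ℓ : ℚ_[ℓ]) ^ n)⁻¹ * (κ (σ n) - 1)) atTop (𝓝 (Y 0 0)) := by
  have h1 : ∀ n : ℕ, (((ℓ : ℚ_[ℓ]) ^ n)⁻¹ • (chR κ (σ n) - 1)) 0 0 =
      ((ℓ : ℚ_[ℓ]) ^ n)⁻¹ * (κ (σ n) - 1) := by
    intro n
    rw [Matrix.smul_apply, Matrix.sub_apply, chR_apply, one_apply_eq, smul_eq_mul]
  constructor
  · intro h
    refine ((tendsto_pi_nhds.1 (tendsto_pi_nhds.1 h 0)) 0).congr fun n => h1 n
  · intro h
    refine tendsto_pi_nhds.2 fun p => tendsto_pi_nhds.2 fun q => ?_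
    rw [Subsingleton.elim p 0, Subsingleton.elim q 0]
    exact h.congr fun n => (h1 n).symm

/-- the sizes of the three representations -/
def sz3 (N : ι → ℕ) (d : ℕ) : Option (Option ι) → ℕ
  | none => 1
  | some none => d
  | some (some i) => N i

/-- the three representations -/
noncomputable def fam3 (ρ : ∀ i, G →* Matrix (Fin (N i)) (Fin (N i)) ℚ_[ℓ])
    (τ : G →* Matrix (Fin d) (Fin d) ℚ_[ℓ]) (κ : G →* ℚ_[ℓ]) :
    ∀ o : Option (Option ι), G →* Matrix (Fin (sz3 N d o)) (Fin (sz3 N d o)) ℚ_[ℓ]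
  | none => chR κ
  | some none => τ
  | some (some i) => ρ i

/-- the vectors -/
noncomputable def vec3 (X : ∀ i, Matrix (Fin (N i)) (Fin (N i)) ℚ_[ℓ])
    (Y : Matrix (Fin d) (Fin d) ℚ_[ℓ]) (c : ℚ_[ℓ]) :
    ∀ o : Option (Option ι), Matrix (Fin (sz3 N d o)) (Fin (sz3 N d o)) ℚ_[ℓ]
  | none => (Matrix.scalar (Fin 1) c : Matrix (Fin 1) (Fin 1) ℚ_[ℓ])
  | some none => Y
  | some (some i) => X i

variable {ρ : ∀ i, G →* Matrix (Fin (N i)) (Fin (N i)) ℚ_[ℓ]}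
    {τ : G →* Matrix (Fin d) (Fin d) ℚ_[ℓ]} {κ : G →* ℚ_[ℓ]}
    {J : ∀ i, Matrix (Fin (N i)) (Fin (N i)) ℚ_[ℓ]}

theorem tan3_iff_jtan {X : ∀ i, Matrix (Fin (N i)) (Fin (N i)) ℚ_[ℓ]}
    {Y : Matrix (Fin d) (Fin d) ℚ_[ℓ]} {c : ℚ_[ℓ]} :
    Tan3 ρ τ κ X Y c ↔ JTan ℓ (fam3 ρ τ κ) (vec3 X Y c) := by
  have hc : (Matrix.scalar (Fin 1) c : Matrix (Fin 1) (Fin 1) ℚ_[ℓ]) 0 0 = c := by
    rw [scalar_apply, diagonal_apply_eq]
  constructor
  · rintro ⟨σ, h1, h2, h3⟩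
    refine ⟨σ, fun o => ?_⟩
    match o with
    | none =>
      refine chR_lim.2 ?_
      change Tendsto _ atTop (𝓝 ((Matrix.scalar (Fin 1) c : Matrix (Fin 1) (Fin 1) ℚ_[ℓ]) 0 0))
      rw [hc]
      exact h3
    | some none => exact h2
    | some (some i) => exact h1 i
  · rintro ⟨σ, h⟩
    refine ⟨σ, fun i => h (some (some i)), h (some none), ?_⟩
    have h1 := chR_lim.1 (h none)
    change Tendsto _ atTop (𝓝 ((Matrix.scalar (Fin 1) c : Matrix (Fin 1) (Fin 1) ℚ_[ℓ]) 0 0)) at h1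
    rwa [hc] at h1

theorem Tan3.add {X X' : ∀ i, Matrix (Fin (N i)) (Fin (N i)) ℚ_[ℓ]}
    {Y Y' : Matrix (Fin d) (Fin d) ℚ_[ℓ]} {c c' : ℚ_[ℓ]} (h : Tan3 ρ τ κ X Y c)
    (h' : Tan3 ρ τ κ X' Y' c') : Tan3 ρ τ κ (X + X') (Y + Y') (c + c') := by
  obtain ⟨𝔤, h𝔤, -, -⟩ := jlie ℓ _ _ G (fam3 ρ τ κ)
  rw [tan3_iff_jtan, ← h𝔤] at h h' ⊢
  have h1 := 𝔤.add_mem h h'
  have h2 : vec3 X Y c + vec3 X' Y' c' = vec3 (X + X') (Y + Y') (c + c') := by
    funext o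
    match o with
    | none => exact (map_add (Matrix.scalar (Fin 1)) c c').symm
    | some none => rfl
    | some (some i) => rfl
  rwa [h2] at h1

theorem Tan3.smul {X : ∀ i, Matrix (Fin (N i)) (Fin (N i)) ℚ_[ℓ]}
    {Y : Matrix (Fin d) (Fin d) ℚ_[ℓ]} {c : ℚ_[ℓ]} (a : ℚ_[ℓ]) (h : Tan3 ρ τ κ X Y c) :
    Tan3 ρ τ κ (a • X) (a • Y) (a * c) := by
  obtain ⟨𝔤, h𝔤, -, -⟩ := jlie ℓ _ _ G (fam3 ρ τ κ)
  rw [tan3_iff_jtan, ← h𝔤] at h ⊢
  have h1 := 𝔤.smul_mem a h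
  have h2 : a • vec3 X Y c = vec3 (a • X) (a • Y) (a * c) := by
    funext o
    match o with
    | none =>
      change a • (Matrix.scalar (Fin 1) c : Matrix (Fin 1) (Fin 1) ℚ_[ℓ]) =
        Matrix.scalar (Fin 1) (a * c)
      ext p q
      rw [Matrix.smul_apply, scalar_apply, scalar_apply, Subsingleton.elim p q, diagonal_apply_eq,
        diagonal_apply_eq, smul_eq_mul]
    | some none => rfl
    | some (some i) => rfl
  rwa [h2] at h1

theorem Tan3.zero : Tan3 ρ τ κ (0 : ∀ i, Matrix (Fin (N i)) (Fin (N i)) ℚ_[ℓ]) 0 0 :=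
  ⟨fun _ => 1, fun i => by simp [map_one], by simp [map_one], by simp [map_one]⟩

theorem Tan3.bracket {X X' : ∀ i, Matrix (Fin (N i)) (Fin (N i)) ℚ_[ℓ]}
    {Y Y' : Matrix (Fin d) (Fin d) ℚ_[ℓ]} {c c' : ℚ_[ℓ]} (h : Tan3 ρ τ κ X Y c)
    (h' : Tan3 ρ τ κ X' Y' c') :
    Tan3 ρ τ κ (fun i => X i * X' i - X' i * X i) (Y * Y' - Y' * Y) 0 := by
  obtain ⟨𝔤, h𝔤, hbr, -⟩ := jlie ℓ _ _ G (fam3 ρ τ κ)
  rw [tan3_iff_jtan, ← h𝔤] at h h' ⊢
  have h1 := hbr _ h _ h'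
  have h2 : (fun o => vec3 X Y c o * vec3 X' Y' c' o - vec3 X' Y' c' o * vec3 X Y c o) =
      vec3 (fun i => X i * X' i - X' i * X i) (Y * Y' - Y' * Y) (0 : ℚ_[ℓ]) := by
    funext o
    match o with
    | none =>
      change (Matrix.scalar (Fin 1) c : Matrix (Fin 1) (Fin 1) ℚ_[ℓ]) * Matrix.scalar (Fin 1) c' -
        Matrix.scalar (Fin 1) c' * Matrix.scalar (Fin 1) c = Matrix.scalar (Fin 1) 0
      rw [← map_mul, ← map_mul, mul_comm, sub_self, map_zero]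
    | some none => rfl
    | some (some i) => rfl
  rwa [h2] at h1

/-- the elements of the Lie algebras of the forms are joint tangent vectors, with zero components
on the values and on the character -/
theorem tan3_zero [TopologicalSpace G] [IsTopologicalGroup G] [CompactSpace G]
    (hρ : ∀ i, Continuous (ρ i)) (hτ : Continuous τ) (hκ : Continuous κ) (hJ : ∀ i, IsForm (J i))
    (hfull : ∀ X : ∀ i, Matrix (Fin (N i)) (Fin (N i)) ℚ_[ℓ], (∀ i, SpLie (J i) (X i)) →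
      ∃ σ : ℕ → G,
      (∀ i, Tendsto (fun n : ℕ => ((ℓ : ℚ_[ℓ]) ^ n)⁻¹ • (ρ i (σ n) - 1)) atTop (𝓝 (X i))) ∧
      Tendsto (fun n : ℕ => ((ℓ : ℚ_[ℓ]) ^ n)⁻¹ • (τ (σ n) - 1)) atTop (𝓝 0))
    {X : ∀ i, Matrix (Fin (N i)) (Fin (N i)) ℚ_[ℓ]} (hX : ∀ i, SpLie (J i) (X i)) :
    Tan3 ρ τ κ X 0 0 := by
  -- with an unknown component on the character
  have hc : ∀ X, (∀ i, SpLie (J i) (X i)) → ∃ c, Tan3 ρ τ κ X 0 c := by
    intro X hX
    obtain ⟨σ₀, h1, h2⟩ := hfull X hX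
    let sz : Option ι → ℕ := fun o => match o with
      | none => d
      | some i => N i
    let fam : ∀ o : Option ι, G →* Matrix (Fin (sz o)) (Fin (sz o)) ℚ_[ℓ] := fun o => match o with
      | none => τ
      | some i => ρ i
    let vec : ∀ o : Option ι, Matrix (Fin (sz o)) (Fin (sz o)) ℚ_[ℓ] := fun o => match o with
      | none => (0 : Matrix (Fin d) (Fin d) ℚ_[ℓ])
      | some i => X i
    have hfam : ∀ o, Continuous (fam o) := fun o => match o with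
      | none => hτ
      | some i => hρ i
    have hj : JTan ℓ fam vec := ⟨σ₀, fun o => match o with
      | none => h2
      | some i => h1 i⟩
    obtain ⟨Y, σ, h3, h4⟩ := lift_fam (κ := Unit) (M := fun _ => 1) (r := fun _ => chR κ) hfam
      (fun _ => chR_cont hκ) hj
    exact ⟨Y () 0 0, σ, fun i => h3 (some i), h3 none, chR_lim.1 (h4 ())⟩
  let A : Submodule ℚ_[ℓ] (∀ i, Matrix (Fin (N i)) (Fin (N i)) ℚ_[ℓ]) :=
    { carrier := {X | Tan3 ρ τ κ X 0 0}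
      zero_mem' := Tan3.zero
      add_mem' := by
        intro X X' h h'
        have h1 := Tan3.add (h : Tan3 ρ τ κ X 0 0) h'
        rw [add_zero, add_zero] at h1
        exact h1
      smul_mem' := by
        intro a X h
        have h1 := Tan3.smul a (h : Tan3 ρ τ κ X 0 0)
        rw [smul_zero, mul_zero] at h1
        exact h1 }
  have h1 : ∀ (i : ι) (Z : Matrix (Fin (N i)) (Fin (N i)) ℚ_[ℓ]), Z ∈ brs (J i) →
      Pi.single i Z ∈ A := by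
    intro i Z hZ
    unfold brs at hZ
    induction hZ using Submodule.span_induction with
    | mem Z hZ =>
      obtain ⟨B, C, hB, hC, rfl⟩ := hZ
      have hsp : ∀ B, SpLie (J i) B → ∀ j, SpLie (J j)
          ((Pi.single i B : ∀ i, Matrix (Fin (N i)) (Fin (N i)) ℚ_[ℓ]) j) := by
        intro B hB j
        by_cases hj : j = i
        · subst hj
          rw [Pi.single_eq_same]
          exact hB
        · rw [Pi.single_eq_of_ne hj]
          unfold SpLie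
          rw [transpose_zero, zero_mul, mul_zero, add_zero]
      obtain ⟨b, hb⟩ := hc _ (hsp B hB)
      obtain ⟨c, hc⟩ := hc _ (hsp C hC)
      have h2 := hb.bracket hc
      have hs : (fun j => (Pi.single i B : ∀ i, Matrix (Fin (N i)) (Fin (N i)) ℚ_[ℓ]) j *
            (Pi.single i C : ∀ i, Matrix (Fin (N i)) (Fin (N i)) ℚ_[ℓ]) j -
          (Pi.single i C : ∀ i, Matrix (Fin (N i)) (Fin (N i)) ℚ_[ℓ]) j *
            (Pi.single i B : ∀ i, Matrix (Fin (N i)) (Fin (N i)) ℚ_[ℓ]) j) =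
          (Pi.single i (B * C - C * B) : ∀ i, Matrix (Fin (N i)) (Fin (N i)) ℚ_[ℓ]) := by
        funext j
        by_cases hj : j = i
        · subst hj
          rw [Pi.single_eq_same, Pi.single_eq_same, Pi.single_eq_same]
        · rw [Pi.single_eq_of_ne hj, Pi.single_eq_of_ne hj, Pi.single_eq_of_ne hj, mul_zero,
            sub_zero]
      rw [hs, mul_zero, sub_zero] at h2
      exact h2
    | zero =>
      rw [Pi.single_zero]
      exact A.zero_mem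
    | add Y Z _ _ hY hZ =>
      rw [Pi.single_add]
      exact A.add_mem hY hZ
    | smul c Z _ hZ =>
      rw [Pi.single_smul]
      exact A.smul_mem c hZ
  have h3 : X ∈ A := by
    rw [← Finset.univ_sum_single X]
    exact A.sum_mem fun i _ => h1 i _ (perf (hJ i) (hX i))
  exact h3

/-- **The Lie algebra of the joint image is the fibre product.** -/
theorem tan3_iff [TopologicalSpace G] [IsTopologicalGroup G] [CompactSpace G]
    (hρ : ∀ i, Continuous (ρ i)) (hτ : Continuous τ) (hκ : Continuous κ) (hJ : ∀ i, IsForm (J i))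
    (hsim : ∀ i g, Sim (J i) (ρ i g) (κ g ^ w i))
    (hfull : ∀ X : ∀ i, Matrix (Fin (N i)) (Fin (N i)) ℚ_[ℓ], (∀ i, SpLie (J i) (X i)) →
      ∃ σ : ℕ → G,
      (∀ i, Tendsto (fun n : ℕ => ((ℓ : ℚ_[ℓ]) ^ n)⁻¹ • (ρ i (σ n) - 1)) atTop (𝓝 (X i))) ∧
      Tendsto (fun n : ℕ => ((ℓ : ℚ_[ℓ]) ^ n)⁻¹ • (τ (σ n) - 1)) atTop (𝓝 0))
    (X : ∀ i, Matrix (Fin (N i)) (Fin (N i)) ℚ_[ℓ]) (Y : Matrix (Fin d) (Fin d) ℚ_[ℓ])
    (c : ℚ_[ℓ]) :
    Tan3 ρ τ κ X Y c ↔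
      (∃ σ : ℕ → G, Tendsto (fun n : ℕ => ((ℓ : ℚ_[ℓ]) ^ n)⁻¹ • (τ (σ n) - 1)) atTop (𝓝 Y) ∧
        Tendsto (fun n : ℕ => ((ℓ : ℚ_[ℓ]) ^ n)⁻¹ * (κ (σ n) - 1)) atTop (𝓝 c)) ∧
      ∀ i, (X i)ᵀ * J i + J i * X i = ((w i : ℚ_[ℓ]) * c) • J i := by
  constructor
  · rintro ⟨σ, h1, h2, h3⟩
    exact ⟨⟨σ, h2, h3⟩, fun i => lie_lim (h1 i) (pow_lim h3 (w i)) fun m => hsim i (σ m)⟩
  · rintro ⟨⟨σ₀, h1, h2⟩, h3⟩
    let sz : Bool → ℕ := fun o => match o with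
      | true => d
      | false => 1
    let fam : ∀ o : Bool, G →* Matrix (Fin (sz o)) (Fin (sz o)) ℚ_[ℓ] := fun o => match o with
      | true => τ
      | false => chR κ
    let vec : ∀ o : Bool, Matrix (Fin (sz o)) (Fin (sz o)) ℚ_[ℓ] := fun o => match o with
      | true => Y
      | false => (Matrix.scalar (Fin 1) c : Matrix (Fin 1) (Fin 1) ℚ_[ℓ])
    have hcc : (Matrix.scalar (Fin 1) c : Matrix (Fin 1) (Fin 1) ℚ_[ℓ]) 0 0 = c := by
      rw [scalar_apply, diagonal_apply_eq]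
    have hfam : ∀ o, Continuous (fam o) := fun o => match o with
      | true => hτ
      | false => chR_cont hκ
    have hj : JTan ℓ fam vec := ⟨σ₀, fun o => match o with
      | true => h1
      | false => chR_lim.2 (by
        change Tendsto _ atTop
          (𝓝 ((Matrix.scalar (Fin 1) c : Matrix (Fin 1) (Fin 1) ℚ_[ℓ]) 0 0))
        rw [hcc]
        exact h2)⟩
    obtain ⟨X', σ, h4, h5⟩ := lift_fam (r := ρ) hfam hρ hj
    have h6 : Tendsto (fun n : ℕ => ((ℓ : ℚ_[ℓ]) ^ n)⁻¹ * (κ (σ n) - 1)) atTop (𝓝 c) := by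
      have h7 := chR_lim.1 (h4 false)
      change Tendsto _ atTop
        (𝓝 ((Matrix.scalar (Fin 1) c : Matrix (Fin 1) (Fin 1) ℚ_[ℓ]) 0 0)) at h7
      rwa [hcc] at h7
    have h7 : Tan3 ρ τ κ X' Y c := ⟨σ, h5, h4 true, h6⟩
    have h8 : ∀ i, (X' i)ᵀ * J i + J i * X' i = ((w i : ℚ_[ℓ]) * c) • J i := fun i =>
      lie_lim (h5 i) (pow_lim h6 (w i)) fun m => hsim i (σ m)
    have h9 : ∀ i, SpLie (J i) ((X - X') i) := by
      intro i
      unfold SpLie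
      rw [Pi.sub_apply, transpose_sub, sub_mul, mul_sub, sub_add_sub_comm, h3, h8, sub_self]
    have h10 := (tan3_zero hρ hτ hκ hJ hfull h9).add h7
    rwa [sub_add_cancel, zero_add, zero_add] at h10

end

end Pool.Agent.N171.TG
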