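import Pool.Agent.N171.TG.Mt2
import Pool.Agent.N171.TG.Fin
import Pool.Agent.R932.PO.JOpen

/-!
# The Lie algebra of the image is as large as the polarizations allow
-/

set_option autoImplicit false
set_option linter.unusedSectionVars false
set_option linter.style.haveILetI false

open Matrix Filter Topology Module NumberField IsDedekindDomain
open Pool.Agent.Y142.ZO Pool.Agent.Y142.ZI Pool.Agent.Y142.ZS
open Pool.Agent.R932 Pool.Agent.R932.OP Pool.Agent.R932.EV Pool.Agent.R932.PO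
open Pool.Agent.R932.PO.HT

namespace Pool.Agent.N171.TG

section
variable {ℓ : ℕ} [hℓ : Fact ℓ.Prime] {G : Type} [Group G] [TopologicalSpace G]
  [IsTopologicalGroup G] [CompactSpace G]

/-- a character with infinite image has all tangent vectors -/
theorem char_tangent {κ : G →* ℚ_[ℓ]} (hκ : Continuous κ) {g : G}
    (hg : ∀ n : ℕ, 0 < n → κ g ^ n ≠ 1) (c : ℚ_[ℓ]) :
    ∃ σ : ℕ → G, Tendsto (fun n : ℕ => ((ℓ : ℚ_[ℓ]) ^ n)⁻¹ * (κ (σ n) - 1)) atTop (𝓝 c) := by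
  obtain ⟨⟨U, hU, hUn⟩, hpow⟩ := Pool.Agent.Y497.ZO.pow ℓ 1 G (chR κ) (chR_cont hκ)
  obtain ⟨n, hn, hgn⟩ := hpow U hU g
  obtain ⟨⟨X, hX, hXx⟩, -⟩ := Pool.Agent.Y497.ZO.log ℓ 1 G (chR κ) (g ^ n) (hUn _ hgn)
  obtain ⟨𝔤, h𝔤, -, -⟩ := Pool.Agent.Y708.ZO.t ℓ 1 G (chR κ)
  have hX0 : X 0 0 ≠ 0 := by
    intro h0
    have h1 : X *ᵥ (fun _ => 1) = 0 := by
      funext a
      rw [Subsingleton.elim a 0]
      simp [mulVec, dotProduct, h0]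
    have h2 := congrFun ((hXx _).1 h1) 0
    have h3 : (chR κ (g ^ n) *ᵥ (fun _ => (1 : ℚ_[ℓ]))) 0 = κ g ^ n := by
      simp only [mulVec, dotProduct, Finset.univ_unique, Fin.default_eq_zero, mul_one,
        Finset.sum_singleton]
      rw [chR_apply, map_pow]
    rw [h3] at h2
    exact hg n hn h2
  have h4 : (c / X 0 0) • X ∈ 𝔤 := 𝔤.smul_mem _ ((h𝔤 X).2 hX)
  obtain ⟨σ, hσ⟩ := (h𝔤 _).1 h4
  refine ⟨σ, ?_⟩
  have h5 := chR_lim.1 hσ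
  have h6 : ((c / X 0 0) • X) 0 0 = c := by
    rw [Matrix.smul_apply, smul_eq_mul, div_mul_cancel₀ c hX0]
  rwa [h6] at h5

variable {ι : Type} [Fintype ι] [DecidableEq ι] {N w : ι → ℕ}

/-- tangent vectors of the representations and of the character -/
def Tan2 (ρ : ∀ i, G →* Matrix (Fin (N i)) (Fin (N i)) ℚ_[ℓ]) (κ : G →* ℚ_[ℓ])
    (X : ∀ i, Matrix (Fin (N i)) (Fin (N i)) ℚ_[ℓ]) (c : ℚ_[ℓ]) : Prop :=
  ∃ σ : ℕ → G,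
    (∀ i, Tendsto (fun n : ℕ => ((ℓ : ℚ_[ℓ]) ^ n)⁻¹ • (ρ i (σ n) - 1)) atTop (𝓝 (X i))) ∧
    Tendsto (fun n : ℕ => ((ℓ : ℚ_[ℓ]) ^ n)⁻¹ * (κ (σ n) - 1)) atTop (𝓝 c)

/-- **The Lie algebra is as large as the forms allow.** -/
theorem tan2_iff {ρ : ∀ i, G →* Matrix (Fin (N i)) (Fin (N i)) ℚ_[ℓ]} {κ : G →* ℚ_[ℓ]}
    {J : ∀ i, Matrix (Fin (N i)) (Fin (N i)) ℚ_[ℓ]}
    (hρ : ∀ i, Continuous (ρ i)) (hκ : Continuous κ) (hJ : ∀ i, IsForm (J i))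
    (hsim : ∀ i g, Sim (J i) (ρ i g) (κ g ^ w i)) {g : G} (hg : ∀ n : ℕ, 0 < n → κ g ^ n ≠ 1)
    (hfull : ∀ X, (∀ i, SpLie (J i) (X i)) → JTan ℓ ρ X)
    (X : ∀ i, Matrix (Fin (N i)) (Fin (N i)) ℚ_[ℓ]) (c : ℚ_[ℓ]) :
    Tan2 ρ κ X c ↔ ∀ i, (X i)ᵀ * J i + J i * X i = ((w i : ℚ_[ℓ]) * c) • J i := by
  have h0 : ∀ (Y Z : Matrix (Fin 0) (Fin 0) ℚ_[ℓ]), Y = Z := fun Y Z => Subsingleton.elim _ _
  have h1 := tan3_iff (d := 0) (w := w) (τ := (1 : G →* Matrix (Fin 0) (Fin 0) ℚ_[ℓ])) hρ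
    continuous_const hκ hJ hsim (fun X hX => by
      obtain ⟨σ, hσ⟩ := hfull X hX
      refine ⟨σ, hσ, ?_⟩
      exact tendsto_const_nhds.congr fun n => h0 _ _) X 0 c
  constructor
  · rintro ⟨σ, h2, h3⟩
    exact fun i => lie_lim (h2 i) (pow_lim h3 (w i)) fun m => hsim i (σ m)
  · intro h2
    obtain ⟨σ₀, hσ₀⟩ := char_tangent hκ hg c
    obtain ⟨σ, h3, -, h4⟩ := h1.2 ⟨⟨σ₀, tendsto_const_nhds.congr fun n => h0 _ _, hσ₀⟩, h2⟩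
    exact ⟨σ, h3, h4⟩

end

end Pool.Agent.N171.TG
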