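import Pool.Agent.N171.TG.Mt3

/-!
# Open images at 100 percent of the prime numbers
-/

set_option autoImplicit false
set_option linter.unusedSectionVars false
set_option linter.style.haveILetI false

open Matrix Polynomial Filter Topology NumberField IsDedekindDomain Module
open Pool.Agent.Y142.ZO Pool.Agent.Y142.ZI Pool.Agent.Y142.ZS
open Pool.Agent.R932.OP Pool.Agent.R932.EV Pool.Agent.R932.PO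

namespace Pool.Agent.N171.TG

section
variable {K : Type} [Field K] [NumberField K] {ι : Type} [Fintype ι] [DecidableEq ι] {N w : ι → ℕ}
  {S : Set (HeightOneSpectrum (𝓞 K))} {P : ι → HeightOneSpectrum (𝓞 K) → ℚ[X]}

/-- the conclusion at one prime number -/
def MTAt (ℓ : ℕ) [Fact ℓ.Prime] (w : ι → ℕ) (J : ∀ i, Matrix (Fin (N i)) (Fin (N i)) ℚ_[ℓ])
    (ρ : ∀ i, GK K →* Matrix (Fin (N i)) (Fin (N i)) ℚ_[ℓ]) (κ : GK K →* ℚ_[ℓ]) : Prop :=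
  ∀ X c, Tan2 ρ κ X c ↔ ∀ i, (X i)ᵀ * J i + J i * X i = ((w i : ℚ_[ℓ]) * c) • J i

/-- the open image -/
def OpAt (ℓ : ℕ) [Fact ℓ.Prime] (J : ∀ i, Matrix (Fin (N i)) (Fin (N i)) ℚ_[ℓ])
    (ρ : ∀ i, GK K →* Matrix (Fin (N i)) (Fin (N i)) ℚ_[ℓ]) : Prop :=
  ∃ ε : ℝ, 0 < ε ∧ ∀ g : ∀ i, Matrix (Fin (N i)) (Fin (N i)) ℚ_[ℓ],
    (∀ i, (g i)ᵀ * J i * g i = J i) → (∀ i a b, ‖(g i - 1) a b‖ < ε) → ∃ σ, ∀ i, ρ i σ = g i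

theorem two_le_norm (v : HeightOneSpectrum (𝓞 K)) : 2 ≤ Ideal.absNorm v.asIdeal := by
  have h1 : Ideal.absNorm v.asIdeal ≠ 1 := fun h =>
    v.isPrime.ne_top (Ideal.absNorm_eq_one_iff.1 h)
  have h2 : Ideal.absNorm v.asIdeal ≠ 0 := fun h => v.ne_bot (Ideal.absNorm_eq_zero_iff.1 h)
  omega

theorem mt_all (hS : S.Finite) (J : ∀ i, Matrix (Fin (N i)) (Fin (N i)) ℚ)
    (halt : ∀ i, (J i)ᵀ = -J i) (hpos : ∀ i, 0 < N i) (hdet : ∀ i, (J i).det ≠ 0)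
    (κ : ∀ (ℓ : ℕ) [Fact ℓ.Prime], GK K →* ℚ_[ℓ]) (hκc : ∀ (ℓ : ℕ) [Fact ℓ.Prime], Continuous (κ ℓ))
    (hκ : ∀ (ℓ : ℕ) [Fact ℓ.Prime], ∀ v ∉ S, (ℓ : 𝓞 K) ∉ v.asIdeal → ∀ σ : GK K, IsFrobenius v σ →
      κ ℓ σ⁻¹ = (Ideal.absNorm v.asIdeal : ℚ_[ℓ]))
    (ρ : ∀ (i : ι) (ℓ : ℕ) [Fact ℓ.Prime], GK K →* Matrix (Fin (N i)) (Fin (N i)) ℚ_[ℓ])
    (hρc : ∀ (i : ι) (ℓ : ℕ) [Fact ℓ.Prime], Continuous (ρ i ℓ))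
    (hmult : ∀ (i : ι) (ℓ : ℕ) [Fact ℓ.Prime] (g : GK K),
      Sim (JL J ℓ i) (ρ i ℓ g) (κ ℓ g ^ w i))
    (hfrob : ∀ (i : ι) (ℓ : ℕ) [Fact ℓ.Prime], ∀ v ∉ S, (ℓ : 𝓞 K) ∉ v.asIdeal → ∀ σ : GK K,
      IsFrobenius v σ → (ρ i ℓ σ⁻¹).charpoly = (P i v).map (algebraMap ℚ ℚ_[ℓ]))
    (ℓ₀ : ℕ) [hℓ₀ : Fact ℓ₀.Prime]
    (hfull : ∀ X, (∀ i, SpLie (JL J ℓ₀ i) (X i)) → JTan ℓ₀ (fun i => ρ i ℓ₀) X) :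
    (MTAt ℓ₀ w (JL J ℓ₀) (fun i => ρ i ℓ₀) (κ ℓ₀) ∧ OpAt ℓ₀ (JL J ℓ₀) (fun i => ρ i ℓ₀)) ∧
    Y142.ZI.DensityZero {ℓ | ∃ _ : Fact ℓ.Prime,
      ¬ (MTAt ℓ w (JL J ℓ) (fun i => ρ i ℓ) (κ ℓ) ∧ OpAt ℓ (JL J ℓ) (fun i => ρ i ℓ))} ∧
    (∀ (ℓ : ℕ) [Fact ℓ.Prime], (∀ i, SS (ρ i ℓ)) → (∀ i, SC (ρ i ℓ)) →
      MTAt ℓ w (JL J ℓ) (fun i => ρ i ℓ) (κ ℓ) ∧ OpAt ℓ (JL J ℓ) (fun i => ρ i ℓ)) ∧
    (∀ (ℓ : ℕ) [Fact ℓ.Prime], MTAt ℓ w (JL J ℓ) (fun i => ρ i ℓ) (κ ℓ) → ∀ i, SC (ρ i ℓ)) ∧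
    (finrank ℚ K = 1 → ∀ i (m : ℕ), 0 < w i + 2 * m →
      (∀ v ∉ S, ∃ R : ℤ[X],
        R.map (algebraMap ℤ ℚ) = (P i v).scaleRoots ((Ideal.absNorm v.asIdeal : ℚ) ^ m)) →
      (∀ v ∉ S, ∀ z : ℂ, aeval z (P i v) = 0 →
        ‖z‖ ^ 2 = (Ideal.absNorm v.asIdeal : ℝ) ^ w i) →
      ∀ (ℓ : ℕ) [Fact ℓ.Prime], SS (ρ i ℓ)) := by
  have hfit : ∀ i, Fits .sym (J i) := fun i => ⟨halt i, hpos i⟩
  have hdetL : ∀ (ℓ : ℕ) [Fact ℓ.Prime] (i : ι), (JL J ℓ i).det ≠ 0 := fun ℓ _ i =>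
    det_map_ne (algebraMap ℚ ℚ_[ℓ]) (hdet i)
  have hfitL : ∀ (ℓ : ℕ) [Fact ℓ.Prime] (i : ι), Fits .sym (JL J ℓ i) := fun ℓ _ i =>
    (hfit i).map (algebraMap ℚ ℚ_[ℓ])
  have hform : ∀ (ℓ : ℕ) [Fact ℓ.Prime] (i : ι), IsForm (JL J ℓ i) := fun ℓ _ i =>
    (hfitL ℓ i).isForm (hdetL ℓ i)
  have hns : ∀ (ℓ : ℕ) [Fact ℓ.Prime] (i : ι), (JL J ℓ i)ᵀ ≠ JL J ℓ i := by
    intro ℓ _ i h
    have h1 := (hfitL ℓ i).1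
    rw [h] at h1
    have h2 : (2 : ℚ_[ℓ]) • JL J ℓ i = 0 := by
      rw [two_smul]
      nth_rewrite 1 [h1]
      exact neg_add_cancel _
    have h3 : JL J ℓ i = 0 := (smul_eq_zero.1 h2).resolve_left two_ne_zero
    haveI : Nonempty (Fin (N i)) := ⟨⟨0, hpos i⟩⟩
    exact hdetL ℓ i (by rw [h3, det_zero])
  have hsys : ∀ (i : ι) (ℓ : ℕ) [Fact ℓ.Prime], Sys (MonoidHom.id (GK K)) .sym (N i) ℓ (ρ i ℓ)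
      (JL J ℓ i) S (P i) (fun v => (Ideal.absNorm v.asIdeal : ℚ) ^ w i) := by
    intro i ℓ _
    refine ⟨hρc i ℓ, hfitL ℓ i, hdetL ℓ i, fun γ => ⟨κ ℓ γ ^ w i, hmult i ℓ γ, fun h => ?_⟩, ?_⟩
    · exact absurd h (hns ℓ i)
    · intro v hv hvℓ σ hσ
      refine ⟨hfrob i ℓ v hv hvℓ σ hσ, ?_⟩
      have h1 : Sim (JL J ℓ i) (ρ i ℓ σ⁻¹) (κ ℓ σ⁻¹ ^ w i) := hmult i ℓ σ⁻¹
      rw [hκ ℓ v hv hvℓ σ hσ] at h1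
      show (ρ i ℓ σ⁻¹)ᵀ * JL J ℓ i * ρ i ℓ σ⁻¹ = (((Ideal.absNorm v.asIdeal : ℚ) ^ w i : ℚ) : ℚ_[ℓ]) •
        JL J ℓ i
      rw [Rat.cast_pow, Rat.cast_natCast]
      exact h1
  have hsev := several2 (s := MonoidHom.id (GK K)) continuous_id hS ρ (fun i ℓ _ => JL J ℓ i)
    hsys ℓ₀ hfull
  have hconc : ∀ (ℓ : ℕ) [Fact ℓ.Prime],
      (∀ X, (∀ i, SpLie (JL J ℓ i) (X i)) → JTan ℓ (fun i => ρ i ℓ) X) →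
      MTAt ℓ w (JL J ℓ) (fun i => ρ i ℓ) (κ ℓ) ∧ OpAt ℓ (JL J ℓ) (fun i => ρ i ℓ) := by
    intro ℓ hℓ hf
    obtain ⟨v, hv, σ, hσ, -⟩ := Pool.Agent.Y405.ZO.t K Set.univ isOpen_univ ⟨1, Set.mem_univ _⟩
      (S ∪ {v : HeightOneSpectrum (𝓞 K) | (ℓ : 𝓞 K) ∈ v.asIdeal}) (finite_union hS ℓ hℓ.out)
    have hκv := hκ ℓ v (fun h => hv (Or.inl h)) (fun h => hv (Or.inr h)) σ hσ
    constructor
    · intro X c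
      refine tan2_iff (g := σ⁻¹) (fun i => hρc i ℓ) (hκc ℓ) (hform ℓ) (fun i g => hmult i ℓ g)
        (fun n hn h => ?_) hf X c
      rw [hκv] at h
      have h1 : (Ideal.absNorm v.asIdeal) ^ n = 1 := by exact_mod_cast h
      have h2 := two_le_norm v
      have h3 := Nat.one_lt_pow hn.ne' (show 1 < Ideal.absNorm v.asIdeal by omega)
      omega
    · exact jopen jlie ℓ ι N (GK K) (fun i => ρ i ℓ) (fun i => hρc i ℓ) (JL J ℓ) (hform ℓ)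
        (fun i g => ⟨_, hmult i ℓ g⟩) hf
  refine ⟨hconc ℓ₀ hfull, ?_, ?_, ?_, ?_⟩
  · refine Y142.ZI.DensityZero.mono hsev.1 ?_
    rintro ℓ ⟨hp, hno⟩
    exact ⟨hp, fun h => hno (hconc ℓ h)⟩
  · intro ℓ _ hss hsc
    exact hconc ℓ (hsev.2 ℓ hss hsc)
  · intro ℓ _ hmt i
    have hf : ∀ X, (∀ i, SpLie (JL J ℓ i) (X i)) → JTan ℓ (fun i => ρ i ℓ) X := by
      intro X hX
      obtain ⟨σ, hσ, -⟩ := (hmt X 0).2 fun i => by rw [mul_zero, zero_smul]; exact hX i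
      exact ⟨σ, hσ⟩
    exact sc_of (ρ := fun i => ρ i ℓ) (J := JL J ℓ) (κ := κ ℓ) (w := w) i (hform ℓ i) (hpos i)
      (hmult i ℓ) fun T hT => killed_of_tate (fun i => hρc i ℓ) (hform ℓ) hf hT
  · intro hK i m hm hint hpure ℓ _
    exact Pool.Agent.N536.OP.ss_every hK (MonoidHom.id (GK K)) continuous_id (w := w i) hS
      (fun ℓ _ => JL J ℓ i) (fun ℓ _ => hform ℓ i) κ hκc hκ (ρ i) (hρc i) (hmult i) (hfrob i) m hm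
      hint hpure ℓ₀ (fun X hX => one_of_joint hfull i X hX) ℓ

end

end Pool.Agent.N171.TG
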