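import Pool.Agent.R932.PO.LtS
import Pool.Agent.R932.PO.Main
import Pool.Agent.N171.TG.Kr2

/-!
# Project TG: split and non-split local types of symplectic forms, all prime numbers

Adapted from `Pool.Agent.R932.PO` (LtS, App, Main), where the prime number is different from two.
-/

set_option autoImplicit false
set_option linter.unusedSectionVars false
set_option linter.style.haveILetI false

open Matrix Polynomial Filter Topology NumberField IsDedekindDomain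
open Pool.Agent.Y142.ZO Pool.Agent.Y142.ZI Pool.Agent.Y142.ZS
open Pool.Agent.Y142.ZD (DistPow NR RootBij)
open Pool.Agent.R932.OP Pool.Agent.R932.PO

namespace Pool.Agent.N171.TG

variable {ℓ : ℕ} [hℓ : Fact ℓ.Prime]

/-- an automorphism which moves `√ℓ` -/
theorem exists_move2 (ℓ : ℕ) [hℓ : Fact ℓ.Prime] :
    ∃ (τ : AlgebraicClosure ℚ_[ℓ] ≃ₐ[ℚ_[ℓ]] AlgebraicClosure ℚ_[ℓ]) (r : AlgebraicClosure ℚ_[ℓ]),
      r ^ 2 = algebraMap ℚ_[ℓ] (AlgebraicClosure ℚ_[ℓ]) (ℓ : ℚ_[ℓ]) ∧ τ r ≠ r := by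
  obtain ⟨r, hr⟩ := IsAlgClosed.exists_pow_nat_eq
    (algebraMap ℚ_[ℓ] (AlgebraicClosure ℚ_[ℓ]) (ℓ : ℚ_[ℓ])) (by norm_num : 0 < 2)
  by_contra hcon
  push Not at hcon
  have h1 : r ∈ (⊥ : IntermediateField ℚ_[ℓ] (AlgebraicClosure ℚ_[ℓ])) :=
    (InfiniteGalois.mem_bot_iff_fixed r).2 fun τ => hcon τ r hr
  obtain ⟨a, ha⟩ := IntermediateField.mem_bot.1 h1
  have h2 : a ^ 2 = (ℓ : ℚ_[ℓ]) := by
    apply (algebraMap ℚ_[ℓ] (AlgebraicClosure ℚ_[ℓ])).injective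
    rw [map_pow, ha, hr]
  have h3 := congrArg Padic.valuation h2
  rw [Padic.valuation_pow, Padic.valuation_p] at h3
  omega

/-- different roots have different powers, and some root is moved by `τ` -/
def Mvd (τ : AlgebraicClosure ℚ_[ℓ] ≃ₐ[ℚ_[ℓ]] AlgebraicClosure ℚ_[ℓ]) (Q : ℚ_[ℓ][X]) : Prop :=
  DistPow ℓ Q ∧ ∃ x : AlgebraicClosure ℚ_[ℓ], aeval x Q = 0 ∧ τ x ≠ x

/-- all roots are fixed by `τ` -/
def Fxd (τ : AlgebraicClosure ℚ_[ℓ] ≃ₐ[ℚ_[ℓ]] AlgebraicClosure ℚ_[ℓ]) (Q : ℚ_[ℓ][X]) : Prop :=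
  ∀ x : AlgebraicClosure ℚ_[ℓ], aeval x Q = 0 → τ x = x

theorem lts_core2 {N : ℕ} (hN : 0 < N) (J : Matrix (Fin N) (Fin N) ℚ_[ℓ])
    (hJ : Jᵀ = -J) (hdet : J.det ≠ 0) (R₀ : ℚ_[ℓ][X]) (hm : R₀.Monic) (hs : R₀.Separable)
    (hd : R₀.natDegree = N) (he : R₀.comp (-X) = R₀)
    (hu : ∀ r : AlgebraicClosure ℚ_[ℓ], aeval r R₀ = 0 → ‖r‖ ≤ 1) (Con : ℚ_[ℓ][X] → Prop)
    (hCon : ∀ (Q : ℚ_[ℓ][X]) (φ : AlgebraicClosure ℚ_[ℓ] → AlgebraicClosure ℚ_[ℓ]), DistPow ℓ Q →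
      (∀ r, aeval r R₀ = 0 → aeval (φ r) Q = 0) →
      (∀ r s, aeval r R₀ = 0 → aeval s R₀ = 0 → φ r = φ s → r = s) →
      (∀ x, aeval x Q = 0 → ∃ r, aeval r R₀ = 0 ∧ φ r = x) →
      (∀ (τ : AlgebraicClosure ℚ_[ℓ] ≃ₐ[ℚ_[ℓ]] AlgebraicClosure ℚ_[ℓ])
        (r : AlgebraicClosure ℚ_[ℓ]), aeval r R₀ = 0 → φ (τ r) = τ (φ r)) → Con Q) :
    LType ℓ J Con := by
  obtain ⟨T, hT, hTc⟩ := Pool.Agent.R932.OP.sform ℚ_[ℓ] N J R₀ hJ hdet hm hd he
  obtain ⟨ε, hε, hK⟩ := krs2 R₀ hm hs hu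
  obtain ⟨δ, k₂, hδ, hC⟩ := Pool.Agent.Y779.ZS.t ℓ N hN J T hJ hdet hT ε hε
  refine ⟨T, δ, max k₂ 2, hT, hδ, fun k g c hk hg _ hgT => ?_⟩
  obtain ⟨c0, c1, c2, c3⟩ := hC k g c (by omega) hg hgT
  rw [hTc] at c2
  have hgm : g.charpoly.Monic := g.charpoly_monic
  have hgd : g.charpoly.natDegree = R₀.natDegree := by
    rw [Matrix.charpoly_natDegree_eq_dim, Fintype.card_fin, hd]
  obtain ⟨-, q2, φ, q3, q4, q5, q6⟩ := hK k g.charpoly (by omega) hgm hgd c2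
  exact hCon g.charpoly φ q2 q3 q4 q5 q6

theorem norm_root_sq {c : ℚ_[ℓ]} (hc : ‖c‖ ≤ 1) {x : AlgebraicClosure ℚ_[ℓ]}
    (hx : x ^ 2 = algebraMap ℚ_[ℓ] (AlgebraicClosure ℚ_[ℓ]) c) : ‖x‖ ≤ 1 := by
  have h1 := congrArg norm hx
  rw [norm_pow, Pool.Agent.Y331.ZD.norm_map] at h1
  by_contra h
  push Not at h
  have h2 : 1 < ‖x‖ ^ 2 := one_lt_pow₀ h two_ne_zero
  linarith

theorem lts2 (τ : AlgebraicClosure ℚ_[ℓ] ≃ₐ[ℚ_[ℓ]] AlgebraicClosure ℚ_[ℓ])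
    {r : AlgebraicClosure ℚ_[ℓ]}
    (hr : r ^ 2 = algebraMap ℚ_[ℓ] (AlgebraicClosure ℚ_[ℓ]) (ℓ : ℚ_[ℓ])) (hτ : τ r ≠ r) {N : ℕ}
    (hN : 0 < N) {J : Matrix (Fin N) (Fin N) ℚ_[ℓ]} (hJ : Jᵀ = -J) (hdet : J.det ≠ 0) :
    LType ℓ J (Mvd τ) ∧ LType ℓ J (Fxd τ) := by
  obtain ⟨n, rfl⟩ : ∃ n, N = 2 * n := by
    have hev : Even N := by
      by_contra h
      rw [Nat.not_even_iff_odd] at h
      have h1 : J.det = -J.det := by
        conv_lhs => rw [← det_transpose, hJ, det_neg, Fintype.card_fin, h.neg_one_pow, neg_one_mul]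
      have h2 : (2 : ℚ_[ℓ]) * J.det = 0 := by linear_combination h1
      exact hdet ((mul_eq_zero.1 h2).resolve_left two_ne_zero)
    obtain ⟨n, hn⟩ := hev
    exact ⟨n, by omega⟩
  have hcn : ∀ a : ℕ, ‖(a : ℚ_[ℓ])‖ ≤ 1 := fun a => by
    exact_mod_cast Padic.norm_int_le_one (p := ℓ) (a : ℤ)
  constructor
  · -- a root which moves
    let c : Fin n → ℚ_[ℓ] := fun t => (((if (t : ℕ) = 0 then ℓ else (t : ℕ) ^ 2) : ℕ) : ℚ_[ℓ])
    have hsq : ∀ t : ℕ, ℓ ≠ t ^ 2 := by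
      intro t ht
      have hp := hℓ.out
      rw [ht, sq] at hp
      have h3 : t = 1 ∨ t = 1 := by
        rcases Nat.prime_mul_iff.1 hp with ⟨_, h⟩ | ⟨_, h⟩
        · exact Or.inl h
        · exact Or.inl h
      rcases h3 with rfl | rfl <;> exact absurd hp (by norm_num)
    have hinj : Function.Injective c := by
      intro s t hst
      have h3 : (if (s : ℕ) = 0 then ℓ else (s : ℕ) ^ 2) = if (t : ℕ) = 0 then ℓ else (t : ℕ) ^ 2 :=
        Nat.cast_injective hst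
      apply Fin.ext
      split_ifs at h3 with h4 h5 h5
      · rw [h4, h5]
      · exact absurd h3 (hsq _)
      · exact absurd h3.symm (hsq _)
      · exact Nat.pow_left_injective (n := 2) two_ne_zero h3
    have hne : ∀ t, c t ≠ 0 := by
      intro t h
      have h3 : (if (t : ℕ) = 0 then ℓ else (t : ℕ) ^ 2) = 0 := Nat.cast_eq_zero.1 h
      split_ifs at h3 with h4
      · exact hℓ.out.ne_zero h3
      · exact h4 (pow_eq_zero_iff two_ne_zero |>.1 h3)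
    refine lts_core2 hN J hJ hdet (prodSq c) (prodSq_monic c) (prodSq_separable c hinj hne)
      (prodSq_natDegree c) (prodSq_comp c) (fun x hx => ?_) _ fun Q φ hD f1 f2 f3 f5 => ?_
    · obtain ⟨t, ht⟩ := (prodSq_root c).1 hx
      exact norm_root_sq (hcn _) ht
    · refine ⟨hD, ?_⟩
      have hr1 : aeval r (prodSq c) = 0 := by
        rw [prodSq_root]
        refine ⟨⟨0, by omega⟩, ?_⟩
        rw [hr]
        simp [c]
      have hr2 : aeval (τ r) (prodSq c) = 0 := by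
        rw [← AlgEquiv.coe_toAlgHom, Polynomial.aeval_algHom_apply, hr1, map_zero]
      refine ⟨φ r, f1 r hr1, fun hx => ?_⟩
      rw [← f5 τ r hr1] at hx
      exact hτ (f2 _ _ hr2 hr1 hx)
  · -- split type
    let c : Fin n → ℚ_[ℓ] := fun t => ((((t : ℕ) + 1 : ℕ) : ℚ_[ℓ])) ^ 2
    have hinj : Function.Injective c := by
      intro s t hst
      have h3 : (((((s : ℕ) + 1) ^ 2 : ℕ)) : ℚ_[ℓ]) = (((((t : ℕ) + 1) ^ 2 : ℕ)) : ℚ_[ℓ]) := by
        simpa [c] using hst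
      have h4 : ((s : ℕ) + 1) ^ 2 = ((t : ℕ) + 1) ^ 2 := Nat.cast_injective h3
      have h5 : (s : ℕ) + 1 = (t : ℕ) + 1 := Nat.pow_left_injective (n := 2) two_ne_zero h4
      exact Fin.ext (Nat.succ_injective h5)
    have hne : ∀ t, c t ≠ 0 := by
      intro t
      exact pow_ne_zero 2 (Nat.cast_ne_zero.2 (Nat.succ_ne_zero _))
    refine lts_core2 hN J hJ hdet (prodSq c) (prodSq_monic c) (prodSq_separable c hinj hne)
      (prodSq_natDegree c) (prodSq_comp c) (fun x hx => ?_) _ fun Q φ hD f1 f2 f3 f5 => ?_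
    · obtain ⟨t, ht⟩ := (prodSq_root c).1 hx
      refine norm_root_sq ?_ ht
      rw [norm_pow]
      exact pow_le_one₀ (norm_nonneg _) (hcn _)
    · intro x hx
      obtain ⟨r, hr, rfl⟩ := f3 _ hx
      have hfix : τ r = r := by
        obtain ⟨t, ht⟩ := (prodSq_root c).1 hr
        simp only [c] at ht
        rw [map_pow, sq_eq_sq_iff_eq_or_eq_neg] at ht
        rcases ht with ht | ht
        · rw [ht, AlgEquiv.commutes]
        · rw [ht, map_neg, AlgEquiv.commutes]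
      rw [← f5 τ r hr, hfix]

/-- polynomials with a moved root, and with fixed roots, have independent roots -/
theorem indep_root2 (τ : AlgebraicClosure ℚ_[ℓ] ≃ₐ[ℚ_[ℓ]] AlgebraicClosure ℚ_[ℓ]) {P R : ℚ[X]}
    (hP : Mvd τ (P.map (algebraMap ℚ ℚ_[ℓ])))
    (hR : Fxd τ (R.map (algebraMap ℚ ℚ_[ℓ]))) (hR0 : R ≠ 0)
    (hP0 : ∀ x : AlgebraicClosure ℚ_[ℓ], aeval x (P.map (algebraMap ℚ ℚ_[ℓ])) = 0 → x ≠ 0) :
    ∃ x : ℂˣ, aeval (x : ℂ) P = 0 ∧ ∀ m : ℕ, 0 < m →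
      x ^ m ∉ Subgroup.closure {y : ℂˣ | aeval (y : ℂ) R = 0 ∨ ∃ q : ℚ, (y : ℂ) = (q : ℂ)} := by
  obtain ⟨hdist, x, hx, hτx⟩ := hP
  obtain ⟨e⟩ := Pool.Agent.Y95.MT.exists_emb ℓ
  have hx0 := hP0 x hx
  have hev : ∀ (F : ℚ[X]) (y : AlgebraicClosure ℚ_[ℓ]),
      aeval (e y) F = e (aeval y F) := by
    intro F y
    have h1 : (e.toRatAlgHom) y = e y := rfl
    rw [← h1, Polynomial.aeval_algHom_apply]
    rfl
  have hmap : ∀ (F : ℚ[X]) (y : AlgebraicClosure ℚ_[ℓ]),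
      aeval y (F.map (algebraMap ℚ ℚ_[ℓ])) = aeval y F := by
    intro F y
    rw [Polynomial.aeval_map_algebraMap]
  refine ⟨Units.mk0 (e x) (fun h => hx0 (e.injective (by rw [h, map_zero]))), ?_, fun m hm hmem => ?_⟩
  · rw [Units.val_mk0, hev, ← hmap, hx, map_zero]
  · -- the group of elements fixed by `τ`
    let H : Subgroup ℂˣ :=
      { carrier := {y | ∃ z : AlgebraicClosure ℚ_[ℓ], e z = y ∧ τ z = z}
        one_mem' := ⟨1, by rw [map_one]; rfl, map_one _⟩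
        mul_mem' := by
          rintro _ _ ⟨z, h1, h2⟩ ⟨w, h3, h4⟩
          exact ⟨z * w, by rw [map_mul, h1, h3]; rfl, by rw [map_mul, h2, h4]⟩
        inv_mem' := by
          rintro _ ⟨z, h1, h2⟩
          exact ⟨z⁻¹, by rw [map_inv₀, h1]; exact (Units.val_inv_eq_inv_val _).symm,
            by rw [map_inv₀, h2]⟩ }
    have hle : Subgroup.closure {y : ℂˣ | aeval (y : ℂ) R = 0 ∨ ∃ q : ℚ, (y : ℂ) = (q : ℂ)} ≤ H := by
      rw [Subgroup.closure_le]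
      rintro y (hy | ⟨q, hq⟩)
      · have h1 : (y : ℂ) ∈ ((R.map (algebraMap ℚ (AlgebraicClosure ℚ_[ℓ]))).map e).roots := by
          rw [Polynomial.mem_roots (Polynomial.map_ne_zero (Polynomial.map_ne_zero hR0)),
            Polynomial.IsRoot.def, Polynomial.map_map, Polynomial.eval_map]
          have h2 : e.comp (algebraMap ℚ (AlgebraicClosure ℚ_[ℓ])) = algebraMap ℚ ℂ :=
            Subsingleton.elim _ _
          rw [h2]
          exact hy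
        rw [(IsAlgClosed.splits _).roots_map e, Multiset.mem_map] at h1
        obtain ⟨z, hz, hzy⟩ := h1
        refine ⟨z, hzy, hR z ?_⟩
        rw [hmap]
        have h3 := (Polynomial.mem_roots (Polynomial.map_ne_zero hR0)).1 hz
        rw [Polynomial.IsRoot.def, Polynomial.eval_map_algebraMap] at h3
        exact h3
      · refine ⟨(q : AlgebraicClosure ℚ_[ℓ]), by rw [map_ratCast, hq], map_ratCast _ _⟩
    obtain ⟨z, hz, hτz⟩ := hle hmem
    rw [Units.val_pow_eq_pow_val, Units.val_mk0, ← map_pow] at hz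
    have h1 := e.injective hz
    rw [h1, map_pow] at hτz
    have hτr : aeval (τ x) (P.map (algebraMap ℚ ℚ_[ℓ])) = 0 := by
      rw [hmap]
      have h2 : aeval (τ x) P = τ (aeval x P) := by
        have h3 : ((τ : AlgebraicClosure ℚ_[ℓ] →+* AlgebraicClosure ℚ_[ℓ]).toRatAlgHom) x = τ x := rfl
        rw [← h3, Polynomial.aeval_algHom_apply]
        rfl
      rw [h2, ← hmap, hx, map_zero]
    exact hτx (hdist m (τ x) x hm hτr hx hτz)

section place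
variable {K : Type} [Field K] [NumberField K] {ι : Type} [Fintype ι] [DecidableEq ι] {N : ι → ℕ}
  {S : Set (HeightOneSpectrum (𝓞 K))} {P : ι → HeightOneSpectrum (𝓞 K) → ℚ[X]}
  {q : ι → HeightOneSpectrum (𝓞 K) → ℚ}
  {Γ : Type} [Group Γ] [TopologicalSpace Γ] [IsTopologicalGroup Γ] [CompactSpace Γ]
  {s : GK K →* Γ}

/-- a place with an independent root, symplectic systems -/
theorem exists_place2 (hs : Continuous s) (hS : S.Finite) (ℓ : ℕ) [hℓ : Fact ℓ.Prime]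
    (ρ : ∀ i, Γ →* Matrix (Fin (N i)) (Fin (N i)) ℚ_[ℓ])
    (J : ∀ i, Matrix (Fin (N i)) (Fin (N i)) ℚ_[ℓ])
    (hsys : ∀ i, Sys s .sym (N i) ℓ (ρ i) (J i) S (P i) (q i))
    (hfull : ∀ X, (∀ i, SpLie (J i) (X i)) → JTan ℓ (fun i => (ρ i).comp s) X)
    (i : ι) {T : Set (HeightOneSpectrum (𝓞 K))} (hT : T.Finite) :
    ∃ v, v ∉ T ∧ v ∉ S ∧ (ℓ : 𝓞 K) ∉ v.asIdeal ∧
      IndRoot (P i v) (∏ j ∈ Finset.univ.erase i, P j v) := by
  classical
  obtain ⟨τ, r, hr, hτ⟩ := exists_move2 ℓ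
  let Con : ι → ℚ_[ℓ][X] → Prop := fun j => if j = i then Mvd τ else Fxd τ
  have hj : ∀ j, LType ℓ (J j) (Con j) := by
    intro j
    obtain ⟨h3, h4⟩ := lts2 τ hr hτ (hsys j).2.1.2 (hsys j).2.1.1 (hsys j).2.2.1
    by_cases h : j = i
    · show LType ℓ (J j) (if j = i then Mvd τ else Fxd τ)
      rw [if_pos h]
      exact h3
    · show LType ℓ (J j) (if j = i then Mvd τ else Fxd τ)
      rw [if_neg h]
      exact h4
  choose X δ k₀ hX hδ hnear using hj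
  obtain ⟨v, hv, σ, hσ, k, hk, hclose⟩ := joint_frob (K := K) ℓ (fun i => (ρ i).comp s)
    (fun i => (hsys i).1.comp hs) (hfull X hX) hδ (Finset.univ.sup k₀)
    (T := T ∪ (S ∪ {v : HeightOneSpectrum (𝓞 K) | (ℓ : 𝓞 K) ∈ v.asIdeal}))
    (hT.union (Pool.Agent.R932.EV.finite_union hS ℓ hℓ.out))
  have hvT : v ∉ T := fun h => hv (Or.inl h)
  have hvS : v ∉ S := fun h => hv (Or.inr (Or.inl h))
  have hvℓ : (ℓ : 𝓞 K) ∉ v.asIdeal := fun h => hv (Or.inr (Or.inr h))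
  have hfrob := fun j => (hsys j).2.2.2.2 v hvS hvℓ σ hσ
  have hcon : ∀ j, Con j ((P j v).map (algebraMap ℚ ℚ_[ℓ])) := by
    intro j
    obtain ⟨c, hc, hc1⟩ := (hsys j).2.2.2.1 (s σ⁻¹)
    have h3 := hnear j k (ρ j (s σ⁻¹)) c ((Finset.le_sup (Finset.mem_univ j)).trans hk) hc hc1
      (hclose j)
    rwa [(hfrob j).1] at h3
  have hi : Mvd τ ((P i v).map (algebraMap ℚ ℚ_[ℓ])) := by
    have h3 := hcon i
    simp only [Con, if_true] at h3
    exact h3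
  have hm0 : ∀ j, P j v ≠ 0 := by
    intro j h0
    have h3 := (hfrob j).1
    rw [h0, Polynomial.map_zero] at h3
    exact (charpoly_monic _).ne_zero h3
  have hun : Fxd τ ((∏ j ∈ Finset.univ.erase i, P j v).map (algebraMap ℚ ℚ_[ℓ])) := by
    intro x hx
    rw [Polynomial.map_prod, map_prod, Finset.prod_eq_zero_iff] at hx
    obtain ⟨j, hj, hxj⟩ := hx
    have h3 := hcon j
    simp only [Con] at h3
    rw [if_neg (Finset.ne_of_mem_erase hj)] at h3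
    exact h3 x hxj
  refine ⟨v, hvT, hvS, hvℓ, indep_root2 τ hi hun (Finset.prod_ne_zero_iff.2 fun j _ => hm0 j) ?_⟩
  intro x hx hx0
  rw [← (hfrob i).1, hx0, Polynomial.aeval_def, Polynomial.eval₂_at_zero,
    map_eq_zero] at hx
  have h3 : (ρ i (s σ⁻¹)).det = 0 := by
    rw [Matrix.det_eq_sign_charpoly_coeff, hx, mul_zero]
  have h4 : (ρ i (s σ⁻¹)).det * (ρ i (s σ⁻¹)⁻¹).det = 1 := by
    rw [← det_mul, ← map_mul, mul_inv_cancel, map_one, det_one]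
  rw [h3, zero_mul] at h4
  exact zero_ne_one h4

end place

end Pool.Agent.N171.TG
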