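import Pool.Agent.R932.SQ.Main
import Pool.Agent.N171.TG.Tn9
import Pool.Agent.N171.TG.Cli

/-!
# Project TG: semisimplicity at every prime over number fields, from the image modulo two
-/

set_option autoImplicit false
set_option linter.unusedSectionVars false
set_option linter.style.haveILetI false

open Matrix Polynomial Filter Topology NumberField IsDedekindDomain Module
open Pool.Agent.Y142.ZO Pool.Agent.Y142.ZI Pool.Agent.Y142.ZS
open Pool.Agent.R932.SQ Pool.Agent.R932.PO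

namespace Pool.Agent.N171.TG

section block
variable {F : Type} [CommRing F] {d : ℕ} {N : Fin d → ℕ}

theorem det_block (M : ∀ i, Matrix (Fin (N i)) (Fin (N i)) F) :
    (blockDiagonal' M).det = ∏ i, (M i).det := by
  rw [(Matrix.blockTriangular_blockDiagonal' M).det_fintype]
  refine Finset.prod_congr rfl fun k _ => ?_
  let e : Fin (N k) ≃ {x : Σ i, Fin (N i) // x.1 = k} :=
    { toFun := fun a => ⟨⟨k, a⟩, rfl⟩
      invFun := fun x => x.2 ▸ x.1.2
      left_inv := fun a => rfl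
      right_inv := by
        rintro ⟨⟨i, a⟩, h⟩
        have h' : i = k := h
        subst h'
        rfl }
  rw [← Matrix.det_submatrix_equiv_self e]
  congr 1
  ext a b
  rw [submatrix_apply, toSquareBlock, toSquareBlockProp]
  exact blockDiagonal'_apply_eq M k a b

theorem charpoly_block (M : ∀ i, Matrix (Fin (N i)) (Fin (N i)) F) :
    (blockDiagonal' M).charpoly = ∏ i, (M i).charpoly := by
  have h1 : charmatrix (blockDiagonal' M) = blockDiagonal' (fun i => charmatrix (M i)) := by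
    ext ⟨i, a⟩ ⟨j, b⟩
    by_cases h : i = j
    · subst h
      rw [charmatrix_apply, blockDiagonal'_apply_eq, blockDiagonal'_apply_eq, charmatrix_apply]
      congr 1
      by_cases hab : a = b
      · subst hab
        rw [diagonal_apply_eq, diagonal_apply_eq]
      · rw [diagonal_apply_ne _ hab, diagonal_apply_ne]
        intro h
        exact hab (by simpa using h)
    · rw [charmatrix_apply, blockDiagonal'_apply_ne _ _ _ h, blockDiagonal'_apply_ne _ _ _ h,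
        diagonal_apply_ne, map_zero, sub_zero]
      intro h'
      exact h (congrArg Sigma.fst h')
  unfold Matrix.charpoly
  rw [h1, det_block]

end block

section ex
variable {ℓ : ℕ} [hℓ : Fact ℓ.Prime] {d : ℕ} {N : Fin d → ℕ}

/-- elements without isotropic relation in a product of symplectic Lie algebras -/
theorem exists_block {B : ∀ i, Matrix (Fin (N i)) (Fin (N i)) ℚ_[ℓ]} (hB : ∀ i, (B i)ᵀ = -B i)
    (hdet : ∀ i, (B i).det ≠ 0) :
    ∃ X : ∀ i, Matrix (Fin (N i)) (Fin (N i)) ℚ_[ℓ], (∀ i, SpLie (B i) (X i)) ∧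
      NoRel (blockDiagonal' X).charpoly 0 := by
  choose m hm using fun i => Pool.Agent.R932.OP.even_of_alt (hB i) (hdet i)
  let e : (Σ i, Fin (m i)) ≃ Fin (∑ i, m i) := finSigmaFinEquiv
  obtain ⟨a, ha0, ha⟩ := exists_scales (ℓ := ℓ) (fun _ : Fin (∑ i, m i) => 1)
    (fun _ => one_ne_zero)
  have hno := noRel_prod (ℓ := ℓ) (r := 0) (by norm_num) (fun i => 1 * a i ^ 2)
    (fun i => mul_ne_zero one_ne_zero (pow_ne_zero _ (ha0 i))) ha
  rw [pow_zero, mul_one] at hno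
  have hmon : ∀ k, ((X : ℚ_[ℓ][X]) ^ 2 - C (1 * a k ^ 2)).Monic := fun k =>
    monic_X_pow_sub_C _ (by norm_num)
  have hex : ∀ i, ∃ T : Matrix (Fin (N i)) (Fin (N i)) ℚ_[ℓ], SpLie (B i) T ∧
      T.charpoly = ∏ j : Fin (m i), ((X : ℚ_[ℓ][X]) ^ 2 - C (1 * a (e ⟨i, j⟩) ^ 2)) := by
    intro i
    refine Pool.Agent.R932.OP.sform ℚ_[ℓ] (N i) (B i) _ (hB i) (hdet i)
      (monic_prod_of_monic _ _ fun j _ => hmon _) ?_ ?_
    · rw [natDegree_prod_of_monic _ _ fun j _ => hmon _,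
        Finset.sum_congr rfl fun j _ => natDegree_X_pow_sub_C]
      simp only [Finset.sum_const, Finset.card_univ, Fintype.card_fin, smul_eq_mul]
      have := hm i
      omega
    · rw [prod_comp]
      refine Finset.prod_congr rfl fun j _ => ?_
      simp
  choose T hT hTc using hex
  refine ⟨T, hT, ?_⟩
  have h1 : (blockDiagonal' T).charpoly = ∏ k, ((X : ℚ_[ℓ][X]) ^ 2 - C (1 * a k ^ 2)) := by
    rw [charpoly_block, Finset.prod_congr rfl fun i _ => hTc i]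
    rw [← Equiv.prod_comp e, Fintype.prod_sigma]
  rw [h1]
  exact hno

end ex

section tan
variable {ℓ : ℕ} [hℓ : Fact ℓ.Prime] {d n : ℕ} {N : Fin d → ℕ} {G H : Type} [Group G] [Group H]

/-- joint tangent vectors and block matrices -/
theorem tangent_block (E : (Σ i, Fin (N i)) ≃ Fin n) (ρ : G →* Matrix (Fin n) (Fin n) ℚ_[ℓ])
    (r : ∀ i, H →* Matrix (Fin (N i)) (Fin (N i)) ℚ_[ℓ]) (s : H → G)
    (hs : ∀ h, ρ (s h) = (blockDiagonal' fun i => r i h).submatrix E.symm E.symm)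
    {X : ∀ i, Matrix (Fin (N i)) (Fin (N i)) ℚ_[ℓ]} (hX : JTan ℓ r X) :
    IsTangent ℓ ρ ((blockDiagonal' X).submatrix E.symm E.symm) := by
  obtain ⟨σ, hσ⟩ := hX
  refine ⟨fun k => s (σ k), ?_⟩
  have h1 : ∀ k : ℕ, ((ℓ : ℚ_[ℓ]) ^ k)⁻¹ • (ρ (s (σ k)) - 1) =
      (blockDiagonal' fun i => ((ℓ : ℚ_[ℓ]) ^ k)⁻¹ • (r i (σ k) - 1)).submatrix E.symm E.symm := by
    intro k
    have h2 : (blockDiagonal' fun i => ((ℓ : ℚ_[ℓ]) ^ k)⁻¹ • (r i (σ k) - 1)) =
        ((ℓ : ℚ_[ℓ]) ^ k)⁻¹ • ((blockDiagonal' fun i => r i (σ k)) - 1) := by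
      rw [← blockDiagonal'_one, ← blockDiagonal'_sub, ← blockDiagonal'_smul]
      rfl
    rw [h2, hs, submatrix_smul, submatrix_sub]
    simp only [Pi.smul_apply, Pi.sub_apply]
    rw [submatrix_one_equiv]
  refine tendsto_pi_nhds.2 fun a => tendsto_pi_nhds.2 fun b => ?_
  obtain ⟨⟨i, x⟩, rfl⟩ := E.surjective a
  obtain ⟨⟨j, y⟩, rfl⟩ := E.surjective b
  have h3 : ∀ k : ℕ, (((ℓ : ℚ_[ℓ]) ^ k)⁻¹ • (ρ (s (σ k)) - 1)) (E ⟨i, x⟩) (E ⟨j, y⟩) =
      blockDiagonal' (fun i => ((ℓ : ℚ_[ℓ]) ^ k)⁻¹ • (r i (σ k) - 1)) ⟨i, x⟩ ⟨j, y⟩ := by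
    intro k
    rw [h1, submatrix_apply, Equiv.symm_apply_apply, Equiv.symm_apply_apply]
  simp only [h3, submatrix_apply, Equiv.symm_apply_apply]
  by_cases h : i = j
  · subst h
    simp only [blockDiagonal'_apply_eq]
    exact tendsto_pi_nhds.1 (tendsto_pi_nhds.1 (hσ i) x) y
  · simp only [blockDiagonal'_apply_ne _ _ _ h]
    exact tendsto_const_nhds

end tan

/-- the linear maps of a matrix representation -/
noncomputable def endRep {F : Type} [Field F] {n : ℕ} {Γ : Type} [Group Γ]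
    (ρ : Γ →* Matrix (Fin n) (Fin n) F) : Γ →* Module.End F (Fin n → F) :=
  ((Matrix.toLinAlgEquiv' (R := F) (n := Fin n)).toAlgHom.toRingHom.toMonoidHom).comp ρ

theorem endRep_apply {F : Type} [Field F] {n : ℕ} {Γ : Type} [Group Γ]
    (ρ : Γ →* Matrix (Fin n) (Fin n) F) (g : Γ) (x : Fin n → F) : endRep ρ g x = ρ g *ᵥ x := rfl

/-- **semisimplicity at every prime from the image modulo two of the blocks** -/
theorem ss_block {K : Type} [Field K] [NumberField K] (hK : finrank ℚ K = 1)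
    {Γ : Type} [Group Γ] (θ : GK K →* Γ) {n w : ℕ} (hw : 0 < w)
    {S : Set (HeightOneSpectrum (𝓞 K))} (hS : S.Finite) (P : HeightOneSpectrum (𝓞 K) → ℤ[X])
    (hP : ∀ v ∉ S, (P v).Monic ∧
      ∀ z : ℂ, aeval z (P v) = 0 → ‖z‖ ^ 2 = (Ideal.absNorm v.asIdeal : ℝ) ^ w)
    (ρ : ∀ (ℓ : ℕ) [Fact ℓ.Prime], Γ →* Matrix (Fin n) (Fin n) ℚ_[ℓ])
    (hρ : ∀ (ℓ : ℕ) [Fact ℓ.Prime], Continuous ((ρ ℓ).comp θ))
    (J : ∀ (ℓ : ℕ) [Fact ℓ.Prime], Matrix (Fin n) (Fin n) ℚ_[ℓ])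
    (hJ : ∀ (ℓ : ℕ) [Fact ℓ.Prime], (J ℓ)ᵀ = J ℓ ∨ (J ℓ)ᵀ = -J ℓ)
    (hdet : ∀ (ℓ : ℕ) [Fact ℓ.Prime], (J ℓ).det ≠ 0)
    (χ : ∀ (ℓ : ℕ) [Fact ℓ.Prime], Γ → ℚ_[ℓ])
    (hχ : ∀ (ℓ : ℕ) [Fact ℓ.Prime] (g : Γ), (ρ ℓ g)ᵀ * J ℓ * ρ ℓ g = χ ℓ g • J ℓ)
    (hfrob : ∀ (ℓ : ℕ) [Fact ℓ.Prime], ∀ v ∉ S, (ℓ : 𝓞 K) ∉ v.asIdeal → ∀ σ : GK K,
      IsFrobenius v σ → (ρ ℓ (θ σ⁻¹)).charpoly = (P v).map (algebraMap ℤ ℚ_[ℓ]) ∧
      χ ℓ (θ σ⁻¹) = (Ideal.absNorm v.asIdeal : ℚ_[ℓ]) ^ w)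
    {d : ℕ} {N : Fin d → ℕ} (E : (Σ i, Fin (N i)) ≃ Fin n) (H : Subgroup (GK K))
    (r : ∀ i, H →* Matrix (Fin (N i)) (Fin (N i)) ℚ_[2])
    (B : ∀ i, Matrix (Fin (N i)) (Fin (N i)) ℚ_[2])
    (hr : ∀ h : H, ρ 2 (θ h) = (blockDiagonal' fun i => r i h).submatrix E.symm E.symm)
    (hB : J 2 = (blockDiagonal' B).submatrix E.symm E.symm)
    (h6 : ∀ i, 6 ≤ N i) (hBalt : ∀ i, (B i)ᵀ = -B i)
    (hint : ∀ i g a b, ‖r i g a b‖ ≤ 1) (hBint : ∀ i a b, ‖B i a b‖ ≤ 1)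
    (e : ∀ i, Fin (N i + 1) → Fin (N i) → ℚ_[2]) (heint : ∀ i a b, ‖e i a b‖ ≤ 1)
    (he : ∀ i a b, a ≠ b → ‖e i a ⬝ᵥ B i *ᵥ e i b‖ = 1)
    (hbig : ∀ i (π : Equiv.Perm (Fin (N i + 1))), Equiv.Perm.sign π = 1 → ∃ g,
      (∀ a b, ‖(r i g *ᵥ e i a - e i (π a)) b‖ < 1) ∧
      ∀ j, j ≠ i → ∀ a b, ‖(r j g - 1) a b‖ < 1)
    (ℓ : ℕ) [hℓ : Fact ℓ.Prime] (U : Subgroup Γ) (hU : U.FiniteIndex) :
    SSu (endRep (ρ ℓ)) U := by
  classical
  have hdetB : ∀ i, (B i).det ≠ 0 := by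
    intro i h0
    apply hdet 2
    rw [hB, det_submatrix_equiv_self, det_block]
    exact Finset.prod_eq_zero (Finset.mem_univ i) h0
  have hB0 : ∀ i, B i ≠ 0 := by
    intro i h0
    have h1 : (0 : Fin (N i + 1)) ≠ Fin.last (N i) := by
      intro h
      have h2 := congrArg Fin.val h
      rw [Fin.val_last, Fin.val_zero] at h2
      have := h6 i
      omega
    have h2 := he i 0 (Fin.last (N i)) h1
    rw [h0, zero_mulVec, dotProduct_zero, norm_zero] at h2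
    exact zero_ne_one h2
  have hsim : ∀ i (h : H), (r i h)ᵀ * B i * r i h = χ 2 (θ h) • B i := by
    intro i h
    have h1 := hχ 2 (θ h)
    rw [hr, hB, transpose_submatrix, submatrix_mul_equiv, submatrix_mul_equiv,
      blockDiagonal'_transpose, ← blockDiagonal'_mul, ← blockDiagonal'_mul] at h1
    have h2 : (blockDiagonal' fun i => (r i h)ᵀ * B i * r i h) =
        blockDiagonal' (χ 2 (θ h) • B) := by
      rw [blockDiagonal'_smul]
      ext x y
      have h3 := congrFun (congrFun h1 (E x)) (E y)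
      simpa only [submatrix_apply, Equiv.symm_apply_apply, Matrix.smul_apply] using h3
    exact congrFun (blockDiagonal'_injective h2) i
  let c : ∀ i : Fin d, H →* ℚ_[2] := fun i =>
    { toFun := fun h => χ 2 (θ h)
      map_one' := by
        have h1 := hsim i 1
        rw [map_one, transpose_one, one_mul, mul_one] at h1
        have h2 : (χ 2 (θ ((1 : H) : GK K)) - 1) • B i = 0 := by
          rw [sub_smul, one_smul, ← h1, sub_self]
        exact sub_eq_zero.1 ((smul_eq_zero.1 h2).resolve_right (hB0 i))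
      map_mul' := fun g h => by
        have h1 := hsim i (g * h)
        rw [map_mul, transpose_mul] at h1
        have h2 : (r i h)ᵀ * (r i g)ᵀ * B i * (r i g * r i h) =
            (r i h)ᵀ * ((r i g)ᵀ * B i * r i g) * r i h := by
          simp only [Matrix.mul_assoc]
        rw [h2, hsim i g, Matrix.mul_smul, Matrix.smul_mul, hsim i h, smul_smul] at h1
        have h3 : (χ 2 (θ ((g * h : H) : GK K)) -
            χ 2 (θ (g : GK K)) * χ 2 (θ (h : GK K))) • B i = 0 := by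
          rw [sub_smul, ← h1, sub_self]
        exact sub_eq_zero.1 ((smul_eq_zero.1 h3).resolve_right (hB0 i)) }
  obtain ⟨X, hX, hno⟩ := exists_block hBalt hdetB
  have hj : JTan 2 r X := jtan_of_large r B c
    (fun i => Pool.Agent.R932.OP.even_of_alt (hBalt i) (hdetB i)) h6 hBalt hint hBint
    (fun i g => hsim i g) e heint he hbig X hX
  have htan : IsTangent 2 ((ρ 2).comp θ) ((blockDiagonal' X).submatrix E.symm E.symm) :=
    tangent_block E ((ρ 2).comp θ) r (fun h => (h : GK K)) (fun h => hr h) hj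
  have hXJ : ((blockDiagonal' X).submatrix E.symm E.symm)ᵀ * J 2 +
      J 2 * (blockDiagonal' X).submatrix E.symm E.symm = (0 : ℚ_[2]) • J 2 := by
    rw [zero_smul, hB, transpose_submatrix, submatrix_mul_equiv, submatrix_mul_equiv,
      blockDiagonal'_transpose, ← blockDiagonal'_mul, ← blockDiagonal'_mul]
    have h1 : (blockDiagonal' fun i => (X i)ᵀ * B i) + (blockDiagonal' fun i => B i * X i) = 0 := by
      rw [← blockDiagonal'_add, ← blockDiagonal'_zero]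
      congr 1
      funext i
      exact hX i
    ext a b
    have h2 := congrFun (congrFun h1 (E.symm a)) (E.symm b)
    exact h2
  have hno' : NoRel ((blockDiagonal' X).submatrix E.symm E.symm).charpoly 0 := by
    have h1 : ((blockDiagonal' X).submatrix E.symm E.symm).charpoly =
        (blockDiagonal' X).charpoly := Matrix.charpoly_reindex E (blockDiagonal' X)
    rw [h1]
    exact hno
  refine SSu.finite_index (fun M hM => ?_) U hU
  obtain ⟨h1, h2⟩ := semisimple_all hK θ hw hS P hP ρ hρ J hJ hdet χ hχ hfrob 2 htan hXJ hno' ℓ M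
    (fun g x hx => hM g (Subgroup.mem_top g) x hx)
  exact ⟨_, fun g _ x hx => h2 g x hx, h1⟩

end Pool.Agent.N171.TG
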