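import Pool.Agent.N171.TG.Wn3

/-!
# Tate classes with values in an arbitrary representation, at an arbitrary prime
-/

set_option autoImplicit false
set_option linter.unusedSectionVars false
set_option linter.style.haveILetI false

open Matrix Polynomial Filter Topology Function
open Pool.Agent.Y142.ZO Pool.Agent.Y142.ZI Pool.Agent.Y142.ZS
open Pool.Agent.R932 Pool.Agent.R932.PO

namespace Pool.Agent.N171.TG.So

/-- joint tangent vectors, with zero on the values -/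
def WTanL {ℓ : ℕ} [Fact ℓ.Prime] {ι : Type} {N : ι → ℕ} {d : ℕ} {Γ : Type} [Group Γ]
    (ρ : ∀ i, Γ →* Matrix (Fin (N i)) (Fin (N i)) ℚ_[ℓ]) (t : Γ →* Matrix (Fin d) (Fin d) ℚ_[ℓ])
    (X : ∀ i, Matrix (Fin (N i)) (Fin (N i)) ℚ_[ℓ]) : Prop :=
  ∃ σ : ℕ → Γ,
    (∀ i, Tendsto (fun n : ℕ => ((ℓ : ℚ_[ℓ]) ^ n)⁻¹ • (ρ i (σ n) - 1)) atTop (𝓝 (X i))) ∧
    Tendsto (fun n : ℕ => ((ℓ : ℚ_[ℓ]) ^ n)⁻¹ • (t (σ n) - 1)) atTop (𝓝 0)

section words
variable {ℓ : ℕ} [hℓ : Fact ℓ.Prime] {ι : Type} [Fintype ι] {N w : ι → ℕ} {d : ℕ}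
  {G : Type} [Group G] [TopologicalSpace G] [IsTopologicalGroup G] [CompactSpace G]
  {ρ : ∀ i, G →* Matrix (Fin (N i)) (Fin (N i)) ℚ_[ℓ]}
  {J : ∀ i, Matrix (Fin (N i)) (Fin (N i)) ℚ_[ℓ]} {κ : G →* ℚ_[ℓ]}
  {τ : G →* Matrix (Fin d) (Fin d) ℚ_[ℓ]}

/-- the tensor with values is a Tate class: an open subgroup acts in the same way on the arguments and
on the values -/
def IsTateW (ρ : ∀ i, G →* Matrix (Fin (N i)) (Fin (N i)) ℚ_[ℓ])
    (τ : G →* Matrix (Fin d) (Fin d) ℚ_[ℓ]) {k : ℕ} (a : Fin k → ι)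
    (T : (∀ t, Fin (N (a t))) → Fin d → ℚ_[ℓ]) : Prop :=
  ∃ U : Subgroup G, IsOpen (U : Set G) ∧ ∀ σ ∈ U, ∀ v : ∀ t, Fin (N (a t)) → ℚ_[ℓ],
    valW T (fun t => ρ (a t) σ *ᵥ v t) = τ σ *ᵥ valW T v

/-- the value is multiplied by the `j`-th power of the character by an open subgroup -/
def IsTateV (τ : G →* Matrix (Fin d) (Fin d) ℚ_[ℓ]) (κ : G →* ℚ_[ℓ]) (j : ℕ)
    (x : Fin d → ℚ_[ℓ]) : Prop :=
  ∃ U : Subgroup G, IsOpen (U : Set G) ∧ ∀ σ ∈ U, τ σ *ᵥ x = κ σ ^ j • x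

/-- the coordinates of Tate classes are killed -/
theorem coord_killed (hρ : ∀ i, Continuous (ρ i)) (hτ : Continuous τ)
    (hfull : ∀ X, (∀ i, SpLie (J i) (X i)) → WTanL ρ τ X) {k : ℕ} {a : Fin k → ι}
    {T : (∀ t, Fin (N (a t))) → Fin d → ℚ_[ℓ]} (hT : IsTateW ρ τ a T) (b : Fin d) :
    Killed J a (fun r => T r b) := by
  obtain ⟨U, hU, hT⟩ := hT
  intro X hX v
  obtain ⟨σ, hσ, hσt⟩ := hfull X hX
  haveI : ∀ i, T2Space (Matrix (Fin (N i)) (Fin (N i)) ℚ_[ℓ]) := fun i =>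
    inferInstanceAs (T2Space (Fin (N i) → Fin (N i) → ℚ_[ℓ]))
  haveI : T2Space (Matrix (Fin d) (Fin d) ℚ_[ℓ]) :=
    inferInstanceAs (T2Space (Fin d → Fin d → ℚ_[ℓ]))
  let R : G →* (∀ i, Matrix (Fin (N i)) (Fin (N i)) ℚ_[ℓ]) × Matrix (Fin d) (Fin d) ℚ_[ℓ] :=
    (MonoidHom.pi ρ).prod τ
  have hR : Continuous R := (continuous_pi hρ).prodMk hτ
  have h1 : Tendsto (fun n => R (σ n)) atTop (𝓝 1) := by
    have e1 : Tendsto (fun n => (fun i => ρ i (σ n))) atTop
        (𝓝 (1 : ∀ i, Matrix (Fin (N i)) (Fin (N i)) ℚ_[ℓ])) :=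
      tendsto_pi_nhds.2 fun i => Pool.Agent.R932.tendsto_one (ℓ := ℓ) (hσ i)
    have e2 : Tendsto (fun n => τ (σ n)) atTop (𝓝 1) := Pool.Agent.R932.tendsto_one (ℓ := ℓ) hσt
    exact e1.prodMk_nhds e2
  have h2 := eventually_mem hR hU h1
  have hℓ1 : ‖(ℓ : ℚ_[ℓ])‖ < 1 := Padic.norm_p_lt_one
  have hp : Tendsto (fun n : ℕ => (ℓ : ℚ_[ℓ]) ^ n) atTop (𝓝 0) :=
    tendsto_pow_atTop_nhds_zero_of_norm_lt_one hℓ1
  have hp0 : ∀ n : ℕ, (ℓ : ℚ_[ℓ]) ^ n ≠ 0 := fun n => pow_ne_zero _ (Nat.cast_ne_zero.2 (Fact.out : ℓ.Prime).ne_zero)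
  let φ := mlin fun r => T r b
  have h3 : Tendsto (fun n : ℕ => ((ℓ : ℚ_[ℓ]) ^ n)⁻¹ *
      (φ (fun t => ρ (a t) (σ n) *ᵥ v t) - φ v)) atTop (𝓝 (der φ (fun t => X (a t)) v)) :=
    deriv_mult φ hp0 hp (g := fun n t => ρ (a t) (σ n)) (fun t => hσ (a t)) v
  have h4 : Tendsto (fun n : ℕ => (((ℓ : ℚ_[ℓ]) ^ n)⁻¹ • (τ (σ n) - 1)) *ᵥ valW T v)
      atTop (𝓝 ((0 : Matrix (Fin d) (Fin d) ℚ_[ℓ]) *ᵥ valW T v)) := by
    have h5 : Continuous fun A : Matrix (Fin d) (Fin d) ℚ_[ℓ] => A *ᵥ valW T v :=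
      Continuous.matrix_mulVec continuous_id continuous_const
    exact (h5.tendsto _).comp hσt
  rw [zero_mulVec] at h4
  have h6 : Tendsto (fun n : ℕ => ((((ℓ : ℚ_[ℓ]) ^ n)⁻¹ • (τ (σ n) - 1)) *ᵥ valW T v) b)
      atTop (𝓝 0) := (tendsto_pi_nhds.1 h4) b
  have h7 : der φ (fun t => X (a t)) v = 0 := by
    refine tendsto_nhds_unique (h3.congr' ?_) h6
    filter_upwards [h2] with n hn
    obtain ⟨u, hu, hur⟩ := hn
    have e1 : ∀ i, ρ i u = ρ i (σ n) := fun i => congrFun (congrArg Prod.fst hur) i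
    have e2 : τ u = τ (σ n) := congrArg Prod.snd hur
    have e3 := congrFun (hT u hu v) b
    rw [valW_apply, e2] at e3
    have e4 : φ (fun t => ρ (a t) (σ n) *ᵥ v t) = (τ (σ n) *ᵥ valW T v) b := by
      rw [mlin_apply, ← e3]
      congr 1
      funext t
      rw [e1]
    have e5 : φ v = valW T v b := by rw [mlin_apply, valW_apply]
    rw [e4, e5, smul_mulVec, Pi.smul_apply, sub_mulVec, one_mulVec, Pi.sub_apply, smul_eq_mul]
  unfold der at h7
  rw [← h7]
  exact Finset.sum_congr rfl fun t _ => (mlin_apply _ _).symm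

/-- sums of Tate classes -/
theorem IsTateW.add {k : ℕ} {a : Fin k → ι} {T T' : (∀ t, Fin (N (a t))) → Fin d → ℚ_[ℓ]}
    (h : IsTateW ρ τ a T) (h' : IsTateW ρ τ a T') : IsTateW ρ τ a (T + T') := by
  obtain ⟨U, hU, h⟩ := h
  obtain ⟨U', hU', h'⟩ := h'
  refine ⟨U ⊓ U', hU.inter hU', fun σ hσ v => ?_⟩
  rw [valW_add, valW_add, mulVec_add, h σ (Subgroup.mem_inf.1 hσ).1,
    h' σ (Subgroup.mem_inf.1 hσ).2]

theorem IsTateW.smul {k : ℕ} {a : Fin k → ι} {T : (∀ t, Fin (N (a t))) → Fin d → ℚ_[ℓ]}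
    (h : IsTateW ρ τ a T) (c : ℚ_[ℓ]) : IsTateW ρ τ a (c • T) := by
  obtain ⟨U, hU, h⟩ := h
  refine ⟨U, hU, fun σ hσ v => ?_⟩
  rw [valW_smul, valW_smul, mulVec_smul, h σ hσ]

theorem IsTateW.zero {k : ℕ} {a : Fin k → ι} :
    IsTateW ρ τ a (0 : (∀ t, Fin (N (a t))) → Fin d → ℚ_[ℓ]) :=
  ⟨⊤, isOpen_univ, fun σ _ v => by rw [valW_zero, valW_zero, mulVec_zero]⟩

/-- the Tate classes are the combinations of the killed tensors times Tate values -/
theorem tateW_iff (hρ : ∀ i, Continuous (ρ i)) (hτ : Continuous τ) (hJ : ∀ i, IsForm (J i))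
    (hN : ∀ i, 0 < N i) (hκ : Continuous κ) (hsim : ∀ i g, Sim (J i) (ρ i g) (κ g ^ w i))
    (hfull : ∀ X, (∀ i, SpLie (J i) (X i)) → WTanL ρ τ X) {k : ℕ} {a : Fin k → ι} {j : ℕ}
    (hj : ∑ t, w (a t) = 2 * j) (T : (∀ t, Fin (N (a t))) → Fin d → ℚ_[ℓ]) :
    IsTateW ρ τ a T ↔ T ∈ Submodule.span ℚ_[ℓ] {T' | ∃ I x, Killed J a I ∧ IsTateV τ κ j x ∧
      T' = tw I x} := by
  have hHT : ∀ I : (∀ t, Fin (N (a t))) → ℚ_[ℓ], Killed J a I →
      ∃ U : Subgroup G, IsOpen (U : Set G) ∧ ∀ σ ∈ U, ∀ v : ∀ t, Fin (N (a t)) → ℚ_[ℓ],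
        val I (fun t => ρ (a t) σ *ᵥ v t) = κ σ ^ j * val I v := fun I hI =>
    ht jlift ℓ ι N G ρ hρ J hJ hN κ hκ w hsim k a j hj I hI
  constructor
  · intro hT
    let KJ : Submodule ℚ_[ℓ] ((∀ t, Fin (N (a t))) → ℚ_[ℓ]) :=
      { carrier := {I | Killed J a I}
        zero_mem' := by
          have h0 : Killed J a (0 : (∀ t, Fin (N (a t))) → ℚ_[ℓ]) := by
            intro X _ v
            refine Finset.sum_eq_zero fun t _ => ?_
            unfold val
            simp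
          exact h0
        add_mem' := by
          intro I I' hI hI'
          have h0 : Killed J a (I + I') := by
            intro X hX v
            have h1 := hI X hX v
            have h2 := hI' X hX v
            have h3 : ∀ u, val (I + I') u = val I u + val I' u := by
              intro u
              unfold val
              simp only [Pi.add_apply, add_mul, Finset.sum_add_distrib]
            simp only [h3, Finset.sum_add_distrib, h1, h2, add_zero]
          exact h0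
        smul_mem' := by
          intro c I hI
          have h0 : Killed J a (c • I) := by
            intro X hX v
            have h1 := hI X hX v
            have h3 : ∀ u, val (c • I) u = c * val I u := by
              intro u
              unfold val
              simp only [Pi.smul_apply, smul_eq_mul, mul_assoc, Finset.mul_sum]
            simp only [h3, ← Finset.mul_sum, h1, mul_zero]
          exact h0 }
    have hKJ : ∀ I, I ∈ KJ ↔ Killed J a I := fun _ => Iff.rfl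
    let e := Module.finBasis ℚ_[ℓ] KJ
    let m := Module.finrank ℚ_[ℓ] KJ
    have hc : ∀ b : Fin d, (fun r => T r b) ∈ KJ := fun b =>
      (hKJ _).2 (coord_killed hρ hτ hfull hT b)
    let x : Fin m → Fin d → ℚ_[ℓ] := fun i b => e.repr ⟨_, hc b⟩ i
    have hTx : T = ∑ i, tw (e i : (∀ t, Fin (N (a t))) → ℚ_[ℓ]) (x i) := by
      funext r b
      have h1 := congrArg (fun I : KJ => (I : (∀ t, Fin (N (a t))) → ℚ_[ℓ]) r)
        (e.sum_repr ⟨_, hc b⟩)
      simp only [Submodule.coe_sum, Submodule.coe_smul, Finset.sum_apply, Pi.smul_apply,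
        smul_eq_mul] at h1
      rw [Finset.sum_apply, Finset.sum_apply, ← h1]
      refine Finset.sum_congr rfl fun i _ => ?_
      simp only [tw, Pi.smul_apply, smul_eq_mul, x]
      exact mul_comm _ _
    obtain ⟨U, hU, hTU⟩ := hT
    choose V hV hIV using fun i : Fin m => hHT (e i) ((hKJ _).1 (e i).2)
    have hx : ∀ i, IsTateV τ κ j (x i) := by
      have hall : ∀ σ ∈ U ⊓ ⨅ i, V i, ∀ i, τ σ *ᵥ x i = κ σ ^ j • x i := by
        intro σ hσ
        obtain ⟨hσU, hσV⟩ := Subgroup.mem_inf.1 hσ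
        rw [Subgroup.mem_iInf] at hσV
        have h1 : ∀ v : ∀ t, Fin (N (a t)) → ℚ_[ℓ],
            ∑ i, val (e i : (∀ t, Fin (N (a t))) → ℚ_[ℓ]) v •
              (τ σ *ᵥ x i - κ σ ^ j • x i) = 0 := by
          intro v
          have h2 := hTU σ hσU v
          rw [hTx, valW_sum, valW_sum] at h2
          simp only [valW_tw] at h2
          have h3 : ∀ i, val (e i : (∀ t, Fin (N (a t))) → ℚ_[ℓ])
              (fun t => ρ (a t) σ *ᵥ v t) = κ σ ^ j * val (e i : (∀ t, Fin (N (a t))) → ℚ_[ℓ]) v :=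
            fun i => hIV i σ (hσV i) v
          simp only [h3] at h2
          have h4 : τ σ *ᵥ (∑ i, val (e i : (∀ t, Fin (N (a t))) → ℚ_[ℓ]) v • x i) =
              ∑ i, val (e i : (∀ t, Fin (N (a t))) → ℚ_[ℓ]) v • (τ σ *ᵥ x i) := by
            rw [mulVec_sum]
            exact Finset.sum_congr rfl fun i _ => mulVec_smul _ _ _
          rw [h4] at h2
          simp only [smul_sub, Finset.sum_sub_distrib]
          rw [← h2, sub_eq_zero]
          refine Finset.sum_congr rfl fun i _ => ?_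
          rw [smul_smul, mul_comm]
        intro i
        rw [← sub_eq_zero]
        funext b
        have h5 : ∑ i, (τ σ *ᵥ x i - κ σ ^ j • x i) b • e i = 0 := by
          apply Subtype.ext
          funext r
          have h6 := congrFun (h1 fun t => Pi.single (r t) 1) b
          simp only [val_single, Finset.sum_apply, Pi.smul_apply, smul_eq_mul, Pi.zero_apply]
            at h6
          simp only [Submodule.coe_sum, Submodule.coe_smul, Finset.sum_apply, Pi.smul_apply,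
            smul_eq_mul, Submodule.coe_zero, Pi.zero_apply]
          rw [← h6]
          exact Finset.sum_congr rfl fun i _ => mul_comm _ _
        exact Fintype.linearIndependent_iff.1 e.linearIndependent _ h5 i
      intro i
      refine ⟨U ⊓ ⨅ i, V i, ?_, fun σ hσ => hall σ hσ i⟩
      have h7 : IsOpen ((⨅ i, V i : Subgroup G) : Set G) := by
        rw [Subgroup.coe_iInf]
        exact isOpen_iInter_of_finite hV
      exact hU.inter h7
    rw [hTx]
    exact Submodule.sum_mem _ fun i _ => Submodule.subset_span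
      ⟨_, _, (hKJ _).1 (e i).2, hx i, rfl⟩
  · intro hT
    induction hT using Submodule.span_induction with
    | mem T hT =>
      obtain ⟨I, x, hI, ⟨V, hV, hx⟩, rfl⟩ := hT
      obtain ⟨U, hU, hI⟩ := hHT I hI
      refine ⟨U ⊓ V, hU.inter hV, fun σ hσ v => ?_⟩
      rw [valW_tw, valW_tw, mulVec_smul, hI σ (Subgroup.mem_inf.1 hσ).1,
        hx σ (Subgroup.mem_inf.1 hσ).2, smul_smul, mul_comm]
    | zero => exact IsTateW.zero
    | add T T' _ _ h h' => exact h.add h'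
    | smul c T _ h => exact h.smul c

end words

end Pool.Agent.N171.TG.So
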