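import Pool.Agent.N171.TG.So1
import Pool.Agent.R932.PO.JOpen

/-!
# Tangent vectors along the derived subgroups
-/

set_option autoImplicit false
set_option linter.unusedSectionVars false
set_option linter.style.haveILetI false

open Matrix Polynomial Filter Topology Function
open Pool.Agent.Y142.ZO Pool.Agent.Y142.ZI Pool.Agent.Y142.ZS Pool.Agent.Y497.ZO
open Pool.Agent.R932 Pool.Agent.R932.PO Pool.Agent.R932.PO.JO
open Pool.Agent.Y708.ZO (dq eq_of_dq rho_tendsto rho_inv_tendsto tan mem_tan)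

open scoped commutatorElement

namespace Pool.Agent.N171.TG.So

section
variable {ℓ : ℕ} [hℓ : Fact ℓ.Prime] {ι : Type} {N : ι → ℕ} {G : Type} [Group G]
  {ρ : ∀ i, G →* Matrix (Fin (N i)) (Fin (N i)) ℚ_[ℓ]}
  {J : ∀ i, Matrix (Fin (N i)) (Fin (N i)) ℚ_[ℓ]}

/-- joint tangent vectors of a subgroup -/
def TanOn (ρ : ∀ i, G →* Matrix (Fin (N i)) (Fin (N i)) ℚ_[ℓ]) (H : Subgroup G)
    (X : ∀ i, Matrix (Fin (N i)) (Fin (N i)) ℚ_[ℓ]) : Prop :=
  JTan ℓ (fun i => (ρ i).comp H.subtype) X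

theorem tanOn_bracket {H : Subgroup G} {X Y : ∀ i, Matrix (Fin (N i)) (Fin (N i)) ℚ_[ℓ]}
    (hX : TanOn ρ H X) (hY : TanOn ρ H Y) :
    TanOn ρ ⁅H, H⁆ (fun i => X i * Y i - Y i * X i) := by
  obtain ⟨σ, hσ⟩ := hX
  obtain ⟨τ, hτ⟩ := hY
  have t1 : Tendsto (fun m : ℕ => m / 2) atTop atTop := Nat.tendsto_div_const_atTop (by norm_num)
  have t2 : Tendsto (fun m : ℕ => m - m / 2) atTop atTop :=
    tendsto_atTop_mono (fun m => by omega) t1
  refine ⟨fun m => ⟨⁅(σ (m / 2) : G), (τ (m - m / 2) : G)⁆,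
    Subgroup.commutator_mem_commutator (σ (m / 2)).2 (τ (m - m / 2)).2⟩, fun i => ?_⟩
  have hρσ := rho_tendsto ((ρ i).comp H.subtype) (hσ i)
  have hρτ := rho_tendsto ((ρ i).comp H.subtype) (hτ i)
  have hiσ := rho_inv_tendsto ((ρ i).comp H.subtype) hρσ
  have hiτ := rho_inv_tendsto ((ρ i).comp H.subtype) hρτ
  have h1 := (((Tendsto.mul ((hσ i).comp t1) ((hτ i).comp t2)).sub
    (Tendsto.mul ((hτ i).comp t2) ((hσ i).comp t1))).mul (hiσ.comp t1)).mul (hiτ.comp t2)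
  rw [mul_one, mul_one] at h1
  refine h1.congr fun m => ?_
  simp only [Function.comp_apply, MonoidHom.comp_apply, Subgroup.subtype_apply,
    Subgroup.coe_inv]
  obtain ⟨a, ha⟩ : ∃ a : G, a = σ (m / 2) := ⟨_, rfl⟩
  obtain ⟨b, hb⟩ : ∃ b : G, b = τ (m - m / 2) := ⟨_, rfl⟩
  rw [← ha, ← hb]
  have e1 : ρ i b * ρ i a * ρ i a⁻¹ * ρ i b⁻¹ = 1 := by
    rw [← map_mul, ← map_mul, ← map_mul]
    have : b * a * a⁻¹ * b⁻¹ = 1 := by group
    rw [this, map_one]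
  have e2 : ρ i ⁅a, b⁆ = ρ i a * ρ i b * ρ i a⁻¹ * ρ i b⁻¹ := by
    rw [commutatorElement_def, map_mul, map_mul, map_mul]
  have e3 : ((ℓ : ℚ_[ℓ]) ^ m)⁻¹ = ((ℓ : ℚ_[ℓ]) ^ (m / 2))⁻¹ * ((ℓ : ℚ_[ℓ]) ^ (m - m / 2))⁻¹ := by
    rw [← mul_inv, ← pow_add]
    congr 2
    omega
  rw [e2, e3]
  have e4 : ρ i a * ρ i b * ρ i a⁻¹ * ρ i b⁻¹ - 1 =
      ((ρ i a - 1) * (ρ i b - 1) - (ρ i b - 1) * (ρ i a - 1)) * ρ i a⁻¹ * ρ i b⁻¹ := by
    have e5 : (ρ i a - 1) * (ρ i b - 1) - (ρ i b - 1) * (ρ i a - 1) =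
        ρ i a * ρ i b - ρ i b * ρ i a := by
      noncomm_ring
    rw [e5, sub_mul, sub_mul, e1]
  rw [e4]
  generalize ρ i a - 1 = A
  generalize ρ i b - 1 = B
  generalize ((ℓ : ℚ_[ℓ]) ^ (m / 2))⁻¹ = c
  generalize ((ℓ : ℚ_[ℓ]) ^ (m - m / 2))⁻¹ = d
  rw [smul_mul_smul_comm, smul_mul_smul_comm, mul_comm d c, ← smul_sub, smul_mul_assoc,
    smul_mul_assoc]

/-- the Lie algebra along the commutators is full -/
theorem full_comm [Fintype ι] (hJ : ∀ i, IsForm (J i)) {H : Subgroup G}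
    (hF : ∀ X, (∀ i, SpLie (J i) (X i)) → TanOn ρ H X)
    (X : ∀ i, Matrix (Fin (N i)) (Fin (N i)) ℚ_[ℓ]) (hX : ∀ i, SpLie (J i) (X i)) :
    TanOn ρ ⁅H, H⁆ X := by
  classical
  obtain ⟨𝔤, h1, -, -⟩ := jlie ℓ ι N (⁅H, H⁆ : Subgroup G) (fun i => (ρ i).comp (⁅H, H⁆ : Subgroup G).subtype)
  have h2 : ∀ i, Pi.single i (X i) ∈ 𝔤 := by
    intro i
    let W : Submodule ℚ_[ℓ] (Matrix (Fin (N i)) (Fin (N i)) ℚ_[ℓ]) :=
      𝔤.comap (LinearMap.single ℚ_[ℓ] (fun j => Matrix (Fin (N j)) (Fin (N j)) ℚ_[ℓ]) i)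
    have h3 : X i ∈ W := by
      refine perfect (hJ i) W ?_ (hX i)
      intro A C hA hC
      show LinearMap.single ℚ_[ℓ] (fun j => Matrix (Fin (N j)) (Fin (N j)) ℚ_[ℓ]) i
        (A * C - C * A) ∈ 𝔤
      have hs : ∀ D : Matrix (Fin (N i)) (Fin (N i)) ℚ_[ℓ], SpLie (J i) D →
          ∀ j, SpLie (J j) ((Pi.single i D : ∀ j, Matrix (Fin (N j)) (Fin (N j)) ℚ_[ℓ]) j) := by
        intro D hD j
        by_cases hj : j = i
        · subst hj; rw [Pi.single_eq_same]; exact hD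
        · rw [Pi.single_eq_of_ne hj]; exact spLie_zero _ _
      have h4 := (h1 _).2 (tanOn_bracket (hF (Pi.single i A) (hs A hA))
        (hF (Pi.single i C) (hs C hC)))
      have h5 : (fun j => (Pi.single i A : ∀ j, Matrix (Fin (N j)) (Fin (N j)) ℚ_[ℓ]) j *
            (Pi.single i C : ∀ j, Matrix (Fin (N j)) (Fin (N j)) ℚ_[ℓ]) j -
          (Pi.single i C : ∀ j, Matrix (Fin (N j)) (Fin (N j)) ℚ_[ℓ]) j *
            (Pi.single i A : ∀ j, Matrix (Fin (N j)) (Fin (N j)) ℚ_[ℓ]) j) =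
          LinearMap.single ℚ_[ℓ] (fun j => Matrix (Fin (N j)) (Fin (N j)) ℚ_[ℓ]) i
            (A * C - C * A) := by
        funext j
        by_cases hj : j = i
        · subst hj; simp
        · simp [Pi.single_eq_of_ne hj]
      rw [← h5]
      exact h4
    exact h3
  have h3 : X = ∑ i, Pi.single i (X i) := by
    funext j
    rw [Finset.sum_apply]
    rw [Finset.sum_eq_single j]
    · rw [Pi.single_eq_same]
    · intro i _ hij; rw [Pi.single_eq_of_ne hij.symm]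
    · intro h; exact absurd (Finset.mem_univ j) h
  refine (h1 X).1 ?_
  rw [h3]
  exact Submodule.sum_mem _ fun i _ => h2 i

/-- the derived subgroups of a subgroup -/
def Dr (U : Subgroup G) : ℕ → Subgroup G
  | 0 => U
  | n + 1 => ⁅Dr U n, Dr U n⁆

theorem map_derived (U : Subgroup G) (n : ℕ) : (derivedSeries U n).map U.subtype = Dr U n := by
  induction n with
  | zero =>
    rw [derivedSeries_zero, ← MonoidHom.range_eq_map, Subgroup.range_subtype]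
    rfl
  | succ n ih =>
    rw [derivedSeries_succ, Subgroup.map_commutator, ih]
    rfl

theorem full_Dr [Fintype ι] (hJ : ∀ i, IsForm (J i)) {U : Subgroup G}
    (hF : ∀ X, (∀ i, SpLie (J i) (X i)) → TanOn ρ U X) (n : ℕ) :
    ∀ X, (∀ i, SpLie (J i) (X i)) → TanOn ρ (Dr U n) X := by
  induction n with
  | zero => exact hF
  | succ n ih => exact fun X hX => full_comm hJ ih X hX

/-- tangent vectors of an open subgroup -/
theorem tanOn_open [TopologicalSpace G] [IsTopologicalGroup G] [CompactSpace G]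
    (hρ : ∀ i, Continuous (ρ i)) {U : Subgroup G} (hU : IsOpen (U : Set G))
    {X : ∀ i, Matrix (Fin (N i)) (Fin (N i)) ℚ_[ℓ]} (hX : JTan ℓ ρ X) : TanOn ρ U X := by
  classical
  obtain ⟨σ, hσ⟩ := hX
  haveI : ∀ i, T2Space (Matrix (Fin (N i)) (Fin (N i)) ℚ_[ℓ]) := fun i =>
    inferInstanceAs (T2Space (Fin (N i) → Fin (N i) → ℚ_[ℓ]))
  let R : G →* (∀ i, Matrix (Fin (N i)) (Fin (N i)) ℚ_[ℓ]) := MonoidHom.pi ρ
  have hR : Continuous R := continuous_pi hρ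
  have h1 : Tendsto (fun n => R (σ n)) atTop (𝓝 1) :=
    tendsto_pi_nhds.2 fun i => Pool.Agent.R932.tendsto_one (ℓ := ℓ) (hσ i)
  have h2 := eventually_mem hR hU h1
  let u : ℕ → U := fun n =>
    if h : ∃ v ∈ U, R v = R (σ n) then ⟨h.choose, h.choose_spec.1⟩ else 1
  refine ⟨u, fun i => (hσ i).congr' ?_⟩
  filter_upwards [h2] with n hn
  have h3 : R (u n : G) = R (σ n) := by
    simp only [u]
    rw [dif_pos hn]
    exact hn.choose_spec.2
  have h4 : ρ i (u n : G) = ρ i (σ n) := congrFun h3 i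
  show _ = ((ℓ : ℚ_[ℓ]) ^ n)⁻¹ • (ρ i (u n : G) - 1)
  rw [h4]

/-- **Potentially solvable values.** -/
theorem wtan_solvable [Fintype ι] [TopologicalSpace G] [IsTopologicalGroup G] [CompactSpace G]
    (hρ : ∀ i, Continuous (ρ i)) (hJ : ∀ i, IsForm (J i))
    (hF : ∀ X, (∀ i, SpLie (J i) (X i)) → JTan ℓ ρ X) {d : ℕ}
    {τ : G →* Matrix (Fin d) (Fin d) ℚ_[ℓ]} {U : Subgroup G} (hU : IsOpen (U : Set G)) {n : ℕ}
    (hτ : ∀ σ ∈ derivedSeries U n, τ (σ : G) = 1) (X : ∀ i, Matrix (Fin (N i)) (Fin (N i)) ℚ_[ℓ])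
    (hX : ∀ i, SpLie (J i) (X i)) : WTanL ρ τ X := by
  obtain ⟨σ, hσ⟩ := full_Dr (ρ := ρ) hJ (U := U)
    (fun Y hY => tanOn_open hρ hU (hF Y hY)) n X hX
  refine ⟨fun m => (σ m : G), fun i => hσ i, ?_⟩
  have h1 : ∀ m, τ (σ m : G) = 1 := by
    intro m
    have h2 : (σ m : G) ∈ (derivedSeries U n).map U.subtype := by
      rw [map_derived]
      exact (σ m).2
    obtain ⟨s, hs, hsm⟩ := h2
    rw [← hsm]
    exact hτ s hs
  have h2 : (fun m : ℕ => ((ℓ : ℚ_[ℓ]) ^ m)⁻¹ • (τ (σ m : G) - 1)) = fun _ => 0 := by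
    funext m
    rw [h1, sub_self, smul_zero]
  rw [h2]
  exact tendsto_const_nhds

end

end Pool.Agent.N171.TG.So
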