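import Pool.Agent.N171.TG.So1
import Pool.Agent.N171.TG.Mt2
import Pool.Agent.R932.PO.Gour

/-!
# Tangent vectors with zero values for representations of small rank
-/

set_option autoImplicit false
set_option linter.unusedSectionVars false
set_option linter.style.haveILetI false

open Matrix Polynomial Filter Topology Function Module
open Pool.Agent.Y142.ZO Pool.Agent.Y142.ZI Pool.Agent.Y142.ZS
open Pool.Agent.R932 Pool.Agent.R932.PO

namespace Pool.Agent.N171.TG.So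

section dim
variable {F : Type} [Field F] {n : ℕ}

/-- symmetric matrices from functions on unordered pairs -/
def symMat (f : Sym2 (Fin n) → F) : Matrix (Fin n) (Fin n) F := Matrix.of fun a b => f s(a, b)

theorem choose_le_finrank {J : Matrix (Fin n) (Fin n) F} (hJ : Jᵀ = -J) (hdet : J.det ≠ 0) :
    (n + 1).choose 2 ≤ finrank F (spSub J) := by
  have hu : IsUnit J.det := isUnit_iff_ne_zero.2 hdet
  let φ : (Sym2 (Fin n) → F) →ₗ[F] spSub J :=
    { toFun := fun f => ⟨J⁻¹ * symMat f, by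
        refine sp_inv (e := -1) hdet (by rw [hJ, neg_smul, one_smul]) ?_
        rw [neg_smul, one_smul]
        congr 1
        ext a b
        rw [transpose_apply]
        change f s(b, a) = f s(a, b)
        rw [Sym2.eq_swap]⟩
      map_add' := fun f g => by
        apply Subtype.ext
        change J⁻¹ * symMat (f + g) = J⁻¹ * symMat f + J⁻¹ * symMat g
        rw [← Matrix.mul_add]
        rfl
      map_smul' := fun c f => by
        apply Subtype.ext
        change J⁻¹ * symMat (c • f) = c • (J⁻¹ * symMat f)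
        rw [← Matrix.mul_smul]
        rfl }
  have hφ : Function.Injective φ := by
    intro f g hfg
    have h1 : J⁻¹ * symMat f = J⁻¹ * symMat g := congrArg Subtype.val hfg
    have h2 : symMat f = symMat g := by
      have h3 := congrArg (fun M => J * M) h1
      simp only [← Matrix.mul_assoc, Matrix.mul_nonsing_inv _ hu, Matrix.one_mul] at h3
      exact h3
    funext p
    induction p using Sym2.ind with
    | _ a b => exact congrFun (congrFun h2 a) b
  have h4 := LinearMap.finrank_le_finrank_of_injective hφ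
  rwa [finrank_fintype_fun_eq_card, Sym2.card, Fintype.card_fin] at h4

end dim

section
variable {ℓ : ℕ} [hℓ : Fact ℓ.Prime] {ι : Type} [Fintype ι] {N : ι → ℕ} {G : Type} [Group G]
  {ρ : ∀ i, G →* Matrix (Fin (N i)) (Fin (N i)) ℚ_[ℓ]} {d : ℕ}
  {τ : G →* Matrix (Fin d) (Fin d) ℚ_[ℓ]}
  {J : ∀ i, Matrix (Fin (N i)) (Fin (N i)) ℚ_[ℓ]}

/-- joint tangent vectors of the two families -/
def T2 (ρ : ∀ i, G →* Matrix (Fin (N i)) (Fin (N i)) ℚ_[ℓ])
    (τ : G →* Matrix (Fin d) (Fin d) ℚ_[ℓ]) (X : ∀ i, Matrix (Fin (N i)) (Fin (N i)) ℚ_[ℓ])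
    (Y : Matrix (Fin d) (Fin d) ℚ_[ℓ]) : Prop := Tan3 ρ τ 1 X Y 0

theorem T2.add [DecidableEq ι] {X X' : ∀ i, Matrix (Fin (N i)) (Fin (N i)) ℚ_[ℓ]}
    {Y Y' : Matrix (Fin d) (Fin d) ℚ_[ℓ]} (h : T2 ρ τ X Y) (h' : T2 ρ τ X' Y') :
    T2 ρ τ (X + X') (Y + Y') := by
  have h1 := Tan3.add h h'
  rwa [add_zero] at h1

theorem T2.smul [DecidableEq ι] {X : ∀ i, Matrix (Fin (N i)) (Fin (N i)) ℚ_[ℓ]}
    {Y : Matrix (Fin d) (Fin d) ℚ_[ℓ]} (a : ℚ_[ℓ]) (h : T2 ρ τ X Y) :
    T2 ρ τ (a • X) (a • Y) := by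
  have h1 := Tan3.smul a h
  rwa [mul_zero] at h1

theorem T2.lift [TopologicalSpace G] [IsTopologicalGroup G] [CompactSpace G]
    (hρ : ∀ i, Continuous (ρ i)) (hτ : Continuous τ)
    {X : ∀ i, Matrix (Fin (N i)) (Fin (N i)) ℚ_[ℓ]} (hX : JTan ℓ ρ X) : ∃ Y, T2 ρ τ X Y := by
  obtain ⟨Y, σ, h1, h2⟩ := lift_fam (M := fun _ : Unit => d) (r := fun _ => τ) hρ
    (fun _ => hτ) hX
  refine ⟨Y (), σ, h1, h2 (), ?_⟩
  have h3 : (fun n : ℕ => ((ℓ : ℚ_[ℓ]) ^ n)⁻¹ * ((1 : G →* ℚ_[ℓ]) (σ n) - 1)) = fun _ => 0 := by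
    funext n
    rw [MonoidHom.one_apply, sub_self, mul_zero]
  rw [h3]
  exact tendsto_const_nhds

theorem T2.toW {X : ∀ i, Matrix (Fin (N i)) (Fin (N i)) ℚ_[ℓ]} (h : T2 ρ τ X 0) :
    WTanL ρ τ X := by
  obtain ⟨σ, h1, h2, -⟩ := h
  exact ⟨σ, h1, h2⟩

variable (ρ τ) in
/-- the vectors with zero values -/
def Z2 [DecidableEq ι] : Submodule ℚ_[ℓ] (∀ i, Matrix (Fin (N i)) (Fin (N i)) ℚ_[ℓ]) where
  carrier := {X | T2 ρ τ X 0}
  add_mem' := fun {X X'} h h' => by
    have h1 := T2.add h h'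
    rwa [add_zero] at h1
  zero_mem' := Tan3.zero
  smul_mem' := fun a X h => by
    have h1 := T2.smul a h
    rwa [smul_zero] at h1

theorem mem_Z2 [DecidableEq ι] {X : ∀ i, Matrix (Fin (N i)) (Fin (N i)) ℚ_[ℓ]} :
    X ∈ Z2 ρ τ ↔ T2 ρ τ X 0 := Iff.rfl

/-- **Values of small rank.** -/
theorem wtan_small [TopologicalSpace G] [IsTopologicalGroup G] [CompactSpace G]
    (hρ : ∀ i, Continuous (ρ i)) (hτ : Continuous τ) (hJ : ∀ i, (J i)ᵀ = -J i)
    (hdet : ∀ i, (J i).det ≠ 0)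
    (hF : ∀ X, (∀ i, SpLie (J i) (X i)) → JTan ℓ ρ X)
    (hd : ∀ i, d ^ 2 < (N i + 1).choose 2) (X : ∀ i, Matrix (Fin (N i)) (Fin (N i)) ℚ_[ℓ])
    (hX : ∀ i, SpLie (J i) (X i)) : WTanL ρ τ X := by
  classical
  have hform : ∀ i, IsForm (J i) := fun i => ⟨Or.inr (hJ i), hdet i⟩
  have hs : ∀ i (A : Matrix (Fin (N i)) (Fin (N i)) ℚ_[ℓ]), SpLie (J i) A →
      ∀ j, SpLie (J j) ((Pi.single i A : ∀ j, Matrix (Fin (N j)) (Fin (N j)) ℚ_[ℓ]) j) := by
    intro i A hA j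
    by_cases hj : j = i
    · subst hj; rw [Pi.single_eq_same]; exact hA
    · rw [Pi.single_eq_of_ne hj]
      unfold SpLie
      simp
  have key : ∀ i, Pi.single i (X i) ∈ Z2 ρ τ := by
    intro i
    have hlift : ∀ A : Matrix (Fin (N i)) (Fin (N i)) ℚ_[ℓ], SpLie (J i) A →
        ∃ Y, T2 ρ τ (Pi.single i A) Y := fun A hA =>
      T2.lift hρ hτ (hF _ (hs i A hA))
    -- the pairs
    let P : Submodule ℚ_[ℓ] (Matrix (Fin (N i)) (Fin (N i)) ℚ_[ℓ] ×
        Matrix (Fin d) (Fin d) ℚ_[ℓ]) :=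
      { carrier := {p | SpLie (J i) p.1 ∧ T2 ρ τ (Pi.single i p.1) p.2}
        add_mem' := fun {p q} hp hq => by
          refine ⟨(spSub (J i)).add_mem hp.1 hq.1, ?_⟩
          have h1 := T2.add hp.2 hq.2
          rw [← Pi.single_add] at h1
          exact h1
        zero_mem' := by
          refine ⟨(spSub (J i)).zero_mem, ?_⟩
          show T2 ρ τ (Pi.single i 0) 0
          rw [Pi.single_zero]
          exact Tan3.zero
        smul_mem' := fun c p hp => by
          refine ⟨(spSub (J i)).smul_mem c hp.1, ?_⟩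
          have h1 := T2.smul c hp.2
          rw [← Pi.single_smul] at h1
          exact h1 }
    have hP : ∀ p, p ∈ P ↔ SpLie (J i) p.1 ∧ T2 ρ τ (Pi.single i p.1) p.2 := fun _ => Iff.rfl
    let p1 : P →ₗ[ℚ_[ℓ]] spSub (J i) :=
      ((LinearMap.fst ℚ_[ℓ] _ _).comp P.subtype).codRestrict (spSub (J i)) fun p => p.2.1
    let p2 : P →ₗ[ℚ_[ℓ]] Matrix (Fin d) (Fin d) ℚ_[ℓ] :=
      (LinearMap.snd ℚ_[ℓ] _ _).comp P.subtype
    have hsurj : Function.Surjective p1 := by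
      rintro ⟨A, hA⟩
      obtain ⟨Y, hY⟩ := hlift A hA
      exact ⟨⟨(A, Y), (hP _).2 ⟨hA, hY⟩⟩, rfl⟩
    have hninj : ¬ Function.Injective p2 := by
      intro hinj
      have h1 := LinearMap.finrank_le_finrank_of_injective hinj
      have h2 := LinearMap.finrank_le_finrank_of_surjective hsurj
      have h3 := choose_le_finrank (hJ i) (hdet i)
      have h4 : finrank ℚ_[ℓ] (Matrix (Fin d) (Fin d) ℚ_[ℓ]) = d ^ 2 := by
        rw [Module.finrank_matrix, finrank_self, Fintype.card_fin, mul_one, pow_two]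
      have h5 := hd i
      omega
    obtain ⟨p, hp2, hp0⟩ : ∃ p : P, p2 p = 0 ∧ p ≠ 0 := by
      by_contra hcon
      push Not at hcon
      exact hninj ((injective_iff_map_eq_zero p2).2 hcon)
    have hZ : T2 ρ τ (Pi.single i p.1.1) 0 := by
      have h1 := ((hP p.1).1 p.2).2
      have h2 : p.1.2 = 0 := hp2
      rwa [h2] at h1
    have hZ0 : p.1.1 ≠ 0 := by
      intro h
      exact hp0 (Subtype.ext (Prod.ext h hp2))
    let I : Submodule ℚ_[ℓ] (Matrix (Fin (N i)) (Fin (N i)) ℚ_[ℓ]) :=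
      (Z2 ρ τ).comap (LinearMap.single ℚ_[ℓ] (fun j => Matrix (Fin (N j)) (Fin (N j)) ℚ_[ℓ]) i)
    have hI : ∀ A, SpLie (J i) A → ∀ Z ∈ I, A * Z - Z * A ∈ I := by
      intro A hA Z hZ
      obtain ⟨Y, hY⟩ := hlift A hA
      have h1 : Tan3 ρ τ 1 (Pi.single i Z) 0 0 := hZ
      have h2 := Tan3.bracket hY h1
      rw [mul_zero, zero_mul, sub_zero] at h2
      have h5 : (fun j => (Pi.single i A : ∀ j, Matrix (Fin (N j)) (Fin (N j)) ℚ_[ℓ]) j *
            (Pi.single i Z : ∀ j, Matrix (Fin (N j)) (Fin (N j)) ℚ_[ℓ]) j -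
          (Pi.single i Z : ∀ j, Matrix (Fin (N j)) (Fin (N j)) ℚ_[ℓ]) j *
            (Pi.single i A : ∀ j, Matrix (Fin (N j)) (Fin (N j)) ℚ_[ℓ]) j) =
          Pi.single i (A * Z - Z * A) := by
        funext j
        by_cases hj : j = i
        · subst hj; simp
        · simp [Pi.single_eq_of_ne hj]
      rw [h5] at h2
      exact h2
    exact ideal_all (hform i) I hI (show p.1.1 ∈ I from hZ) ((hP p.1).1 p.2).1 hZ0 (hX i)
  have h3 : X = ∑ i, Pi.single i (X i) := by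
    funext j
    rw [Finset.sum_apply]
    rw [Finset.sum_eq_single j]
    · rw [Pi.single_eq_same]
    · intro i _ hij; rw [Pi.single_eq_of_ne hij.symm]
    · intro h; exact absurd (Finset.mem_univ j) h
  have h4 : X ∈ Z2 ρ τ := by
    rw [h3]
    exact Submodule.sum_mem _ fun i _ => key i
  exact (mem_Z2.1 h4).toW

end

end Pool.Agent.N171.TG.So
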