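import Pool.Agent.N171.TG.Wn3

/-!
# Words with a letter which occurs an odd number of times
-/

set_option autoImplicit false
set_option linter.unusedSectionVars false
set_option linter.style.haveILetI false

open Matrix Polynomial Function Module
open Pool.Agent.Y142.ZO Pool.Agent.Y142.ZI Pool.Agent.Y142.ZS
open Pool.Agent.R932 Pool.Agent.R932.PO

namespace Pool.Agent.N171.TG

section ex
variable {F : Type} [Field F] [CharZero F] {n : ℕ}

/-- the odd numbers from `1 - n` to `n - 1` -/
def od (n : ℕ) (r : Fin n) : ℤ := 2 * (r : ℤ) + 1 - n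

theorem od_rev (r : Fin n) : od n (Fin.rev r) = -od n r := by
  unfold od
  rw [Fin.val_rev]
  have := r.2
  omega

/-- an element of the symplectic Lie algebra with a basis of eigenvectors with odd eigenvalues -/
theorem exists_odd {J : Matrix (Fin n) (Fin n) F} (hn : 0 < n) (hJ : Jᵀ = -J) (hdet : J.det ≠ 0) :
    ∃ (X : Matrix (Fin n) (Fin n) F) (b : Basis (Fin n) F (Fin n → F)) (c : Fin n → ℤ),
      SpLie J X ∧ (∀ r, Odd (c r)) ∧ ∀ r, X *ᵥ b r = (c r : F) • b r := by
  obtain ⟨m, hm⟩ := Pool.Agent.R932.OP.even_of_alt hJ hdet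
  let p : F[X] := ∏ r : Fin n, (X - C (od n r : F))
  have hmon : p.Monic := monic_prod_of_monic _ _ fun r _ => monic_X_sub_C _
  have hdeg : p.natDegree = n := by
    rw [natDegree_prod_of_monic _ _ fun r _ => monic_X_sub_C _,
      Finset.sum_congr rfl fun r _ => natDegree_X_sub_C _]
    simp
  have hcomp : p.comp (-X) = p := by
    have h1 : p.comp (-X) = ∏ r : Fin n, ((-1) * (X - C (od n (Fin.rev r) : F))) := by
      rw [Polynomial.prod_comp]
      refine Finset.prod_congr rfl fun r _ => ?_
      rw [od_rev, sub_comp, X_comp, C_comp, Int.cast_neg, C_neg]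
      ring
    have h2 : ((-1 : F[X]) ^ n) = 1 := by rw [hm, ← two_mul, pow_mul]; norm_num
    rw [h1, Finset.prod_mul_distrib, Finset.prod_const, Finset.card_univ, Fintype.card_fin, h2,
      one_mul]
    exact Equiv.prod_comp Fin.revPerm (fun r => X - C (od n r : F))
  obtain ⟨T, hT, hTp⟩ := Pool.Agent.R932.OP.sform F n J p hJ hdet hmon hdeg hcomp
  have hex : ∀ r : Fin n, ∃ v : Fin n → F, v ≠ 0 ∧ T *ᵥ v = (od n r : F) • v := by
    intro r
    have h1 : T.charpoly.eval (od n r : F) = 0 := by
      rw [hTp, eval_prod]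
      exact Finset.prod_eq_zero (Finset.mem_univ r) (by simp)
    rw [Matrix.eval_charpoly] at h1
    obtain ⟨v, hv, hv'⟩ := Matrix.exists_mulVec_eq_zero_iff.2 h1
    refine ⟨v, hv, ?_⟩
    rw [sub_mulVec, sub_eq_zero] at hv'
    rw [← hv', Matrix.scalar_apply, ← Matrix.smul_one_eq_diagonal, smul_mulVec, one_mulVec]
  choose v hv hv' using hex
  have hinj : Function.Injective fun r : Fin n => (od n r : F) := by
    intro r s hrs
    have h1 : od n r = od n s := Int.cast_injective hrs
    unfold od at h1
    ext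
    omega
  have hli : LinearIndependent F v :=
    Module.End.eigenvectors_linearIndependent' (Matrix.toLin' T) (fun r : Fin n => (od n r : F))
      hinj v fun r => ⟨Module.End.mem_eigenspace_iff.2 (by rw [Matrix.toLin'_apply]; exact hv' r),
        hv r⟩
  haveI : Nonempty (Fin n) := ⟨⟨0, hn⟩⟩
  refine ⟨T, basisOfLinearIndependentOfCardEqFinrank hli (by simp), od n, hT, fun r => ?_,
    fun r => ?_⟩
  · refine ⟨(r : ℤ) - m, ?_⟩
    unfold od
    omega
  · rw [coe_basisOfLinearIndependentOfCardEqFinrank]
    exact hv' r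

end ex

section words
variable {F : Type} [Field F] [CharZero F] {ι : Type} {N : ι → ℕ}
  {J : ∀ i, Matrix (Fin (N i)) (Fin (N i)) F}

/-- killed tensors of words with a letter which occurs an odd number of times are zero -/
theorem killed_odd {i : ι} (hN : 0 < N i) (hJ : (J i)ᵀ = -J i) (hdet : (J i).det ≠ 0) {k : ℕ}
    {a : Fin k → ι} (hodd : Odd (Nat.card {t // a t = i})) {T : (∀ t, Fin (N (a t))) → F}
    (hT : Killed J a T) : T = 0 := by
  classical
  obtain ⟨X, b₀, c₀, hX, hc₀, hb₀⟩ := exists_odd hN hJ hdet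
  let Xf : ∀ j, Matrix (Fin (N j)) (Fin (N j)) F := Pi.single i X
  have hex : ∀ j, ∃ (b : Basis (Fin (N j)) F (Fin (N j) → F)) (c : Fin (N j) → ℤ),
      (∀ r, Xf j *ᵥ b r = (c r : F) • b r) ∧ ∀ r, ((c r : ℤ) : ZMod 2) = if j = i then 1 else 0 := by
    intro j
    by_cases hj : j = i
    · subst hj
      refine ⟨b₀, c₀, fun r => ?_, fun r => ?_⟩
      · simp only [Xf]
        rw [Pi.single_eq_same]
        exact hb₀ r
      · obtain ⟨m, hm⟩ := hc₀ r
        rw [hm, if_pos rfl]
        push_cast
        have h2 : (2 : ZMod 2) = 0 := rfl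
        rw [h2, zero_mul, zero_add]
    · refine ⟨Pi.basisFun F _, fun _ => 0, fun r => ?_, fun r => ?_⟩
      · simp only [Xf]
        rw [Pi.single_eq_of_ne hj, zero_mulVec, Int.cast_zero, zero_smul]
      · rw [if_neg hj, Int.cast_zero]
  choose b c hb hc using hex
  have hXf : ∀ j, SpLie (J j) (Xf j) := by
    intro j
    by_cases hj : j = i
    · subst hj
      simp only [Xf]
      rw [Pi.single_eq_same]
      exact hX
    · simp only [Xf]
      rw [Pi.single_eq_of_ne hj]
      unfold SpLie
      rw [transpose_zero, zero_mul, mul_zero, add_zero]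
  have h0 : mlin T = 0 := by
    refine Basis.ext_multilinear (fun t => b (a t)) fun r => ?_
    have h1 := hT Xf hXf (fun t => b (a t) (r t))
    have h2 : ∀ t, val T (Function.update (fun t => b (a t) (r t)) t
        (Xf (a t) *ᵥ (fun t => b (a t) (r t)) t)) =
        (c (a t) (r t) : F) * mlin T (fun t => b (a t) (r t)) := by
      intro t
      rw [← mlin_apply]
      dsimp only
      rw [hb, MultilinearMap.map_update_smul, Function.update_eq_self, smul_eq_mul]
    rw [Finset.sum_congr rfl fun t _ => h2 t, ← Finset.sum_mul] at h1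
    have h3 : (∑ t, (c (a t) (r t) : F)) ≠ 0 := by
      intro h4
      have h5 : ∑ t, c (a t) (r t) = 0 := by
        have h6 : ((∑ t, c (a t) (r t) : ℤ) : F) = 0 := by
          rw [← h4]
          push_cast
          rfl
        exact Int.cast_eq_zero.1 h6
      have h7 : ((∑ t, c (a t) (r t) : ℤ) : ZMod 2) = 0 := by rw [h5, Int.cast_zero]
      rw [Int.cast_sum, Finset.sum_congr rfl fun t _ => hc (a t) (r t), Finset.sum_ite,
        Finset.sum_const_zero, add_zero, Finset.sum_const, nsmul_eq_mul, mul_one] at h7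
      rw [Nat.card_eq_fintype_card, Fintype.card_subtype] at hodd
      rw [ZMod.natCast_eq_zero_iff_even] at h7
      exact (Nat.not_even_iff_odd.2 hodd) h7
    exact (mul_eq_zero.1 h1).resolve_left h3
  funext r
  have h1 := mlin_apply T fun t => Pi.single (r t) 1
  rw [val_single, h0] at h1
  exact h1.symm

end words

end Pool.Agent.N171.TG
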