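import Pool.Agent.N171.TG.So2
import Pool.Agent.N171.TG.So3
import Pool.Agent.N171.TG.Wn4
import Pool.Agent.N171.TG.Mt4
import Pool.Agent.R932.PO.Fin2

/-!
# Tate classes with potentially solvable or small values
-/

set_option autoImplicit false
set_option linter.unusedSectionVars false
set_option linter.style.haveILetI false

open Matrix Polynomial Filter Topology Function
open Pool.Agent.Y142.ZO Pool.Agent.Y142.ZI Pool.Agent.Y142.ZS
open Pool.Agent.R932 Pool.Agent.R932.PO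

namespace Pool.Agent.N171.TG.So

section
variable {ℓ : ℕ} [hℓ : Fact ℓ.Prime] {ι : Type} [Fintype ι] {N w : ι → ℕ} {d : ℕ}
  {G : Type} [Group G] [TopologicalSpace G] [IsTopologicalGroup G] [CompactSpace G]
  {ρ : ∀ i, G →* Matrix (Fin (N i)) (Fin (N i)) ℚ_[ℓ]}
  {J : ∀ i, Matrix (Fin (N i)) (Fin (N i)) ℚ} {κ : G →* ℚ_[ℓ]}
  {τ : G →* Matrix (Fin d) (Fin d) ℚ_[ℓ]}

/-- the condition on the values -/
def ValC (N : ι → ℕ) (τ : G →* Matrix (Fin d) (Fin d) ℚ_[ℓ]) : Prop :=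
  (∃ (U : Subgroup G) (n : ℕ), IsOpen (U : Set G) ∧ ∀ σ ∈ derivedSeries U n, τ (σ : G) = 1) ∨
    ∀ i, d ^ 2 < (N i + 1).choose 2

theorem alt_JL (hJ : ∀ i, (J i)ᵀ = -J i) (hN : ∀ i, 0 < N i) (i : ι) :
    (JL J ℓ i)ᵀ = -JL J ℓ i :=
  (Fits.map (κ := .sym) (algebraMap ℚ ℚ_[ℓ]) (show Fits .sym (J i) from ⟨hJ i, hN i⟩)).1

theorem wtan_of_valC (hJ : ∀ i, (J i)ᵀ = -J i) (hdet : ∀ i, (J i).det ≠ 0)
    (hN : ∀ i, 0 < N i) (hρ : ∀ i, Continuous (ρ i)) (hτ : Continuous τ)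
    (hF : ∀ X, (∀ i, SpLie (JL J ℓ i) (X i)) → JTan ℓ ρ X) (hc : ValC N τ)
    (X : ∀ i, Matrix (Fin (N i)) (Fin (N i)) ℚ_[ℓ]) (hX : ∀ i, SpLie (JL J ℓ i) (X i)) :
    WTanL ρ τ X := by
  have hdetL : ∀ i, (JL J ℓ i).det ≠ 0 := fun i => det_map_ne (algebraMap ℚ ℚ_[ℓ]) (hdet i)
  have haltL := alt_JL (ℓ := ℓ) hJ hN
  rcases hc with ⟨U, n, hU, h1⟩ | h1
  · exact wtan_solvable hρ (fun i => ⟨Or.inr (haltL i), hdetL i⟩) hF hU h1 X hX
  · exact wtan_small hρ hτ haltL hdetL hF h1 X hX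

/-- **Tate classes with potentially solvable or small values.** -/
theorem tate_core (hJ : ∀ i, (J i)ᵀ = -J i) (hdet : ∀ i, (J i).det ≠ 0)
    (hN : ∀ i, 0 < N i) (hρ : ∀ i, Continuous (ρ i)) (hτ : Continuous τ) (hκ : Continuous κ)
    (hsim : ∀ i g, Sim (JL J ℓ i) (ρ i g) (κ g ^ w i))
    (hfull : ∀ X, (∀ i, SpLie (JL J ℓ i) (X i)) → WTanL ρ τ X) {m : ℕ} (a : Fin m → ι) :
    (∀ i, Odd (Nat.card {t // a t = i}) → ∀ T, IsTateW ρ τ a T → T = 0) ∧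
    (∀ j, ∑ t, w (a t) = 2 * j → ∀ T : (∀ t, Fin (N (a t))) → Fin d → ℚ_[ℓ], IsTateW ρ τ a T ↔
      T ∈ Submodule.span ℚ_[ℓ] {T' | ∃ (T₀ : (∀ t, Fin (N (a t))) → ℚ) (x : Fin d → ℚ_[ℓ]),
        Killed J a T₀ ∧ IsTateV τ κ j x ∧ T' = fun r => (T₀ r : ℚ_[ℓ]) • x}) := by
  have hdetL : ∀ i, (JL J ℓ i).det ≠ 0 := fun i => det_map_ne (algebraMap ℚ ℚ_[ℓ]) (hdet i)
  have haltL := alt_JL (ℓ := ℓ) hJ hN
  have hform : ∀ i, IsForm (JL J ℓ i) := fun i => ⟨Or.inr (haltL i), hdetL i⟩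
  refine ⟨fun i hi T hT => ?_, fun j hj T => ?_⟩
  · funext r
    funext b
    have h3 := coord_killed hρ hτ hfull hT b
    exact congrFun (killed_odd (hN i) (haltL i) (hdetL i) hi h3) r
  · have h3 := tateW_iff hρ hτ hform hN hκ hsim hfull hj T
    refine h3.trans ⟨fun hT => ?_, fun hT => ?_⟩
    · refine Submodule.span_le.2 ?_ hT
      rintro T' ⟨I, x, hI, hx, rfl⟩
      have h4 := (killed_span (k₀ := ℚ) (K := ℚ_[ℓ]) (J := J) (a := a)).1 hI
      induction h4 using Submodule.span_induction with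
      | mem I hI' =>
        obtain ⟨T₀, h5, rfl⟩ := hI'
        exact Submodule.subset_span ⟨T₀, x, h5, hx, rfl⟩
      | zero =>
        have h6 : tw (0 : (∀ t, Fin (N (a t))) → ℚ_[ℓ]) x = 0 := by
          funext r
          exact zero_smul _ _
        rw [h6]
        exact Submodule.zero_mem _
      | add I I' hI1 hI2 h5 h6 =>
        have h7 : tw (I + I') x = tw I x + tw I' x := by
          funext r
          exact add_smul _ _ _
        rw [h7]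
        exact Submodule.add_mem _ (h5 (killed_span.2 hI1)) (h6 (killed_span.2 hI2))
      | smul c I hI1 h5 =>
        have h7 : tw (c • I) x = c • tw I x := by
          funext r
          exact smul_assoc c (I r) x
        rw [h7]
        exact Submodule.smul_mem _ c (h5 (killed_span.2 hI1))
    · refine Submodule.span_mono ?_ hT
      rintro T' ⟨T₀, x, h5, hx, rfl⟩
      exact ⟨_, x, killed_up h5, hx, rfl⟩

end

section
variable {K : Type} [Field K] [NumberField K] {ι : Type} [Fintype ι] [DecidableEq ι] {N w : ι → ℕ}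

/-- full Lie algebra from the conclusion at one prime number -/
theorem jtan_of_mt {ℓ : ℕ} [Fact ℓ.Prime] {J : ∀ i, Matrix (Fin (N i)) (Fin (N i)) ℚ_[ℓ]}
    {ρ : ∀ i, GK K →* Matrix (Fin (N i)) (Fin (N i)) ℚ_[ℓ]} {κ : GK K →* ℚ_[ℓ]}
    (h : MTAt ℓ w J ρ κ) (X : ∀ i, Matrix (Fin (N i)) (Fin (N i)) ℚ_[ℓ])
    (hX : ∀ i, SpLie (J i) (X i)) : JTan ℓ ρ X := by
  obtain ⟨σ, h1, -⟩ := (h X 0).2 fun i => by
    rw [mul_zero, zero_smul]
    exact hX i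
  exact ⟨σ, h1⟩

end

end Pool.Agent.N171.TG.So
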