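import Pool.Agent.N171.TG.So4

/-!
# Open images of the kernels of potentially solvable representations
-/

set_option autoImplicit false
set_option linter.unusedSectionVars false
set_option linter.style.haveILetI false

open Matrix Polynomial Filter Topology Function
open Pool.Agent.Y142.ZO Pool.Agent.Y142.ZI Pool.Agent.Y142.ZS
open Pool.Agent.R932 Pool.Agent.R932.PO Pool.Agent.R932.PO.JO

open scoped commutatorElement

namespace Pool.Agent.N171.TG.So

section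
variable {ℓ : ℕ} [hℓ : Fact ℓ.Prime] {ι : Type} [Fintype ι] {N w : ι → ℕ} {d : ℕ}
  {G : Type} [Group G]

theorem Dr_succ_le (U : Subgroup G) (n : ℕ) : Dr U (n + 1) ≤ Dr U n := by
  show ⁅Dr U n, Dr U n⁆ ≤ Dr U n
  rw [Subgroup.commutator_le]
  intro a ha b hb
  rw [commutatorElement_def]
  exact (Dr U n).mul_mem ((Dr U n).mul_mem ((Dr U n).mul_mem ha hb) ((Dr U n).inv_mem ha))
    ((Dr U n).inv_mem hb)

variable {κ : G →* ℚ_[ℓ]} {τ : G →* Matrix (Fin d) (Fin d) ℚ_[ℓ]}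

theorem char_comm (U : Subgroup G) (n : ℕ) : ∀ σ ∈ Dr U (n + 1), κ σ = 1 := by
  have h1 : Dr U (n + 1) ≤ κ.ker := by
    show ⁅Dr U n, Dr U n⁆ ≤ κ.ker
    rw [Subgroup.commutator_le]
    intro a _ b _
    rw [MonoidHom.mem_ker, commutatorElement_def, map_mul, map_mul, map_mul, mul_right_comm (κ a),
      ← map_mul, mul_inv_cancel, map_one, one_mul, ← map_mul, mul_inv_cancel, map_one]
  exact fun σ hσ => h1 hσ

variable [TopologicalSpace G] [IsTopologicalGroup G] [CompactSpace G]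
  {ρ : ∀ i, G →* Matrix (Fin (N i)) (Fin (N i)) ℚ_[ℓ]}
  {J : ∀ i, Matrix (Fin (N i)) (Fin (N i)) ℚ_[ℓ]}

/-- **The kernel of a potentially solvable representation has an open image.** -/
theorem open_of_solvable (hρ : ∀ i, Continuous (ρ i)) (hτ : Continuous τ) (hκ : Continuous κ)
    (hJ : ∀ i, IsForm (J i)) (hsim : ∀ i g, Sim (J i) (ρ i g) (κ g ^ w i))
    (hF : ∀ X, (∀ i, SpLie (J i) (X i)) → JTan ℓ ρ X)
    {U : Subgroup G} (hU : IsOpen (U : Set G)) {n : ℕ}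
    (hsol : ∀ σ ∈ derivedSeries U n, τ (σ : G) = 1) :
    ∃ ε : ℝ, 0 < ε ∧ ∀ g : ∀ i, Matrix (Fin (N i)) (Fin (N i)) ℚ_[ℓ],
      (∀ i, (g i)ᵀ * J i * g i = J i) → (∀ i a b, ‖(g i - 1) a b‖ < ε) →
        ∃ σ, (∀ i, ρ i σ = g i) ∧ τ σ = 1 ∧ κ σ = 1 := by
  classical
  haveI : T2Space (Matrix (Fin d) (Fin d) ℚ_[ℓ]) :=
    inferInstanceAs (T2Space (Fin d → Fin d → ℚ_[ℓ]))
  let H : Subgroup G := τ.ker ⊓ κ.ker
  have hH : IsClosed (H : Set G) := by
    have h1 : (H : Set G) = {σ | τ σ = 1} ∩ {σ | κ σ = 1} := rfl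
    rw [h1]
    exact (isClosed_eq hτ continuous_const).inter (isClosed_eq hκ continuous_const)
  haveI : CompactSpace H := isCompact_iff_compactSpace.1 hH.isCompact
  have hle : Dr U (n + 1) ≤ H := by
    intro σ hσ
    refine ⟨?_, char_comm U n σ hσ⟩
    have h2 : σ ∈ (derivedSeries U n).map U.subtype := by
      rw [map_derived]
      exact Dr_succ_le U n hσ
    obtain ⟨s, hs, rfl⟩ := h2
    exact hsol s hs
  have hfull : ∀ X, (∀ i, SpLie (J i) (X i)) → JTan ℓ (fun i => (ρ i).comp H.subtype) X := by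
    intro X hX
    obtain ⟨σ, hσ⟩ := full_Dr (ρ := ρ) hJ (U := U)
      (fun Y hY => tanOn_open hρ hU (hF Y hY)) (n + 1) X hX
    exact ⟨fun m => ⟨(σ m : G), hle (σ m).2⟩, fun i => hσ i⟩
  obtain ⟨ε, hε, h3⟩ := openF (fun i => (ρ i).comp H.subtype)
    (fun i => (hρ i).comp continuous_subtype_val) J
    (fun i => (hJ i).1.elim (fun h => Or.inl h.1) Or.inr) (fun i => (hJ i).2)
    (fun g i => by
      have h4 := hsim i (g : G)
      have h5 : κ (g : G) = 1 := g.2.2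
      unfold Sim at h4
      rw [h5, one_pow, one_smul] at h4
      exact h4) hfull
  refine ⟨ε, hε, fun g hg hg1 => ?_⟩
  obtain ⟨σ, hσ⟩ := h3 g hg hg1
  exact ⟨σ, hσ, σ.2.1, σ.2.2⟩

end

end Pool.Agent.N171.TG.So
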