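import Mathlib

/-!
# Symplectic groups: transvections, and a family of similitudes
-/

set_option autoImplicit false

open Matrix

namespace Pool.Agent.N171.TG.Zd

section
variable {F : Type} [Field F] {n : ℕ}

/-- the bilinear form -/
def Bf (J : Matrix (Fin n) (Fin n) F) (x y : Fin n → F) : F := x ⬝ᵥ J *ᵥ y

theorem Bf_add_left (J : Matrix (Fin n) (Fin n) F) (x y z : Fin n → F) :
    Bf J (x + y) z = Bf J x z + Bf J y z := add_dotProduct _ _ _

theorem Bf_add_right (J : Matrix (Fin n) (Fin n) F) (x y z : Fin n → F) :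
    Bf J x (y + z) = Bf J x y + Bf J x z := by
  unfold Bf; rw [mulVec_add, dotProduct_add]

theorem Bf_sub_left (J : Matrix (Fin n) (Fin n) F) (x y z : Fin n → F) :
    Bf J (x - y) z = Bf J x z - Bf J y z := sub_dotProduct _ _ _

theorem Bf_smul_left (J : Matrix (Fin n) (Fin n) F) (c : F) (x z : Fin n → F) :
    Bf J (c • x) z = c * Bf J x z := smul_dotProduct _ _ _

theorem Bf_smul_right (J : Matrix (Fin n) (Fin n) F) (c : F) (x z : Fin n → F) :
    Bf J x (c • z) = c * Bf J x z := by
  unfold Bf; rw [mulVec_smul, dotProduct_smul]; rfl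

theorem Bf_alt {J : Matrix (Fin n) (Fin n) F} (hJ : Jᵀ = -J) (x y : Fin n → F) :
    Bf J x y = -Bf J y x := by
  unfold Bf
  rw [dotProduct_mulVec, ← mulVec_transpose, hJ, neg_mulVec, neg_dotProduct, dotProduct_comm]

theorem Bf_self (h2 : (2 : F) ≠ 0) {J : Matrix (Fin n) (Fin n) F} (hJ : Jᵀ = -J)
    (x : Fin n → F) : Bf J x x = 0 := by
  have h := Bf_alt hJ x x
  have h3 : 2 * Bf J x x = 0 := by
    rw [two_mul]
    nth_rewrite 1 [h]
    rw [neg_add_cancel]
  exact (mul_eq_zero.1 h3).resolve_left h2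

theorem Bf_iso {J s : Matrix (Fin n) (Fin n) F} (hs : sᵀ * J * s = J) (x y : Fin n → F) :
    Bf J (s *ᵥ x) (s *ᵥ y) = Bf J x y := by
  unfold Bf
  nth_rewrite 2 [← hs]
  rw [← mulVec_mulVec, ← mulVec_mulVec, dotProduct_mulVec x, vecMul_transpose]

theorem iso_of_Bf {J s : Matrix (Fin n) (Fin n) F}
    (h : ∀ x y, Bf J (s *ᵥ x) (s *ᵥ y) = Bf J x y) : sᵀ * J * s = J := by
  ext a b
  have h1 := h (Pi.single a 1) (Pi.single b 1)
  unfold Bf at h1
  have h2 : (s *ᵥ Pi.single a 1) ⬝ᵥ J *ᵥ s *ᵥ Pi.single b 1 =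
      Pi.single a 1 ⬝ᵥ (sᵀ * J * s) *ᵥ Pi.single b 1 := by
    rw [← mulVec_mulVec, ← mulVec_mulVec, dotProduct_mulVec (Pi.single a 1), vecMul_transpose]
  rw [h2] at h1
  simpa using h1

/-- the transvection -/
def tv {R : Type} [CommRing R] (J : Matrix (Fin n) (Fin n) R) (v : Fin n → R) (a : R) :
    Matrix (Fin n) (Fin n) R :=
  1 + a • vecMulVec v (v ᵥ* J)

theorem tv_map {R R' : Type} [CommRing R] [CommRing R'] (φ : R →+* R')
    (J : Matrix (Fin n) (Fin n) R) (v : Fin n → R) (a : R) :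
    (tv J v a).map φ = tv (J.map φ) (fun b => φ (v b)) (φ a) := by
  ext i j
  simp only [tv, Matrix.map_apply, Matrix.add_apply, Matrix.smul_apply, vecMulVec_apply,
    smul_eq_mul, map_add, map_mul, vecMul, dotProduct, map_sum]
  congr 1
  rw [Matrix.one_apply, Matrix.one_apply]
  split_ifs <;> simp

theorem tv_mulVec (J : Matrix (Fin n) (Fin n) F) (v : Fin n → F) (a : F) (x : Fin n → F) :
    tv J v a *ᵥ x = x + (a * Bf J v x) • v := by
  unfold tv Bf
  rw [add_mulVec, one_mulVec, smul_mulVec]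
  congr 1
  rw [mul_smul]
  congr 1
  ext i
  rw [dotProduct_mulVec]
  simp only [mulVec, vecMulVec_apply, dotProduct, Pi.smul_apply, smul_eq_mul, Finset.sum_mul]
  exact Finset.sum_congr rfl fun j _ => by ring

theorem tv_iso (h2 : (2 : F) ≠ 0) {J : Matrix (Fin n) (Fin n) F} (hJ : Jᵀ = -J)
    (v : Fin n → F) (a : F) : (tv J v a)ᵀ * J * tv J v a = J := by
  refine iso_of_Bf fun x y => ?_
  rw [tv_mulVec, tv_mulVec, Bf_add_left, Bf_add_right, Bf_add_right, Bf_smul_left, Bf_smul_right,
    Bf_smul_right, Bf_smul_left, Bf_self h2 hJ v, Bf_alt hJ x v]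
  ring

theorem tv_inv (h2 : (2 : F) ≠ 0) {J : Matrix (Fin n) (Fin n) F} (hJ : Jᵀ = -J)
    (v : Fin n → F) (a : F) : tv J v (-a) * tv J v a = 1 := by
  refine Matrix.toLin'.injective (LinearMap.ext fun x => ?_)
  rw [Matrix.toLin'_apply, Matrix.toLin'_apply, ← mulVec_mulVec, tv_mulVec, tv_mulVec, one_mulVec,
    Bf_add_right, Bf_smul_right, Bf_self h2 hJ v, mul_zero, add_zero, add_assoc, ← add_smul]
  rw [show a * Bf J v x + -a * Bf J v x = 0 by ring, zero_smul, add_zero]

theorem mul_iso {J s t : Matrix (Fin n) (Fin n) F} (hs : sᵀ * J * s = J) (ht : tᵀ * J * t = J) :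
    (s * t)ᵀ * J * (s * t) = J := by
  rw [transpose_mul]
  calc tᵀ * sᵀ * J * (s * t) = tᵀ * (sᵀ * J * s) * t := by simp only [mul_assoc]
    _ = J := by rw [hs, ht]

/-- the group is generated by the transvections -/
theorem gen (h2 : (2 : F) ≠ 0) {J : Matrix (Fin n) (Fin n) F} (hJ : Jᵀ = -J)
    (hdet : J.det ≠ 0) (S : Submonoid (Matrix (Fin n) (Fin n) F))
    (hS : ∀ v a, tv J v a ∈ S) {s : Matrix (Fin n) (Fin n) F} (hs : sᵀ * J * s = J) : s ∈ S := by
  have main : ∀ (k : ℕ) (s : Matrix (Fin n) (Fin n) F) (W : Submodule F (Fin n → F)),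
      sᵀ * J * s = J → (∀ y ∈ W, s *ᵥ y = y) → n ≤ Module.finrank F W + k → s ∈ S := by
    intro k
    induction k with
    | zero =>
      intro s W _ hW hk
      have h1 : W = ⊤ := by
        apply Submodule.eq_top_of_finrank_eq
        have h3 := Submodule.finrank_le W
        rw [Module.finrank_fin_fun] at h3 ⊢
        omega
      have h3 : s = 1 := by
        refine Matrix.toLin'.injective (LinearMap.ext fun x => ?_)
        rw [Matrix.toLin'_apply, Matrix.toLin'_apply, one_mulVec]
        exact hW x (h1 ▸ Submodule.mem_top)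
      rw [h3]
      exact S.one_mem
    | succ k ih =>
      have caseA : ∀ (s : Matrix (Fin n) (Fin n) F) (W : Submodule F (Fin n → F)),
          sᵀ * J * s = J → (∀ y ∈ W, s *ᵥ y = y) → n ≤ Module.finrank F W + (k + 1) →
          (∃ x, Bf J (s *ᵥ x) x ≠ 0) → s ∈ S := by
        intro s W hs hW hk ⟨x, hx⟩
        obtain ⟨v, hv⟩ : ∃ v, v = s *ᵥ x - x := ⟨_, rfl⟩
        have h3 : Bf J v (s *ᵥ x) = Bf J (s *ᵥ x) x := by
          rw [hv, Bf_sub_left, Bf_self h2 hJ, zero_sub, ← Bf_alt hJ]
        obtain ⟨a, ha⟩ : ∃ a, a = -(Bf J v (s *ᵥ x))⁻¹ := ⟨_, rfl⟩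
        have h4 : (tv J v a * s) *ᵥ x = x := by
          rw [← mulVec_mulVec, tv_mulVec, ha, neg_mul, inv_mul_cancel₀ (by rw [h3]; exact hx),
            neg_smul, one_smul, hv]
          abel
        have h5 : ∀ y ∈ W, (tv J v a * s) *ᵥ y = y := by
          intro y hy
          have h6 : Bf J v y = 0 := by
            rw [hv, Bf_sub_left]
            nth_rewrite 1 [← hW y hy]
            rw [Bf_iso hs, sub_self]
          rw [← mulVec_mulVec, hW y hy, tv_mulVec, h6, mul_zero, zero_smul, add_zero]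
        have h6 : x ∉ W := fun h => hx (by rw [hW x h, Bf_self h2 hJ])
        have h7 : Module.finrank F W < Module.finrank F (W ⊔ Submodule.span F {x} :
            Submodule F (Fin n → F)) := by
          apply Submodule.finrank_lt_finrank_of_lt
          refine lt_of_le_of_ne le_sup_left fun h => h6 ?_
          rw [h]
          exact Submodule.mem_sup_right (Submodule.mem_span_singleton_self x)
        have h8 := ih (tv J v a * s) (W ⊔ Submodule.span F {x})
          (mul_iso (tv_iso h2 hJ v a) hs) (fun y hy => by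
            obtain ⟨y1, hy1, y2, hy2, rfl⟩ := Submodule.mem_sup.1 hy
            obtain ⟨c, rfl⟩ := Submodule.mem_span_singleton.1 hy2
            rw [mulVec_add, h5 y1 hy1, mulVec_smul, h4]) (by omega)
        have h9 : s = tv J v (-a) * (tv J v a * s) := by
          rw [← mul_assoc, tv_inv h2 hJ, one_mul]
        rw [h9]
        exact S.mul_mem (hS v (-a)) h8
      intro s W hs hW hk
      by_cases h1 : ∃ x, Bf J (s *ᵥ x) x ≠ 0
      · exact caseA s W hs hW hk h1
      push Not at h1
      by_cases h3 : s = 1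
      · rw [h3]; exact S.one_mem
      obtain ⟨x0, hx0⟩ : ∃ x0, s *ᵥ x0 - x0 ≠ 0 := by
        by_contra hcon
        push Not at hcon
        refine h3 (Matrix.toLin'.injective (LinearMap.ext fun x => ?_))
        rw [Matrix.toLin'_apply, Matrix.toLin'_apply, one_mulVec]
        exact sub_eq_zero.1 (hcon x)
      obtain ⟨v, hv⟩ : ∃ v, v = s *ᵥ x0 - x0 := ⟨_, rfl⟩
      have hv0 : v ≠ 0 := by rw [hv]; exact hx0
      have hnd : ∃ z, Bf J v z ≠ 0 := by
        by_contra hcon
        push Not at hcon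
        apply hv0
        have h4 : v ᵥ* J = 0 := by
          ext b
          have h5 := hcon (Pi.single b 1)
          unfold Bf at h5
          rw [dotProduct_mulVec] at h5
          simpa using h5
        have h5 : (v ᵥ* J) ᵥ* J⁻¹ = v := by
          rw [vecMul_vecMul, Matrix.mul_nonsing_inv J (isUnit_iff_ne_zero.2 hdet), vecMul_one]
        rw [← h5, h4, zero_vecMul]
      -- a vector outside of two hyperplanes
      have hy : ∃ y, Bf J v (s *ᵥ y) ≠ 0 ∧ Bf J v y ≠ 0 := by
        obtain ⟨z, hz⟩ := hnd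
        by_cases h4 : Bf J v (s *ᵥ z) = 0
        · -- find `z'` with `Bf v (s z') ≠ 0`
          have hdet' : IsUnit s.det := by
            have h5 := congrArg Matrix.det hs
            rw [det_mul, det_mul, det_transpose] at h5
            refine isUnit_iff_ne_zero.2 fun h0 => hdet ?_
            rw [← h5, h0]; ring
          obtain ⟨z', hz'⟩ : ∃ z', s *ᵥ z' = z :=
            ⟨s⁻¹ *ᵥ z, by rw [mulVec_mulVec, Matrix.mul_nonsing_inv s hdet', one_mulVec]⟩
          by_cases h5 : Bf J v z' = 0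
          · refine ⟨z + z', ?_, ?_⟩
            · rw [mulVec_add, hz', Bf_add_right, h4, zero_add]; exact hz
            · rw [Bf_add_right, h5, add_zero]; exact hz
          · exact ⟨z', by rw [hz']; exact hz, h5⟩
        · exact ⟨z, h4, hz⟩
      obtain ⟨y, hy1, hy2⟩ := hy
      have h5 : ∀ y ∈ W, (tv J v 1 * s) *ᵥ y = y := by
        intro y hy
        have h6 : Bf J v y = 0 := by
          rw [hv, Bf_sub_left]
          nth_rewrite 1 [← hW y hy]
          rw [Bf_iso hs, sub_self]
        rw [← mulVec_mulVec, hW y hy, tv_mulVec, h6, mul_zero, zero_smul, add_zero]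
      have h8 := caseA (tv J v 1 * s) W (mul_iso (tv_iso h2 hJ v 1) hs) h5 hk ⟨y, by
        rw [← mulVec_mulVec, tv_mulVec, Bf_add_left, h1 y, zero_add, Bf_smul_left, one_mul]
        exact mul_ne_zero hy1 hy2⟩
      have h9 : s = tv J v (-1) * (tv J v 1 * s) := by
        rw [← mul_assoc, tv_inv h2 hJ, one_mul]
      rw [h9]
      exact S.mul_mem (hS v (-1)) h8
  exact main n s ⊥ hs (fun y hy => by
    rw [(Submodule.mem_bot F).1 hy, mulVec_zero]) (by omega)

/-- a family of similitudes with every factor -/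
theorem exists_cochar (h2 : (2 : F) ≠ 0) {J : Matrix (Fin n) (Fin n) F} (hJ : Jᵀ = -J)
    (hdet : J.det ≠ 0) : ∃ D : Matrix (Fin n) (Fin n) F, Dᵀ * J + J * D = J ∧ D * D = D := by
  -- hyperbolic families
  let P : ℕ → Prop := fun k => ∃ e f : Fin k → Fin n → F,
    (∀ i j, Bf J (e i) (e j) = 0) ∧ (∀ i j, Bf J (f i) (f j) = 0) ∧
      ∀ i j, Bf J (e i) (f j) = if i = j then 1 else 0
  have hsum_r : ∀ (k : ℕ) (x : Fin n → F) (c : Fin k → F) (u : Fin k → Fin n → F),
      Bf J x (∑ i, c i • u i) = ∑ i, c i * Bf J x (u i) := by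
    intro k x c u
    unfold Bf
    rw [mulVec_sum, dotProduct_sum]
    exact Finset.sum_congr rfl fun i _ => by rw [mulVec_smul, dotProduct_smul]; rfl
  have hsum_l : ∀ (k : ℕ) (x : Fin n → F) (c : Fin k → F) (u : Fin k → Fin n → F),
      Bf J (∑ i, c i • u i) x = ∑ i, c i * Bf J (u i) x := by
    intro k x c u
    unfold Bf
    rw [sum_dotProduct]
    exact Finset.sum_congr rfl fun i _ => by rw [smul_dotProduct]; rfl
  have hbound : ∀ k, P k → k ≤ n := by
    rintro k ⟨e, f, -, -, hef⟩
    have hli : LinearIndependent F e := by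
      rw [Fintype.linearIndependent_iff]
      intro g hg i
      have h3 := hsum_l k (f i) g e
      rw [hg] at h3
      have h4 : Bf J (0 : Fin n → F) (f i) = 0 := zero_dotProduct _
      rw [h4, Finset.sum_eq_single i] at h3
      · rw [hef, if_pos rfl, mul_one] at h3
        exact h3.symm
      · intro j _ hj
        rw [hef, if_neg hj, mul_zero]
      · intro h; exact absurd (Finset.mem_univ i) h
    have h3 := hli.fintype_card_le_finrank
    rwa [Fintype.card_fin, Module.finrank_fin_fun] at h3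
  have hP0 : P 0 := ⟨fun i => i.elim0, fun i => i.elim0, fun i => i.elim0, fun i => i.elim0,
    fun i => i.elim0⟩
  obtain ⟨k, hk, hk'⟩ : ∃ k, P k ∧ ¬ P (k + 1) := by
    by_contra hcon
    push Not at hcon
    have : ∀ k, P k := fun k => by
      induction k with
      | zero => exact hP0
      | succ k ih => exact hcon k ih
    have h3 := hbound (n + 1) (this (n + 1))
    omega
  obtain ⟨e, f, hee, hff, hef⟩ := hk
  have hfe : ∀ i j, Bf J (f i) (e j) = if i = j then -1 else 0 := by
    intro i j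
    rw [Bf_alt hJ, hef]
    by_cases h : i = j
    · subst h; simp
    · rw [if_neg (Ne.symm h), if_neg h, neg_zero]
  -- the projection
  have hproj : ∀ x : Fin n → F,
      x = (∑ i, Bf J x (f i) • e i) - ∑ i, Bf J x (e i) • f i := by
    intro x
    by_contra hx
    obtain ⟨x', hx'⟩ : ∃ x', x' = x - ((∑ i, Bf J x (f i) • e i) - ∑ i, Bf J x (e i) • f i) :=
      ⟨_, rfl⟩
    have hx0 : x' ≠ 0 := by
      rw [hx']
      exact sub_ne_zero.2 hx
    have orth : ∀ y y' : Fin n → F,
        y' = y - ((∑ i, Bf J y (f i) • e i) - ∑ i, Bf J y (e i) • f i) →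
        (∀ j, Bf J y' (e j) = 0) ∧ ∀ j, Bf J y' (f j) = 0 := by
      intro y y' hy'
      constructor
      · intro j
        rw [hy', Bf_sub_left, Bf_sub_left, hsum_l, hsum_l]
        rw [Finset.sum_eq_zero (fun i _ => by rw [hee, mul_zero]), Finset.sum_eq_single j]
        · rw [hfe, if_pos rfl]; ring
        · intro i _ hi; rw [hfe, if_neg hi, mul_zero]
        · intro h; exact absurd (Finset.mem_univ j) h
      · intro j
        rw [hy', Bf_sub_left, Bf_sub_left, hsum_l, hsum_l]
        rw [Finset.sum_eq_zero (s := Finset.univ) (f := fun i => Bf J y (e i) * Bf J (f i) (f j))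
          (fun i _ => by rw [hff, mul_zero]), Finset.sum_eq_single j]
        · rw [hef, if_pos rfl]; ring
        · intro i _ hi; rw [hef, if_neg hi, mul_zero]
        · intro h; exact absurd (Finset.mem_univ j) h
    obtain ⟨hxe, hxf⟩ := orth x x' hx'
    obtain ⟨z, hz⟩ : ∃ z, Bf J x' z ≠ 0 := by
      by_contra hcon
      push Not at hcon
      apply hx0
      have h4 : x' ᵥ* J = 0 := by
        ext b
        have h5 := hcon (Pi.single b 1)
        unfold Bf at h5
        rw [dotProduct_mulVec] at h5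
        simpa using h5
      have h5 : (x' ᵥ* J) ᵥ* J⁻¹ = x' := by
        rw [vecMul_vecMul, Matrix.mul_nonsing_inv J (isUnit_iff_ne_zero.2 hdet), vecMul_one]
      rw [← h5, h4, zero_vecMul]
    obtain ⟨z', hz'⟩ : ∃ z', z' = z - ((∑ i, Bf J z (f i) • e i) - ∑ i, Bf J z (e i) • f i) :=
      ⟨_, rfl⟩
    obtain ⟨hze, hzf⟩ := orth z z' hz'
    have hxz : Bf J x' z' = Bf J x' z := by
      have h4 : z = z' + ((∑ i, Bf J z (f i) • e i) + ∑ i, (-Bf J z (e i)) • f i) := by
        rw [hz']
        simp only [neg_smul, Finset.sum_neg_distrib]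
        abel
      conv_rhs => rw [h4]
      rw [Bf_add_right, Bf_add_right, hsum_r, hsum_r,
        Finset.sum_eq_zero (fun i _ => by rw [hxe, mul_zero]),
        Finset.sum_eq_zero (fun i _ => by rw [hxf, mul_zero]), add_zero, add_zero]
    apply hk'
    have hz0 : Bf J x' z' ≠ 0 := by rw [hxz]; exact hz
    refine ⟨Fin.cons x' e, Fin.cons ((Bf J x' z')⁻¹ • z') f, ?_, ?_, ?_⟩
    · intro i j
      refine Fin.cases ?_ (fun i => ?_) i <;> refine Fin.cases ?_ (fun j => ?_) j
      · rw [Fin.cons_zero, Bf_self h2 hJ]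
      · rw [Fin.cons_zero, Fin.cons_succ, hxe]
      · rw [Fin.cons_zero, Fin.cons_succ, Bf_alt hJ, hxe, neg_zero]
      · rw [Fin.cons_succ, Fin.cons_succ, hee]
    · intro i j
      refine Fin.cases ?_ (fun i => ?_) i <;> refine Fin.cases ?_ (fun j => ?_) j
      · rw [Fin.cons_zero, Bf_self h2 hJ]
      · rw [Fin.cons_zero, Fin.cons_succ, Bf_smul_left, hzf, mul_zero]
      · rw [Fin.cons_zero, Fin.cons_succ, Bf_alt hJ, Bf_smul_left, hzf, mul_zero, neg_zero]
      · rw [Fin.cons_succ, Fin.cons_succ, hff]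
    · intro i j
      refine Fin.cases ?_ (fun i => ?_) i <;> refine Fin.cases ?_ (fun j => ?_) j
      · rw [Fin.cons_zero, Fin.cons_zero, Bf_smul_right, inv_mul_cancel₀ hz0, if_pos rfl]
      · rw [Fin.cons_zero, Fin.cons_succ, hxf, if_neg (Fin.succ_ne_zero j).symm]
      · rw [Fin.cons_zero, Fin.cons_succ, Bf_smul_right, Bf_alt hJ (e i) z', hze, neg_zero, mul_zero,
          if_neg (Fin.succ_ne_zero i)]
      · rw [Fin.cons_succ, Fin.cons_succ, hef]
        simp only [Fin.succ_inj]
  -- the endomorphism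
  let D : Matrix (Fin n) (Fin n) F := Matrix.of fun a b => ∑ i, e i a * Bf J (Pi.single b 1) (f i)
  have hD : ∀ x, D *ᵥ x = ∑ i, Bf J x (f i) • e i := by
    intro x
    ext a
    simp only [D, mulVec, dotProduct, Matrix.of_apply, Finset.sum_apply, Pi.smul_apply,
      smul_eq_mul]
    simp only [Finset.sum_mul]
    rw [Finset.sum_comm]
    refine Finset.sum_congr rfl fun i _ => ?_
    have h3 : Bf J x (f i) = ∑ b, x b * Bf J (Pi.single b 1) (f i) := by
      unfold Bf
      simp only [single_one_dotProduct]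
      rfl
    rw [h3, Finset.sum_mul]
    exact Finset.sum_congr rfl fun b _ => by ring
  refine ⟨D, ?_, ?_⟩
  · have h3 : ∀ x y, Bf J (D *ᵥ x) y + Bf J x (D *ᵥ y) = Bf J x y := by
      intro x y
      rw [hD, hD, hsum_l, hsum_r]
      conv_rhs => rw [hproj x, Bf_sub_left, hsum_l, hsum_l]
      rw [sub_eq_add_neg, ← Finset.sum_neg_distrib]
      congr 1
      exact Finset.sum_congr rfl fun i _ => by rw [Bf_alt hJ (f i) y]; ring
    ext a b
    have h4 := h3 (Pi.single a 1) (Pi.single b 1)
    unfold Bf at h4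
    have h5 : (D *ᵥ Pi.single a 1) ⬝ᵥ J *ᵥ Pi.single b 1 =
        Pi.single a 1 ⬝ᵥ (Dᵀ * J) *ᵥ Pi.single b 1 := by
      rw [← mulVec_mulVec, dotProduct_mulVec (Pi.single a 1), vecMul_transpose]
    rw [h5, mulVec_mulVec, ← dotProduct_add, ← add_mulVec] at h4
    simpa using h4
  · refine Matrix.toLin'.injective (LinearMap.ext fun x => ?_)
    rw [Matrix.toLin'_apply, Matrix.toLin'_apply, ← mulVec_mulVec, hD (D *ᵥ x), hD x]
    refine Finset.sum_congr rfl fun j _ => ?_
    congr 1
    rw [hsum_l, Finset.sum_eq_single j]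
    · rw [hef, if_pos rfl, mul_one]
    · intro i _ hi; rw [hef, if_neg hi, mul_zero]
    · intro h; exact absurd (Finset.mem_univ j) h

end

end Pool.Agent.N171.TG.Zd
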