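import Pool.Agent.N171.TG.So6

/-!
# Zariski closures of images with an open product of symplectic groups
-/

set_option autoImplicit false
set_option linter.unusedSectionVars false

open Matrix Filter Topology

namespace Pool.Agent.N171.TG.Zd

/-- the coordinates -/
abbrev Crd {ι : Type} (N : ι → ℕ) (d : ℕ) : Type :=
  (Σ i, Fin (N i) × Fin (N i)) ⊕ ((Fin d × Fin d) ⊕ Unit)

/-- the point with the given coordinates -/
abbrev ptZ {R : Type} {d : ℕ} (z : Matrix (Fin d) (Fin d) R) (c : R) :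
    (Fin d × Fin d) ⊕ Unit → R :=
  Sum.elim (fun p => z p.1 p.2) (fun _ => c)

/-- the point with the given coordinates -/
abbrev pt {R : Type} {ι : Type} {N : ι → ℕ} {d : ℕ}
    (g : ∀ i, Matrix (Fin (N i)) (Fin (N i)) R) (z : Matrix (Fin d) (Fin d) R) (c : R) :
    Crd N d → R :=
  Sum.elim (fun p => g p.1 p.2.1 p.2.2) (ptZ z c)

/-- the points of the Zariski closure -/
def InCl {k E C Γ : Type} [Field k] [Field E] [Algebra k E] (A : Γ → C → k) (x : C → E) : Prop :=
  ∀ f : MvPolynomial C k, (∀ σ, MvPolynomial.eval (A σ) f = 0) → MvPolynomial.aeval x f = 0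

section
variable {k : Type} [Field k] {ι : Type} {N : ι → ℕ} {d : ℕ}

/-- the generic matrices -/
noncomputable def gX (k : Type) [Field k] {ι : Type} (N : ι → ℕ) (d : ℕ) (i : ι) :
    Matrix (Fin (N i)) (Fin (N i)) (MvPolynomial (Crd N d) k) :=
  Matrix.of fun a b => MvPolynomial.X (Sum.inl ⟨i, a, b⟩)

/-- the generic matrix -/
noncomputable def gZ (k : Type) [Field k] {ι : Type} (N : ι → ℕ) (d : ℕ) :
    Matrix (Fin d) (Fin d) (MvPolynomial (Crd N d) k) :=
  Matrix.of fun a b => MvPolynomial.X (Sum.inr (Sum.inl (a, b)))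

/-- the last variable -/
noncomputable def gC (k : Type) [Field k] {ι : Type} (N : ι → ℕ) (d : ℕ) :
    MvPolynomial (Crd N d) k :=
  MvPolynomial.X (Sum.inr (Sum.inr ()))

variable {E : Type} [Field E] [Algebra k E]

theorem gX_map (g : ∀ i, Matrix (Fin (N i)) (Fin (N i)) E) (z : Matrix (Fin d) (Fin d) E) (c : E)
    (i : ι) (a b : Fin (N i)) :
    MvPolynomial.aeval (R := k) (pt g z c) (gX k N d i a b) = g i a b := by
  simp [gX]

/-- translation of polynomials -/
noncomputable def trl (T : ∀ i, Matrix (Fin (N i)) (Fin (N i)) k) (f : MvPolynomial (Crd N d) k) :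
    MvPolynomial (Crd N d) k :=
  MvPolynomial.bind₁ (pt (fun i => (T i).map MvPolynomial.C * gX k N d i) (gZ k N d) (gC k N d)) f

theorem aeval_trl (T : ∀ i, Matrix (Fin (N i)) (Fin (N i)) k) (f : MvPolynomial (Crd N d) k)
    (g : ∀ i, Matrix (Fin (N i)) (Fin (N i)) E) (z : Matrix (Fin d) (Fin d) E) (c : E) :
    MvPolynomial.aeval (pt g z c) (trl T f) =
      MvPolynomial.aeval (pt (fun i => (T i).map (algebraMap k E) * g i) z c) f := by
  unfold trl
  rw [MvPolynomial.aeval_bind₁]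
  congr 2
  funext j
  rcases j with ⟨i, a, b⟩ | ⟨a, b⟩ | u
  · simp only [Sum.elim_inl, Matrix.mul_apply, map_sum, map_mul, gX_map, Matrix.map_apply]
    refine Finset.sum_congr rfl fun j _ => ?_
    congr 1
    exact MvPolynomial.aeval_C (pt g z c) (T i a j)
  · simp [gZ]
  · simp [gC]

theorem eval_eq_aeval {C : Type} (x : C → k) (f : MvPolynomial C k) :
    MvPolynomial.eval x f = MvPolynomial.aeval x f :=
  (RingHom.congr_fun (MvPolynomial.coe_aeval_eq_eval x) f).symm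

theorem InCl.self {C Γ : Type} (A : Γ → C → k) (σ : Γ) : InCl (E := k) A (A σ) := by
  intro f hf
  rw [← eval_eq_aeval]
  exact hf σ

theorem map_mulSingle [DecidableEq ι] {R R' : Type} [CommRing R] [CommRing R'] (φ : R →+* R')
    (i : ι) (T : Matrix (Fin (N i)) (Fin (N i)) R) (j : ι) :
    ((Pi.mulSingle i T : ∀ j, Matrix (Fin (N j)) (Fin (N j)) R) j).map φ =
      (Pi.mulSingle i (T.map φ) : ∀ j, Matrix (Fin (N j)) (Fin (N j)) R') j := by
  rcases eq_or_ne j i with rfl | h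
  · rw [Pi.mulSingle_eq_same, Pi.mulSingle_eq_same]
  · rw [Pi.mulSingle_eq_of_ne h, Pi.mulSingle_eq_of_ne h, Matrix.map_one _ φ.map_zero φ.map_one]

end

section
variable {ℓ : ℕ} [hℓ : Fact ℓ.Prime] {ι : Type} [Fintype ι] {N w : ι → ℕ} {d : ℕ}
  {G : Type} [Group G] {ρ : ∀ i, G →* Matrix (Fin (N i)) (Fin (N i)) ℚ_[ℓ]}
  {τ : G →* Matrix (Fin d) (Fin d) ℚ_[ℓ]} {χ : G →* ℚ_[ℓ]}
  {J : ∀ i, Matrix (Fin (N i)) (Fin (N i)) ℚ_[ℓ]} {E : Type} [Field E] [Algebra ℚ_[ℓ] E]

/-- the elements near `1` are images of elements of the kernel -/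
def OpenK (J : ∀ i, Matrix (Fin (N i)) (Fin (N i)) ℚ_[ℓ])
    (ρ : ∀ i, G →* Matrix (Fin (N i)) (Fin (N i)) ℚ_[ℓ])
    (τ : G →* Matrix (Fin d) (Fin d) ℚ_[ℓ]) (χ : G →* ℚ_[ℓ]) : Prop :=
  ∃ ε : ℝ, 0 < ε ∧ ∀ g : ∀ i, Matrix (Fin (N i)) (Fin (N i)) ℚ_[ℓ],
    (∀ i, (g i)ᵀ * J i * g i = J i) → (∀ i a b, ‖(g i - 1) a b‖ < ε) →
      ∃ σ, (∀ i, ρ i σ = g i) ∧ τ σ = 1 ∧ χ σ = 1

/-- the closure of the image -/
abbrev ClJ (ρ : ∀ i, G →* Matrix (Fin (N i)) (Fin (N i)) ℚ_[ℓ])
    (τ : G →* Matrix (Fin d) (Fin d) ℚ_[ℓ]) (χ : G →* ℚ_[ℓ])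
    (g : ∀ i, Matrix (Fin (N i)) (Fin (N i)) E) (z : Matrix (Fin d) (Fin d) E) (c : E) : Prop :=
  InCl (fun σ => pt (fun i => ρ i σ) (τ σ) (χ σ)) (pt g z c)

theorem two_ne : (2 : ℚ_[ℓ]) ≠ 0 := two_ne_zero

theorem near_tv (J₀ : Matrix (Fin d) (Fin d) ℚ_[ℓ]) {ε : ℝ} (hε : 0 < ε) :
    ∃ δ : ℝ, 0 < δ ∧ ∀ r : Option (Fin d) → ℚ_[ℓ], (∀ o, ‖r o‖ < δ) →
      ∀ a b, ‖(tv J₀ (fun b => r (some b)) (r none) - 1) a b‖ < ε := by
  have hc : Continuous fun r : Option (Fin d) → ℚ_[ℓ] =>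
      (fun a b => (tv J₀ (fun b => r (some b)) (r none) - 1) a b : Fin d → Fin d → ℚ_[ℓ]) := by
    refine continuous_pi fun a => continuous_pi fun b => ?_
    simp only [tv, add_sub_cancel_left, Matrix.smul_apply, vecMulVec_apply, smul_eq_mul, vecMul,
      dotProduct]
    fun_prop
  have h0 := Metric.continuous_iff.1 hc 0 ε hε
  obtain ⟨δ, hδ, h⟩ := h0
  refine ⟨δ, hδ, fun r hr a b => ?_⟩
  have h1 : dist r 0 < δ := by
    rw [dist_zero_right, pi_norm_lt_iff hδ]
    exact hr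
  have h2 := h r h1
  have h3 : (fun a b => (tv J₀ (fun b => (0 : Option (Fin d) → ℚ_[ℓ]) (some b))
      ((0 : Option (Fin d) → ℚ_[ℓ]) none) - 1) a b : Fin d → Fin d → ℚ_[ℓ]) = 0 := by
    funext a b
    simp only [tv, add_sub_cancel_left, Pi.zero_apply, zero_smul, Matrix.zero_apply]
  rw [h3, dist_zero_right] at h2
  exact ((norm_le_pi_norm _ b).trans (norm_le_pi_norm _ a)).trans_lt h2

/-- the closure is stable under the transvections -/
theorem stab_tv [DecidableEq ι] (hJ : ∀ i, (J i)ᵀ = -J i) (hO : OpenK J ρ τ χ)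
    {g : ∀ i, Matrix (Fin (N i)) (Fin (N i)) E} {z : Matrix (Fin d) (Fin d) E} {c : E}
    (hx : ClJ ρ τ χ g z c) (i : ι) (v : Fin (N i) → E) (a : E) :
    ClJ ρ τ χ (fun j => (Pi.mulSingle i (tv ((J i).map (algebraMap ℚ_[ℓ] E)) v a) :
      ∀ j, Matrix (Fin (N j)) (Fin (N j)) E) j * g j) z c := by
  obtain ⟨ε, hε, hO⟩ := hO
  intro f hf
  obtain ⟨δ, hδ, hnear⟩ := near_tv (J i) hε
  -- the polynomial in the coordinates of the transvection
  let R' := MvPolynomial (Option (Fin (N i))) E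
  let Tg : Matrix (Fin (N i)) (Fin (N i)) R' :=
    tv ((J i).map (algebraMap ℚ_[ℓ] R')) (fun b => MvPolynomial.X (some b)) (MvPolynomial.X none)
  let p : Crd N d → R' := pt (fun j => (Pi.mulSingle i Tg :
      ∀ j, Matrix (Fin (N j)) (Fin (N j)) R') j * (g j).map MvPolynomial.C)
    (z.map MvPolynomial.C) (MvPolynomial.C c)
  let Ψ : R' := MvPolynomial.aeval p f
  have hev : ∀ r : Option (Fin (N i)) → E, MvPolynomial.eval r Ψ =
      MvPolynomial.aeval (pt (fun j => (Pi.mulSingle i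
        (tv ((J i).map (algebraMap ℚ_[ℓ] E)) (fun b => r (some b)) (r none)) :
        ∀ j, Matrix (Fin (N j)) (Fin (N j)) E) j * g j) z c) f := by
    intro r
    let φ : R' →ₐ[ℚ_[ℓ]] E := (MvPolynomial.aeval r : R' →ₐ[E] E).restrictScalars ℚ_[ℓ]
    have h1 : MvPolynomial.eval r Ψ = φ Ψ := by
      rw [eval_eq_aeval]
      rfl
    rw [h1]
    show φ (MvPolynomial.aeval p f) = _
    rw [MvPolynomial.comp_aeval_apply]
    congr 2
    have hC : ∀ y : E, φ (MvPolynomial.C y) = y := fun y => by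
      show MvPolynomial.aeval r (MvPolynomial.C y) = y
      simp
    have hX : ∀ o, φ (MvPolynomial.X o) = r o := fun o => by
      show MvPolynomial.aeval r (MvPolynomial.X o) = r o
      simp
    funext q
    rcases q with ⟨j, a, b⟩ | ⟨a, b⟩ | u
    · show φ (((Pi.mulSingle i Tg : ∀ j, Matrix (Fin (N j)) (Fin (N j)) R') j *
        (g j).map MvPolynomial.C : Matrix (Fin (N j)) (Fin (N j)) R') a b) = _
      have h2 : ((Pi.mulSingle i Tg : ∀ j, Matrix (Fin (N j)) (Fin (N j)) R') j *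
          (g j).map MvPolynomial.C).map (φ : R' →+* E) =
          (Pi.mulSingle i (tv ((J i).map (algebraMap ℚ_[ℓ] E)) (fun b => r (some b)) (r none)) :
            ∀ j, Matrix (Fin (N j)) (Fin (N j)) E) j * g j := by
        rw [Matrix.map_mul, map_mulSingle, tv_map]
        have h3 : ((J i).map (algebraMap ℚ_[ℓ] R')).map (φ : R' →+* E) =
            (J i).map (algebraMap ℚ_[ℓ] E) := by
          ext a b
          exact φ.commutes _
        have h4 : ((g j).map MvPolynomial.C).map (φ : R' →+* E) = g j := by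
          ext a b
          exact hC _
        rw [h3, h4]
        congr 3
        · funext b; exact hX _
        · exact hX _
      exact congrFun (congrFun h2 a) b
    · exact hC _
    · exact hC _
  have hΨ : Ψ = 0 := by
    refine MvPolynomial.funext_set (fun _ => algebraMap ℚ_[ℓ] E '' {r | ‖r‖ < δ}) (fun _ => ?_)
      fun y hy => ?_
    · refine Set.Infinite.image (algebraMap ℚ_[ℓ] E).injective.injOn ?_
      have h1 : {r : ℚ_[ℓ] | ‖r‖ < δ} = Metric.ball 0 δ := by
        ext r; simp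
      rw [h1]
      exact infinite_of_mem_nhds (0 : ℚ_[ℓ]) (Metric.ball_mem_nhds 0 hδ)
    · have h1 : ∀ o, ∃ r : ℚ_[ℓ], ‖r‖ < δ ∧ algebraMap ℚ_[ℓ] E r = y o := fun o => hy o trivial
      choose r hr hry using h1
      obtain ⟨T, hT⟩ : ∃ T : ∀ j, Matrix (Fin (N j)) (Fin (N j)) ℚ_[ℓ], T =
        Pi.mulSingle i (tv (J i) (fun b => r (some b)) (r none)) := ⟨_, rfl⟩
      have hT1 : ∀ j, (T j)ᵀ * J j * T j = J j := by
        intro j
        rw [hT]
        rcases eq_or_ne j i with rfl | h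
        · rw [Pi.mulSingle_eq_same]
          exact tv_iso two_ne (hJ j) _ _
        · rw [Pi.mulSingle_eq_of_ne h, transpose_one, one_mul, mul_one]
      have hT2 : ∀ j a b, ‖(T j - 1) a b‖ < ε := by
        intro j
        rw [hT]
        rcases eq_or_ne j i with rfl | h
        · rw [Pi.mulSingle_eq_same]
          exact hnear r hr
        · intro a b
          rw [Pi.mulSingle_eq_of_ne h, sub_self, Matrix.zero_apply, norm_zero]
          exact hε
      obtain ⟨σ', h2, h3, h4⟩ := hO T hT1 hT2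
      have h5 := hx (trl T f) fun σ => by
        rw [eval_eq_aeval, aeval_trl]
        have h6 : MvPolynomial.aeval (pt (fun i => ρ i (σ' * σ)) (τ (σ' * σ)) (χ (σ' * σ))) f =
            0 := by
          rw [← eval_eq_aeval]
          exact hf (σ' * σ)
        have h7 : (fun j => (T j).map (algebraMap ℚ_[ℓ] ℚ_[ℓ]) * ρ j σ) = fun j => ρ j (σ' * σ) := by
          funext j
          rw [map_mul, h2]
          congr 1
        rw [h7]
        rw [map_mul τ, map_mul χ, h3, h4, one_mul, one_mul] at h6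
        exact h6
      rw [aeval_trl] at h5
      rw [hev, map_zero, ← h5]
      congr 4
      funext j
      rw [hT, map_mulSingle, tv_map]
      congr 3
      · funext b; exact (hry _).symm
      · exact (hry _).symm
  have h1 := hev (fun o => match o with | none => a | some b => v b)
  rw [hΨ, map_zero] at h1
  exact h1.symm

/-- **The closure is stable under the symplectic groups.** -/
theorem stab_sp (hJ : ∀ i, (J i)ᵀ = -J i) (hdet : ∀ i, (J i).det ≠ 0) (hO : OpenK J ρ τ χ)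
    {T : ∀ i, Matrix (Fin (N i)) (Fin (N i)) E}
    (hT : ∀ i, (T i)ᵀ * (J i).map (algebraMap ℚ_[ℓ] E) * T i = (J i).map (algebraMap ℚ_[ℓ] E))
    {g : ∀ i, Matrix (Fin (N i)) (Fin (N i)) E} {z : Matrix (Fin d) (Fin d) E} {c : E}
    (hx : ClJ ρ τ χ g z c) : ClJ ρ τ χ (fun j => T j * g j) z c := by
  classical
  let S : Submonoid (∀ i, Matrix (Fin (N i)) (Fin (N i)) E) :=
    { carrier := {T | ∀ g : (∀ i, Matrix (Fin (N i)) (Fin (N i)) E), ClJ ρ τ χ g z c →
        ClJ ρ τ χ (fun j => T j * g j) z c}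
      mul_mem' := fun {A B} hA hB g hg => by
        have h1 := hA _ (hB g hg)
        simpa only [Pi.mul_apply, mul_assoc] using h1
      one_mem' := fun g hg => by
        simpa only [Pi.one_apply, one_mul] using hg }
  have h2 : (2 : E) ≠ 0 := by
    have h3 : algebraMap ℚ_[ℓ] E 2 ≠ 0 := fun h =>
      two_ne (ℓ := ℓ) ((algebraMap ℚ_[ℓ] E).injective (by rw [h, map_zero]))
    rwa [map_ofNat] at h3
  have hmem : T ∈ S := by
    refine Submonoid.pi_mem_of_mulSingle_mem T fun i => ?_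
    have h3 := gen h2 (J := (J i).map (algebraMap ℚ_[ℓ] E))
      (by rw [← transpose_map, hJ i]; ext a b; simp)
      (by
        have h4 : ((J i).map (algebraMap ℚ_[ℓ] E)).det = algebraMap ℚ_[ℓ] E (J i).det :=
          (RingHom.map_det _ _).symm
        rw [h4]
        exact fun h => hdet i ((algebraMap ℚ_[ℓ] E).injective (by rw [h, map_zero])))
      (S.comap (MonoidHom.mulSingle (fun i => Matrix (Fin (N i)) (Fin (N i)) E) i))
      (fun v a => fun g hg => stab_tv hJ hO hg i v a) (hT i)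
    exact h3
  exact hmem g hx

/-- **The closure of the image is the fibre product.** -/
theorem closure_iff (hJ : ∀ i, (J i)ᵀ = -J i) (hdet : ∀ i, (J i).det ≠ 0)
    (hO : OpenK J ρ τ χ) {u : ι → ℕ}
    (hsim : ∀ i σ, (ρ i σ)ᵀ * J i * ρ i σ = χ σ ^ u i • J i)
    {g : ∀ i, Matrix (Fin (N i)) (Fin (N i)) E} {z : Matrix (Fin d) (Fin d) E} {c : E}
    (hc : c ≠ 0) :
    ClJ ρ τ χ g z c ↔ InCl (fun σ => ptZ (τ σ) (χ σ)) (ptZ z c) ∧
      ∀ i, (g i)ᵀ * (J i).map (algebraMap ℚ_[ℓ] E) * g i =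
        c ^ u i • (J i).map (algebraMap ℚ_[ℓ] E) := by
  constructor
  · intro hx
    constructor
    · intro f hf
      have h1 := hx (MvPolynomial.rename Sum.inr f) fun σ => by
        rw [MvPolynomial.eval_rename]
        exact hf σ
      rw [MvPolynomial.aeval_rename] at h1
      exact h1
    · intro i
      ext a b
      have key : ∀ (R : Type) [Field R] [Algebra ℚ_[ℓ] R]
          (g : ∀ i, Matrix (Fin (N i)) (Fin (N i)) R) (z : Matrix (Fin d) (Fin d) R) (c : R),
          MvPolynomial.aeval (pt g z c) (((gX ℚ_[ℓ] N d i)ᵀ * (J i).map MvPolynomial.C *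
            gX ℚ_[ℓ] N d i : Matrix (Fin (N i)) (Fin (N i)) (MvPolynomial (Crd N d) ℚ_[ℓ])) a b -
            (gC ℚ_[ℓ] N d ^ u i • (J i).map MvPolynomial.C :
            Matrix (Fin (N i)) (Fin (N i)) (MvPolynomial (Crd N d) ℚ_[ℓ])) a b) =
          ((g i)ᵀ * (J i).map (algebraMap ℚ_[ℓ] R) * g i) a b -
            (c ^ u i • (J i).map (algebraMap ℚ_[ℓ] R)) a b := by
        intro R _ _ g z c
        simp only [map_sub, Matrix.mul_apply, map_sum, map_mul, gX_map, Matrix.map_apply,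
          Matrix.smul_apply, smul_eq_mul, transpose_apply, map_pow, MvPolynomial.aeval_C]
        congr 2
        simp [gC]
      have h1 := hx _ fun σ => by
        rw [eval_eq_aeval, key, ← Matrix.sub_apply]
        have h2 : ((J i).map (algebraMap ℚ_[ℓ] ℚ_[ℓ])) = J i := by ext; rfl
        rw [h2, hsim i σ, sub_self, Matrix.zero_apply]
      rw [key] at h1
      exact sub_eq_zero.1 h1
  · rintro ⟨hz, hg⟩
    have hD := fun i => exists_cochar two_ne (hJ i) (hdet i)
    choose D hD1 hD2 using hD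
    have hsim0 : ∀ (R : Type) [Field R] [Algebra ℚ_[ℓ] R] (c : R) (i : ι),
        (1 + (c ^ u i - 1) • (D i).map (algebraMap ℚ_[ℓ] R))ᵀ * (J i).map (algebraMap ℚ_[ℓ] R) *
          (1 + (c ^ u i - 1) • (D i).map (algebraMap ℚ_[ℓ] R)) =
        c ^ u i • (J i).map (algebraMap ℚ_[ℓ] R) := by
      intro R _ _ c i
      obtain ⟨D', hD'⟩ : ∃ D', D' = (D i).map (algebraMap ℚ_[ℓ] R) := ⟨_, rfl⟩
      obtain ⟨J', hJ'⟩ : ∃ J', J' = (J i).map (algebraMap ℚ_[ℓ] R) := ⟨_, rfl⟩
      have h1 : D'ᵀ * J' + J' * D' = J' := by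
        have h2 := congrArg (fun M => M.map (algebraMap ℚ_[ℓ] R)) (hD1 i)
        rw [Matrix.map_add _ (map_add _), Matrix.map_mul, Matrix.map_mul, transpose_map,
          ← hD', ← hJ'] at h2
        exact h2
      have h2 : D' * D' = D' := by
        have h3 := congrArg (fun M => M.map (algebraMap ℚ_[ℓ] R)) (hD2 i)
        rw [Matrix.map_mul, ← hD'] at h3
        exact h3
      have h3 : D'ᵀ * J' * D' = 0 := by
        have h4 : D'ᵀ * J' = J' - J' * D' := eq_sub_of_add_eq h1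
        rw [h4, sub_mul, mul_assoc, h2, sub_self]
      rw [← hD', ← hJ', transpose_add, transpose_one, transpose_smul]
      have h4 : (1 + (c ^ u i - 1) • D'ᵀ) * J' * (1 + (c ^ u i - 1) • D') =
          J' + (c ^ u i - 1) • (D'ᵀ * J' + J' * D') +
            ((c ^ u i - 1) * (c ^ u i - 1)) • (D'ᵀ * J' * D') := by
        simp only [add_mul, mul_add, one_mul, mul_one, smul_mul_assoc, mul_smul_comm, smul_add,
          smul_smul]
        abel
      rw [h4, h3, h1, smul_zero, add_zero, sub_smul, one_smul]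
      abel
    -- the section
    have hsec : ClJ ρ τ χ (fun i => 1 + (c ^ u i - 1) • (D i).map (algebraMap ℚ_[ℓ] E)) z c := by
      intro f hf
      let f0 : MvPolynomial ((Fin d × Fin d) ⊕ Unit) ℚ_[ℓ] :=
        MvPolynomial.bind₁ (pt (fun i => 1 + ((MvPolynomial.X (Sum.inr ()) :
          MvPolynomial ((Fin d × Fin d) ⊕ Unit) ℚ_[ℓ]) ^ u i - 1) • (D i).map MvPolynomial.C)
          (Matrix.of fun a b => MvPolynomial.X (Sum.inl (a, b))) (MvPolynomial.X (Sum.inr ()))) f
      have h0 : ∀ (R : Type) [Field R] [Algebra ℚ_[ℓ] R] (z : Matrix (Fin d) (Fin d) R) (c : R),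
          MvPolynomial.aeval (ptZ z c) f0 = MvPolynomial.aeval
            (pt (fun i => 1 + (c ^ u i - 1) • (D i).map (algebraMap ℚ_[ℓ] R)) z c) f := by
        intro R _ _ z c
        show MvPolynomial.aeval (ptZ z c) (MvPolynomial.bind₁ _ f) = _
        rw [MvPolynomial.aeval_bind₁]
        congr 2
        funext q
        rcases q with ⟨j, a, b⟩ | ⟨a, b⟩ | u
        · simp only [Sum.elim_inl, Matrix.add_apply, Matrix.smul_apply, Matrix.map_apply,
            smul_eq_mul, map_add, map_mul, map_sub, map_pow, map_one, MvPolynomial.aeval_X,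
            Sum.elim_inr, MvPolynomial.aeval_C]
          congr 1
          rw [Matrix.one_apply, Matrix.one_apply]
          split_ifs <;> simp
        · simp
        · simp
      have h1 := hz f0 fun σ => by
        rw [eval_eq_aeval, h0]
        have h2 : ClJ ρ τ χ (fun i => (1 + (χ σ ^ u i - 1) • (D i).map (algebraMap ℚ_[ℓ] ℚ_[ℓ])) *
            ρ i σ⁻¹ * ρ i σ) (τ σ) (χ σ) := by
          refine stab_sp (E := ℚ_[ℓ]) (T := fun i => (1 + (χ σ ^ u i - 1) •
            (D i).map (algebraMap ℚ_[ℓ] ℚ_[ℓ])) * ρ i σ⁻¹) hJ hdet hO (fun i => ?_)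
            (InCl.self (fun σ => pt (fun i => ρ i σ) (τ σ) (χ σ)) σ)
          have h3 := hsim0 ℚ_[ℓ] (χ σ) i
          have h4 : (J i).map (algebraMap ℚ_[ℓ] ℚ_[ℓ]) = J i := by ext; rfl
          rw [h4] at h3 ⊢
          rw [transpose_mul]
          have h5 : χ σ ^ u i * χ σ⁻¹ ^ u i = 1 := by
            rw [← mul_pow, ← map_mul, mul_inv_cancel, map_one, one_pow]
          calc _ = (ρ i σ⁻¹)ᵀ * ((1 + (χ σ ^ u i - 1) • (D i).map (algebraMap ℚ_[ℓ] ℚ_[ℓ]))ᵀ * J i *
                (1 + (χ σ ^ u i - 1) • (D i).map (algebraMap ℚ_[ℓ] ℚ_[ℓ]))) * ρ i σ⁻¹ := by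
                simp only [mul_assoc]
            _ = J i := by
                rw [h3, mul_smul_comm, smul_mul_assoc, hsim i σ⁻¹, smul_smul, h5, one_smul]
        have h3 := h2 f hf
        have h4 : (fun i => (1 + (χ σ ^ u i - 1) • (D i).map (algebraMap ℚ_[ℓ] ℚ_[ℓ])) *
            ρ i σ⁻¹ * ρ i σ) = fun i =>
            (1 + (χ σ ^ u i - 1) • (D i).map (algebraMap ℚ_[ℓ] ℚ_[ℓ])) := by
          funext i
          rw [mul_assoc, ← map_mul, inv_mul_cancel, map_one, mul_one]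
        rw [h4] at h3
        exact h3
      rw [h0] at h1
      exact h1
    obtain ⟨g0, hg0⟩ : ∃ g0 : ∀ i, Matrix (Fin (N i)) (Fin (N i)) E, g0 =
      fun i => 1 + (c ^ u i - 1) • (D i).map (algebraMap ℚ_[ℓ] E) := ⟨_, rfl⟩
    rw [← hg0] at hsec
    have h1 : ∀ i, (g0 i)ᵀ * (J i).map (algebraMap ℚ_[ℓ] E) * g0 i =
        c ^ u i • (J i).map (algebraMap ℚ_[ℓ] E) := fun i => by
      rw [hg0]
      exact hsim0 E c i
    have h2 : ∀ i, IsUnit (g0 i).det := by
      intro i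
      refine isUnit_iff_ne_zero.2 fun h0 => ?_
      have h3 := congrArg Matrix.det (h1 i)
      rw [det_mul, h0, mul_zero, det_smul] at h3
      have h4 : ((J i).map (algebraMap ℚ_[ℓ] E)).det = algebraMap ℚ_[ℓ] E (J i).det :=
        (RingHom.map_det _ _).symm
      rw [h4] at h3
      rcases mul_eq_zero.1 h3.symm with h5 | h5
      · exact pow_ne_zero _ (pow_ne_zero _ hc) h5
      · exact hdet i ((algebraMap ℚ_[ℓ] E).injective (by rw [h5, map_zero]))
    have h3 := stab_sp (T := fun i => g i * (g0 i)⁻¹) hJ hdet hO (fun i => by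
      have h4 : (g0 i)⁻¹ᵀ * (g0 i)ᵀ = 1 := by
        rw [← transpose_mul, Matrix.mul_nonsing_inv _ (h2 i), transpose_one]
      rw [transpose_mul]
      calc (g0 i)⁻¹ᵀ * (g i)ᵀ * (J i).map (algebraMap ℚ_[ℓ] E) * (g i * (g0 i)⁻¹)
          = (g0 i)⁻¹ᵀ * ((g i)ᵀ * (J i).map (algebraMap ℚ_[ℓ] E) * g i) * (g0 i)⁻¹ := by
            simp only [mul_assoc]
        _ = ((g0 i)⁻¹ᵀ * (g0 i)ᵀ) * (J i).map (algebraMap ℚ_[ℓ] E) * (g0 i * (g0 i)⁻¹) := by
            rw [hg i, ← h1 i]
            simp only [mul_assoc]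
        _ = (J i).map (algebraMap ℚ_[ℓ] E) := by
            rw [h4, Matrix.mul_nonsing_inv _ (h2 i), one_mul, mul_one]) hsec
    have h4 : (fun i => g i * (g0 i)⁻¹ * g0 i) = g := by
      funext i
      rw [mul_assoc, Matrix.nonsing_inv_mul _ (h2 i), mul_one]
    simp only [h4] at h3
    exact h3

end

end Pool.Agent.N171.TG.Zd
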