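import Pool.Agent.N171.TG.So5
import Pool.Agent.N171.TG.So7

/-!
# Open images of kernels
-/

set_option autoImplicit false
set_option linter.unusedSectionVars false
set_option linter.style.haveILetI false

open Matrix Polynomial Filter Topology Function
open Pool.Agent.Y142.ZO Pool.Agent.Y142.ZI Pool.Agent.Y142.ZS Pool.Agent.Y497.ZO
open Pool.Agent.R932 Pool.Agent.R932.PO Pool.Agent.R932.PO.JO
open Pool.Agent.Y884.ZI (nsub ninv isom_mul)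

open scoped commutatorElement

namespace Pool.Agent.N171.TG.So

attribute [local instance] Matrix.normedAddCommGroup Matrix.normedSpace

section
variable {ℓ : ℕ} [hℓ : Fact ℓ.Prime]

local instance ultra8 (n : ℕ) : IsUltrametricDist (Mt ℓ n) :=
  inferInstanceAs (IsUltrametricDist (Fin n → Fin n → ℚ_[ℓ]))

local instance prop8 (n : ℕ) : ProperSpace (Mt ℓ n) :=
  inferInstanceAs (ProperSpace (Fin n → Fin n → ℚ_[ℓ]))

/-- uniform approximation of the tangent vectors in a subspace -/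
theorem keyS {κ : Type} [Fintype κ] {M : κ → ℕ} {G : Type} [Group G]
    (R : ∀ o, G →* Mt ℓ (M o)) (𝔤 : Submodule ℚ_[ℓ] (∀ o, Mt ℓ (M o)))
    (hF : ∀ X ∈ 𝔤, JTan ℓ R X) :
    ∃ n0 : ℕ, ∀ n, n0 ≤ n → ∀ X ∈ 𝔤, (∀ o, ‖X o‖ ≤ 1) →
      ∃ σ : G, ∀ o, ‖R o σ - (1 + (ℓ : ℚ_[ℓ]) ^ n • X o)‖ ≤ ((ℓ : ℝ) ^ (n + 1))⁻¹ := by
  have hl : (0 : ℝ) < (ℓ : ℝ)⁻¹ := inv_pos.2 lR_pos
  have h1 : ∀ X ∈ 𝔤, ∃ n0 : ℕ, ∀ n, n0 ≤ n →
      ∃ σ : G, ∀ o, ‖((ℓ : ℚ_[ℓ]) ^ n)⁻¹ • (R o σ - 1) - X o‖ < (ℓ : ℝ)⁻¹ := by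
    intro X hX
    obtain ⟨σ, hσ⟩ := hF X hX
    have h2 : ∀ o, ∃ n0, ∀ n, n0 ≤ n →
        ‖((ℓ : ℚ_[ℓ]) ^ n)⁻¹ • (R o (σ n) - 1) - X o‖ < (ℓ : ℝ)⁻¹ := by
      intro o
      obtain ⟨n0, h3⟩ := Metric.tendsto_atTop.1 (hσ o) (ℓ : ℝ)⁻¹ hl
      refine ⟨n0, fun n hn => ?_⟩
      have h4 := h3 n hn
      rwa [dist_eq_norm] at h4
    choose m hm using h2
    exact ⟨Finset.univ.sup m, fun n hn => ⟨σ n, fun o =>
      hm o n ((Finset.le_sup (Finset.mem_univ o)).trans hn)⟩⟩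
  choose! f hf using h1
  have hc : IsCompact ((𝔤 : Set (∀ o, Mt ℓ (M o))) ∩
      Set.pi Set.univ (fun o => Metric.closedBall (0 : Mt ℓ (M o)) 1)) := by
    refine IsCompact.inter_left (isCompact_univ_pi fun o => isCompact_closedBall _ _) ?_
    exact Submodule.closed_of_finiteDimensional 𝔤
  obtain ⟨t, ht1, ht2⟩ := hc.elim_nhds_subcover
    (fun X => Set.pi Set.univ (fun o => Metric.ball (X o) (ℓ : ℝ)⁻¹))
    (fun X _ => set_pi_mem_nhds Set.finite_univ (fun i _ => Metric.ball_mem_nhds _ hl))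
  refine ⟨t.sup f, fun n hn X hX hX1 => ?_⟩
  have h2 : X ∈ ⋃ Y ∈ t, Set.pi Set.univ (fun o => Metric.ball (Y o) (ℓ : ℝ)⁻¹) := by
    refine ht2 ⟨hX, fun o _ => ?_⟩
    rw [mem_closedBall_zero_iff]
    exact hX1 o
  simp only [Set.mem_iUnion] at h2
  obtain ⟨Y, hY, hXY⟩ := h2
  obtain ⟨σ, hσ⟩ := hf Y (ht1 Y hY).1 n ((Finset.le_sup hY).trans hn)
  refine ⟨σ, fun o => ?_⟩
  have hXYi := hXY o (Set.mem_univ o)
  rw [Metric.mem_ball, dist_eq_norm] at hXYi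
  have h3 : R o σ - (1 + (ℓ : ℚ_[ℓ]) ^ n • X o) =
      (ℓ : ℚ_[ℓ]) ^ n • ((((ℓ : ℚ_[ℓ]) ^ n)⁻¹ • (R o σ - 1) - Y o) - (X o - Y o)) := by
    rw [sub_sub_sub_cancel_right, smul_sub, smul_smul,
      mul_inv_cancel₀ (pow_ne_zero _ l_ne), one_smul]
    abel
  rw [h3, norm_smul, norm_l_pow, pow_succ, mul_inv]
  refine mul_le_mul_of_nonneg_left ?_ (by positivity)
  exact (nsub _ _).trans (max_le (hσ o).le hXYi.le)

/-- one step at one component -/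
theorem step1 {N : ℕ} {G : Type} [Group G] (r : G →* Mt ℓ N) {n : ℕ} (hn : 1 ≤ n) {x X : Mt ℓ N}
    (hx : ‖x - 1‖ ≤ ((ℓ : ℝ) ^ n)⁻¹) (hX : ‖((ℓ : ℚ_[ℓ]) ^ n)⁻¹ • (x - 1) - X‖ ≤ (ℓ : ℝ)⁻¹) {σ : G}
    (hσ : ‖r σ - (1 + (ℓ : ℚ_[ℓ]) ^ n • X)‖ ≤ ((ℓ : ℝ) ^ (n + 1))⁻¹) :
    ‖r σ⁻¹ * x - 1‖ ≤ ((ℓ : ℝ) ^ (n + 1))⁻¹ := by
  have hl1 : (1 : ℝ) < ℓ := by exact_mod_cast (Fact.out : ℓ.Prime).one_lt
  have hgY : x = 1 + (ℓ : ℚ_[ℓ]) ^ n • (((ℓ : ℚ_[ℓ]) ^ n)⁻¹ • (x - 1)) := by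
    rw [smul_smul, mul_inv_cancel₀ (pow_ne_zero _ l_ne), one_smul]
    abel
  have h1 : ‖r σ - x‖ ≤ ((ℓ : ℝ) ^ (n + 1))⁻¹ := by
    have h2 : r σ - x = (r σ - (1 + (ℓ : ℚ_[ℓ]) ^ n • X)) -
        (ℓ : ℚ_[ℓ]) ^ n • (((ℓ : ℚ_[ℓ]) ^ n)⁻¹ • (x - 1) - X) := by
      conv_lhs => rw [hgY]
      rw [smul_sub ((ℓ : ℚ_[ℓ]) ^ n) (((ℓ : ℚ_[ℓ]) ^ n)⁻¹ • (x - 1)) X]
      abel
    rw [h2]
    refine (nsub _ _).trans (max_le hσ ?_)
    rw [norm_smul, norm_l_pow, pow_succ, mul_inv]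
    gcongr
  have h2 : ‖r σ - 1‖ < 1 := by
    have h3 : r σ - 1 = (r σ - x) + (x - 1) := by abel
    rw [h3]
    refine (IsUltrametricDist.norm_add_le_max _ _).trans_lt (max_lt ?_ ?_)
    · refine h1.trans_lt ?_
      exact inv_lt_one_of_one_lt₀ (one_lt_pow₀ hl1 (by omega))
    · refine hx.trans_lt ?_
      exact inv_lt_one_of_one_lt₀ (one_lt_pow₀ hl1 (by omega))
  have h3 : r σ⁻¹ * r σ = 1 := by rw [← map_mul, inv_mul_cancel, map_one]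
  have h4 : r σ⁻¹ * x - 1 = -(r σ⁻¹ * (r σ - x)) := by
    rw [mul_sub, h3]
    abel
  rw [h4, norm_neg]
  calc ‖r σ⁻¹ * (r σ - x)‖ ≤ ‖r σ⁻¹‖ * ‖r σ - x‖ := nmul _ _
    _ ≤ 1 * ((ℓ : ℝ) ^ (n + 1))⁻¹ := by
      gcongr
      exact ninv h3 h2
    _ = _ := one_mul _

/-- the logarithm of a value near `1` -/
theorem log_tan {N : ℕ} {G : Type} [Group G] (r : G →* Mt ℓ N) {n : ℕ} (hn : 2 ≤ n) {σ : G}
    (hσ : ‖r σ - 1‖ ≤ ((ℓ : ℝ) ^ n)⁻¹) :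
    ∃ A : Mt ℓ N, IsTangent ℓ r A ∧ ‖A‖ ≤ 1 ∧
      ‖((ℓ : ℚ_[ℓ]) ^ n)⁻¹ • (r σ - 1) - A‖ ≤ (ℓ : ℝ)⁻¹ := by
  have hl0 : (0 : ℝ) < ℓ := lR_pos
  have hl1 : (1 : ℝ) < ℓ := by exact_mod_cast (Fact.out : ℓ.Prime).one_lt
  obtain ⟨m, rfl⟩ : ∃ m, n = m + 2 := ⟨n - 2, by omega⟩
  obtain ⟨ε, hε⟩ : ∃ ε : ℝ, ε = ((ℓ : ℝ) ^ m)⁻¹ := ⟨_, rfl⟩
  have hε1 : ε ≤ 1 := by rw [hε]; exact inv_pow_le m
  have h0 : ‖Aj (r σ) 0‖ ≤ ε := by
    refine aj_zero (r σ) (hσ.trans (le_of_eq ?_))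
    rw [hε, pow_add, mul_inv, mul_comm]
  obtain ⟨A0, hA0⟩ := exists_lim (r σ) (h0.trans hε1)
  have hb : ∀ j, ‖Aj (r σ) j‖ ≤ ε := bound (r σ) hε1 h0
  have hstep : ∀ j, ‖Aj (r σ) (j + 1) - Aj (r σ) j‖ ≤ (ℓ : ℝ)⁻¹ * ε := by
    intro j
    have h1 := step_norm (LinearMap.id : Mt ℓ N →ₗ[ℚ_[ℓ]] Mt ℓ N) (r σ) j
      (fun k hk => npow _ le_rfl ((hb j).trans hε1) k hk)
    simp only [LinearMap.id_apply] at h1
    refine h1.trans ?_
    have h2 : ((ℓ : ℝ) ^ (j + 1))⁻¹ ≤ (ℓ : ℝ)⁻¹ := by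
      have h3 : (ℓ : ℝ) ^ 1 ≤ (ℓ : ℝ) ^ (j + 1) := pow_le_pow_right₀ hl1.le (by omega)
      rw [pow_one] at h3
      gcongr
    exact mul_le_mul h2 (hb j) (norm_nonneg _) (by positivity)
  have hdiff : ∀ j, ‖Aj (r σ) 0 - Aj (r σ) j‖ ≤ (ℓ : ℝ)⁻¹ * ε := by
    intro j
    induction j with
    | zero =>
      rw [sub_self, norm_zero, hε]
      positivity
    | succ j ih =>
      have h1 : Aj (r σ) 0 - Aj (r σ) (j + 1) = (Aj (r σ) 0 - Aj (r σ) j) -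
          (Aj (r σ) (j + 1) - Aj (r σ) j) := by abel
      rw [h1]
      exact (nsub _ _).trans (max_le ih (hstep j))
  have hlim : ‖Aj (r σ) 0 - A0‖ ≤ (ℓ : ℝ)⁻¹ * ε :=
    le_of_tendsto (tendsto_const_nhds.sub hA0).norm (Eventually.of_forall hdiff)
  have hA0n : ‖A0‖ ≤ ε := le_of_tendsto hA0.norm (Eventually.of_forall hb)
  have hεl : (ℓ : ℝ) ^ m * ε = 1 := by rw [hε]; exact mul_inv_cancel₀ (by positivity)
  refine ⟨((ℓ : ℚ_[ℓ]) ^ m)⁻¹ • A0, ?_, ?_, ?_⟩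
  · exact Pool.Agent.Y708.ZO.tangent_smul r _ (aj_tangent r σ A0 hA0)
  · rw [norm_smul, norm_inv, norm_l_pow, inv_inv]
    calc (ℓ : ℝ) ^ m * ‖A0‖ ≤ (ℓ : ℝ) ^ m * ε := by gcongr
      _ = 1 := hεl
  · have h1 : ((ℓ : ℚ_[ℓ]) ^ (m + 2))⁻¹ • (r σ - 1) - ((ℓ : ℚ_[ℓ]) ^ m)⁻¹ • A0 =
        ((ℓ : ℚ_[ℓ]) ^ m)⁻¹ • (Aj (r σ) 0 - A0) := by
      unfold Aj
      rw [pow_zero, pow_one, zero_add, smul_sub ((ℓ : ℚ_[ℓ]) ^ m)⁻¹, smul_smul, pow_add, mul_inv]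
    rw [h1, norm_smul, norm_inv, norm_l_pow, inv_inv]
    calc (ℓ : ℝ) ^ m * ‖Aj (r σ) 0 - A0‖ ≤ (ℓ : ℝ) ^ m * ((ℓ : ℝ)⁻¹ * ε) := by gcongr
      _ = (ℓ : ℝ)⁻¹ * ((ℓ : ℝ) ^ m * ε) := by ring
      _ = (ℓ : ℝ)⁻¹ := by rw [hεl, mul_one]

end

section
variable {ℓ : ℕ} [hℓ : Fact ℓ.Prime] {ι : Type} [Fintype ι] {N : ι → ℕ} {d : ℕ}

local instance ultra9 (n : ℕ) : IsUltrametricDist (Mt ℓ n) :=
  inferInstanceAs (IsUltrametricDist (Fin n → Fin n → ℚ_[ℓ]))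

/-- the sizes -/
def szO (N : ι → ℕ) (d : ℕ) : Option ι → ℕ
  | none => d
  | some i => N i

/-- the family with the additional representation -/
def famO {G : Type} [Group G] (ρ : ∀ i, G →* Mt ℓ (N i)) (τ : G →* Mt ℓ d) :
    ∀ o : Option ι, G →* Mt ℓ (szO N d o)
  | none => τ
  | some i => ρ i

/-- the family of matrices -/
def vecO (X : ∀ i, Mt ℓ (N i)) (Y : Mt ℓ d) : ∀ o : Option ι, Mt ℓ (szO N d o)
  | none => Y
  | some i => X i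

/-- isometries: the kernel of `τ` has an open image -/
theorem open_isom {G : Type} [Group G] [TopologicalSpace G] [IsTopologicalGroup G]
    [CompactSpace G] {ρ : ∀ i, G →* Mt ℓ (N i)} {τ : G →* Mt ℓ d} (hρ : ∀ i, Continuous (ρ i))
    (hτ : Continuous τ) {J : ∀ i, Mt ℓ (N i)} (hJ : ∀ i, (J i)ᵀ = -J i)
    (hd : ∀ i, (J i).det ≠ 0) (hI : ∀ g i, (ρ i g)ᵀ * J i * ρ i g = J i)
    (hF : ∀ X : (∀ i, Mt ℓ (N i)), (∀ i, SpLie (J i) (X i)) →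
      JTan ℓ (famO ρ τ) (vecO X 0)) :
    ∃ ε : ℝ, 0 < ε ∧ ∀ g : (∀ i, Mt ℓ (N i)), (∀ i, (g i)ᵀ * J i * g i = J i) →
      (∀ i a b, ‖(g i - 1) a b‖ < ε) → ∃ σ, (∀ i, ρ i σ = g i) ∧ τ σ = 1 := by
  classical
  have hl1 : (1 : ℝ) < ℓ := by exact_mod_cast (Fact.out : ℓ.Prime).one_lt
  have hl0 : (0 : ℝ) < ℓ := by linarith
  have hRc : ∀ o, Continuous (famO ρ τ o) := fun o => match o with
    | none => hτ
    | some i => hρ i
  obtain ⟨𝔤, h𝔤, -, -⟩ := jlie ℓ (Option ι) (szO N d) G (famO ρ τ)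
  obtain ⟨n0, hn0⟩ := keyS (famO ρ τ) 𝔤 (fun X hX => (h𝔤 X).1 hX)
  have h0 := fun i => comp_step (J i) (Or.inr (hJ i)) (hd i)
  choose n2 hn2 using h0
  -- one step
  have hstep : ∀ n, n0 + Finset.univ.sup n2 + 2 ≤ n → ∀ (g : ∀ i, Mt ℓ (N i)) (σ₀ : G),
      (∀ i, (g i)ᵀ * J i * g i = J i) → (∀ i, ‖g i - 1‖ ≤ ((ℓ : ℝ) ^ n)⁻¹) →
      ‖τ σ₀ - 1‖ ≤ ((ℓ : ℝ) ^ n)⁻¹ →
      ∃ σ : G, (∀ i, ‖ρ i σ⁻¹ * g i - 1‖ ≤ ((ℓ : ℝ) ^ (n + 1))⁻¹) ∧
        ‖τ σ⁻¹ * τ σ₀ - 1‖ ≤ ((ℓ : ℝ) ^ (n + 1))⁻¹ := by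
    intro n hn g σ₀ hg hg1 hσ₀
    obtain ⟨A, hA, hA1, hA2⟩ := log_tan τ (by omega) hσ₀
    obtain ⟨Y, hY, hYA⟩ := jlift ℓ (Option ι) (szO N d) G (famO ρ τ) hRc none A hA
    let Yi : ∀ i, Mt ℓ (N i) := fun i => Y (some i)
    let Yn : Mt ℓ d := Y none
    have hYA' : Yn = A := hYA
    have hYs : ∀ i, SpLie (J i) (Yi i) := by
      intro i
      obtain ⟨σ, hσ⟩ := hY
      have h1 : Tendsto (fun n : ℕ => ((ℓ : ℚ_[ℓ]) ^ n)⁻¹ * ((1 : ℚ_[ℓ]) - 1)) atTop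
          (𝓝 (0 : ℚ_[ℓ])) := by
        simp only [sub_self, mul_zero]
        exact tendsto_const_nhds
      have h2 := Pool.Agent.R932.PO.HT.lie_lim (J := J i) (hσ (some i)) h1 fun m => by
        show Sim (J i) (ρ i (σ m)) 1
        unfold Sim
        rw [hI, one_smul]
      unfold SpLie
      rw [h2, zero_smul]
    have h1 : ∀ i, ∃ X : Mt ℓ (N i), SpLie (J i) X ∧ ‖X‖ ≤ 1 ∧
        ‖((ℓ : ℚ_[ℓ]) ^ n)⁻¹ • (g i - 1) - X‖ ≤ (ℓ : ℝ)⁻¹ := by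
      intro i
      refine hn2 i n ?_ (g i) (hg i) (hg1 i)
      have := Finset.le_sup (f := n2) (Finset.mem_univ i)
      omega
    choose X hX hX1 hXY using h1
    have hmem : vecO X A ∈ 𝔤 := by
      have h2 : vecO (fun i => X i - Yi i) 0 ∈ 𝔤 := (h𝔤 _).2 (hF _ fun i => by
        have h3 := hX i
        have h4 := hYs i
        unfold SpLie at *
        rw [transpose_sub, sub_mul, mul_sub]
        calc _ = ((X i)ᵀ * J i + J i * X i) - ((Yi i)ᵀ * J i + J i * Yi i) := by abel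
          _ = 0 := by rw [h3, h4, sub_zero])
      have h3 := 𝔤.add_mem h2 ((h𝔤 _).2 hY)
      have h4 : vecO (fun i => X i - Yi i) 0 + Y = vecO X A := by
        funext o
        match o with
        | none =>
          show (0 : Mt ℓ d) + Yn = A
          rw [hYA', zero_add]
        | some i =>
          show X i - Yi i + Yi i = X i
          rw [sub_add_cancel]
      rwa [h4] at h3
    obtain ⟨σ, hσ⟩ := hn0 n (by omega) (vecO X A) hmem (fun o => match o with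
      | none => hA1
      | some i => hX1 i)
    exact ⟨σ, fun i => step1 (ρ i) (by omega) (hg1 i) (hXY i) (hσ (some i)),
      step1 τ (by omega) hσ₀ hA2 (hσ none)⟩
  obtain ⟨n1, hn1⟩ : ∃ n1, n1 = n0 + Finset.univ.sup n2 + 2 := ⟨_, rfl⟩
  rw [← hn1] at hstep
  refine ⟨((ℓ : ℝ) ^ n1)⁻¹, by positivity, fun g hg hg1 => ?_⟩
  have h1 : ∀ k : ℕ, ∃ σ : G, (∀ i, ‖ρ i σ⁻¹ * g i - 1‖ ≤ ((ℓ : ℝ) ^ (n1 + k))⁻¹) ∧
      ‖τ σ⁻¹ - 1‖ ≤ ((ℓ : ℝ) ^ (n1 + k))⁻¹ := by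
    intro k
    induction k with
    | zero =>
      refine ⟨1, fun i => ?_, ?_⟩
      · rw [inv_one, map_one, one_mul, add_zero, Matrix.norm_le_iff (by positivity)]
        exact fun a b => (hg1 i a b).le
      · rw [inv_one, map_one, sub_self, norm_zero]
        positivity
    | succ k ih =>
      obtain ⟨σ, hσ, hσt⟩ := ih
      obtain ⟨s, hs, hst⟩ := hstep (n1 + k) (by omega) (fun i => ρ i σ⁻¹ * g i) σ⁻¹
        (fun i => isom_mul (hI _ i) (hg i)) hσ hσt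
      refine ⟨σ * s, fun i => ?_, ?_⟩
      · rw [_root_.mul_inv_rev, map_mul, mul_assoc]
        exact hs i
      · rw [_root_.mul_inv_rev, map_mul]
        exact hst
  let F : ℕ → Set G := fun k => {σ | (∀ i, ‖ρ i σ⁻¹ * g i - 1‖ ≤ ((ℓ : ℝ) ^ (n1 + k))⁻¹) ∧
    ‖τ σ⁻¹ - 1‖ ≤ ((ℓ : ℝ) ^ (n1 + k))⁻¹}
  have hFc : ∀ k, IsClosed (F k) := by
    intro k
    have : F k = (⋂ i, {σ : G | ‖ρ i σ⁻¹ * g i - 1‖ ≤ ((ℓ : ℝ) ^ (n1 + k))⁻¹}) ∩
        {σ : G | ‖τ σ⁻¹ - 1‖ ≤ ((ℓ : ℝ) ^ (n1 + k))⁻¹} := by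
      ext σ; simp [F]
    rw [this]
    refine IsClosed.inter (isClosed_iInter fun i => ?_) ?_
    · refine isClosed_le ?_ continuous_const
      exact ((((hρ i).comp continuous_inv).mul continuous_const).sub continuous_const).norm
    · refine isClosed_le ?_ continuous_const
      exact ((hτ.comp continuous_inv).sub continuous_const).norm
  have hne : (⋂ k, F k).Nonempty := by
    refine IsCompact.nonempty_iInter_of_sequence_nonempty_isCompact_isClosed F ?_ ?_ ?_ hFc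
    · intro k σ hσ
      have : (ℓ : ℝ) ^ (n1 + k) ≤ (ℓ : ℝ) ^ (n1 + (k + 1)) := pow_le_pow_right₀ hl1.le (by omega)
      refine ⟨fun i => (hσ.1 i).trans ?_, hσ.2.trans ?_⟩
      · gcongr
      · gcongr
    · intro k
      obtain ⟨σ, hσ⟩ := h1 k
      exact ⟨σ, hσ⟩
    · exact (hFc 0).isCompact
  obtain ⟨σ, hσ⟩ := hne
  rw [Set.mem_iInter] at hσ
  have hzero : ∀ x : ℝ, 0 ≤ x → (∀ k : ℕ, x ≤ ((ℓ : ℝ) ^ (n1 + k))⁻¹) → x = 0 := by
    intro x hx h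
    refine le_antisymm ?_ hx
    refine le_of_forall_pos_le_add fun ε hε => ?_
    obtain ⟨k, hk⟩ := pow_unbounded_of_one_lt (1 / ε) hl1
    refine (h k).trans ?_
    rw [zero_add]
    have h7 : (ℓ : ℝ) ^ k ≤ (ℓ : ℝ) ^ (n1 + k) := pow_le_pow_right₀ hl1.le (by omega)
    have h8 : (0 : ℝ) < (ℓ : ℝ) ^ (n1 + k) := by positivity
    rw [inv_le_comm₀ h8 hε]
    rw [one_div] at hk
    linarith
  refine ⟨σ, fun i => ?_, ?_⟩
  · have h5 : ρ i σ⁻¹ * g i - 1 = 0 := by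
      rw [← norm_eq_zero]
      exact hzero _ (norm_nonneg _) fun k => (hσ k).1 i
    have h6 : ρ i σ⁻¹ * g i = 1 := sub_eq_zero.1 h5
    calc ρ i σ = ρ i σ * (ρ i σ⁻¹ * g i) := by rw [h6, mul_one]
      _ = g i := by rw [← mul_assoc, ← map_mul, mul_inv_cancel, map_one, one_mul]
  · have h5 : τ σ⁻¹ - 1 = 0 := by
      rw [← norm_eq_zero]
      exact hzero _ (norm_nonneg _) fun k => (hσ k).2
    have h6 : τ σ⁻¹ = 1 := sub_eq_zero.1 h5
    calc τ σ = τ σ * τ σ⁻¹ := by rw [h6, mul_one]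
      _ = 1 := by rw [← map_mul, mul_inv_cancel, map_one]

/-- **The joint kernel has an open image if its Lie algebra is as large as possible.** -/
theorem open_of_wtan {G : Type} [Group G] [TopologicalSpace G] [IsTopologicalGroup G]
    [CompactSpace G] {ρ : ∀ i, G →* Mt ℓ (N i)} {τ : G →* Mt ℓ d} {κ : G →* ℚ_[ℓ]}
    (hρ : ∀ i, Continuous (ρ i)) (hτ : Continuous τ) (hκ : Continuous κ)
    {J : ∀ i, Mt ℓ (N i)} (hJ : ∀ i, (J i)ᵀ = -J i) (hd : ∀ i, (J i).det ≠ 0) {w : ι → ℕ}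
    (hsim : ∀ i g, Sim (J i) (ρ i g) (κ g ^ w i))
    (hF : ∀ X : (∀ i, Mt ℓ (N i)), (∀ i, SpLie (J i) (X i)) → WTanL ρ τ X) :
    Zd.OpenK J ρ τ κ := by
  classical
  let H : Subgroup G := κ.ker
  have hH : IsClosed (H : Set G) := by
    have h1 : (H : Set G) = {σ | κ σ = 1} := rfl
    rw [h1]
    exact isClosed_eq hκ continuous_const
  haveI : CompactSpace H := isCompact_iff_compactSpace.1 hH.isCompact
  have hle : ⁅(⊤ : Subgroup G), ⊤⁆ ≤ H := by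
    rw [Subgroup.commutator_le]
    intro a _ b _
    rw [MonoidHom.mem_ker, commutatorElement_def, map_mul, map_mul, map_mul, mul_right_comm (κ a),
      ← map_mul, mul_inv_cancel, map_one, one_mul, ← map_mul, mul_inv_cancel, map_one]
  -- tangent vectors along the kernel
  obtain ⟨𝔤, h𝔤, -, -⟩ := jlie ℓ (Option ι) (szO N d) H (fun o => (famO ρ τ o).comp H.subtype)
  have hfam : (fun o => (famO ρ τ o).comp H.subtype) =
      famO (fun i => (ρ i).comp H.subtype) (τ.comp H.subtype) := by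
    funext o
    match o with
    | none => rfl
    | some i => rfl
  have hfull : ∀ X : (∀ i, Mt ℓ (N i)), (∀ i, SpLie (J i) (X i)) →
      JTan ℓ (famO (fun i => (ρ i).comp H.subtype) (τ.comp H.subtype)) (vecO X 0) := by
    intro X hX
    rw [← hfam]
    refine (h𝔤 _).1 ?_
    let L : ∀ i, Mt ℓ (N i) →ₗ[ℚ_[ℓ]] (∀ o : Option ι, Mt ℓ (szO N d o)) := fun i =>
      { toFun := fun A => vecO (Pi.single i A) 0
        map_add' := fun A B => by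
          funext o
          match o with
          | none => exact (add_zero (0 : Mt ℓ d)).symm
          | some j =>
            show (Pi.single i (A + B) : ∀ j, Mt ℓ (N j)) j =
              (Pi.single i A : ∀ j, Mt ℓ (N j)) j + (Pi.single i B : ∀ j, Mt ℓ (N j)) j
            rw [Pi.single_add]
            rfl
        map_smul' := fun c A => by
          funext o
          match o with
          | none => exact (smul_zero c : c • (0 : Mt ℓ d) = 0).symm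
          | some j =>
            show (Pi.single i (c • A) : ∀ j, Mt ℓ (N j)) j =
              c • (Pi.single i A : ∀ j, Mt ℓ (N j)) j
            rw [Pi.single_smul]
            rfl }
    have h2 : ∀ i, L i (X i) ∈ 𝔤 := by
      intro i
      let W : Submodule ℚ_[ℓ] (Mt ℓ (N i)) := 𝔤.comap (L i)
      have h3 : X i ∈ W := by
        refine perfect ⟨Or.inr (hJ i), hd i⟩ W ?_ (hX i)
        intro A C hA hC
        show L i (A * C - C * A) ∈ 𝔤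
        have hs : ∀ D : Mt ℓ (N i), SpLie (J i) D →
            ∀ j, SpLie (J j) ((Pi.single i D : ∀ j, Mt ℓ (N j)) j) := by
          intro D hD j
          by_cases hj : j = i
          · subst hj; rw [Pi.single_eq_same]; exact hD
          · rw [Pi.single_eq_of_ne hj]; exact spLie_zero _ _
        have htop : ∀ D : Mt ℓ (N i), SpLie (J i) D →
            TanOn (famO ρ τ) (⊤ : Subgroup G) (vecO (Pi.single i D) 0) := by
          intro D hD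
          obtain ⟨σ, h5, h6⟩ := hF (Pi.single i D) (hs D hD)
          exact ⟨fun m => ⟨σ m, trivial⟩, fun o => match o with
            | none => h6
            | some j => h5 j⟩
        obtain ⟨σ, hσ⟩ := tanOn_bracket (htop A hA) (htop C hC)
        refine (h𝔤 _).2 ⟨fun m => ⟨(σ m : G), hle (σ m).2⟩, fun o => ?_⟩
        have h7 : (fun o => vecO (Pi.single i A : ∀ j, Mt ℓ (N j)) (0 : Mt ℓ d) o *
            vecO (Pi.single i C : ∀ j, Mt ℓ (N j)) (0 : Mt ℓ d) o -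
            vecO (Pi.single i C : ∀ j, Mt ℓ (N j)) (0 : Mt ℓ d) o *
            vecO (Pi.single i A : ∀ j, Mt ℓ (N j)) (0 : Mt ℓ d) o) = L i (A * C - C * A) := by
          funext o
          match o with
          | none =>
            show (0 : Mt ℓ d) * 0 - 0 * 0 = 0
            rw [mul_zero, sub_zero]
          | some j =>
            show (Pi.single i A : ∀ j, Mt ℓ (N j)) j * (Pi.single i C : ∀ j, Mt ℓ (N j)) j -
              (Pi.single i C : ∀ j, Mt ℓ (N j)) j * (Pi.single i A : ∀ j, Mt ℓ (N j)) j =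
              (Pi.single i (A * C - C * A) : ∀ j, Mt ℓ (N j)) j
            by_cases hj : j = i
            · subst hj; simp
            · simp [Pi.single_eq_of_ne hj]
        rw [← h7]
        exact hσ o
      exact h3
    have h3 : vecO X 0 = ∑ i, L i (X i) := by
      funext o
      rw [Finset.sum_apply]
      match o with
      | none =>
        show (0 : Mt ℓ d) = ∑ i, (0 : Mt ℓ d)
        rw [Finset.sum_const_zero]
      | some j =>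
        show X j = ∑ i, (Pi.single i (X i) : ∀ j, Mt ℓ (N j)) j
        rw [Finset.sum_eq_single j]
        · rw [Pi.single_eq_same]
        · intro i _ hij; rw [Pi.single_eq_of_ne hij.symm]
        · intro h; exact absurd (Finset.mem_univ j) h
    rw [h3]
    exact Submodule.sum_mem _ fun i _ => h2 i
  obtain ⟨ε, hε, h3⟩ := open_isom (ρ := fun i => (ρ i).comp H.subtype) (τ := τ.comp H.subtype)
    (fun i => (hρ i).comp continuous_subtype_val) (hτ.comp continuous_subtype_val) hJ hd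
    (fun g i => by
      have h4 := hsim i (g : G)
      have h5 : κ (g : G) = 1 := g.2
      unfold Sim at h4
      rw [h5, one_pow, one_smul] at h4
      exact h4) hfull
  refine ⟨ε, hε, fun g hg hg1 => ?_⟩
  obtain ⟨σ, hσ, hσt⟩ := h3 g hg hg1
  exact ⟨σ, hσ, hσt, σ.2⟩

end

end Pool.Agent.N171.TG.So
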