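import Pool.Agent.N171.TG.So8

/-!
# The Zariski closure of the image is a fibre product
-/

set_option autoImplicit false
set_option linter.unusedSectionVars false

open Matrix Filter Topology
open Pool.Agent.Y142.ZS

namespace Pool.Agent.N171.TG.So

section
variable {ℓ : ℕ} [hℓ : Fact ℓ.Prime] {ι : Type} [Fintype ι] {N w : ι → ℕ} {d : ℕ}
  {G : Type} [Group G] {ρ : ∀ i, G →* Matrix (Fin (N i)) (Fin (N i)) ℚ_[ℓ]}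
  {τ : G →* Matrix (Fin d) (Fin d) ℚ_[ℓ]} {κ : G →* ℚ_[ℓ]}
  {J : ∀ i, Matrix (Fin (N i)) (Fin (N i)) ℚ_[ℓ]} {E : Type} [Field E] [Algebra ℚ_[ℓ] E]

theorem isUnit_of_sim {n : ℕ} {J₀ : Matrix (Fin n) (Fin n) ℚ_[ℓ]} (hdet : J₀.det ≠ 0)
    {g : Matrix (Fin n) (Fin n) E} {c : E} (hc : c ≠ 0) {u : ℕ}
    (hg : gᵀ * J₀.map (algebraMap ℚ_[ℓ] E) * g = c ^ u • J₀.map (algebraMap ℚ_[ℓ] E)) :
    IsUnit g := by
  refine (Matrix.isUnit_iff_isUnit_det g).2 (isUnit_iff_ne_zero.2 fun h0 => ?_)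
  have h3 := congrArg Matrix.det hg
  rw [det_mul, h0, mul_zero, det_smul] at h3
  have h4 : (J₀.map (algebraMap ℚ_[ℓ] E)).det = algebraMap ℚ_[ℓ] E J₀.det :=
    (RingHom.map_det _ _).symm
  rw [h4] at h3
  rcases mul_eq_zero.1 h3.symm with h5 | h5
  · exact pow_ne_zero _ (pow_ne_zero _ hc) h5
  · exact hdet ((algebraMap ℚ_[ℓ] E).injective (by rw [h5, map_zero]))

/-- **The fibre product.** -/
theorem fibre_of_open (hJ : ∀ i, (J i)ᵀ = -J i) (hdet : ∀ i, (J i).det ≠ 0)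
    (hO : Zd.OpenK J ρ τ κ) (hsim : ∀ i g, (ρ i g)ᵀ * J i * ρ i g = κ g ^ w i • J i)
    {n : ℕ} {u : ι → ℕ} (hu : ∀ i, w i = n * u i)
    (g : ∀ i, Matrix (Fin (N i)) (Fin (N i)) E) (z : Matrix (Fin d) (Fin d) E) (c : E) :
    ((∀ i, IsUnit (g i)) ∧ IsUnit z ∧ c ≠ 0 ∧
      Zd.InCl (fun σ => Zd.pt (fun i => ρ i σ) (τ σ) (κ σ ^ n)) (Zd.pt g z c)) ↔
    (IsUnit z ∧ c ≠ 0 ∧ Zd.InCl (fun σ => Zd.ptZ (τ σ) (κ σ ^ n)) (Zd.ptZ z c)) ∧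
      ∀ i, (g i)ᵀ * (J i).map (algebraMap ℚ_[ℓ] E) * g i =
        c ^ u i • (J i).map (algebraMap ℚ_[ℓ] E) := by
  let χ : G →* ℚ_[ℓ] := (powMonoidHom n).comp κ
  have hO' : Zd.OpenK J ρ τ χ := by
    obtain ⟨ε, hε, h⟩ := hO
    refine ⟨ε, hε, fun g hg hg1 => ?_⟩
    obtain ⟨σ, h1, h2, h3⟩ := h g hg hg1
    refine ⟨σ, h1, h2, ?_⟩
    show κ σ ^ n = 1
    rw [h3, one_pow]
  have hsim' : ∀ i σ, (ρ i σ)ᵀ * J i * ρ i σ = χ σ ^ u i • J i := by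
    intro i σ
    show _ = (κ σ ^ n) ^ u i • J i
    rw [← pow_mul, ← hu i]
    exact hsim i σ
  constructor
  · rintro ⟨-, h1, h2, h3⟩
    obtain ⟨h4, h5⟩ := (Zd.closure_iff (χ := χ) hJ hdet hO' hsim' h2).1 h3
    exact ⟨⟨h1, h2, h4⟩, h5⟩
  · rintro ⟨⟨h1, h2, h3⟩, h4⟩
    exact ⟨fun i => isUnit_of_sim (hdet i) h2 (h4 i), h1, h2,
      (Zd.closure_iff (χ := χ) hJ hdet hO' hsim' h2).2 ⟨h3, h4⟩⟩

end

end Pool.Agent.N171.TG.So
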