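import Pool.Agent.Y142.ZS.Stm

/-!
# Project TG: from the image modulo two to all prime numbers (statements)
-/

set_option autoImplicit false

open Polynomial
open Pool.Agent.Y142.ZI

namespace Pool.Agent.N171.TG

/-- task CU2: an unramified full cycle over the 2-adic numbers -/
def S_CU2 : Prop := ∀ n : ℕ, 0 < n →
  ∃ R₀ : ℚ_[2][X], R₀.Monic ∧ R₀.natDegree = 2 * n ∧ R₀.comp (-X) = R₀ ∧ R₀.Separable ∧
    (∀ r : AlgebraicClosure ℚ_[2], aeval r R₀ = 0 → ‖r‖ ≤ 1) ∧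
    ∃ τ : AlgebraicClosure ℚ_[2] ≃ₐ[ℚ_[2]] AlgebraicClosure ℚ_[2],
      ∀ r s : AlgebraicClosure ℚ_[2], aeval r R₀ = 0 → aeval s R₀ = 0 → ∃ i : ℕ, (τ ^ i) r = s

end Pool.Agent.N171.TG
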