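import Pool.Agent.Y142.ZS.Top
import Pool.Agent.N171.TG.Kr2
import Pool.Agent.N999.TG.CU2

/-!
# Project TG: an unramified full cycle at the prime two, and the first two places
-/

set_option autoImplicit false
set_option linter.style.haveILetI false

open Matrix Polynomial Filter Topology NumberField IsDedekindDomain
open Pool.Agent.Y142.ZO Pool.Agent.Y142.ZI Pool.Agent.Y142.ZS

namespace Pool.Agent.N171.TG

theorem slt_cu2 {m : ℕ} {J : Matrix (Fin (2 * m + 2)) (Fin (2 * m + 2)) ℚ_[2]}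
    (hSFORM : S_SFORM) (hJ : Jᵀ = -J)
    (hdet : J.det ≠ 0) : LocalTypeS 2 (2 * m + 2) J (SCcu 2) := by
  obtain ⟨R₀, hR, hRd, hRe, hsep, hunit, τ, hτ⟩ := Pool.Agent.N999.TG.cu2 (m + 1) (Nat.succ_pos m)
  obtain ⟨T, hT, hTc⟩ := hSFORM ℚ_[2] (2 * m + 2) J R₀ hJ hdet hR (by omega) hRe
  obtain ⟨ε, hε, h⟩ := krs2 (ℓ := 2) R₀ hR hsep hunit
  refine ⟨T, ε, 2, hT, hε, fun k Q c hk₀ hk hmon hdeg hc hc1 hinv hclose => ?_⟩
  rw [hTc] at hclose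
  obtain ⟨h1, h2, φ, f1, f2, f3, f4⟩ := h k Q (by omega) hmon (by omega) hclose
  refine ⟨h1, h2, τ, fun x y hx hy => ?_⟩
  obtain ⟨r, hr, rfl⟩ := f3 x hx
  obtain ⟨s, hs, rfl⟩ := f3 y hy
  obtain ⟨i, hi⟩ := hτ r s hr hs
  refine ⟨i, ?_⟩
  rw [← f4 (τ ^ i) r hr, hi]

section
variable {K : Type} [Field K] [NumberField K] {S : Set (HeightOneSpectrum (𝓞 K))}
  {P : HeightOneSpectrum (𝓞 K) → ℚ[X]} {q : HeightOneSpectrum (𝓞 K) → ℚ}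

/-- the place with a full cycle and the split generic place, from any one prime -/
theorem start2 {m : ℕ} (hMULTI : S_MULTI) (hFROB : S_FROB) (hCHARS : S_CHARS) (hSFORM : S_SFORM)
    (hTYPCU : S_TYPCU) (hTYPG : S_TYPG) (hS : S.Finite)
    (ρ : ∀ (ℓ : ℕ) [Fact ℓ.Prime], GK K →* Matrix (Fin (2 * m + 2)) (Fin (2 * m + 2)) ℚ_[ℓ])
    (J : ∀ (ℓ : ℕ) [Fact ℓ.Prime], Matrix (Fin (2 * m + 2)) (Fin (2 * m + 2)) ℚ_[ℓ])
    (hsys : ∀ (ℓ : ℕ) [Fact ℓ.Prime], SpSys K (2 * m + 2) ℓ (ρ ℓ) (J ℓ) S P q)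
    (ℓ : ℕ) [hℓ : Fact ℓ.Prime] (hfull : FullSp ℓ (ρ ℓ) (J ℓ)) :
    ∃ v w : HeightOneSpectrum (𝓞 K), NiceP S P v ∧ GenP S P q w ∧
      (Cyc (P v) ∩ Triv (P w)).Nonempty := by
  have hlt1 : LocalTypeS ℓ (2 * m + 2) (J ℓ) (SCcu ℓ) := by
    by_cases h2 : ℓ = 2
    · subst h2
      exact slt_cu2 hSFORM (hsys 2).2.1 (hsys 2).2.2.1
    · exact slt_cu (m := m) hSFORM hTYPCU h2 (hsys ℓ).2.1 (hsys ℓ).2.2.1
  have hlt2 := slt_g (m := m) hSFORM hTYPG (hsys ℓ).2.1 (hsys ℓ).2.2.1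
  obtain ⟨v, hvS, -, -, hv⟩ := realiseS hMULTI hFROB hCHARS (Nat.succ_pos _) hS ρ J hsys Unit
    (fun _ => ℓ) (fun _ _ _ => rfl) (fun _ => hfull) (fun _ => SCcu ℓ) (fun _ => hlt1)
  obtain ⟨w, hwS, hqw, -, hw⟩ := realiseS hMULTI hFROB hCHARS (Nat.succ_pos _) hS ρ J hsys Unit
    (fun _ => ℓ) (fun _ _ _ => rfl) (fun _ => hfull) (fun _ => SCg ℓ) (fun _ => hlt2)
  obtain ⟨hvm, hvd⟩ := monic_of_sys ρ J hsys hvS
  obtain ⟨hwm, hwd⟩ := monic_of_sys ρ J hsys hwS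
  obtain ⟨hvsep, hvpow, τ, hτ⟩ := (hv ()).1
  obtain ⟨hwspl, hwsep, hwgen⟩ := (hw ()).1
  refine ⟨v, w, nice_of_p hvS hvm ℓ hvsep hvpow, gen_of_p hwS hwm hqw ℓ hwsep hwgen, ?_⟩
  obtain ⟨j⟩ := emb ℓ
  obtain ⟨σ, hσ⟩ := restrict0 ℓ j τ
  refine ⟨σ, ?_, ?_⟩
  · intro x y hx hy
    obtain ⟨i, hi⟩ := hτ (j x) (j y) (push_root ℓ j hx) (push_root ℓ j hy)
    refine ⟨i, ?_⟩
    have hpow : ∀ (k : ℕ) (z : QQ), (τ ^ k) (j z) = j ((σ ^ k) z) := by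
      intro k
      induction k with
      | zero => intro z; rfl
      | succ k ih =>
        intro z
        rw [pow_succ, pow_succ, AlgEquiv.mul_apply, AlgEquiv.mul_apply, hσ, ih]
    rw [hpow] at hi
    exact j.injective hi
  · intro x hx
    -- `j x` is in `ℚ_ℓ`
    have h1 : aeval (j x) ((P w).map (algebraMap ℚ ℚ_[ℓ])) = 0 := push_root ℓ j hx
    have h2 : ∃ a : ℚ_[ℓ], algebraMap ℚ_[ℓ] (AlgebraicClosure ℚ_[ℓ]) a = j x := by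
      have h3 : j x ∈ (((P w).map (algebraMap ℚ ℚ_[ℓ])).map
          (algebraMap ℚ_[ℓ] (AlgebraicClosure ℚ_[ℓ]))).roots := by
        rw [mem_roots ((hwm.map _).map _).ne_zero, IsRoot.def, eval_map_algebraMap]
        exact h1
      rw [hwspl.roots_map] at h3
      obtain ⟨a, -, ha⟩ := Multiset.mem_map.1 h3
      exact ⟨a, ha⟩
    obtain ⟨a, ha⟩ := h2
    apply j.injective
    rw [← hσ, ← ha, τ.commutes]

end

end Pool.Agent.N171.TG
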