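import Pool.Agent.R932.PO.All
import Pool.Agent.R932.OP.SymB
import Pool.Agent.R932.OP.OrthA
import Pool.Agent.N171.TG.Ty2
import Pool.Agent.N171.TG.Pl2

/-!
# Project TG: several symplectic systems, from any one prime (two included) to the other primes

Adapted from `Pool.Agent.R932` (OP/SymA, EV/All, PO/Top), where the prime number is different from two.
-/

set_option autoImplicit false
set_option linter.unusedSectionVars false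
set_option linter.style.haveILetI false

open Matrix Polynomial Filter Topology NumberField IsDedekindDomain
open Pool.Agent
open Pool.Agent.Y142.ZO Pool.Agent.Y142.ZI Pool.Agent.Y142.ZS
open Pool.Agent.Y142.ZD (DistPow S_BADD)
open Pool.Agent.R932.OP Pool.Agent.R932.EV Pool.Agent.R932.PO

namespace Pool.Agent.N171.TG

section
variable {K : Type} [Field K] [NumberField K] {N : ℕ} {S : Set (HeightOneSpectrum (𝓞 K))}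
  {P : HeightOneSpectrum (𝓞 K) → ℚ[X]} {q : HeightOneSpectrum (𝓞 K) → ℚ}

/-- **symplectic systems: from one prime to 100 percent of the primes** -/
theorem sym_one2 (hN : 0 < N) (hS : S.Finite)
    (ρ : ∀ (ℓ : ℕ) [Fact ℓ.Prime], GK K →* Matrix (Fin N) (Fin N) ℚ_[ℓ])
    (J : ∀ (ℓ : ℕ) [Fact ℓ.Prime], Matrix (Fin N) (Fin N) ℚ_[ℓ])
    (hsys : ∀ (ℓ : ℕ) [Fact ℓ.Prime], SpSys K N ℓ (ρ ℓ) (J ℓ) S P q)
    (ℓ₀ : ℕ) [hℓ₀ : Fact ℓ₀.Prime] (hfull : FullSp ℓ₀ (ρ ℓ₀) (J ℓ₀)) :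
    Y142.ZI.DensityZero {ℓ | ∃ _ : Fact ℓ.Prime, ¬ FullSp ℓ (ρ ℓ) (J ℓ)} := by
  obtain ⟨m, hm⟩ : ∃ m, N = 2 * m + 2 := by
    obtain ⟨k, hk⟩ := even_of_alt (hsys ℓ₀).2.1 (hsys ℓ₀).2.2.1
    exact ⟨k - 1, by omega⟩
  subst hm
  have hTAN : Y142.ZO.S_TAN := Y708.ZO.t
  have hEXP : Y142.ZO.S_EXP := Y497.ZO.exp
  have hFROB : Y142.ZO.S_FROB := Y405.ZO.t
  have hINT : Y142.ZI.S_INT := Y484.ZI.t1
  have hRES : Y142.ZI.S_RES := Y484.ZI.t2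
  have hCOMP : Y142.ZI.S_COMP := Y547.ZI.t2
  have hCHEB : Y142.ZI.S_CHEB := Y726.ZI.t1
  have hPOS : Y142.ZI.S_POS := Y726.ZI.t2 hCHEB
  have hDENS2 : Y142.ZI.S_DENS2 := Y681.ZI.t hCHEB
  have hMULTI : Y142.ZI.S_MULTI := Y537.ZI.t
  have hIRR : Y142.ZI.S_IRR := Y971.ZI.t
  have hBADD : Y142.ZD.S_BADD := Y614.ZD.t
  have hBADIRR : S_BADIRR := badirr hBADD
  have hTANS : S_TANS := Y710.ZS.t1
  have hROOT : S_ROOT := Y929.ZS.t_root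
  have hSPL : S_SPL := Y674.ZS.t
  have hCHARS : S_CHARS := Y779.ZS.t
  have hCLQ : Y142.ZI.S_CLQ := clq
  have hGEN : Y142.ZI.S_GEN := gen
  have hUNR : Y142.ZI.S_UNR := unr
  have hTYPC : Y142.ZI.S_TYPC := typc
  have hTYPS : Y142.ZI.S_TYPS := typs hCLQ hCOMP
  have hTYPT : Y142.ZI.S_TYPT := typt hCLQ hCOMP
  have hTYPU : Y142.ZI.S_TYPU := Y405.ZI.t hCLQ hCOMP
  obtain ⟨v, w, hv, hw, hne⟩ := start2 hMULTI hFROB hCHARS sform typcu typg hS ρ J hsys ℓ₀ hfull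
  exact densityS hTAN hEXP hTANS hROOT hBADIRR hPOS hIRR hSPL hMULTI hFROB hCHARS sform twist
    hTYPC hTYPS hTYPT hTYPU typg hGEN hRES hUNR hINT hDENS2 hS ρ J hsys hv hw hne

end

section
variable {K : Type} [Field K] [NumberField K] {N : ℕ} {S : Set (HeightOneSpectrum (𝓞 K))}
  {P : HeightOneSpectrum (𝓞 K) → ℚ[X]} {q : HeightOneSpectrum (𝓞 K) → ℚ}
  {Γ : Type} [Group Γ] [TopologicalSpace Γ] [IsTopologicalGroup Γ] [CompactSpace Γ]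

/-- **symplectic systems: from one prime to every prime with semisimple representation and scalar
commutants** -/
theorem sp_every2 (hN : 0 < N) (hS : S.Finite) (s : GK K →* Γ)
    (ρ : ∀ (ℓ : ℕ) [Fact ℓ.Prime], Γ →* Matrix (Fin N) (Fin N) ℚ_[ℓ])
    (J : ∀ (ℓ : ℕ) [Fact ℓ.Prime], Matrix (Fin N) (Fin N) ℚ_[ℓ])
    (hcont : ∀ (ℓ : ℕ) [Fact ℓ.Prime], Continuous (ρ ℓ))
    (hsim : ∀ (ℓ : ℕ) [Fact ℓ.Prime], ∀ g, ∃ c, Sim (J ℓ) (ρ ℓ g) c)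
    (hsys : ∀ (ℓ : ℕ) [Fact ℓ.Prime], SpSys K N ℓ ((ρ ℓ).comp s) (J ℓ) S P q)
    (ℓ₀ : ℕ) [hℓ₀ : Fact ℓ₀.Prime] (hfull : FullSp ℓ₀ ((ρ ℓ₀).comp s) (J ℓ₀))
    (ℓ : ℕ) [hℓ : Fact ℓ.Prime] (hss : SS (ρ ℓ)) (hsc : SC (ρ ℓ)) : FullSp ℓ (ρ ℓ) (J ℓ) := by
  obtain ⟨m, hm⟩ : ∃ m, N = 2 * m + 2 := by
    obtain ⟨k, hk⟩ := even_of_alt (hsys ℓ₀).2.1 (hsys ℓ₀).2.2.1
    exact ⟨k - 1, by omega⟩
  subst hm
  have hsys' : ∀ (p : ℕ) [Fact p.Prime], SpSys K (2 * m + 2) p ((ρ p).comp s) (J p)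
      (S ∪ {v : HeightOneSpectrum (𝓞 K) | (ℓ : 𝓞 K) ∈ v.asIdeal}) P q := fun p _ =>
    ⟨(hsys p).1, (hsys p).2.1, (hsys p).2.2.1, (hsys p).2.2.2.1,
      fun v hv => (hsys p).2.2.2.2 v fun h => hv (Or.inl h)⟩
  obtain ⟨-, w, -, hw, -⟩ := start2 Y537.ZI.t Y405.ZO.t Y779.ZS.t sform typcu typg
    (finite_union hS ℓ hℓ.out) (fun p _ => (ρ p).comp s) J hsys' ℓ₀ hfull
  have hwℓ : (ℓ : 𝓞 K) ∉ w.asIdeal := fun h => hw.1 (Or.inr h)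
  have hwS : w ∉ S := fun h => hw.1 (Or.inl h)
  refine full_of_genP hw ℓ s (ρ ℓ) (J ℓ) (hsys ℓ).2.1 (hsys ℓ).2.2.1 (hsim ℓ)
    (fun σ hσ => (hsys ℓ).2.2.2.2 w hwS hwℓ σ hσ) ?_
  exact fun 𝒜 h𝒜 => alg_top (ρ ℓ) (hcont ℓ) hN (strong_of_ss (ρ ℓ) hss hsc) hsc 𝒜 h𝒜

end

section
variable {K : Type} [Field K] [NumberField K] {ι : Type} [Fintype ι] [DecidableEq ι] {N : ι → ℕ}
  {S : Set (HeightOneSpectrum (𝓞 K))} {P : ι → HeightOneSpectrum (𝓞 K) → ℚ[X]}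
  {q : ι → HeightOneSpectrum (𝓞 K) → ℚ}
  {Γ : Type} [Group Γ] [TopologicalSpace Γ] [IsTopologicalGroup Γ] [CompactSpace Γ]
  {s : GK K →* Γ}

/-- **several systems: from one prime to 100 percent of the primes, and to all primes at which the
representations are semisimple with scalar commutants** -/
theorem several2 (hs : Continuous s) (hS : S.Finite)
    (ρ : ∀ (i : ι) (ℓ : ℕ) [Fact ℓ.Prime], Γ →* Matrix (Fin (N i)) (Fin (N i)) ℚ_[ℓ])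
    (J : ∀ (i : ι) (ℓ : ℕ) [Fact ℓ.Prime], Matrix (Fin (N i)) (Fin (N i)) ℚ_[ℓ])
    (hsys : ∀ (i : ι) (ℓ : ℕ) [Fact ℓ.Prime], Sys s .sym (N i) ℓ (ρ i ℓ) (J i ℓ) S (P i) (q i))
    (ℓ₀ : ℕ) [hℓ₀ : Fact ℓ₀.Prime]
    (hfull : ∀ X, (∀ i, SpLie (J i ℓ₀) (X i)) → JTan ℓ₀ (fun i => (ρ i ℓ₀).comp s) X) :
    Y142.ZI.DensityZero {ℓ | ∃ _ : Fact ℓ.Prime,
      ¬ ∀ X, (∀ i, SpLie (J i ℓ) (X i)) → JTan ℓ (fun i => (ρ i ℓ).comp s) X} ∧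
    ∀ (ℓ : ℕ) [Fact ℓ.Prime], (∀ i, SS (ρ i ℓ)) → (∀ i, SC (ρ i ℓ)) →
      ∀ X, (∀ i, SpLie (J i ℓ) (X i)) → JTan ℓ (fun i => ρ i ℓ) X := by
  have hsim : ∀ (i : ι) (ℓ : ℕ) [Fact ℓ.Prime] (g : Γ), ∃ c, Sim (J i ℓ) (ρ i ℓ g) c := by
    intro i ℓ _ g
    obtain ⟨c, hc, -⟩ := (hsys i ℓ).2.2.2.1 g
    exact ⟨c, hc⟩
  have hform : ∀ (i : ι) (ℓ : ℕ) [Fact ℓ.Prime], IsForm (J i ℓ) := fun i ℓ _ =>
    (hsys i ℓ).2.1.isForm (hsys i ℓ).2.2.1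
  have hone : ∀ i X, SpLie (J i ℓ₀) X → IsTangent ℓ₀ ((ρ i ℓ₀).comp s) X :=
    fun i X hX => one_of_joint hfull i X hX
  have hplace : ∀ (T : Set (HeightOneSpectrum (𝓞 K))), T.Finite → ∀ i, ∃ v, v ∉ T ∧ v ∉ S ∧
      IndRoot (P i v) (∏ j ∈ Finset.univ.erase i, P j v) := by
    intro T hT i
    obtain ⟨v, h1, h2, -, h3⟩ := exists_place2 hs hS ℓ₀ (fun i => ρ i ℓ₀)
      (fun i => J i ℓ₀) (fun i => hsys i ℓ₀) hfull i hT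
    exact ⟨v, h1, h2, h3⟩
  have hroot : ∀ (ℓ : ℕ) [Fact ℓ.Prime] (i : ι) (v : HeightOneSpectrum (𝓞 K)), v ∉ S →
      (ℓ : 𝓞 K) ∉ v.asIdeal → IndRoot (P i v) (∏ j ∈ Finset.univ.erase i, P j v) →
      ∃ (σ : GK K) (P' : ι → ℚ[X]) (q' : ℚ),
        (∀ j, (ρ j ℓ (s σ)).charpoly = (P' j).map (algebraMap ℚ ℚ_[ℓ])) ∧
        Sim (J i ℓ) (ρ i ℓ (s σ)) (q' : ℚ_[ℓ]) ∧
        IndRoot (P' i) (∏ j ∈ Finset.univ.erase i, P' j) := by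
    intro ℓ _ i v hvS hvℓ hind
    obtain ⟨σ, hσ⟩ := Pool.Agent.W401.Frob.exists_frob v
    exact ⟨σ⁻¹, fun j => P j v, q i v, fun j => ((hsys j ℓ).2.2.2.2 v hvS hvℓ σ hσ).1,
      ((hsys i ℓ).2.2.2.2 v hvS hvℓ σ hσ).2, hind⟩
  constructor
  · have h1 := hplace ∅ Set.finite_empty
    choose v hvT hvS hind using h1
    have h2 : Y142.ZI.DensityZero {ℓ | ∃ i, ℓ ∈ ({ℓ | ∃ _ : Fact ℓ.Prime,
        ¬ ∀ X, SpLie (J i ℓ) X → IsTangent ℓ ((ρ i ℓ).comp s) X} ∪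
        {ℓ | ℓ ≤ Ideal.absNorm (v i).asIdeal} : Set ℕ)} := by
      refine dens_iUnion fun i => ?_
      exact (sym_one2 (hsys i ℓ₀).2.1.pos hS (fun ℓ _ => (ρ i ℓ).comp s) (fun ℓ _ => J i ℓ)
        (fun ℓ _ => (hsys i ℓ).toSp hs) ℓ₀ (hone i)).union (dens_bdd fun ℓ hℓ => hℓ)
    refine h2.mono ?_
    rintro ℓ ⟨hp, hno⟩
    by_contra hcon
    apply hno
    have h3 : ∀ i, (∀ X, SpLie (J i ℓ) X → IsTangent ℓ ((ρ i ℓ).comp s) X) ∧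
        Ideal.absNorm (v i).asIdeal < ℓ := by
      intro i
      constructor
      · by_contra h4
        exact hcon ⟨i, Or.inl ⟨hp, h4⟩⟩
      · by_contra h4
        exact hcon ⟨i, Or.inr (not_lt.1 h4)⟩
    have hcont : ∀ i, Continuous ((ρ i ℓ).comp s) := fun i => (hsys i ℓ).1.comp hs
    refine joint_full jlie jlift gour (pair jlie jlift) (ρ := fun i => (ρ i ℓ).comp s) hcont
      (fun i => hform i ℓ) (fun i g => hsim i ℓ (s g)) (fun i => (h3 i).1) ?_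
    refine pair_of_root eqv (ρ := fun i => (ρ i ℓ).comp s) hcont
      (fun i => hform i ℓ) (fun i g => hsim i ℓ (s g)) (fun i => (h3 i).1) ?_
    intro i
    obtain ⟨σ, P', q', h4, h5, h6⟩ := hroot ℓ i (v i) (hvS i)
      (not_mem_of_lt (v i) hp.out (h3 i).2) (hind i)
    exact ⟨σ, P', q', h4, h5, h6⟩
  · intro ℓ hℓ hss hsc
    have h3 : ∀ i X, SpLie (J i ℓ) X → IsTangent ℓ (ρ i ℓ) X := fun i =>
      sp_every2 (hsys i ℓ₀).2.1.pos hS s (fun ℓ _ => ρ i ℓ) (fun ℓ _ => J i ℓ)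
        (fun ℓ _ => (hsys i ℓ).1) (fun ℓ _ g => hsim i ℓ g) (fun ℓ _ => (hsys i ℓ).toSp hs) ℓ₀
        (hone i) ℓ (hss i) (hsc i)
    refine joint_full jlie jlift gour (pair jlie jlift) (ρ := fun i => ρ i ℓ) (fun i => (hsys i ℓ).1)
      (fun i => hform i ℓ) (fun i g => hsim i ℓ g) h3 ?_
    refine pair_of_root eqv (ρ := fun i => ρ i ℓ) (fun i => (hsys i ℓ).1)
      (fun i => hform i ℓ) (fun i g => hsim i ℓ g) h3 ?_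
    intro i
    obtain ⟨v, hvT, hvS, hind⟩ := hplace {v : HeightOneSpectrum (𝓞 K) | (ℓ : 𝓞 K) ∈ v.asIdeal}
      (finite_above ℓ hℓ.out) i
    obtain ⟨σ, P', q', h4, h5, h6⟩ := hroot ℓ i v hvS hvT hind
    exact ⟨s σ, P', q', h4, h5, h6⟩

end

end Pool.Agent.N171.TG
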